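import Pool.Agent.T2H22.LG.I

set_option autoImplicit false
set_option linter.all false
set_option maxHeartbeats 1000000

/-!
# Powers of a fixed prime
-/

namespace Pool.Agent.T2H22.LG

open Finset Filter

lemma bothGood_eight : BothGood 8 := by
  constructor
  · refine ⟨4, 4, by norm_num, by norm_num, by norm_num, ?_, ?_⟩ <;>
    · rw [show (4 : ℕ) = 2 ^ 2 by norm_num, lam_pow 2 2 (by norm_num), lam_prime Nat.prime_two]
      norm_num
  · exact ⟨3, 5, by norm_num, by norm_num, by norm_num, lam_prime Nat.prime_three, lam_prime Nat.prime_five⟩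

theorem fixed_prime (p : ℕ) (hp : p.Prime) : ∃ k : ℕ, BothGood (p ^ k) := by
  by_cases hp2 : p = 2
  · exact ⟨3, by rw [hp2]; exact bothGood_eight⟩
  by_contra hc
  push_neg at hc
  obtain ⟨l, hl, _, hl1⟩ := Nat.exists_prime_gt_modEq_one (k := p) 1 hp.ne_zero
  have hev := real_char 1
  have f1 : ∀ᶠ N : ℕ in atTop, (l : ℝ) < Real.log N := tlog.eventually_gt_atTop _
  have f2 : ∀ᶠ N : ℕ in atTop, l ≤ ⌊(N : ℝ) ^ (1 / 2 - 1 / 200 : ℝ)⌋₊ := by
    have h1 : Tendsto (fun N : ℕ => ⌊(N : ℝ) ^ (1 / 2 - 1 / 200 : ℝ)⌋₊) atTop atTop :=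
      tendsto_nat_floor_atTop.comp ((tendsto_rpow_atTop (by norm_num)).comp tendsto_natCast_atTop_atTop)
    exact h1.eventually_ge_atTop l
  have f3 : ∀ᶠ N : ℕ in atTop, 1 < N := eventually_gt_atTop 1
  have hall := (hev.and (f1.and (f2.and f3)))
  have hpow : Tendsto (fun k : ℕ => p ^ k) atTop atTop := tendsto_pow_atTop_atTop_of_one_lt hp.one_lt
  obtain ⟨k, hk, hk1⟩ := ((hpow.eventually hall).and (eventually_ge_atTop 1)).exists
  obtain ⟨h1, h2, h3, h4⟩ := hk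
  have hN0 : p ^ k ≠ 0 := pow_ne_zero _ hp.ne_zero
  haveI : NeZero (p ^ k) := ⟨hN0⟩
  obtain ⟨χ, hχ1, hχ2, hχ3⟩ := h1 ⟨p, k, hp, hp2, rfl⟩ (hc k)
  have hlp : l.Coprime (p ^ k) := by
    apply Nat.Coprime.pow_right
    have h5 : l ≠ p := by
      intro h
      rw [h] at hl1
      unfold Nat.ModEq at hl1
      rw [Nat.mod_self, Nat.mod_eq_of_lt hp.one_lt] at hl1
      omega
    exact (Nat.coprime_primes hl hp).2 h5
  -- the value at l is one
  have hχl : χ (l : ZMod (p ^ k)) = 1 := by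
    have e1 : χ (l : ZMod (p ^ k)) * χ (l : ZMod (p ^ k)) = 1 := by
      have := DFunLike.congr_fun hχ2 (l : ZMod (p ^ k))
      rw [MulChar.pow_apply' χ (by norm_num), MulChar.one_apply (isUnit_cast hlp)] at this
      rw [← sq]; exact this
    have e2 : (l : ZMod (p ^ k)) ^ (p ^ (k - 1)) = 1 := by
      have h5 : (p : ℤ) ∣ (l : ℤ) - 1 := by
        have := (Nat.modEq_iff_dvd.1 hl1.symm)
        simpa using this
      have h6 := dvd_sub_pow_of_dvd_sub h5 (k - 1)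
      rw [one_pow, Nat.sub_add_cancel hk1] at h6
      have h7 : (((l : ℤ) ^ p ^ (k - 1) - 1 : ℤ) : ZMod (p ^ k)) = 0 := by
        rw [ZMod.intCast_zmod_eq_zero_iff_dvd]
        exact_mod_cast h6
      push_cast at h7
      exact sub_eq_zero.1 h7
    have e3 : χ (l : ZMod (p ^ k)) ^ (p ^ (k - 1)) = 1 := by
      rw [← map_pow, e2, map_one]
    rcases mul_self_eq_one_iff.1 e1 with h | h
    · exact h
    · rw [h] at e3
      have hodd : Odd (p ^ (k - 1)) := (hp.odd_of_ne_two hp2).pow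
      rw [hodd.neg_one_pow] at e3
      norm_num at e3
  have hterm : ‖χ (l : ZMod (p ^ k)) + 1‖ ^ 2 / l ≤ 1 / Real.log ((p ^ k : ℕ) : ℝ) ^ 1 := by
    refine le_trans ?_ hχ3
    apply single_le_sum (f := fun l : ℕ => ‖χ (l : ZMod (p ^ k)) + 1‖ ^ 2 / (l : ℝ))
    · intros; positivity
    · rw [mem_filter, mem_Icc]
      exact ⟨⟨hl.one_lt.le, h3⟩, hl, hlp⟩
  rw [hχl, pow_one] at hterm
  have hl0 : (0 : ℝ) < l := by exact_mod_cast hl.pos
  have e4 : ‖(1 : ℂ) + 1‖ ^ 2 = 4 := by norm_num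
  rw [e4] at hterm
  have h6 : 1 / Real.log ((p ^ k : ℕ) : ℝ) < 1 / l := one_div_lt_one_div_of_lt hl0 h2
  have h7 : (1 : ℝ) / l ≤ 4 / l := by gcongr; norm_num
  linarith

end Pool.Agent.T2H22.LG
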