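import Pool.Agent.T2H22.LG.A

set_option autoImplicit false
set_option linter.all false
set_option maxHeartbeats 1000000

/-!
# Mixed signs
-/

namespace Pool.Agent.T2H22.LG

open Finset

/-- mixed signs -/
def Mix (N : ℕ) : Prop := ∃ a b : ℕ, 0 < a ∧ 0 < b ∧ a + b = N ∧ lam a ≠ lam b

lemma Mix.of_dvd {d N : ℕ} (h : Mix d) (hd : d ∣ N) (hN : 0 < N) : Mix N := by
  obtain ⟨m, rfl⟩ := hd
  have hm : 0 < m := Nat.pos_of_ne_zero (by rintro rfl; simp at hN)
  obtain ⟨a, b, ha, hb, hab, h1⟩ := h
  refine ⟨a * m, b * m, Nat.mul_pos ha hm, Nat.mul_pos hb hm, by rw [← add_mul, hab], ?_⟩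
  rw [lam_mul ha.ne' hm.ne', lam_mul hb.ne' hm.ne']
  intro h
  apply h1
  rcases lam_or m with hl | hl <;> rw [hl] at h <;> omega

section P

variable {p : ℕ} [hpf : Fact p.Prime]

/-- the Liouville function on residues -/
noncomputable def gg (x : ZMod p) : ℤ := lam x.val

lemma gg_neg (h : ∀ a : ℕ, 0 < a → a < p → lam a = lam (p - a)) (x : ZMod p) (hx : x ≠ 0) :
    gg (-x) = gg x := by
  unfold gg
  haveI : NeZero x := ⟨hx⟩
  rw [ZMod.val_neg_of_ne_zero]
  refine (h x.val ?_ (ZMod.val_lt x)).symm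
  exact Nat.pos_of_ne_zero (fun h0 => hx ((ZMod.val_eq_zero x).mp h0))

lemma gg_nat (n : ℕ) (hn : n < p) : gg (n : ZMod p) = lam n := by
  unfold gg; rw [ZMod.val_natCast_of_lt hn]

lemma gg_mul (h : ∀ a : ℕ, 0 < a → a < p → lam a = lam (p - a)) :
    ∀ l : ℕ, 1 ≤ l → l < p → ∀ x : ZMod p, x ≠ 0 → gg ((l : ZMod p) * x) = lam l * gg x := by
  intro l
  induction l using Nat.strong_induction_on with
  | _ l ih =>
  intro hl hlp x hx
  have hp := hpf.out
  have hnz : ∀ k : ℕ, 0 < k → k < p → ((k : ℕ) : ZMod p) ≠ 0 := by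
    intro k h1 h2 h3
    have := Nat.le_of_dvd h1 ((ZMod.natCast_eq_zero_iff k p).mp h3)
    omega
  rcases Nat.eq_or_lt_of_le hl with hl1 | hl1
  · rw [← hl1]; simp [lam_one]
  by_cases hpr : l.Prime
  · -- Dirichlet approximation
    set a : ℕ := x.val with ha
    have hxa : ((a : ℕ) : ZMod p) = x := ZMod.natCast_zmod_val x
    have hap : a < p := ZMod.val_lt x
    have ha0 : 0 < a := Nat.pos_of_ne_zero (fun h0 => hx ((ZMod.val_eq_zero x).mp h0))
    have hp0 : (0 : ℝ) < p := by exact_mod_cast hp.pos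
    obtain ⟨k, hk0, hkl, hk⟩ := Real.exists_nat_abs_mul_sub_round_le ((a : ℝ) / p) (n := l - 1) (by omega)
    set j : ℤ := round ((k : ℝ) * ((a : ℝ) / p)) with hj
    set z : ℤ := (k : ℤ) * a - j * p with hz
    have hkl' : k < l := by omega
    have hl0 : (0 : ℝ) < l := by exact_mod_cast (by omega : 0 < l)
    have h1 : |(z : ℝ)| * l ≤ p := by
      have e1 : (z : ℝ) = ((k : ℝ) * ((a : ℝ) / p) - j) * p := by
        rw [hz]; push_cast; field_simp
      rw [e1, abs_mul, abs_of_pos hp0]
      have e2 : (((l - 1 : ℕ) : ℝ) + 1) = l := by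
        rw [Nat.cast_sub hl]; push_cast; ring
      rw [e2, le_div_iff₀ hl0] at hk
      nlinarith
    set w : ℕ := z.natAbs with hw
    have hwz : ((w : ℕ) : ℝ) = |(z : ℝ)| := by
      rw [hw]; exact Nat.cast_natAbs z |>.trans (by push_cast; rfl)
    have h2 : w * l ≤ p := by
      rw [← hwz] at h1
      exact_mod_cast h1
    have hk_ne : ((k : ℕ) : ZMod p) ≠ 0 := hnz k hk0 (by omega)
    have hz0 : ((z : ℤ) : ZMod p) = (k : ZMod p) * x := by
      rw [hz]; push_cast; rw [hxa]; simp
    have hz_ne : z ≠ 0 := by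
      intro h0
      rw [h0] at hz0
      have : (k : ZMod p) * x = 0 := by rw [← hz0]; simp
      rcases mul_eq_zero.mp this with h3 | h3
      · exact hk_ne h3
      · exact hx h3
    have hw0 : 0 < w := Int.natAbs_pos.mpr hz_ne
    have h3 : w * l ≠ p := by
      intro h4
      have : l ∣ p := ⟨w, by rw [← h4, mul_comm]⟩
      rcases (Nat.dvd_prime hp).mp this with h5 | h5 <;> omega
    have h4 : w * l < p := lt_of_le_of_ne h2 h3
    have hwp : w < p := lt_of_le_of_lt (Nat.le_mul_of_pos_right w (by omega)) h4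
    have hw_ne : ((w : ℕ) : ZMod p) ≠ 0 := hnz w hw0 hwp
    have hsign : ((w : ℕ) : ZMod p) = (k : ZMod p) * x ∨ ((w : ℕ) : ZMod p) = -((k : ZMod p) * x) := by
      rcases Int.natAbs_eq z with h5 | h5
      · left
        rw [← hz0, h5, ← hw]; simp
      · right
        rw [← hz0, h5, ← hw]; simp
    have hl_ne : ((l : ℕ) : ZMod p) ≠ 0 := hnz l (by omega) hlp
    have e1 : gg ((k : ZMod p) * x) = lam w := by
      rw [← gg_nat (p := p) w hwp]
      rcases hsign with h5 | h5
      · rw [h5]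
      · rw [h5, gg_neg h _ (mul_ne_zero hk_ne hx)]
    have e2 : gg ((k : ZMod p) * ((l : ZMod p) * x)) = lam (w * l) := by
      rw [← gg_nat (p := p) (w * l) h4]
      push_cast
      rcases hsign with h5 | h5
      · rw [h5]; congr 1; ring
      · rw [h5]
        have : -((k : ZMod p) * x) * (l : ZMod p) = -((k : ZMod p) * ((l : ZMod p) * x)) := by ring
        rw [this, gg_neg h _ (mul_ne_zero hk_ne (mul_ne_zero hl_ne hx))]
    rw [ih k hkl' hk0 (by omega) x hx] at e1
    rw [ih k hkl' hk0 (by omega) _ (mul_ne_zero hl_ne hx), lam_mul hw0.ne' (by omega), ← e1] at e2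
    rcases lam_or k with h5 | h5 <;> rw [h5] at e2 <;> linarith
  · -- composite
    obtain ⟨a, b, hal, hbl, hab⟩ : ∃ a b : ℕ, a < l ∧ b < l ∧ l = a * b := by
      obtain ⟨a, ha1, ha2, ha3⟩ := Nat.exists_dvd_of_not_prime2 (by omega) hpr
      obtain ⟨b, hb⟩ := ha1
      refine ⟨a, b, ha3, ?_, hb⟩
      have hb0 : 0 < b := Nat.pos_of_ne_zero (by rintro rfl; omega)
      rw [hb]
      nlinarith
    have ha0 : 0 < a := Nat.pos_of_ne_zero (by rintro rfl; omega)
    have hb0 : 0 < b := Nat.pos_of_ne_zero (by rintro rfl; omega)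
    have hb_ne : ((b : ℕ) : ZMod p) ≠ 0 := hnz b hb0 (by omega)
    rw [hab]
    push_cast
    rw [mul_assoc, ih a hal ha0 (by omega) _ (mul_ne_zero hb_ne hx), ih b hbl hb0 (by omega) x hx,
      lam_mul ha0.ne' hb0.ne', mul_assoc]

lemma gg_sq (h : ∀ a : ℕ, 0 < a → a < p → lam a = lam (p - a)) (l : ℕ) (hl : 0 < l) (hlp : l < p)
    (hs : IsSquare ((l : ℕ) : ZMod p) ∨ IsSquare (-((l : ℕ) : ZMod p))) : lam l = 1 := by
  have hp := hpf.out
  have hnz : ((l : ℕ) : ZMod p) ≠ 0 := by
    intro h3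
    have := Nat.le_of_dvd hl ((ZMod.natCast_eq_zero_iff l p).mp h3)
    omega
  have key : ∀ u : ZMod p, u * u ≠ 0 → gg (u * u) = 1 := by
    intro u hu
    have hu0 : u ≠ 0 := by rintro rfl; simp at hu
    have hv : 0 < u.val := Nat.pos_of_ne_zero (fun h0 => hu0 ((ZMod.val_eq_zero u).mp h0))
    have h1 := gg_mul h u.val hv (ZMod.val_lt u) u hu0
    rw [ZMod.natCast_zmod_val] at h1
    rw [h1]
    show lam u.val * lam u.val = 1
    rcases lam_or u.val with h5 | h5 <;> rw [h5] <;> norm_num
  rw [← gg_nat (p := p) l hlp]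
  rcases hs with ⟨u, hu⟩ | ⟨u, hu⟩
  · rw [hu]; exact key u (by rw [← hu]; exact hnz)
  · rw [← gg_neg h _ hnz, hu]
    exact key u (by rw [← hu]; exact neg_ne_zero.mpr hnz)

end P

theorem mix_prime (p : ℕ) (hp : p.Prime) (h5 : 5 < p) : Mix p := by
  haveI : Fact p.Prime := ⟨hp⟩
  by_contra hno
  have h : ∀ a : ℕ, 0 < a → a < p → lam a = lam (p - a) := by
    intro a h1 h2
    by_contra h3
    exact hno ⟨a, p - a, h1, by omega, by omega, h3⟩
  have hcon : ∀ l : ℕ, l.Prime → l < p →
      (IsSquare ((l : ℕ) : ZMod p) ∨ IsSquare (-((l : ℕ) : ZMod p))) → False := by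
    intro l hl hlp hs
    have h1 := gg_sq h l hl.pos hlp hs
    rw [lam_prime hl] at h1
    norm_num at h1
  have hp2 : p ≠ 2 := by omega
  have hodd : p % 2 = 1 := (hp.eq_two_or_odd).resolve_left hp2
  rcases (by omega : p % 4 = 1 ∨ p % 4 = 3) with h4 | h4
  · -- a prime factor of (p-1)/4
    have h6 : (p - 1) / 4 ≠ 1 := by omega
    obtain ⟨l, hl, hld⟩ := Nat.exists_prime_and_dvd h6
    have hl4 : 4 * l ∣ p - 1 := by
      have h7 : 4 * ((p - 1) / 4) = p - 1 := by omega
      rw [← h7]
      exact Nat.mul_dvd_mul_left 4 hld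
    have hlp : l < p := by
      have := Nat.le_of_dvd (by omega) hl4
      omega
    apply hcon l hl hlp
    left
    by_cases hl2 : l = 2
    · rw [hl2]
      have : p % 8 = 1 := by
        rw [hl2] at hl4
        obtain ⟨c, hc⟩ := hl4
        omega
      have h8 := (ZMod.exists_sq_eq_two_iff hp2).mpr (Or.inl this)
      exact_mod_cast h8
    · haveI : Fact l.Prime := ⟨hl⟩
      rw [ZMod.exists_sq_eq_prime_iff_of_mod_four_eq_one h4 hl2]
      have : ((p : ℕ) : ZMod l) = 1 := by
        have h7 : l ∣ p - 1 := dvd_trans (dvd_mul_left l 4) hl4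
        have h8 : ((p - 1 : ℕ) : ZMod l) = 0 := (ZMod.natCast_eq_zero_iff _ _).mpr h7
        rw [Nat.cast_sub hp.one_lt.le] at h8
        push_cast at h8
        linear_combination h8
      rw [this]
      exact ⟨1, by ring⟩
  · -- 2 or -2 is a square
    apply hcon 2 Nat.prime_two (by omega)
    have h8 : p % 8 = 3 ∨ p % 8 = 7 := by omega
    rcases h8 with h8 | h8
    · right
      have := (ZMod.exists_sq_eq_neg_two_iff hp2).mpr (Or.inr h8)
      exact_mod_cast this
    · left
      have := (ZMod.exists_sq_eq_two_iff hp2).mpr (Or.inr h8)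
      exact_mod_cast this

/-- **mixed signs** -/
theorem mix_all (N : ℕ) (hN : 10 < N) : Mix N := by
  by_cases h : ∃ q : ℕ, q.Prime ∧ q ∣ N ∧ q ≠ 2 ∧ q ≠ 5
  · obtain ⟨q, hq, hqN, hq2, hq5⟩ := h
    have hN0 : 0 < N := by omega
    by_cases hq3 : q = 3
    · have : Mix 3 := ⟨1, 2, by norm_num, by norm_num, by norm_num, by
        rw [lam_one, lam_prime Nat.prime_two]; norm_num⟩
      rw [hq3] at hqN
      exact this.of_dvd hqN hN0
    · have h5 : 5 < q := by
        have := hq.two_le
        have h4 : q ≠ 4 := by rintro rfl; norm_num at hq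
        omega
      exact (mix_prime q hq h5).of_dvd hqN hN0
  · push_neg at h
    have m4 : Mix 4 := ⟨1, 3, by norm_num, by norm_num, by norm_num, by
        rw [lam_one, lam_prime Nat.prime_three]; norm_num⟩
    have m25 : Mix 25 := ⟨22, 3, by norm_num, by norm_num, by norm_num, by
        rw [show (22 : ℕ) = 2 * 11 by norm_num, lam_mul (by norm_num) (by norm_num),
          lam_prime Nat.prime_two, lam_prime (by norm_num), lam_prime Nat.prime_three]; norm_num⟩
    by_cases h4 : 4 ∣ N
    · exact m4.of_dvd h4 (by omega)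
    by_cases h25 : 25 ∣ N
    · exact m25.of_dvd h25 (by omega)
    exfalso
    -- N = 2^a 5^b with a, b ≤ 1
    have key : N ∣ 10 := by
      have hN0 : N ≠ 0 := by omega
      rw [← Nat.factorization_le_iff_dvd hN0 (by norm_num)]
      intro q
      by_cases hq : q.Prime
      · by_cases hqN : q ∣ N
        · have h25' : q = 2 ∨ q = 5 := by
            by_contra hc
            push_neg at hc
            exact hc.2 (h q hq hqN hc.1)
          have hf : N.factorization q ≤ 1 := by
            by_contra hc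
            push_neg at hc
            have h6 : q ^ 2 ∣ N := (hq.pow_dvd_iff_le_factorization hN0).mpr hc
            rcases h25' with h7 | h7
            · rw [h7] at h6; exact h4 (by simpa using h6)
            · rw [h7] at h6; exact h25 (by simpa using h6)
          have hg : 1 ≤ (Nat.factorization 10) q := by
            have : q ∣ 10 := by rcases h25' with h7 | h7 <;> rw [h7] <;> norm_num
            exact (hq.dvd_iff_one_le_factorization (by norm_num)).mp this
          omega
        · rw [Nat.factorization_eq_zero_of_not_dvd hqN]; exact Nat.zero_le _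
      · rw [Nat.factorization_eq_zero_of_not_prime N hq]; exact Nat.zero_le _
    have := Nat.le_of_dvd (by norm_num) key
    omega

end Pool.Agent.T2H22.LG
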