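import Mathlib

set_option autoImplicit false
set_option linter.all false

/-!
# The Liouville function and sums of two integers: basic notions
-/

namespace Pool.Agent.T2H22.LG

open Finset

/-- the Liouville function -/
noncomputable def lam (n : ℕ) : ℤ := (-1) ^ (ArithmeticFunction.cardFactors n)

lemma lam_mul {a b : ℕ} (ha : a ≠ 0) (hb : b ≠ 0) : lam (a * b) = lam a * lam b := by
  unfold lam
  rw [ArithmeticFunction.cardFactors_mul ha hb, pow_add]

lemma lam_or (n : ℕ) : lam n = 1 ∨ lam n = -1 := neg_one_pow_eq_or ℤ _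

lemma lam_sq (n : ℕ) : lam n * lam n = 1 := by
  rcases lam_or n with h | h <;> rw [h] <;> norm_num

lemma lam_one : lam 1 = 1 := by
  unfold lam; simp

lemma lam_prime {p : ℕ} (hp : p.Prime) : lam p = -1 := by
  unfold lam
  rw [ArithmeticFunction.cardFactors_apply_prime hp, pow_one]

lemma lam_pow (a k : ℕ) (ha : a ≠ 0) : lam (a ^ k) = lam a ^ k := by
  induction k with
  | zero => simp [lam_one]
  | succ k ih => rw [pow_succ, lam_mul (pow_ne_zero k ha) ha, ih, pow_succ]

/-- `N` is a sum of two positive integers whose Liouville values are both `s` -/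
def Good (s : ℤ) (N : ℕ) : Prop := ∃ a b : ℕ, 0 < a ∧ 0 < b ∧ a + b = N ∧ lam a = s ∧ lam b = s

/-- both signs -/
def BothGood (N : ℕ) : Prop := Good 1 N ∧ Good (-1) N

lemma Good.mul {s : ℤ} {d : ℕ} (h : Good s d) {m : ℕ} (hm : 0 < m) : Good (s * lam m) (d * m) := by
  obtain ⟨a, b, ha, hb, hab, h1, h2⟩ := h
  refine ⟨a * m, b * m, Nat.mul_pos ha hm, Nat.mul_pos hb hm, by rw [← add_mul, hab], ?_, ?_⟩
  · rw [lam_mul ha.ne' hm.ne', h1]
  · rw [lam_mul hb.ne' hm.ne', h2]

lemma BothGood.mul {d : ℕ} (h : BothGood d) {m : ℕ} (hm : 0 < m) : BothGood (d * m) := by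
  have h1 := h.1.mul hm
  have h2 := h.2.mul hm
  rcases lam_or m with hl | hl <;> rw [hl] at h1 h2
  · exact ⟨by simpa using h1, by simpa using h2⟩
  · exact ⟨by simpa using h2, by simpa using h1⟩

lemma BothGood.of_dvd {d N : ℕ} (h : BothGood d) (hN : 0 < N) (hd : d ∣ N) : BothGood N := by
  obtain ⟨m, rfl⟩ := hd
  exact h.mul (Nat.pos_of_mul_pos_left hN |> fun h => by
    rcases Nat.eq_zero_or_pos m with h0 | h0
    · subst h0; simp at hN
    · exact h0)

/-- the reduction to prime powers -/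
theorem reduction (P0 : ℕ) (hA : ∀ p : ℕ, p.Prime → P0 ≤ p → BothGood p)
    (hB : ∀ p : ℕ, p.Prime → ∃ k : ℕ, BothGood (p ^ k)) :
    ∃ N0 : ℕ, ∀ N : ℕ, N0 ≤ N → BothGood N := by
  classical
  choose! k hk using hB
  refine ⟨(∏ p ∈ (range P0).filter Nat.Prime, p ^ (k p)) + 1, fun N hN => ?_⟩
  have hN0 : 0 < N := by omega
  by_cases h : ∃ p : ℕ, p.Prime ∧ P0 ≤ p ∧ p ∣ N
  · obtain ⟨p, hp, hP, hd⟩ := h
    exact (hA p hp hP).of_dvd hN0 hd
  · push_neg at h
    by_cases h2 : ∃ p : ℕ, p.Prime ∧ p ^ (k p) ∣ N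
    · obtain ⟨p, hp, hd⟩ := h2
      exact (hk p hp).of_dvd hN0 hd
    · push_neg at h2
      exfalso
      have h3 : N = ∏ p ∈ (range P0).filter Nat.Prime, p ^ (N.factorization p) := by
        conv_lhs => rw [← Nat.prod_factorization_pow_eq_self hN0.ne']
        rw [Finsupp.prod]
        refine Finset.prod_subset ?_ ?_
        · intro p hp
          rw [Nat.support_factorization, Nat.mem_primeFactors] at hp
          rw [mem_filter, mem_range]
          refine ⟨?_, hp.1⟩
          by_contra hc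
          exact h p hp.1 (not_lt.1 hc) hp.2.1
        · intro p _ hp
          rw [Finsupp.notMem_support_iff] at hp
          rw [hp, pow_zero]
      have h4 : N ≤ ∏ p ∈ (range P0).filter Nat.Prime, p ^ (k p) := by
        conv_lhs => rw [h3]
        refine Finset.prod_le_prod' fun p hp => ?_
        rw [mem_filter] at hp
        apply Nat.pow_le_pow_right hp.2.pos
        by_contra hc
        exact h2 p hp.2 ((pow_dvd_pow p (not_le.1 hc).le).trans (Nat.ordProj_dvd N p))
      omega

section Z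

variable (N : ℕ) [NeZero N]

/-- the Liouville function on the least residues -/
noncomputable def f (x : ZMod N) : ℤ := lam x.val

/-- exceptions to antisymmetry -/
noncomputable def E0 : Finset (ZMod N) := univ.filter fun x => f N (-x) ≠ -f N x

/-- exceptions to the dilation by `g` -/
noncomputable def Ex (g : ℕ) : Finset (ZMod N) :=
  univ.filter fun x => f N ((g : ZMod N) * x) ≠ lam g * f N x

/-- the short interval -/
def II (g : ℕ) : Finset (ZMod N) := univ.filter fun x => x.valMinAbs.natAbs * g < N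

variable {N}

lemma f_or (x : ZMod N) : f N x = 1 ∨ f N x = -1 := lam_or _

lemma f_sq (x : ZMod N) : f N x * f N x = 1 := lam_sq _

lemma mem_E0 {x : ZMod N} : x ∈ E0 N ↔ f N (-x) ≠ -f N x := by
  unfold E0; simp

lemma mem_Ex {g : ℕ} {x : ZMod N} : x ∈ Ex N g ↔ f N ((g : ZMod N) * x) ≠ lam g * f N x := by
  unfold Ex; simp

lemma mem_II {g : ℕ} {x : ZMod N} : x ∈ II N g ↔ x.valMinAbs.natAbs * g < N := by
  unfold II; simp

lemma not_mem_E0 {x : ZMod N} (h : x ∉ E0 N) : f N (-x) = -f N x := by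
  rw [mem_E0, not_not] at h; exact h

lemma not_mem_Ex {g : ℕ} {x : ZMod N} (h : x ∉ Ex N g) : f N ((g : ZMod N) * x) = lam g * f N x := by
  rw [mem_Ex, not_not] at h; exact h

lemma zero_mem_E0 : (0 : ZMod N) ∈ E0 N := by
  rw [mem_E0, neg_zero]
  rcases f_or (0 : ZMod N) with h | h <;> rw [h] <;> norm_num

lemma f_natCast {n : ℕ} (hn : n < N) : f N (n : ZMod N) = lam n := by
  unfold f
  rw [ZMod.val_natCast_of_lt hn]

/-- inside the short interval the dilation is exact up to the exceptions of antisymmetry -/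
lemma II_ok {g : ℕ} (hg : 0 < g) {x : ZMod N} (hx : x ∈ II N g) (h1 : x ∉ E0 N)
    (h2 : (g : ZMod N) * x ∉ E0 N) : f N ((g : ZMod N) * x) = lam g * f N x := by
  rw [mem_II] at hx
  obtain ⟨n, hn⟩ : ∃ n : ℕ, n = x.valMinAbs.natAbs := ⟨_, rfl⟩
  rw [← hn] at hx
  have hn0 : n ≠ 0 := by
    intro h0
    have : x.valMinAbs = 0 := by rw [← Int.natAbs_eq_zero, ← hn, h0]
    rw [ZMod.valMinAbs_eq_zero] at this
    rw [this] at h1
    exact h1 zero_mem_E0
  have hnN : n < N := lt_of_le_of_lt (Nat.le_mul_of_pos_right n hg) hx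
  have hgn : f N (((g * n : ℕ)) : ZMod N) = lam g * lam n := by
    rw [f_natCast (by rw [mul_comm]; exact hx), lam_mul hg.ne' hn0]
  rcases Int.natAbs_eq x.valMinAbs with h | h
  · rw [← hn] at h
    have hxn : x = (n : ZMod N) := by
      rw [← ZMod.coe_valMinAbs x, h]; simp
    rw [hxn, f_natCast hnN]
    push_cast at hgn
    exact hgn
  · rw [← hn] at h
    have hxn : x = -(n : ZMod N) := by
      rw [← ZMod.coe_valMinAbs x, h]; simp
    have h3 := not_mem_E0 h1
    have h4 := not_mem_E0 h2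
    have e1 : -x = (n : ZMod N) := by rw [hxn, neg_neg]
    have e2 : -((g : ZMod N) * x) = ((g * n : ℕ) : ZMod N) := by
      rw [hxn]; push_cast; ring
    rw [e1, f_natCast hnN] at h3
    rw [e2, hgn] at h4
    linarith [h3, h4, mul_comm (lam g) (lam n), show lam g * f N x = -(lam g * lam n) by rw [h3]; ring]

lemma isUnit_cast {g : ℕ} (hg : g.Coprime N) : IsUnit (g : ZMod N) :=
  (ZMod.isUnit_iff_coprime g N).mpr hg

/-- preimages under dilations have the same size -/
lemma card_preim {g : ℕ} (hg : g.Coprime N) (S : Finset (ZMod N)) :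
    (univ.filter fun x : ZMod N => (g : ZMod N) * x ∈ S).card = S.card := by
  obtain ⟨u, hu⟩ := isUnit_cast hg
  refine Finset.card_bij (fun x _ => (g : ZMod N) * x) ?_ ?_ ?_
  · intro x hx; exact (mem_filter.1 hx).2
  · intro x _ y _ h
    rw [← hu] at h
    exact (Units.mul_right_inj u).1 h
  · intro y hy
    refine ⟨(↑u⁻¹ : ZMod N) * y, ?_, ?_⟩
    · rw [mem_filter]
      refine ⟨mem_univ _, ?_⟩
      rw [← hu, Units.mul_inv_cancel_left]; exact hy
    · rw [← hu, Units.mul_inv_cancel_left]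

lemma Ex_mul {g h : ℕ} (hg : 0 < g) (hh : 0 < h) (hh' : h.Coprime N) :
    (Ex N (g * h)).card ≤ (Ex N g).card + (Ex N h).card := by
  have h1 : Ex N (g * h) ⊆ (univ.filter fun x : ZMod N => (h : ZMod N) * x ∈ Ex N g) ∪ Ex N h := by
    intro x hx
    rw [mem_union, mem_filter]
    by_contra hc
    push_neg at hc
    obtain ⟨h2, h3⟩ := hc
    have h4 := not_mem_Ex (h2 (mem_univ x))
    have h5 := not_mem_Ex h3
    rw [mem_Ex] at hx
    apply hx
    rw [lam_mul hg.ne' hh.ne', mul_assoc, ← h5, ← h4]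
    push_cast
    rw [mul_assoc]
  refine (card_le_card h1).trans ((card_union_le _ _).trans ?_)
  rw [card_preim hh']

lemma Ex_one : (Ex N 1).card = 0 := by
  rw [card_eq_zero]
  unfold Ex
  rw [filter_eq_empty_iff]
  intro x _
  simp [lam_one]

lemma Ex_pow {g : ℕ} (hg : 0 < g) (hg' : g.Coprime N) (k : ℕ) :
    (Ex N (g ^ k)).card ≤ k * (Ex N g).card := by
  induction k with
  | zero => simp [Ex_one]
  | succ k ih =>
    rw [pow_succ]
    refine (Ex_mul (pow_pos hg k) hg hg').trans ?_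
    nlinarith

/-- the key inclusion -/
lemma key {l h : ℕ} (hl : 0 < l) (hh : 0 < h) {x : ZMod N}
    (hx : x ∈ Ex N l) (hI : (h : ZMod N) * x ∈ II N l) :
    x ∈ Ex N h ∨ (l : ZMod N) * x ∈ Ex N h ∨ (h : ZMod N) * x ∈ E0 N ∨
      ((l * h : ℕ) : ZMod N) * x ∈ E0 N := by
  by_contra hc
  push_neg at hc
  obtain ⟨h1, h2, h3, h4⟩ := hc
  have e0 : ((l * h : ℕ) : ZMod N) * x = (l : ZMod N) * ((h : ZMod N) * x) := by
    push_cast; ring
  rw [e0] at h4
  have e1 := II_ok hl hI h3 h4
  have e2 := not_mem_Ex h1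
  have e3 := not_mem_Ex h2
  have e4 : (l : ZMod N) * ((h : ZMod N) * x) = (h : ZMod N) * ((l : ZMod N) * x) := by ring
  rw [e4, e3, e2] at e1
  rw [mem_Ex] at hx
  apply hx
  have e5 := lam_sq h
  have : lam h * (lam h * f N ((l : ZMod N) * x)) = lam h * (lam l * (lam h * f N x)) := by rw [e1]
  calc f N ((l : ZMod N) * x) = (lam h * lam h) * f N ((l : ZMod N) * x) := by rw [e5, one_mul]
    _ = lam h * (lam h * f N ((l : ZMod N) * x)) := by ring
    _ = lam h * (lam l * (lam h * f N x)) := this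
    _ = (lam h * lam h) * (lam l * f N x) := by ring
    _ = lam l * f N x := by rw [e5, one_mul]

/-- the count: all exceptions at `l` avoid the preimages of the short interval under the
multipliers, up to the exceptions of the multipliers -/
lemma Ex_le {l : ℕ} (hl : 0 < l) (hl' : l.Coprime N) (H : Finset ℕ) (hH : ∀ h ∈ H, 0 < h ∧ h.Coprime N) :
    (Ex N l).card ≤ (univ.filter fun x : ZMod N => ∀ h ∈ H, (h : ZMod N) * x ∉ II N l).card +
      ∑ h ∈ H, (2 * (Ex N h).card + 2 * (E0 N).card) := by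
  classical
  have h1 : Ex N l ⊆ (univ.filter fun x : ZMod N => ∀ h ∈ H, (h : ZMod N) * x ∉ II N l) ∪
      H.biUnion (fun h => (Ex N h ∪ (univ.filter fun x : ZMod N => (l : ZMod N) * x ∈ Ex N h)) ∪
        ((univ.filter fun x : ZMod N => (h : ZMod N) * x ∈ E0 N) ∪
          (univ.filter fun x : ZMod N => ((l * h : ℕ) : ZMod N) * x ∈ E0 N))) := by
    intro x hx
    rw [mem_union, mem_filter, mem_biUnion]
    by_cases hc : ∀ h ∈ H, (h : ZMod N) * x ∉ II N l
    · exact Or.inl ⟨mem_univ _, hc⟩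
    · push_neg at hc
      obtain ⟨h, hh, hI⟩ := hc
      right
      refine ⟨h, hh, ?_⟩
      rw [mem_union, mem_union, mem_union, mem_filter, mem_filter, mem_filter]
      rcases key hl (hH h hh).1 hx hI with h2 | h2 | h2 | h2
      · exact Or.inl (Or.inl h2)
      · exact Or.inl (Or.inr ⟨mem_univ _, h2⟩)
      · exact Or.inr (Or.inl ⟨mem_univ _, h2⟩)
      · exact Or.inr (Or.inr ⟨mem_univ _, h2⟩)
  refine (card_le_card h1).trans ((card_union_le _ _).trans ?_)
  apply Nat.add_le_add_left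
  refine card_biUnion_le.trans (sum_le_sum fun h hh => ?_)
  refine (card_union_le _ _).trans ?_
  have c1 := card_union_le (Ex N h) (univ.filter fun x : ZMod N => (l : ZMod N) * x ∈ Ex N h)
  have c2 := card_union_le (univ.filter fun x : ZMod N => (h : ZMod N) * x ∈ E0 N)
    (univ.filter fun x : ZMod N => ((l * h : ℕ) : ZMod N) * x ∈ E0 N)
  rw [card_preim hl'] at c1
  rw [card_preim (hH h hh).2, card_preim (Nat.Coprime.mul_left hl' (hH h hh).2)] at c2
  omega

/-- the number of exceptions to antisymmetry, if a pattern is missing -/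
lemma E0_card {s : ℤ} (hs : s = 1 ∨ s = -1) (hbad : ¬ Good s N) :
    ((E0 N).card : ℤ) ≤ 1 + |∑ n ∈ Ico 1 N, lam n| := by
  classical
  set D := (E0 N).erase 0 with hD
  have hD1 : ∀ x ∈ D, f N x = -s ∧ f N (-x) = -s := by
    intro x hx
    rw [hD, mem_erase, mem_E0] at hx
    obtain ⟨hx0, hx1⟩ := hx
    have heq : f N (-x) = f N x := by
      rcases f_or x with h | h <;> rcases f_or (-x) with h' | h'
      · rw [h, h']
      · exact absurd (by rw [h, h']) hx1
      · exact absurd (by rw [h, h']; norm_num) hx1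
      · rw [h, h']
    rw [heq, and_self]
    by_contra hc
    have hfs : f N x = s := by
      rcases f_or x with h | h <;> rcases hs with h' | h' <;> simp_all
    apply hbad
    refine ⟨x.val, (-x).val, ?_, ?_, ?_, hfs, heq.trans hfs⟩
    · exact Nat.pos_of_ne_zero fun h => hx0 ((ZMod.val_eq_zero x).1 h)
    · exact Nat.pos_of_ne_zero fun h => hx0 (neg_eq_zero.1 ((ZMod.val_eq_zero _).1 h))
    · haveI : NeZero x := ⟨hx0⟩
      rw [ZMod.val_neg_of_ne_zero]
      have := ZMod.val_lt x
      omega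
  have hsum : 2 * ∑ x ∈ univ.erase (0 : ZMod N), f N x = -2 * s * D.card := by
    have e1 : ∑ x ∈ univ.erase (0 : ZMod N), f N x = ∑ x ∈ univ.erase (0 : ZMod N), f N (-x) := by
      refine Finset.sum_bij (fun x _ => -x) ?_ ?_ ?_ ?_
      · intro x hx; rw [mem_erase] at hx ⊢; exact ⟨neg_ne_zero.2 hx.1, mem_univ _⟩
      · intro x _ y _ h; exact neg_inj.1 h
      · intro x hx; rw [mem_erase] at hx
        exact ⟨-x, by rw [mem_erase]; exact ⟨neg_ne_zero.2 hx.1, mem_univ _⟩, neg_neg x⟩
      · intro x _; rw [neg_neg]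
    have e2 : 2 * ∑ x ∈ univ.erase (0 : ZMod N), f N x =
        ∑ x ∈ univ.erase (0 : ZMod N), (f N x + f N (-x)) := by
      rw [sum_add_distrib, ← e1]; ring
    rw [e2]
    have hsub : D ⊆ univ.erase (0 : ZMod N) := by
      intro x hx; rw [hD, mem_erase] at hx; rw [mem_erase]; exact ⟨hx.1, mem_univ _⟩
    rw [← sum_subset hsub (f := fun x => f N x + f N (-x))]
    · rw [sum_congr rfl fun x hx => by rw [(hD1 x hx).1, (hD1 x hx).2]]
      rw [sum_const, nsmul_eq_mul]; ring
    · intro x hx hxD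
      rw [hD, mem_erase] at hxD
      rw [mem_erase] at hx
      have : x ∉ E0 N := fun h => hxD ⟨hx.1, h⟩
      rw [not_mem_E0 this]; ring
  have hval : ∑ x ∈ univ.erase (0 : ZMod N), f N x = ∑ n ∈ Ico 1 N, lam n := by
    refine Finset.sum_bij (fun x _ => x.val) ?_ ?_ ?_ ?_
    · intro x hx
      rw [mem_erase] at hx
      rw [mem_Ico]
      exact ⟨Nat.pos_of_ne_zero fun h => hx.1 ((ZMod.val_eq_zero x).1 h), ZMod.val_lt x⟩
    · intro x _ y _ h; exact ZMod.val_injective N h
    · intro n hn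
      rw [mem_Ico] at hn
      refine ⟨(n : ZMod N), ?_, ZMod.val_natCast_of_lt hn.2⟩
      rw [mem_erase]
      refine ⟨fun h => ?_, mem_univ _⟩
      have h2 := congrArg ZMod.val h
      rw [ZMod.val_natCast_of_lt hn.2, ZMod.val_zero] at h2
      omega
    · intro x _; rfl
  rw [hval] at hsum
  have hc : (E0 N).card = D.card + 1 := by
    rw [hD, card_erase_add_one zero_mem_E0]
  rw [hc]
  push_cast
  have : (D.card : ℤ) = |∑ n ∈ Ico 1 N, lam n| := by
    have h3 : ∑ n ∈ Ico 1 N, lam n = -s * D.card := by linarith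
    rw [h3, abs_mul]
    rcases hs with h | h <;> rw [h] <;> simp
  rw [this]; linarith

end Z

end Pool.Agent.T2H22.LG
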