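import Mathlib

set_option autoImplicit false
set_option linter.all false

/-!
# Elementary growth lemmas and primes in intervals
-/

namespace Pool.Agent.T2H22.LG

open Finset Filter

lemma ev_exp (a c : ℝ) (ha : 0 < a) (hc : 0 < c) (A : ℝ) (C : ℝ) :
    ∀ᶠ L : ℝ in atTop, C * L ^ A ≤ Real.exp (c * L ^ a) := by
  have h1 : Tendsto (fun L : ℝ => L ^ a) atTop atTop := tendsto_rpow_atTop ha
  have h2 := (isLittleO_rpow_exp_pos_mul_atTop (A / a) hc).comp_tendsto h1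
  have h3 := h2.def (show (0 : ℝ) < 1 / (|C| + 1) by positivity)
  filter_upwards [h3, eventually_gt_atTop 0] with L hL hL0
  simp only [Function.comp] at hL
  have e1 : (L ^ a) ^ (A / a) = L ^ A := by
    rw [← Real.rpow_mul hL0.le]; congr 1; field_simp
  rw [e1, Real.norm_eq_abs, Real.norm_eq_abs, abs_of_nonneg (Real.rpow_nonneg hL0.le _),
    abs_of_pos (Real.exp_pos _)] at hL
  have hE := Real.exp_pos (c * L ^ a)
  have hA := Real.rpow_nonneg hL0.le A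
  calc C * L ^ A ≤ |C| * L ^ A := mul_le_mul_of_nonneg_right (le_abs_self C) hA
    _ ≤ |C| * (1 / (|C| + 1) * Real.exp (c * L ^ a)) := by gcongr
    _ = (|C| / (|C| + 1)) * Real.exp (c * L ^ a) := by ring
    _ ≤ 1 * Real.exp (c * L ^ a) := by
        gcongr
        rw [div_le_one (by positivity)]; linarith
    _ = _ := one_mul _

lemma ev_log (a : ℝ) (ha : 0 < a) (C : ℝ) : ∀ᶠ L : ℝ in atTop, C * Real.log L ≤ L ^ a := by
  have h3 := (isLittleO_log_rpow_atTop ha).def (show (0 : ℝ) < 1 / (|C| + 1) by positivity)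
  filter_upwards [h3, eventually_ge_atTop 1] with L hL hL0
  have hl := Real.log_nonneg hL0
  have hA := Real.rpow_nonneg (by linarith : (0 : ℝ) ≤ L) a
  rw [Real.norm_eq_abs, Real.norm_eq_abs, abs_of_nonneg hl, abs_of_nonneg hA] at hL
  calc C * Real.log L ≤ |C| * Real.log L := mul_le_mul_of_nonneg_right (le_abs_self C) hl
    _ ≤ |C| * (1 / (|C| + 1) * L ^ a) := by gcongr
    _ = (|C| / (|C| + 1)) * L ^ a := by ring
    _ ≤ 1 * L ^ a := by
        gcongr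
        rw [div_le_one (by positivity)]; linarith
    _ = _ := one_mul _

lemma ev_rpow (a b : ℝ) (h : a < b) (C : ℝ) : ∀ᶠ L : ℝ in atTop, C * L ^ a ≤ L ^ b := by
  have h1 : Tendsto (fun L : ℝ => L ^ (b - a)) atTop atTop := tendsto_rpow_atTop (by linarith)
  filter_upwards [h1.eventually_ge_atTop C, eventually_gt_atTop 0] with L hL hL0
  have e1 : L ^ b = L ^ (b - a) * L ^ a := by rw [← Real.rpow_add hL0]; congr 1; ring
  rw [e1]
  exact mul_le_mul_of_nonneg_right hL (Real.rpow_nonneg hL0.le _)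

lemma tlog : Tendsto (fun N : ℕ => Real.log (N : ℝ)) atTop atTop :=
  Real.tendsto_log_atTop.comp tendsto_natCast_atTop_atTop

/-- many primes in `(Y, 4Y]` -/
lemma primes_interval_aux : ∀ᶠ Y : ℕ in atTop,
    (Y : ℝ) ^ (9 / 10 : ℝ) + 1 ≤ (((Ioc Y (4 * Y)).filter Nat.Prime).card : ℝ) ∧
    (Y : ℝ) ≤ (((Ioc Y (4 * Y)).filter Nat.Prime).card : ℝ) * (2 * Real.log Y) := by
  have f1 : ∀ᶠ x : ℝ in atTop, 1000 * Real.log x ≤ x ^ (1 / 100 : ℝ) := ev_log _ (by norm_num) _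
  have f2 : ∀ᶠ x : ℝ in atTop, (100 : ℝ) ≤ x ^ (1 / 100 : ℝ) :=
    (tendsto_rpow_atTop (by norm_num : (0 : ℝ) < 1 / 100)).eventually_ge_atTop _
  filter_upwards [tendsto_natCast_atTop_atTop.eventually f1, tendsto_natCast_atTop_atTop.eventually f2,
    eventually_ge_atTop 16] with Y g1 g2 hY16
  have hY : (16 : ℝ) ≤ Y := by exact_mod_cast hY16
  have hY0 : (0 : ℝ) < Y := by linarith
  set S := (Ioc Y (4 * Y)).filter Nat.Prime with hS
  have hlY : 0 < Real.log Y := Real.log_pos (by linarith)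
  have h4 : Real.log (4 * Y) ≤ 2 * Real.log Y := by
    rw [Real.log_mul (by norm_num) hY0.ne']
    have : Real.log 4 ≤ Real.log Y := Real.log_le_log (by norm_num) (by linarith)
    linarith
  -- theta
  have t1 := Chebyshev.theta_ge (4 * Y)
  have t2 := Chebyshev.theta_le_log4_mul_x (x := (Y : ℝ)) hY0.le
  have t3 : Chebyshev.theta ((4 * Y : ℕ) : ℝ) ≤ Chebyshev.theta (Y : ℝ) + S.card * Real.log (4 * Y) := by
    unfold Chebyshev.theta
    rw [Nat.floor_natCast, Nat.floor_natCast]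
    have e1 : (Ioc 0 (4 * Y)).filter Nat.Prime = (Ioc 0 Y).filter Nat.Prime ∪ S := by
      rw [hS, ← filter_union]
      congr 1
      ext n; simp only [mem_Ioc, mem_union]; omega
    rw [e1, sum_union (by
      rw [Finset.disjoint_left]
      intro n hn hn'
      rw [mem_filter, mem_Ioc] at hn
      rw [hS, mem_filter, mem_Ioc] at hn'
      omega)]
    gcongr
    rw [← nsmul_eq_mul, ← sum_const]
    refine sum_le_sum fun q hq => ?_
    rw [hS, mem_filter, mem_Ioc] at hq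
    have hq0 : (0 : ℝ) < q := by exact_mod_cast hq.2.pos
    refine Real.log_le_log hq0 ?_
    have := hq.1.2
    exact_mod_cast this
  have hl4 : Real.log 4 = 2 * Real.log 2 := by
    rw [show (4 : ℝ) = 2 ^ 2 by norm_num, Real.log_pow]; norm_num
  have hl2 := Real.log_two_gt_d9
  rw [hl4] at t2
  have hsq : √((4 * Y : ℕ) : ℝ) = 2 * √(Y : ℝ) := by
    push_cast
    rw [Real.sqrt_mul (by norm_num), show (4 : ℝ) = 2 ^ 2 by norm_num, Real.sqrt_sq (by norm_num)]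
  rw [hsq] at t1
  push_cast at t1 t3
  have hlog5 : Real.log (4 * (Y : ℝ) + 1) ≤ 2 * Real.log Y := by
    have : 4 * (Y : ℝ) + 1 ≤ Y ^ 2 := by nlinarith
    calc Real.log (4 * (Y : ℝ) + 1) ≤ Real.log (Y ^ 2) := Real.log_le_log (by linarith) this
      _ = 2 * Real.log Y := by rw [Real.log_pow]; norm_num
  have hs1 : Real.sqrt Y ^ 2 = Y := Real.sq_sqrt hY0.le
  have hs0 : 4 ≤ √(Y : ℝ) := by
    rw [show (4 : ℝ) = √16 by rw [show (16 : ℝ) = 4 ^ 2 by norm_num, Real.sqrt_sq (by norm_num)]]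
    exact Real.sqrt_le_sqrt hY
  have hx1 : (Y : ℝ) ^ (1 / 100 : ℝ) ≤ √(Y : ℝ) := by
    rw [Real.sqrt_eq_rpow]
    exact Real.rpow_le_rpow_of_exponent_le (by linarith) (by norm_num)
  have hlogs : Real.log Y ≤ √(Y : ℝ) / 1000 := by linarith
  have hbig : (Y : ℝ) ≤ S.card * Real.log (4 * Y) := by nlinarith
  have hc0 : (0 : ℝ) ≤ S.card := Nat.cast_nonneg _
  have h6 : (Y : ℝ) ≤ S.card * (2 * Real.log Y) := hbig.trans (mul_le_mul_of_nonneg_left h4 hc0)
  have h7 : (Y : ℝ) ≤ S.card * (Y : ℝ) ^ (1 / 100 : ℝ) := by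
    refine h6.trans (mul_le_mul_of_nonneg_left ?_ hc0)
    linarith
  have h8 : (Y : ℝ) ^ (9 / 10 : ℝ) * (Y : ℝ) ^ (1 / 100 : ℝ) * (Y : ℝ) ^ (9 / 100 : ℝ) = Y := by
    rw [← Real.rpow_add hY0, ← Real.rpow_add hY0]; norm_num
  have h9 : (Y : ℝ) ^ (1 / 100 : ℝ) ≤ (Y : ℝ) ^ (9 / 100 : ℝ) :=
    Real.rpow_le_rpow_of_exponent_le (by linarith) (by norm_num)
  have h10 : (1 : ℝ) ≤ (Y : ℝ) ^ (9 / 10 : ℝ) := Real.one_le_rpow (by linarith) (by norm_num)
  have hp : (0 : ℝ) < (Y : ℝ) ^ (1 / 100 : ℝ) := by linarith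
  have h11 : ((Y : ℝ) ^ (9 / 10 : ℝ) * (Y : ℝ) ^ (9 / 100 : ℝ)) * (Y : ℝ) ^ (1 / 100 : ℝ) ≤
      S.card * (Y : ℝ) ^ (1 / 100 : ℝ) := by
    calc _ = (Y : ℝ) ^ (9 / 10 : ℝ) * (Y : ℝ) ^ (1 / 100 : ℝ) * (Y : ℝ) ^ (9 / 100 : ℝ) := by ring
      _ = Y := h8
      _ ≤ _ := h7
  have h12 := le_of_mul_le_mul_right h11 hp
  refine ⟨?_, h6⟩
  nlinarith

lemma primes_interval : ∀ᶠ Y : ℕ in atTop,
    (Y : ℝ) ^ (9 / 10 : ℝ) + 1 ≤ (((Ioc Y (4 * Y)).filter Nat.Prime).card : ℝ) :=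
  primes_interval_aux.mono fun _ h => h.1

lemma primes_interval2 : ∀ᶠ Y : ℕ in atTop,
    (Y : ℝ) ≤ (((Ioc Y (4 * Y)).filter Nat.Prime).card : ℝ) * (2 * Real.log Y) :=
  primes_interval_aux.mono fun _ h => h.2

end Pool.Agent.T2H22.LG
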