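import Pool.Agent.T2H22.LG.A

set_option autoImplicit false
set_option linter.all false

/-!
# Digits and dilations
-/

namespace Pool.Agent.T2H22.LG

open Finset

/-- numbers whose base `T` digits lie in `V` -/
def CC (T : ℕ) (V : Finset ℕ) : ℕ → Finset ℕ
  | 0 => {0}
  | i + 1 => (CC T V i ×ˢ V).image fun w => T * w.1 + w.2

lemma card_CC (T : ℕ) (V : Finset ℕ) (i : ℕ) : (CC T V i).card ≤ V.card ^ i := by
  induction i with
  | zero => simp [CC]
  | succ i ih =>
    rw [CC]
    refine card_image_le.trans ?_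
    rw [card_product, pow_succ]
    exact Nat.mul_le_mul_right _ ih

lemma mem_CC {N T : ℕ} (hN : 0 < N) (V : Finset ℕ) (v : ℕ) (hv : v < N) (J : ℕ)
    (h : ∀ i < J, T * ((T ^ i * v) % N) / N ∈ V) : T ^ J * v / N ∈ CC T V J := by
  induction J with
  | zero => simp [CC, Nat.div_eq_of_lt hv]
  | succ J ih =>
    rw [CC, mem_image]
    refine ⟨(T ^ J * v / N, T * ((T ^ J * v) % N) / N), ?_, ?_⟩
    · rw [mem_product]
      exact ⟨ih fun i hi => h i (by omega), h J (by omega)⟩
    · have h1 : T ^ (J + 1) * v = T * ((T ^ J * v) % N) + N * (T * (T ^ J * v / N)) := by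
        have h2 := Nat.mod_add_div (T ^ J * v) N
        calc T ^ (J + 1) * v = T * (T ^ J * v) := by rw [pow_succ]; ring
          _ = T * ((T ^ J * v) % N + N * (T ^ J * v / N)) := by rw [h2]
          _ = _ := by ring
      simp only
      rw [h1, Nat.add_mul_div_left _ _ hN, add_comm]

lemma fiber (N M c : ℕ) (hM : 0 < M) :
    ((range N).filter fun v => M * v / N = c).card ≤ N / M + 1 := by
  rcases Nat.eq_zero_or_pos N with h0 | hN
  · subst h0; simp
  set v0 := (c * N + M - 1) / M with hv0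
  have hsub : ((range N).filter fun v => M * v / N = c) ⊆ Icc v0 (v0 + N / M) := by
    intro v hv
    rw [mem_filter] at hv
    obtain ⟨_, hvc⟩ := hv
    have h1 : c * N ≤ M * v := by rw [← hvc]; exact Nat.div_mul_le_self _ _
    have h2 : M * v < c * N + N := by
      have := Nat.lt_div_mul_add (a := M * v) hN
      rwa [hvc] at this
    have h3 : v0 ≤ v := by
      rw [hv0]
      have h9 : c * N + M - 1 < M * (v + 1) := by rw [mul_add, mul_one]; omega
      have h10 : (c * N + M - 1) / M < v + 1 := by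
        rw [Nat.div_lt_iff_lt_mul hM, mul_comm (v + 1) M]; exact h9
      omega
    have h4 : c * N ≤ M * v0 := by
      have h5 := Nat.div_add_mod (c * N + M - 1) M
      have h6 := Nat.mod_lt (c * N + M - 1) hM
      rw [← hv0] at h5
      omega
    rw [mem_Icc]
    refine ⟨h3, ?_⟩
    have h7 : M * (v - v0) ≤ N := by
      rw [Nat.mul_sub]
      omega
    have h8 : v - v0 ≤ N / M := (Nat.le_div_iff_mul_le hM).2 (by rw [mul_comm]; exact h7)
    omega
  refine (card_le_card hsub).trans ?_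
  rw [Nat.card_Icc]
  generalize N / M = z
  omega

section Z

variable {N : ℕ} [NeZero N]

/-- the first digit -/
def dg (T : ℕ) (x : ZMod N) : ℕ := T * x.val / N

lemma dg_lt {T : ℕ} (hT : 0 < T) (x : ZMod N) : dg T x < T := by
  unfold dg
  rw [Nat.div_lt_iff_lt_mul (NeZero.pos N)]
  exact Nat.mul_lt_mul_of_pos_left (ZMod.val_lt x) hT

lemma val_pow_mul (T i : ℕ) (x : ZMod N) :
    (((T : ZMod N) ^ i) * x).val = (T ^ i * x.val) % N := by
  have : ((T : ZMod N) ^ i) * x = ((T ^ i * x.val : ℕ) : ZMod N) := by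
    push_cast
    rw [ZMod.natCast_zmod_val]
  rw [this, ZMod.val_natCast]

/-- all orbits with digits in `V` -/
lemma orbit_count {T J : ℕ} (hT : 0 < T) (V : Finset ℕ) :
    (univ.filter fun x : ZMod N => ∀ i < J, dg T (((T : ZMod N) ^ i) * x) ∈ V).card ≤
      V.card ^ J * (N / T ^ J + 1) := by
  classical
  have h1 : (univ.filter fun x : ZMod N => ∀ i < J, dg T (((T : ZMod N) ^ i) * x) ∈ V) ⊆
      (CC T V J).biUnion fun c => univ.filter fun x : ZMod N => T ^ J * x.val / N = c := by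
    intro x hx
    rw [mem_filter] at hx
    rw [mem_biUnion]
    refine ⟨T ^ J * x.val / N, ?_, by simp⟩
    refine mem_CC (NeZero.pos N) V _ (ZMod.val_lt x) J fun i hi => ?_
    have := hx.2 i hi
    unfold dg at this
    rwa [val_pow_mul] at this
  refine (card_le_card h1).trans (card_biUnion_le.trans ?_)
  have h2 : ∀ c ∈ CC T V J, (univ.filter fun x : ZMod N => T ^ J * x.val / N = c).card ≤
      N / T ^ J + 1 := by
    intro c _
    refine le_trans ?_ (fiber N (T ^ J) c (pow_pos hT J))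
    refine card_le_card_of_injOn (fun x => x.val) ?_ ?_
    · intro x hx
      simp only [coe_filter, mem_univ, true_and, Set.mem_setOf_eq] at hx ⊢
      exact ⟨by rw [mem_range]; exact ZMod.val_lt x, hx⟩
    · intro x _ y _ h; exact ZMod.val_injective N h
  refine (sum_le_sum h2).trans ?_
  rw [sum_const, smul_eq_mul]
  exact Nat.mul_le_mul_right _ (card_CC T V J)

/-- block independence -/
lemma blocks {T J : ℕ} (hT : 0 < T) (hTN : T ≤ N) (hTJ : T ^ J ≤ N) (U U' : Finset (ZMod N))
    (hU : ∀ x x' : ZMod N, x' ∈ U' → dg T x = dg T x' → x ∈ U) {κ : ℝ} (hκ0 : 0 ≤ κ) (hκ1 : κ ≤ 1)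
    (hU' : κ * N ≤ U'.card) :
    ((univ.filter fun x : ZMod N => ∀ i < J, ((T : ZMod N) ^ i) * x ∉ U).card : ℝ) ≤
      2 * N * (1 - κ / 2) ^ J := by
  classical
  have hNp : (0 : ℝ) < N := by exact_mod_cast NeZero.pos N
  have hTp : (0 : ℝ) < T := by exact_mod_cast hT
  set V := (range T).filter fun d => ∃ x : ZMod N, x ∉ U ∧ dg T x = d with hV
  set D := U'.image (dg T) with hD
  have hdisj : Disjoint V D := by
    rw [Finset.disjoint_left]
    intro d hd hd'
    rw [hV, mem_filter] at hd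
    rw [hD, mem_image] at hd'
    obtain ⟨_, x, hx, hxd⟩ := hd
    obtain ⟨x', hx', hxd'⟩ := hd'
    exact hx (hU x x' hx' (hxd.trans hxd'.symm))
  have hcard : V.card + D.card ≤ T := by
    rw [← card_union_of_disjoint hdisj]
    refine (card_le_card (t := range T) ?_).trans (card_range T).le
    intro d hd
    rw [mem_union] at hd
    rcases hd with hd | hd
    · exact (mem_filter.1 hd).1
    · rw [hD, mem_image] at hd
      obtain ⟨x, _, rfl⟩ := hd
      exact mem_range.2 (dg_lt hT x)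
  have hUD : U'.card ≤ D.card * (N / T + 1) := by
    have h1 : U' ⊆ D.biUnion fun c => univ.filter fun x : ZMod N => T * x.val / N = c := by
      intro x hx
      rw [mem_biUnion]
      exact ⟨dg T x, mem_image_of_mem _ hx, by rw [mem_filter]; exact ⟨mem_univ _, rfl⟩⟩
    refine (card_le_card h1).trans (card_biUnion_le.trans ?_)
    have h2 : ∀ c ∈ D, (univ.filter fun x : ZMod N => T * x.val / N = c).card ≤ N / T + 1 := by
      intro c _
      refine le_trans ?_ (fiber N T c hT)
      refine card_le_card_of_injOn (fun x => x.val) ?_ ?_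
      · intro x hx
        simp only [coe_filter, mem_univ, true_and, Set.mem_setOf_eq] at hx ⊢
        exact ⟨by rw [mem_range]; exact ZMod.val_lt x, hx⟩
      · intro x _ y _ h; exact ZMod.val_injective N h
    refine (sum_le_sum h2).trans ?_
    rw [sum_const, smul_eq_mul]
  have hq : ∀ M : ℕ, 0 < M → M ≤ N → ((N / M + 1 : ℕ) : ℝ) ≤ 2 * N / M := by
    intro M hM hMN
    have hM0 : (0 : ℝ) < M := by exact_mod_cast hM
    have h1 : ((N / M : ℕ) : ℝ) ≤ N / M := Nat.cast_div_le
    have h2 : (1 : ℝ) ≤ N / M := by rw [le_div_iff₀ hM0, one_mul]; exact_mod_cast hMN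
    push_cast
    rw [mul_div_assoc]; linarith
  have hD2 : κ * T / 2 ≤ D.card := by
    have h1 : (U'.card : ℝ) ≤ D.card * (2 * N / T) := by
      calc (U'.card : ℝ) ≤ ((D.card * (N / T + 1) : ℕ) : ℝ) := by exact_mod_cast hUD
        _ = D.card * ((N / T + 1 : ℕ) : ℝ) := by push_cast; ring
        _ ≤ _ := by gcongr; exact hq T hT hTN
    have h2 : κ * N ≤ D.card * (2 * N / T) := hU'.trans h1
    have h3 : D.card * (2 * N / T) = (D.card * 2 / T) * (N : ℝ) := by ring
    rw [h3] at h2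
    have h4 := le_of_mul_le_mul_right h2 hNp
    rw [le_div_iff₀ hTp] at h4
    linarith
  have hVc : (V.card : ℝ) ≤ T * (1 - κ / 2) := by
    have : (V.card : ℝ) + D.card ≤ T := by exact_mod_cast hcard
    nlinarith
  have hsub : (univ.filter fun x : ZMod N => ∀ i < J, ((T : ZMod N) ^ i) * x ∉ U) ⊆
      (univ.filter fun x : ZMod N => ∀ i < J, dg T (((T : ZMod N) ^ i) * x) ∈ V) := by
    intro x hx
    rw [mem_filter] at hx ⊢
    refine ⟨mem_univ _, fun i hi => ?_⟩
    rw [hV, mem_filter, mem_range]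
    exact ⟨dg_lt hT _, _, hx.2 i hi, rfl⟩
  have h1 := (card_le_card hsub).trans (orbit_count hT V)
  have hk : 0 ≤ 1 - κ / 2 := by linarith
  have hTJp : (0 : ℝ) < (T : ℝ) ^ J := by positivity
  calc ((univ.filter fun x : ZMod N => ∀ i < J, ((T : ZMod N) ^ i) * x ∉ U).card : ℝ)
      ≤ ((V.card ^ J * (N / T ^ J + 1) : ℕ) : ℝ) := by exact_mod_cast h1
    _ = (V.card : ℝ) ^ J * ((N / T ^ J + 1 : ℕ) : ℝ) := by push_cast; ring
    _ ≤ (T * (1 - κ / 2)) ^ J * (2 * N / ((T ^ J : ℕ) : ℝ)) := by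
        gcongr
        exact hq (T ^ J) (pow_pos hT J) hTJ
    _ = 2 * N * (1 - κ / 2) ^ J := by
        rw [mul_pow]; push_cast; field_simp

/-- the half interval in the same cell -/
lemma cell {T l g : ℕ} (hT : 2 * l * g ≤ T) (x x' : ZMod N)
    (hx' : (g : ZMod N) * x' ∈ II N (2 * l)) (hd : dg T x = dg T x') : (g : ZMod N) * x ∈ II N l := by
  rw [mem_II] at hx' ⊢
  have hNp : 0 < N := NeZero.pos N
  obtain ⟨w, hw⟩ : ∃ w : ℤ, w = ((g : ZMod N) * x').valMinAbs := ⟨_, rfl⟩
  rw [← hw] at hx'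
  obtain ⟨v, hv⟩ : ∃ v : ℤ, v = ((x.val : ℕ) : ℤ) := ⟨_, rfl⟩
  obtain ⟨v', hv'⟩ : ∃ v : ℤ, v = ((x'.val : ℕ) : ℤ) := ⟨_, rfl⟩
  have hcast : (((w + g * (v - v') : ℤ)) : ZMod N) = (g : ZMod N) * x := by
    push_cast
    rw [hw, ZMod.coe_valMinAbs, hv, hv']
    push_cast
    rw [ZMod.natCast_zmod_val, ZMod.natCast_zmod_val]
    ring
  have hle : ((g : ZMod N) * x).valMinAbs.natAbs ≤ (w + g * (v - v')).natAbs := by
    apply ZMod.natAbs_min_of_le_div_two N
    · rw [ZMod.coe_valMinAbs, hcast]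
    · exact ZMod.natAbs_valMinAbs_le _
  refine lt_of_le_of_lt (Nat.mul_le_mul_right l hle) ?_
  -- the digits
  unfold dg at hd
  have hlo : ∀ u : ℕ, (N : ℤ) * ((T * u / N : ℕ) : ℤ) ≤ (T : ℤ) * u ∧
      (T : ℤ) * u < (N : ℤ) * ((T * u / N : ℕ) : ℤ) + N := by
    intro u
    have h1 := Nat.div_add_mod (T * u) N
    have h2 := Nat.mod_lt (T * u) hNp
    constructor
    · have : N * (T * u / N) ≤ T * u := by omega
      exact_mod_cast this
    · have : T * u < N * (T * u / N) + N := by omega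
      exact_mod_cast this
  have h1 := hlo x.val
  have h2 := hlo x'.val
  rw [hd] at h1
  rw [← hv] at h1
  rw [← hv'] at h2
  have h3 : |(T : ℤ) * (v - v')| < N := by
    rw [abs_lt, mul_sub]
    constructor <;> linarith [h1.1, h1.2, h2.1, h2.2]
  have h4 : |w| * (2 * l) < N := by
    rw [Int.abs_eq_natAbs]; exact_mod_cast hx'
  have hT0 : (0 : ℤ) ≤ T := by positivity
  rw [abs_mul, abs_of_nonneg hT0] at h3
  have h5 : (2 * l * g : ℤ) ≤ T := by exact_mod_cast hT
  have h6 : (2 * l * g : ℤ) * |v - v'| ≤ T * |v - v'| := mul_le_mul_of_nonneg_right h5 (abs_nonneg _)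
  have h7 : |w + g * (v - v')| ≤ |w| + g * |v - v'| := by
    refine (abs_add_le _ _).trans ?_
    rw [abs_mul, abs_of_nonneg (by positivity : (0 : ℤ) ≤ (g : ℤ))]
  have h8 : |w + g * (v - v')| * l < N := by
    have hl0 : (0 : ℤ) ≤ l := by positivity
    nlinarith [mul_le_mul_of_nonneg_right h7 hl0]
  rw [Int.abs_eq_natAbs] at h8
  exact_mod_cast h8

/-- the number of `x` with two dilates in the short interval -/
lemma pair_count {a b l : ℕ} (hl : 0 < l) (hb : 0 < b) (hba : b ≤ a) (hab : a.Coprime b)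
    (haN : a.Coprime N) :
    (univ.filter fun x : ZMod N => (a : ZMod N) * x ∈ II N l ∧ (b : ZMod N) * x ∈ II N l).card ≤
      (2 * ((a + b) / l) + 1) * (2 * (N / l / a) + 2) := by
  classical
  have ha : 0 < a := lt_of_lt_of_le hb hba
  have hNp : 0 < N := NeZero.pos N
  set u : ZMod N → ℤ := fun x => ((a : ZMod N) * x).valMinAbs with hu
  set v : ZMod N → ℤ := fun x => ((b : ZMod N) * x).valMinAbs with hv
  have hdvd : ∀ x : ZMod N, (N : ℤ) ∣ b * u x - a * v x := by
    intro x
    rw [← ZMod.intCast_zmod_eq_zero_iff_dvd]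
    push_cast
    rw [hu, hv]
    simp only
    rw [ZMod.coe_valMinAbs, ZMod.coe_valMinAbs]
    ring
  obtain ⟨K, hK⟩ : ∃ K : ℤ, K = (((a + b) / l : ℕ) : ℤ) := ⟨_, rfl⟩
  obtain ⟨R, hR⟩ : ∃ R : ℤ, R = ((N / l / a : ℕ) : ℤ) := ⟨_, rfl⟩
  set S := univ.filter fun x : ZMod N => (a : ZMod N) * x ∈ II N l ∧ (b : ZMod N) * x ∈ II N l with hS
  have hcardT : ((Icc (-K) K) ×ˢ (Icc (-R - 1) R)).card =
      (2 * ((a + b) / l) + 1) * (2 * (N / l / a) + 2) := by
    rw [card_product, Int.card_Icc, Int.card_Icc]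
    congr 1
    · rw [hK]; omega
    · rw [hR]; omega
  rw [← hcardT]
  have hNZ : (0 : ℤ) < N := by exact_mod_cast hNp
  have haZ : (0 : ℤ) < a := by exact_mod_cast ha
  have hbZ : (0 : ℤ) < b := by exact_mod_cast hb
  have hlZ : (0 : ℤ) < l := by exact_mod_cast hl
  refine card_le_card_of_injOn (fun x => ((b * u x - a * v x) / N, u x / a)) ?_ ?_
  · intro x hx
    rw [hS, coe_filter, Set.mem_setOf_eq, mem_II, mem_II] at hx
    obtain ⟨_, hx1, hx2⟩ := hx
    have h1 : |u x| * l < N := by rw [Int.abs_eq_natAbs]; exact_mod_cast hx1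
    have h2 : |v x| * l < N := by rw [Int.abs_eq_natAbs]; exact_mod_cast hx2
    obtain ⟨k, hk⟩ := hdvd x
    simp only [coe_product, Set.mem_prod, mem_coe, mem_Icc]
    have hkd : (b * u x - a * v x) / (N : ℤ) = k := by
      rw [hk]; exact Int.mul_ediv_cancel_left k hNZ.ne'
    rw [hkd]
    have h3 : |k| * l < a + b := by
      have h4 : (N : ℤ) * |k| ≤ b * |u x| + a * |v x| := by
        have : |(N : ℤ) * k| = N * |k| := by rw [abs_mul, abs_of_pos hNZ]
        rw [← this, ← hk]
        refine (abs_sub _ _).trans ?_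
        rw [abs_mul, abs_mul, abs_of_pos haZ, abs_of_pos hbZ]
      have h5 : (N : ℤ) * (|k| * l) < N * (a + b) := by
        have e1 := mul_le_mul_of_nonneg_right h4 hlZ.le
        have e2 := mul_lt_mul_of_pos_left h1 hbZ
        have e3 := mul_lt_mul_of_pos_left h2 haZ
        nlinarith
      exact lt_of_mul_lt_mul_left h5 hNZ.le
    have h4 : |k| ≤ K := by
      rw [hK]
      have h5 : k.natAbs ≤ (a + b) / l := by
        rw [Nat.le_div_iff_mul_le hl]
        rw [Int.abs_eq_natAbs] at h3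
        have : k.natAbs * l < a + b := by exact_mod_cast h3
        omega
      rw [Int.abs_eq_natAbs]; exact_mod_cast h5
    refine ⟨abs_le.1 h4, ?_⟩
    have h5 : |u x| ≤ ((N / l : ℕ) : ℤ) := by
      have h6 : (u x).natAbs ≤ N / l := by
        rw [Nat.le_div_iff_mul_le hl]
        rw [Int.abs_eq_natAbs] at h1
        have : (u x).natAbs * l < N := by exact_mod_cast h1
        omega
      rw [Int.abs_eq_natAbs]; exact_mod_cast h6
    rw [abs_le] at h5
    have h6 : ((N / l : ℕ) : ℤ) < a * (R + 1) := by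
      rw [hR]
      have := Nat.lt_mul_div_succ (N / l) ha
      exact_mod_cast this
    constructor
    · rw [Int.le_ediv_iff_mul_le haZ]
      nlinarith [h5.1]
    · have : u x / (a : ℤ) < R + 1 := by
        rw [Int.ediv_lt_iff_lt_mul haZ]
        nlinarith [h5.2]
      omega
  · intro x hx y hy hxy
    simp only [Prod.mk.injEq] at hxy
    obtain ⟨h1, h2⟩ := hxy
    obtain ⟨k, hk⟩ := hdvd x
    obtain ⟨k', hk'⟩ := hdvd y
    rw [hk, hk', Int.mul_ediv_cancel_left k hNZ.ne', Int.mul_ediv_cancel_left k' hNZ.ne'] at h1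
    have h3 : (b : ℤ) * (u x - u y) = a * (v x - v y) := by
      rw [h1] at hk; linarith
    have h4 : (a : ℤ) ∣ b * (u x - u y) := ⟨_, h3⟩
    have h5 : (a : ℤ) ∣ u x - u y := by
      refine IsCoprime.dvd_of_dvd_mul_left ?_ h4
      exact Nat.isCoprime_iff_coprime.2 hab
    have h6 : u x = u y := by
      have e1 : u x % a = u y % a := Int.emod_eq_emod_iff_emod_sub_eq_zero.2 (Int.emod_eq_zero_of_dvd h5)
      have e2 := Int.emod_add_mul_ediv (u x) a
      have e3 := Int.emod_add_mul_ediv (u y) a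
      rw [e1, h2] at e2
      linarith
    have h7 : (a : ZMod N) * x = (a : ZMod N) * y := by
      have := congrArg (fun z : ℤ => (z : ZMod N)) h6
      simpa [hu] using this
    obtain ⟨w, hw⟩ := isUnit_cast (N := N) haN
    rw [← hw] at h7
    exact (Units.mul_right_inj w).1 h7

end Z

end Pool.Agent.T2H22.LG
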