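import Pool.Agent.T2H22.LG.B

set_option autoImplicit false
set_option linter.all false

/-!
# Second moment and the bound for the exceptions of a dilation
-/

namespace Pool.Agent.T2H22.LG

open Finset

section Z

variable {N : ℕ} [NeZero N]

lemma II_card {l : ℕ} (hl : 2 ≤ l) : (N : ℝ) / l ≤ ((II N l).card : ℝ) := by
  have hNp : 0 < N := NeZero.pos N
  have hl0 : (0 : ℝ) < l := by exact_mod_cast (by omega : 0 < l)
  have h1 : ⌈(N : ℝ) / l⌉₊ ≤ (II N l).card := by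
    rw [← card_range ⌈(N : ℝ) / l⌉₊]
    refine card_le_card_of_injOn (fun n => (n : ZMod N)) ?_ ?_
    · intro n hn
      simp only [mem_coe, mem_range] at hn ⊢
      rw [Nat.lt_ceil, lt_div_iff₀ hl0] at hn
      have hn' : n * l < N := by exact_mod_cast hn
      have hn2 : n ≤ N / 2 := by
        rw [Nat.le_div_iff_mul_le (by norm_num)]
        nlinarith
      rw [mem_II, ZMod.valMinAbs_natCast_of_le_half hn2]
      simpa using hn'
    · intro n hn m hm h
      simp only [coe_range, Set.mem_Iio] at hn hm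
      rw [Nat.lt_ceil, lt_div_iff₀ hl0] at hn hm
      have hn' : n * l < N := by exact_mod_cast hn
      have hm' : m * l < N := by exact_mod_cast hm
      have hnN : n < N := by nlinarith
      have hmN : m < N := by nlinarith
      have := congrArg ZMod.val h
      simpa [ZMod.val_natCast_of_lt hnN, ZMod.val_natCast_of_lt hmN] using this
  calc (N : ℝ) / l ≤ ⌈(N : ℝ) / l⌉₊ := Nat.le_ceil _
    _ ≤ _ := by exact_mod_cast h1

/-- number of `x` with both dilates short -/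
noncomputable def cnt (N : ℕ) [NeZero N] (l a b : ℕ) : ℕ :=
  (univ.filter fun x : ZMod N => (a : ZMod N) * x ∈ II N l ∧ (b : ZMod N) * x ∈ II N l).card

lemma cnt_comm (l a b : ℕ) : cnt N l a b = cnt N l b a := by
  unfold cnt
  congr 1
  ext x
  simp only [mem_filter, mem_univ, true_and]
  exact and_comm

lemma cnt_dil {l a b d : ℕ} (hd : d.Coprime N) : cnt N l (d * a) (d * b) = cnt N l a b := by
  unfold cnt
  conv_rhs => rw [← card_preim hd]
  congr 1
  ext x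
  simp only [mem_filter, mem_univ, true_and]
  push_cast
  rw [mul_comm (d : ZMod N) a, mul_comm (d : ZMod N) b, mul_assoc, mul_assoc]

lemma cnt_real {l a b : ℕ} (hl : 0 < l) (hb : 0 < b) (hba : b ≤ a) (hab : a.Coprime b)
    (haN : a.Coprime N) (h8 : 8 * a * l ≤ N) (hl2 : 2 * l ^ 2 ≤ N) {m : ℝ} (hm : 0 < m)
    (hma : m ≤ a) : (cnt N l a b : ℝ) ≤ 10 * N / l ^ 2 + 2 * N / l * m⁻¹ := by
  have h1 := pair_count hl hb hba hab haN
  have hl0 : (0 : ℝ) < l := by exact_mod_cast hl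
  have ha0 : (0 : ℝ) < a := by exact_mod_cast lt_of_lt_of_le hb hba
  have hNp : (0 : ℝ) < N := by exact_mod_cast NeZero.pos N
  have hba' : (b : ℝ) ≤ a := by exact_mod_cast hba
  have h2 : (((a + b) / l : ℕ) : ℝ) ≤ 2 * a / l := by
    refine (Nat.cast_div_le).trans ?_
    push_cast
    gcongr
    linarith
  have h3 : ((N / l / a : ℕ) : ℝ) ≤ N / l / a := by
    refine (Nat.cast_div_le).trans ?_
    gcongr
    exact Nat.cast_div_le
  have h8' : (8 : ℝ) * a * l ≤ N := by exact_mod_cast h8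
  have hl2' : (2 : ℝ) * l ^ 2 ≤ N := by exact_mod_cast hl2
  have e1 : 8 * (a : ℝ) / l ≤ N / l ^ 2 := by
    rw [div_le_div_iff₀ hl0 (by positivity)]
    nlinarith
  have e2 : (2 : ℝ) ≤ N / l ^ 2 := by
    rw [le_div_iff₀ (by positivity)]; exact hl2'
  have e3 : 2 * ((N : ℝ) / l / a) ≤ 2 * N / l * m⁻¹ := by
    rw [mul_div_assoc 2 (N : ℝ) (l : ℝ), mul_assoc]
    gcongr
    rw [div_eq_mul_inv]
    gcongr
  calc (cnt N l a b : ℝ) ≤ (((2 * ((a + b) / l) + 1) * (2 * (N / l / a) + 2) : ℕ) : ℝ) := by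
        exact_mod_cast h1
    _ = (2 * (((a + b) / l : ℕ) : ℝ) + 1) * (2 * ((N / l / a : ℕ) : ℝ) + 2) := by push_cast; ring
    _ ≤ (2 * (2 * a / l) + 1) * (2 * (N / l / a) + 2) := by gcongr
    _ = 8 * N / l ^ 2 + 8 * a / l + 2 * (N / l / a) + 2 := by field_simp; ring
    _ ≤ 8 * N / l ^ 2 + N / l ^ 2 + 2 * N / l * m⁻¹ + N / l ^ 2 := by linarith
    _ = _ := by ring

/-- weights -/
noncomputable def ww (Y : ℕ) (q q' : ℕ) : ℝ := if q = q' then 1 else (Y : ℝ)⁻¹

lemma ww_pos {Y : ℕ} (hY : 0 < Y) (q q' : ℕ) : 0 < ww Y q q' := by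
  unfold ww; split_ifs
  · norm_num
  · positivity

lemma sum_ww {Y : ℕ} (hY : 0 < Y) (P : Finset ℕ) (hP : P.card ≤ 16 * Y) :
    ∑ q ∈ P, ∑ q' ∈ P, ww Y q q' ≤ 17 * P.card := by
  have hY0 : (0 : ℝ) < Y := by exact_mod_cast hY
  have h1 : ∀ q ∈ P, ∑ q' ∈ P, ww Y q q' ≤ 17 := by
    intro q hq
    have h2 : ∀ q' ∈ P, ww Y q q' ≤ (if q = q' then 1 else 0) + (Y : ℝ)⁻¹ := by
      intro q' _
      unfold ww
      split_ifs
      · have : 0 < (Y : ℝ)⁻¹ := by positivity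
        linarith
      · linarith
    refine (sum_le_sum h2).trans ?_
    rw [sum_add_distrib, sum_ite_eq, if_pos hq, sum_const, nsmul_eq_mul]
    have : (P.card : ℝ) ≤ 16 * Y := by exact_mod_cast hP
    have h3 : (P.card : ℝ) * (Y : ℝ)⁻¹ ≤ 16 := by
      rw [← div_eq_mul_inv, div_le_iff₀ hY0]; exact this
    linarith
  refine (sum_le_sum h1).trans ?_
  rw [sum_const, nsmul_eq_mul]
  linarith

lemma second_moment {P1 P2 : Finset ℕ} {Y l : ℕ} (hl : 2 ≤ l) (hY : 0 < Y)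
    (h1 : ∀ q ∈ P1, q.Prime ∧ Y ≤ q ∧ q.Coprime N) (h2 : ∀ q ∈ P2, q.Prime ∧ Y ≤ q ∧ q.Coprime N)
    (hdisj : Disjoint P1 P2) (hc1 : P1.card ≤ 16 * Y) (hc2 : P2.card ≤ 16 * Y)
    (hG : ∀ q ∈ P1, ∀ q' ∈ P2, 8 * (q * q') * l ≤ N) (hl2 : 2 * l ^ 2 ≤ N)
    (hbig : 58 * l ≤ P1.card * P2.card) :
    (1 / 20 : ℝ) * N ≤ ((univ.filter fun x : ZMod N => ∃ w ∈ P1 ×ˢ P2,
      ((w.1 * w.2 : ℕ) : ZMod N) * x ∈ II N l).card : ℝ) := by
  classical
  have hNp : (0 : ℝ) < N := by exact_mod_cast NeZero.pos N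
  have hl0 : (0 : ℝ) < l := by exact_mod_cast (by omega : 0 < l)
  set P := P1 ×ˢ P2 with hP
  set I := II N l with hI
  set U := univ.filter fun x : ZMod N => ∃ w ∈ P, ((w.1 * w.2 : ℕ) : ZMod N) * x ∈ I with hU
  set c : ZMod N → ℝ := fun x => ∑ w ∈ P, if ((w.1 * w.2 : ℕ) : ZMod N) * x ∈ I then 1 else 0 with hc
  have hcop : ∀ w ∈ P, (w.1 * w.2).Coprime N := by
    intro w hw
    rw [hP, mem_product] at hw
    exact Nat.Coprime.mul_left (h1 _ hw.1).2.2 (h2 _ hw.2).2.2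
  have hPc : (P.card : ℝ) = (P1.card : ℝ) * P2.card := by rw [hP, card_product]; push_cast; ring
  have hsum1 : ∑ x : ZMod N, c x = P.card * I.card := by
    rw [hc, sum_comm]
    rw [sum_congr rfl (g := fun _ => (I.card : ℝ))]
    · rw [sum_const, nsmul_eq_mul]
    · intro w hw
      rw [← card_preim (hcop w hw) I, card_filter]
      push_cast
      rfl
  have hsq : ∑ x : ZMod N, c x ^ 2 = ∑ w ∈ P, ∑ w' ∈ P, (cnt N l (w.1 * w.2) (w'.1 * w'.2) : ℝ) := by
    have e1 : ∀ x : ZMod N, c x ^ 2 = ∑ w ∈ P, ∑ w' ∈ P,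
        if ((w.1 * w.2 : ℕ) : ZMod N) * x ∈ I ∧ ((w'.1 * w'.2 : ℕ) : ZMod N) * x ∈ I then (1 : ℝ) else 0 := by
      intro x
      rw [hc, sq, sum_mul_sum]
      refine sum_congr rfl fun w _ => sum_congr rfl fun w' _ => ?_
      split_ifs <;> simp_all
    rw [sum_congr rfl fun x _ => e1 x, sum_comm]
    refine sum_congr rfl fun w _ => ?_
    rw [sum_comm]
    refine sum_congr rfl fun w' _ => ?_
    unfold cnt
    rw [card_filter]
    push_cast
    rfl
  have hpt : ∀ w ∈ P, ∀ w' ∈ P, (cnt N l (w.1 * w.2) (w'.1 * w'.2) : ℝ) ≤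
      10 * N / l ^ 2 + 2 * N / l * (ww Y w.1 w'.1 * ww Y w.2 w'.2) := by
    intro w hw w' hw'
    rw [hP, mem_product] at hw hw'
    obtain ⟨p1, y1, n1⟩ := h1 _ hw.1
    obtain ⟨p2, y2, n2⟩ := h2 _ hw.2
    obtain ⟨p1', y1', n1'⟩ := h1 _ hw'.1
    obtain ⟨p2', y2', n2'⟩ := h2 _ hw'.2
    have g1 := hG _ hw.1 _ hw.2
    have g2 := hG _ hw'.1 _ hw'.2
    have hY0 : (0 : ℝ) < Y := by exact_mod_cast hY
    have hlp : 0 < l := by omega
    -- a symmetric version
    have key : ∀ a b : ℕ, 0 < a → 0 < b → a.Coprime b → a.Coprime N → b.Coprime N → 8 * a * l ≤ N →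
        8 * b * l ≤ N → ∀ m : ℝ, 0 < m → m ≤ a → m ≤ b →
        (cnt N l a b : ℝ) ≤ 10 * N / l ^ 2 + 2 * N / l * m⁻¹ := by
      intro a b ha hb hab haN hbN h8a h8b m hm hma hmb
      rcases le_total b a with h | h
      · exact cnt_real hlp hb h hab haN h8a hl2 hm hma
      · rw [cnt_comm]
        exact cnt_real hlp ha h hab.symm hbN h8b hl2 hm hmb
    have small : ∀ a b c : ℕ, 0 < c → 8 * (a * b) * l ≤ N → a ≤ a * b → 8 * a * l ≤ N := by
      intro a b c _ h hab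
      refine le_trans ?_ h
      gcongr
    by_cases e1 : w.1 = w'.1
    · by_cases e2 : w.2 = w'.2
      · -- equal
        rw [← e1, ← e2]
        have hd : cnt N l (w.1 * w.2) (w.1 * w.2) = cnt N l 1 1 := by
          have := cnt_dil (N := N) (l := l) (a := 1) (b := 1) (hcop w (by rw [hP, mem_product]; exact hw))
          rwa [mul_one] at this
        rw [hd]
        unfold ww
        rw [if_pos rfl, if_pos rfl, mul_one]
        have := key 1 1 one_pos one_pos (Nat.coprime_one_left 1) (Nat.coprime_one_left N)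
          (Nat.coprime_one_left N) (le_trans (by
            have : 1 ≤ w.1 * w.2 := Nat.mul_pos p1.pos p2.pos
            gcongr) g1) (le_trans (by
            have : 1 ≤ w.1 * w.2 := Nat.mul_pos p1.pos p2.pos
            gcongr) g1) 1 one_pos (by norm_num) (by norm_num)
        simpa using this
      · rw [← e1, cnt_dil n1]
        unfold ww
        rw [if_pos rfl, if_neg e2, one_mul]
        refine key w.2 w'.2 p2.pos p2'.pos ((Nat.coprime_primes p2 p2').2 e2) n2 n2' ?_ ?_ Y hY0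
          (by exact_mod_cast y2) (by exact_mod_cast y2')
        · refine le_trans ?_ g1
          have : w.2 ≤ w.1 * w.2 := Nat.le_mul_of_pos_left _ p1.pos
          gcongr
        · refine le_trans ?_ g2
          have : w'.2 ≤ w'.1 * w'.2 := Nat.le_mul_of_pos_left _ p1'.pos
          gcongr
    · by_cases e2 : w.2 = w'.2
      · rw [← e2, mul_comm w.1, mul_comm w'.1, cnt_dil n2]
        unfold ww
        rw [if_neg e1, if_pos rfl, mul_one]
        refine key w.1 w'.1 p1.pos p1'.pos ((Nat.coprime_primes p1 p1').2 e1) n1 n1' ?_ ?_ Y hY0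
          (by exact_mod_cast y1) (by exact_mod_cast y1')
        · refine le_trans ?_ g1
          have : w.1 ≤ w.1 * w.2 := Nat.le_mul_of_pos_right _ p2.pos
          gcongr
        · refine le_trans ?_ g2
          have : w'.1 ≤ w'.1 * w'.2 := Nat.le_mul_of_pos_right _ p2'.pos
          gcongr
      · unfold ww
        rw [if_neg e1, if_neg e2, ← mul_inv]
        have hne1 : w.1 ≠ w'.2 := fun h => Finset.disjoint_left.1 hdisj hw.1 (h ▸ hw'.2)
        have hne2 : w.2 ≠ w'.1 := fun h => Finset.disjoint_left.1 hdisj hw'.1 (h ▸ hw.2)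
        refine key _ _ (Nat.mul_pos p1.pos p2.pos) (Nat.mul_pos p1'.pos p2'.pos) ?_
          (n1.mul_left n2) (n1'.mul_left n2') g1 g2 _ (by positivity) ?_ ?_
        · exact Nat.Coprime.mul_left
            (Nat.Coprime.mul_right ((Nat.coprime_primes p1 p1').2 e1) ((Nat.coprime_primes p1 p2').2 hne1))
            (Nat.Coprime.mul_right ((Nat.coprime_primes p2 p1').2 hne2) ((Nat.coprime_primes p2 p2').2 e2))
        · push_cast
          exact mul_le_mul (by exact_mod_cast y1) (by exact_mod_cast y2) hY0.le (by positivity)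
        · push_cast
          exact mul_le_mul (by exact_mod_cast y1') (by exact_mod_cast y2') hY0.le (by positivity)
  have hW : ∑ w ∈ P, ∑ w' ∈ P, (ww Y w.1 w'.1 * ww Y w.2 w'.2) ≤ 289 * P.card := by
    have e1 : ∑ w ∈ P, ∑ w' ∈ P, (ww Y w.1 w'.1 * ww Y w.2 w'.2) =
        (∑ q ∈ P1, ∑ q' ∈ P1, ww Y q q') * (∑ q ∈ P2, ∑ q' ∈ P2, ww Y q q') := by
      rw [hP, sum_product, sum_mul_sum]
      refine sum_congr rfl fun q _ => sum_congr rfl fun q2 _ => ?_
      rw [sum_product, sum_mul_sum]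
    rw [e1, hPc]
    have f1 := sum_ww hY P1 hc1
    have f2 := sum_ww hY P2 hc2
    have g1 : 0 ≤ ∑ q ∈ P1, ∑ q' ∈ P1, ww Y q q' := sum_nonneg fun _ _ => sum_nonneg fun _ _ => (ww_pos hY _ _).le
    have g2 : 0 ≤ ∑ q ∈ P2, ∑ q' ∈ P2, ww Y q q' := sum_nonneg fun _ _ => sum_nonneg fun _ _ => (ww_pos hY _ _).le
    calc _ ≤ (17 * (P1.card : ℝ)) * (17 * P2.card) := mul_le_mul f1 f2 g2 (by positivity)
      _ = _ := by ring
  have htot : ∑ x : ZMod N, c x ^ 2 ≤ 20 * N * P.card ^ 2 / l ^ 2 := by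
    rw [hsq]
    refine (sum_le_sum fun w hw => sum_le_sum fun w' hw' => hpt w hw w' hw').trans ?_
    simp only [sum_add_distrib, sum_const, nsmul_eq_mul, ← mul_sum]
    have hb : (58 : ℝ) * l ≤ P.card := by
      rw [hPc]; exact_mod_cast hbig
    have e1 : 2 * (N : ℝ) / l * ∑ w ∈ P, ∑ w' ∈ P, (ww Y w.1 w'.1 * ww Y w.2 w'.2) ≤
        2 * N / l * (289 * P.card) := by gcongr
    have e2 : 2 * (N : ℝ) / l * (289 * P.card) ≤ 10 * N * P.card ^ 2 / l ^ 2 := by
      rw [div_mul_eq_mul_div, div_le_div_iff₀ hl0 (by positivity)]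
      have : 0 ≤ (N : ℝ) * l * P.card * (P.card - 57.8 * l) := by
        have : 0 ≤ (P.card : ℝ) - 57.8 * l := by linarith
        positivity
      nlinarith
    have e3 : (P.card : ℝ) * (P.card * (10 * N / l ^ 2)) = 10 * N * P.card ^ 2 / l ^ 2 := by ring
    rw [e3]
    calc _ ≤ 10 * N * (P.card : ℝ) ^ 2 / l ^ 2 + 10 * N * P.card ^ 2 / l ^ 2 := by linarith
      _ = _ := by ring
  have hCS : (∑ x : ZMod N, c x) ^ 2 ≤ U.card * ∑ x : ZMod N, c x ^ 2 := by
    have e1 : ∑ x : ZMod N, c x = ∑ x ∈ U, c x := by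
      symm
      apply sum_subset (subset_univ _)
      intro x _ hx
      rw [hc]
      apply sum_eq_zero
      intro w hw
      rw [if_neg]
      intro h
      exact hx (by rw [hU, mem_filter]; exact ⟨mem_univ _, w, hw, h⟩)
    rw [e1]
    refine (sq_sum_le_card_mul_sum_sq).trans ?_
    apply mul_le_mul_of_nonneg_left _ (Nat.cast_nonneg _)
    exact sum_le_sum_of_subset_of_nonneg (subset_univ _) fun _ _ _ => sq_nonneg _
  rw [hsum1] at hCS
  have hIc := II_card (N := N) hl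
  have hPpos : (0 : ℝ) < P.card := by
    have : (58 : ℝ) * l ≤ P.card := by rw [hPc]; exact_mod_cast hbig
    linarith
  have e1 : ((P.card : ℝ) * (N / l)) ^ 2 ≤ U.card * (20 * N * P.card ^ 2 / l ^ 2) := by
    calc ((P.card : ℝ) * (N / l)) ^ 2 ≤ ((P.card : ℝ) * I.card) ^ 2 := by gcongr
      _ ≤ U.card * ∑ x : ZMod N, c x ^ 2 := hCS
      _ ≤ _ := by gcongr
  have e2 : ((P.card : ℝ) * (N / l)) ^ 2 = N * (N * P.card ^ 2 / l ^ 2) := by
    field_simp
  have e3 : (U.card : ℝ) * (20 * N * P.card ^ 2 / l ^ 2) = (20 * U.card) * (N * P.card ^ 2 / l ^ 2) := by ring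
  rw [e2, e3] at e1
  have e4 : (N : ℝ) ≤ 20 * U.card := le_of_mul_le_mul_right e1 (by positivity)
  linarith

/-- the bound for the exceptions at `l` -/
lemma Ex_bound {l T J : ℕ} (hl : 0 < l) (hlN : l.Coprime N) (hT : 0 < T) (hTc : T.Coprime N)
    (hTN : T ≤ N) (hTJ : T ^ J ≤ N) (G : Finset ℕ) (hG : ∀ g ∈ G, 0 < g ∧ g.Coprime N ∧ 2 * l * g ≤ T)
    {κ : ℝ} (hκ0 : 0 ≤ κ) (hκ1 : κ ≤ 1)
    (hU' : κ * N ≤ ((univ.filter fun x : ZMod N => ∃ g ∈ G, (g : ZMod N) * x ∈ II N (2 * l)).card : ℝ))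
    {e0 e1 e2 : ℝ} (he0 : ((E0 N).card : ℝ) ≤ e0) (he1 : ∀ g ∈ G, ((Ex N g).card : ℝ) ≤ e1)
    (he2 : ((Ex N T).card : ℝ) ≤ e2) :
    ((Ex N l).card : ℝ) ≤ 2 * N * (1 - κ / 2) ^ J + J * G.card * (2 * (e1 + J * e2) + 2 * e0) := by
  classical
  have he0' : 0 ≤ e0 := (Nat.cast_nonneg _).trans he0
  have he2' : 0 ≤ e2 := (Nat.cast_nonneg _).trans he2
  set H := (range J ×ˢ G).image fun w => T ^ w.1 * w.2 with hH
  have hHc : ∀ h ∈ H, 0 < h ∧ h.Coprime N := by
    intro h hh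
    rw [hH, mem_image] at hh
    obtain ⟨w, hw, rfl⟩ := hh
    rw [mem_product] at hw
    exact ⟨Nat.mul_pos (pow_pos hT _) (hG _ hw.2).1, (hTc.pow_left _).mul_left (hG _ hw.2).2.1⟩
  have h1 := Ex_le hl hlN H hHc
  set U := univ.filter fun x : ZMod N => ∃ g ∈ G, (g : ZMod N) * x ∈ II N l with hU
  have h2 : (univ.filter fun x : ZMod N => ∀ h ∈ H, (h : ZMod N) * x ∉ II N l) ⊆
      (univ.filter fun x : ZMod N => ∀ i < J, ((T : ZMod N) ^ i) * x ∉ U) := by
    intro x hx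
    rw [mem_filter] at hx ⊢
    refine ⟨mem_univ _, fun i hi hc => ?_⟩
    rw [hU, mem_filter] at hc
    obtain ⟨_, g, hg, hgx⟩ := hc
    refine hx.2 (T ^ i * g) ?_ ?_
    · rw [hH, mem_image]
      exact ⟨(i, g), by rw [mem_product, mem_range]; exact ⟨hi, hg⟩, rfl⟩
    · have : ((T ^ i * g : ℕ) : ZMod N) * x = (g : ZMod N) * ((T : ZMod N) ^ i * x) := by
        push_cast; ring
      rw [this]; exact hgx
  have h3 := blocks (N := N) (J := J) hT hTN hTJ U
    (univ.filter fun x : ZMod N => ∃ g ∈ G, (g : ZMod N) * x ∈ II N (2 * l)) (by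
      intro x x' hx' hd
      rw [mem_filter] at hx'
      obtain ⟨_, g, hg, hgx⟩ := hx'
      rw [hU, mem_filter]
      exact ⟨mem_univ _, g, hg, cell (hG g hg).2.2 x x' hgx hd⟩) hκ0 hκ1 hU'
  have h4 : ((univ.filter fun x : ZMod N => ∀ h ∈ H, (h : ZMod N) * x ∉ II N l).card : ℝ) ≤
      2 * N * (1 - κ / 2) ^ J := by
    refine le_trans ?_ h3
    exact_mod_cast card_le_card h2
  have h5 : ∀ h ∈ H, (2 * ((Ex N h).card : ℝ) + 2 * ((E0 N).card : ℝ)) ≤ 2 * (e1 + J * e2) + 2 * e0 := by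
    intro h hh
    rw [hH, mem_image] at hh
    obtain ⟨w, hw, rfl⟩ := hh
    rw [mem_product, mem_range] at hw
    have a1 := Ex_mul (N := N) (pow_pos hT w.1) (hG _ hw.2).1 (hG _ hw.2).2.1
    have a2 := Ex_pow (N := N) hT hTc w.1
    have a3 : ((Ex N (T ^ w.1 * w.2)).card : ℝ) ≤ w.1 * (Ex N T).card + (Ex N w.2).card := by
      exact_mod_cast a1.trans (Nat.add_le_add_right a2 _)
    have a4 : (w.1 : ℝ) ≤ J := by exact_mod_cast hw.1.le
    have a5 := he1 _ hw.2
    have a6 : (w.1 : ℝ) * (Ex N T).card ≤ J * e2 := by gcongr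
    linarith
  have hGe1 : ∀ g ∈ G, 0 ≤ e1 := fun g hg => (Nat.cast_nonneg _).trans (he1 g hg)
  have h6 : ∑ h ∈ H, (2 * ((Ex N h).card : ℝ) + 2 * ((E0 N).card : ℝ)) ≤
      J * G.card * (2 * (e1 + J * e2) + 2 * e0) := by
    refine (sum_le_sum h5).trans ?_
    rw [sum_const, nsmul_eq_mul]
    rcases G.eq_empty_or_nonempty with hGe | ⟨g, hg⟩
    · have : H = ∅ := by rw [hH, hGe]; simp
      rw [this, hGe]; simp
    · have hc : H.card ≤ J * G.card := by
        rw [hH]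
        refine card_image_le.trans ?_
        rw [card_product, card_range]
      have hc' : (H.card : ℝ) ≤ J * G.card := by exact_mod_cast hc
      have : 0 ≤ 2 * (e1 + J * e2) + 2 * e0 := by
        have := hGe1 g hg
        positivity
      gcongr
  have h7 : ((Ex N l).card : ℝ) ≤
      ((univ.filter fun x : ZMod N => ∀ h ∈ H, (h : ZMod N) * x ∉ II N l).card : ℝ) +
        ∑ h ∈ H, (2 * ((Ex N h).card : ℝ) + 2 * ((E0 N).card : ℝ)) := by
    exact_mod_cast h1
  linarith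

end Z

end Pool.Agent.T2H22.LG
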