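import Pool.Agent.T2H22.LG.C
import Pool.Agent.T2H22.LG.An
import Pool.Agent.H534R2.BH_Lam

set_option autoImplicit false
set_option linter.all false
set_option maxHeartbeats 2000000

/-!
# Almost invariance under dilations by small primes
-/

namespace Pool.Agent.T2H22.LG

open Finset Filter

/-- powers of odd primes -/
def PPow (N : ℕ) : Prop := ∃ p k : ℕ, p.Prime ∧ p ≠ 2 ∧ N = p ^ k

lemma lam_sum (A : ℕ) : ∀ᶠ N : ℕ in atTop, |((∑ n ∈ Ico 1 N, lam n : ℤ) : ℝ)| ≤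
    N / Real.log N ^ A + 1 := by
  obtain ⟨x0, h0⟩ := Pool.Agent.H534R2.BH.lam_fourier 0 A
  have h1 : ∀ᶠ N : ℕ in atTop, 1 ≤ Real.log (N : ℝ) := tlog.eventually_ge_atTop 1
  filter_upwards [eventually_ge_atTop x0, h1, eventually_ge_atTop 1] with N hN hL hN1
  have h2 := h0 N hN 1 le_rfl (by simp) 0 0 (by simp; positivity)
  have h3 : ∀ n : ℕ, Pool.Agent.H469R2.NK.e ((n : ℝ) * 0) = 1 := by
    intro n; unfold Pool.Agent.H469R2.NK.e; simp
  simp only [h3, mul_one] at h2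
  have h4 : ∑ n ∈ Icc 1 N, ((-1 : ℂ) ^ (ArithmeticFunction.cardFactors n)) =
      ((((∑ n ∈ Ico 1 N, lam n : ℤ) : ℝ) + ((lam N : ℤ) : ℝ) : ℝ) : ℂ) := by
    have e1 : Icc 1 N = insert N (Ico 1 N) := by
      ext n; simp only [mem_Icc, mem_insert, mem_Ico]; omega
    rw [e1, sum_insert (by simp)]
    unfold lam
    push_cast
    ring
  rw [h4, Complex.norm_real, Real.norm_eq_abs] at h2
  have h5 : |((lam N : ℤ) : ℝ)| = 1 := by
    rcases lam_or N with h | h <;> rw [h] <;> norm_num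
  have h6 : |((∑ n ∈ Ico 1 N, lam n : ℤ) : ℝ)| ≤
      |((∑ n ∈ Ico 1 N, lam n : ℤ) : ℝ) + ((lam N : ℤ) : ℝ)| + |((lam N : ℤ) : ℝ)| := by
    have := abs_sub (((∑ n ∈ Ico 1 N, lam n : ℤ) : ℝ) + ((lam N : ℤ) : ℝ)) ((lam N : ℤ) : ℝ)
    simpa using this
  have h7 : (N : ℝ) / Real.log N ^ (2 * A) ≤ N / Real.log N ^ A := by
    apply div_le_div_of_nonneg_left (Nat.cast_nonneg _) (by positivity)
    exact pow_le_pow_right₀ hL (by omega)
  linarith

lemma E0_bound (A : ℕ) : ∀ᶠ N : ℕ in atTop, ∀ [NeZero N], ¬ BothGood N →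
    ((E0 N).card : ℝ) ≤ N / Real.log N ^ A := by
  have h2 : ∀ᶠ L : ℝ in atTop, 4 * L ^ (A : ℝ) ≤ Real.exp (1 * L ^ (1 : ℝ)) :=
    ev_exp 1 1 one_pos one_pos A 4
  filter_upwards [lam_sum (A + 1), tlog.eventually h2, tlog.eventually_ge_atTop 2,
    eventually_gt_atTop 0] with N h1 h2 h3 hN0
  intro _ hbad
  obtain ⟨s, hs, hb⟩ : ∃ s : ℤ, (s = 1 ∨ s = -1) ∧ ¬ Good s N := by
    unfold BothGood at hbad
    rw [not_and_or] at hbad
    rcases hbad with h | h
    · exact ⟨1, Or.inl rfl, h⟩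
    · exact ⟨-1, Or.inr rfl, h⟩
  have h4 := E0_card hs hb
  have h5 : ((E0 N).card : ℝ) ≤ 1 + |((∑ n ∈ Ico 1 N, lam n : ℤ) : ℝ)| := by
    have : (((E0 N).card : ℤ) : ℝ) ≤ ((1 + |∑ n ∈ Ico 1 N, lam n| : ℤ) : ℝ) := by exact_mod_cast h4
    push_cast at this ⊢
    exact this
  have hN : (0 : ℝ) < N := by exact_mod_cast hN0
  have hL0 : (0 : ℝ) < Real.log N := by linarith
  rw [Real.rpow_natCast, Real.rpow_one, one_mul, Real.exp_log hN] at h2
  have h6 : (N : ℝ) / Real.log N ^ (A + 1) ≤ (N / Real.log N ^ A) / 2 := by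
    rw [div_div]
    apply div_le_div_of_nonneg_left hN.le (by positivity)
    rw [pow_succ]
    gcongr
  have h7 : (2 : ℝ) ≤ (N / Real.log N ^ A) / 2 := by
    rw [div_div, le_div_iff₀ (by positivity)]
    linarith
  linarith

/-- uniform smallness of the exceptions at the primes up to `(log N) ^ β` -/
def PB (β : ℝ) : Prop := ∀ A : ℕ, ∀ᶠ N : ℕ in atTop, ∀ [NeZero N], PPow N → ¬ BothGood N →
  ∀ l : ℕ, l.Prime → l.Coprime N → (l : ℝ) ≤ Real.log N ^ β →
    ((Ex N l).card : ℝ) ≤ N / Real.log N ^ A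

lemma two_coprime {N : ℕ} (hN : PPow N) : (2 : ℕ).Coprime N := by
  obtain ⟨p, k, hp, h2, rfl⟩ := hN
  exact ((Nat.coprime_primes Nat.prime_two hp).2 (Ne.symm h2)).pow_right k

lemma Ex_two {N : ℕ} [NeZero N] (hN : PPow N) : (Ex N 2).card ≤ 2 * (E0 N).card := by
  have h1 := Ex_le (N := N) (l := 2) (by norm_num) (two_coprime hN) {1} (by
    intro h hh; rw [mem_singleton] at hh; subst hh
    exact ⟨one_pos, Nat.coprime_one_left N⟩)
  rw [sum_singleton, Ex_one] at h1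
  have h2 : (univ.filter fun x : ZMod N => ∀ h ∈ ({1} : Finset ℕ), (h : ZMod N) * x ∉ II N 2).card = 0 := by
    rw [card_eq_zero, filter_eq_empty_iff]
    intro x _ hx
    have := hx 1 (mem_singleton_self 1)
    rw [Nat.cast_one, one_mul, mem_II] at this
    apply this
    have h3 := ZMod.natAbs_valMinAbs_le x
    have h4 : ¬ 2 ∣ N := by
      intro hd
      have := Nat.Coprime.eq_one_of_dvd (two_coprime hN) hd
      omega
    omega
  omega

/-- parameters: a power of two -/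
lemma two_pow_between (X : ℕ) (hX : 1 ≤ X) : ∃ h : ℕ, X ≤ 2 ^ h ∧ 2 ^ h ≤ 2 * X ∧ h ≤ 2 ^ h := by
  refine ⟨Nat.log 2 X + 1, (Nat.lt_pow_succ_log_self (by norm_num) X).le, ?_, (Nat.lt_two_pow_self).le⟩
  rw [pow_succ, mul_comm]
  exact Nat.mul_le_mul_left 2 (Nat.pow_log_le_self 2 (by omega))

lemma pow_le_of_log {T J N : ℕ} (hT : 0 < T) (hN : 0 < N) (h : (J : ℝ) * Real.log T ≤ Real.log N) :
    T ^ J ≤ N := by
  have h1 : Real.log ((T ^ J : ℕ) : ℝ) ≤ Real.log N := by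
    push_cast; rw [Real.log_pow]; exact h
  have h2 := (Real.log_le_log_iff (by exact_mod_cast pow_pos hT J) (by exact_mod_cast hN)).1 h1
  exact_mod_cast h2

theorem PB_half : PB (1 / 2) := by
  intro A
  have f1 : ∀ᶠ L : ℝ in atTop, 4 * L ^ (A : ℝ) ≤ Real.exp ((1 / 4) * L ^ (1 / 4 : ℝ)) :=
    ev_exp _ _ (by norm_num) (by norm_num) _ _
  have f2 : ∀ᶠ L : ℝ in atTop, 4 * Real.log L ≤ L ^ (1 / 4 : ℝ) := ev_log _ (by norm_num) _
  filter_upwards [E0_bound (A + 5), tlog.eventually f1, tlog.eventually f2,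
    tlog.eventually_ge_atTop 100, eventually_gt_atTop 0] with N h0 g1 g2 hL100 hN0
  intro _ hPP hbad l hl hlN hlL
  have he0 := h0 hbad
  set L := Real.log (N : ℝ) with hL
  have hNr : (0 : ℝ) < N := by exact_mod_cast hN0
  have hL0 : 0 < L := by linarith
  have hL1 : 1 ≤ L := by linarith
  have hexpL : Real.exp L = N := by rw [hL, Real.exp_log hNr]
  have hl2 : 2 ≤ l := hl.two_le
  have hl0 : (0 : ℝ) < l := by exact_mod_cast hl.pos
  obtain ⟨h, hT1, hT2, hT3⟩ := two_pow_between (2 * l) (by omega)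
  set T := 2 ^ h with hT
  have hTpos : 0 < T := by positivity
  have hLh : L ^ (1 / 2 : ℝ) ≤ L := by
    calc L ^ (1 / 2 : ℝ) ≤ L ^ (1 : ℝ) := Real.rpow_le_rpow_of_exponent_le hL1 (by norm_num)
      _ = L := Real.rpow_one L
  have hlL' : (l : ℝ) ≤ L := hlL.trans hLh
  have hTL : (T : ℝ) ≤ 4 * L := by
    have : (T : ℝ) ≤ 2 * (2 * l) := by exact_mod_cast hT2
    linarith
  have hq : L ^ (1 / 4 : ℝ) * L ^ (3 / 4 : ℝ) = L := by
    rw [← Real.rpow_add hL0]; norm_num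
  have hq2 : L ^ (1 / 2 : ℝ) * L ^ (1 / 4 : ℝ) = L ^ (3 / 4 : ℝ) := by
    rw [← Real.rpow_add hL0]; norm_num
  have hq34 : 1 ≤ L ^ (3 / 4 : ℝ) := Real.one_le_rpow hL1 (by norm_num)
  have hq14 : 0 ≤ L ^ (1 / 4 : ℝ) := by positivity
  set J := ⌈(l : ℝ) * L ^ (1 / 4 : ℝ)⌉₊ with hJ
  have hJ1 : (l : ℝ) * L ^ (1 / 4 : ℝ) ≤ J := Nat.le_ceil _
  have hJ2 : (J : ℝ) ≤ 2 * L ^ (3 / 4 : ℝ) := by
    have := (Nat.ceil_lt_add_one (by positivity : (0 : ℝ) ≤ (l : ℝ) * L ^ (1 / 4 : ℝ))).le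
    have h3 : (l : ℝ) * L ^ (1 / 4 : ℝ) ≤ L ^ (3 / 4 : ℝ) := by
      rw [← hq2]; gcongr
    linarith
  have hJL : (J : ℝ) ≤ 2 * L := by
    have : L ^ (3 / 4 : ℝ) ≤ L := by
      calc L ^ (3 / 4 : ℝ) ≤ L ^ (1 : ℝ) := Real.rpow_le_rpow_of_exponent_le hL1 (by norm_num)
        _ = L := Real.rpow_one L
    linarith
  have hJpos : 1 ≤ J := by
    rw [hJ, Nat.one_le_ceil_iff]; positivity
  have hlogT : Real.log T ≤ 2 * Real.log L := by
    calc Real.log T ≤ Real.log (L ^ 2) := Real.log_le_log (by exact_mod_cast hTpos) (by nlinarith)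
      _ = 2 * Real.log L := by rw [Real.log_pow]; norm_num
  have hlogT0 : 0 ≤ Real.log T := Real.log_natCast_nonneg T
  have hTJ : T ^ J ≤ N := by
    apply pow_le_of_log hTpos hN0
    rw [← hL]
    calc (J : ℝ) * Real.log T ≤ (2 * L ^ (3 / 4 : ℝ)) * (2 * Real.log L) :=
          mul_le_mul hJ2 hlogT hlogT0 (by positivity)
      _ = L ^ (3 / 4 : ℝ) * (4 * Real.log L) := by ring
      _ ≤ L ^ (3 / 4 : ℝ) * L ^ (1 / 4 : ℝ) := by gcongr
      _ = L := by rw [mul_comm]; exact hq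
  have hTN : T ≤ N := by
    calc T = T ^ 1 := (pow_one T).symm
      _ ≤ T ^ J := Nat.pow_le_pow_right hTpos hJpos
      _ ≤ N := hTJ
  set e0 : ℝ := N / L ^ (A + 5) with he0d
  have he0p : 0 ≤ e0 := by positivity
  have he2 : ((Ex N T).card : ℝ) ≤ 8 * L * e0 := by
    have a1 := Ex_pow (N := N) (g := 2) (by norm_num) (two_coprime hPP) h
    have a2 := Ex_two (N := N) hPP
    have a3 : ((Ex N T).card : ℝ) ≤ h * (2 * (E0 N).card) := by
      have : (Ex N T).card ≤ h * (2 * (E0 N).card) := a1.trans (Nat.mul_le_mul_left h a2)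
      exact_mod_cast this
    have a4 : (h : ℝ) ≤ 4 * L := by
      have : (h : ℝ) ≤ T := by exact_mod_cast hT3
      linarith
    calc ((Ex N T).card : ℝ) ≤ h * (2 * (E0 N).card) := a3
      _ ≤ (4 * L) * (2 * e0) := by gcongr
      _ = _ := by ring
  have hmain := Ex_bound (N := N) (l := l) (T := T) (J := J) hl.pos hlN hTpos
    ((two_coprime hPP).pow_left h) hTN hTJ {1} (by
      intro g hg; rw [mem_singleton] at hg; subst hg
      exact ⟨one_pos, Nat.coprime_one_left N, by omega⟩) (κ := 1 / (2 * l)) (by positivity)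
    (by rw [div_le_one (by positivity)]; have : (2 : ℝ) ≤ l := by exact_mod_cast hl2
        linarith) (by
      have h3 := II_card (N := N) (l := 2 * l) (by omega)
      push_cast at h3
      have h4 : (univ.filter fun x : ZMod N => ∃ g ∈ ({1} : Finset ℕ), (g : ZMod N) * x ∈ II N (2 * l)) =
          II N (2 * l) := by
        ext x; simp
      rw [h4]
      calc 1 / (2 * (l : ℝ)) * N = N / (2 * l) := by ring
        _ ≤ _ := h3) (e0 := e0) (e1 := 0) (e2 := 8 * L * e0) he0 (by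
      intro g hg; rw [mem_singleton] at hg; subst hg; rw [Ex_one]; simp) he2
  refine hmain.trans ?_
  rw [card_singleton, Nat.cast_one, mul_one, zero_add]
  -- first term
  have b1 : (1 - 1 / (2 * (l : ℝ)) / 2) ^ J ≤ Real.exp (-((1 / 4) * L ^ (1 / 4 : ℝ))) := by
    have c1 : 1 - 1 / (2 * (l : ℝ)) / 2 ≤ Real.exp (-(1 / (4 * (l : ℝ)))) := by
      have := Real.one_sub_le_exp_neg (1 / (4 * (l : ℝ)))
      have c2 : 1 / (2 * (l : ℝ)) / 2 = 1 / (4 * l) := by field_simp; norm_num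
      rw [c2]; exact this
    have c0 : 0 ≤ 1 - 1 / (2 * (l : ℝ)) / 2 := by
      have : 1 / (2 * (l : ℝ)) ≤ 1 := by
        rw [div_le_one (by positivity)]; have : (2 : ℝ) ≤ l := by exact_mod_cast hl2
        linarith
      linarith
    calc (1 - 1 / (2 * (l : ℝ)) / 2) ^ J ≤ (Real.exp (-(1 / (4 * (l : ℝ))))) ^ J := by gcongr
      _ = Real.exp (-(J / (4 * l))) := by rw [← Real.exp_nat_mul]; congr 1; ring
      _ ≤ _ := by
          apply Real.exp_le_exp.2
          apply neg_le_neg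
          rw [le_div_iff₀ (by positivity)]
          linarith
  have b2 : 2 * (N : ℝ) * (1 - 1 / (2 * (l : ℝ)) / 2) ^ J ≤ (N / L ^ A) / 2 := by
    rw [Real.rpow_natCast] at g1
    calc 2 * (N : ℝ) * (1 - 1 / (2 * (l : ℝ)) / 2) ^ J
        ≤ 2 * N * Real.exp (-((1 / 4) * L ^ (1 / 4 : ℝ))) := by gcongr
      _ = 2 * N / Real.exp ((1 / 4) * L ^ (1 / 4 : ℝ)) := by rw [Real.exp_neg]; ring
      _ ≤ 2 * N / (4 * L ^ A) := by gcongr
      _ = _ := by field_simp; norm_num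
  have b3 : (J : ℝ) * (2 * (J * (8 * L * e0)) + 2 * e0) ≤ (N / L ^ A) / 2 := by
    calc (J : ℝ) * (2 * (J * (8 * L * e0)) + 2 * e0)
        ≤ (2 * L) * (2 * ((2 * L) * (8 * L * e0)) + 2 * e0) := by gcongr
      _ = (64 * L ^ 3 + 4 * L) * e0 := by ring
      _ ≤ (L ^ 5 / 2) * e0 := by
          gcongr
          have : (100 : ℝ) ^ 2 ≤ L ^ 2 := by gcongr
          have h5 : L ^ 5 = L ^ 2 * L ^ 3 := by ring
          have h6 : L ≤ L ^ 3 := by
            calc L = L ^ 1 := (pow_one L).symm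
              _ ≤ L ^ 3 := pow_le_pow_right₀ hL1 (by norm_num)
          have h7 := mul_le_mul_of_nonneg_right this (pow_pos hL0 3).le
          rw [← h5] at h7
          have h8 : 0 < L ^ 3 := pow_pos hL0 3
          linarith
      _ = _ := by rw [he0d, pow_add]; field_simp
  linarith

end Pool.Agent.T2H22.LG
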