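import Pool.Agent.T2H22.LG.D

set_option autoImplicit false
set_option linter.all false
set_option maxHeartbeats 2000000

/-!
# Almost invariance under dilations by all primes up to a fixed power of the logarithm
-/

namespace Pool.Agent.T2H22.LG

open Finset Filter

theorem PB_step {β : ℝ} (hβ : 1 / 2 ≤ β) (h : PB β) : PB (4 / 3 * β) := by
  intro A
  have hβ0 : 0 < β := by linarith
  obtain ⟨b, hb⟩ := exists_nat_ge (4 * β)
  set A1 := A + 2 * b + 3 with hA1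
  have f1 : ∀ᶠ L : ℝ in atTop, 4 * L ^ (A : ℝ) ≤ Real.exp ((1 / 40) * L ^ (1 / 2 : ℝ)) :=
    ev_exp _ _ (by norm_num) (by norm_num) _ _
  have f2 : ∀ᶠ L : ℝ in atTop, (8 * β + 4) * Real.log L ≤ L ^ (1 / 2 : ℝ) := ev_log _ (by norm_num) _
  have f3 : ∀ᶠ L : ℝ in atTop, 16 * L ^ (b : ℝ) ≤ Real.exp (1 * L ^ (1 : ℝ)) :=
    ev_exp _ _ (by norm_num) (by norm_num) _ _
  have hYt : Tendsto (fun L : ℝ => ⌊L ^ β / 16⌋₊) atTop atTop :=
    tendsto_nat_floor_atTop.comp ((tendsto_rpow_atTop hβ0).atTop_div_const (by norm_num))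
  have f4 := hYt.eventually primes_interval
  have hYt4 : Tendsto (fun L : ℝ => 4 * ⌊L ^ β / 16⌋₊) atTop atTop :=
    Tendsto.const_mul_atTop' (by norm_num) hYt
  have f5 := hYt4.eventually primes_interval
  have f6 := hYt.eventually (tendsto_natCast_atTop_atTop.eventually
    (ev_rpow (4 / 3) (9 / 5) (by norm_num) (116 * 32 ^ (4 / 3 : ℝ))))
  have f7 := hYt.eventually_ge_atTop 1
  filter_upwards [E0_bound A1, h A1, tlog.eventually f1, tlog.eventually f2, tlog.eventually f3,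
    tlog.eventually f4, tlog.eventually f5, tlog.eventually f6, tlog.eventually f7,
    tlog.eventually_ge_atTop 1000, eventually_gt_atTop 0] with N h0 hPB g1 g2 g3 g4 g5 g6 g7 hL100 hN0
  intro _ hPP hbad l hl hlN hlL
  have he0 := h0 hbad
  have hPB' := hPB hPP hbad
  have hPP' := hPP
  obtain ⟨p, k, hp, hp2, hNp⟩ := hPP
  set L := Real.log (N : ℝ) with hL
  set Y := ⌊L ^ β / 16⌋₊ with hY
  have hNr : (0 : ℝ) < N := by exact_mod_cast hN0
  have hL0 : 0 < L := by linarith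
  have hL1 : 1 ≤ L := by linarith
  have hexpL : Real.exp L = N := by rw [hL, Real.exp_log hNr]
  have hl0 : (0 : ℝ) < l := by exact_mod_cast hl.pos
  have hLb0 : 0 ≤ L ^ β := by positivity
  have hY16 : (16 : ℝ) * Y ≤ L ^ β := by
    have := Nat.floor_le (by positivity : 0 ≤ L ^ β / 16)
    linarith
  have hY32 : L ^ β ≤ 32 * Y := by
    have h1 := Nat.lt_floor_add_one (L ^ β / 16)
    have h2 : (1 : ℝ) ≤ Y := by exact_mod_cast g7
    linarith
  have hY0 : (0 : ℝ) < Y := by exact_mod_cast (by omega : 0 < Y)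
  have hYpos : 0 < Y := by omega
  -- bounds for powers of L
  have hpw : ∀ c : ℝ, c ≤ 4 * β → L ^ c ≤ L ^ b := by
    intro c hc
    rw [← Real.rpow_natCast]
    exact Real.rpow_le_rpow_of_exponent_le hL1 (by linarith)
  have hlb : (l : ℝ) ≤ L ^ (4 / 3 * β) := hlL
  have hcomb : L ^ (4 / 3 * β) * (L ^ β * L ^ β) ≤ L ^ b := by
    rw [← Real.rpow_add hL0, ← Real.rpow_add hL0]
    apply hpw; linarith
  have hN16 : 16 * L ^ b ≤ N := by
    rw [Real.rpow_natCast, Real.rpow_one, one_mul, hexpL] at g3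
    exact g3
  have hcop : ∀ q : ℕ, q.Prime → q ≠ p → q.Coprime N := by
    intro q hq hqp
    rw [hNp]
    exact ((Nat.coprime_primes hq hp).2 hqp).pow_right k
  set P1 := ((Ioc Y (4 * Y)).filter Nat.Prime).erase p with hP1
  set P2 := ((Ioc (4 * Y) (4 * (4 * Y))).filter Nat.Prime).erase p with hP2
  have m1 : ∀ q ∈ P1, q.Prime ∧ Y ≤ q ∧ q.Coprime N := by
    intro q hq
    rw [hP1, mem_erase, mem_filter, mem_Ioc] at hq
    exact ⟨hq.2.2, by omega, hcop q hq.2.2 hq.1⟩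
  have m2 : ∀ q ∈ P2, q.Prime ∧ Y ≤ q ∧ q.Coprime N := by
    intro q hq
    rw [hP2, mem_erase, mem_filter, mem_Ioc] at hq
    exact ⟨hq.2.2, by omega, hcop q hq.2.2 hq.1⟩
  have u1 : ∀ q ∈ P1, (q : ℝ) ≤ L ^ β := by
    intro q hq
    rw [hP1, mem_erase, mem_filter, mem_Ioc] at hq
    have : (q : ℝ) ≤ 4 * Y := by exact_mod_cast hq.2.1.2
    linarith
  have u2 : ∀ q ∈ P2, (q : ℝ) ≤ L ^ β := by
    intro q hq
    rw [hP2, mem_erase, mem_filter, mem_Ioc] at hq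
    have : (q : ℝ) ≤ 4 * (4 * Y) := by exact_mod_cast hq.2.1.2
    linarith
  have c1 : P1.card ≤ 16 * Y := by
    have h1 : P1.card ≤ (Ioc Y (4 * Y)).card := card_le_card ((erase_subset _ _).trans (filter_subset _ _))
    rw [Nat.card_Ioc] at h1; omega
  have c2 : P2.card ≤ 16 * Y := by
    have h1 : P2.card ≤ (Ioc (4 * Y) (4 * (4 * Y))).card :=
      card_le_card ((erase_subset _ _).trans (filter_subset _ _))
    rw [Nat.card_Ioc] at h1; omega
  have d1 : (Y : ℝ) ^ (9 / 10 : ℝ) ≤ P1.card := by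
    have h1 : ((Ioc Y (4 * Y)).filter Nat.Prime).card ≤ P1.card + 1 := by
      rw [hP1]
      have := Finset.pred_card_le_card_erase (s := (Ioc Y (4 * Y)).filter Nat.Prime) (a := p)
      omega
    have h2 : (((Ioc Y (4 * Y)).filter Nat.Prime).card : ℝ) ≤ P1.card + 1 := by exact_mod_cast h1
    linarith
  have d2 : (Y : ℝ) ^ (9 / 10 : ℝ) ≤ P2.card := by
    have h1 : ((Ioc (4 * Y) (4 * (4 * Y))).filter Nat.Prime).card ≤ P2.card + 1 := by
      rw [hP2]
      have := Finset.pred_card_le_card_erase (s := (Ioc (4 * Y) (4 * (4 * Y))).filter Nat.Prime) (a := p)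
      omega
    have h2 : (((Ioc (4 * Y) (4 * (4 * Y))).filter Nat.Prime).card : ℝ) ≤ P2.card + 1 := by
      exact_mod_cast h1
    have h3 : (Y : ℝ) ^ (9 / 10 : ℝ) ≤ ((4 * Y : ℕ) : ℝ) ^ (9 / 10 : ℝ) := by
      apply Real.rpow_le_rpow hY0.le _ (by norm_num)
      push_cast; linarith
    linarith
  have hdisj : Disjoint P1 P2 := by
    rw [Finset.disjoint_left]
    intro q hq hq'
    rw [hP1, mem_erase, mem_filter, mem_Ioc] at hq
    rw [hP2, mem_erase, mem_filter, mem_Ioc] at hq'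
    omega
  have hprod : (P1.card : ℝ) * P2.card ≤ L ^ β * L ^ β := by
    have e1 : (P1.card : ℝ) ≤ L ^ β := by
      have : (P1.card : ℝ) ≤ 16 * Y := by exact_mod_cast c1
      linarith
    have e2 : (P2.card : ℝ) ≤ L ^ β := by
      have : (P2.card : ℝ) ≤ 16 * Y := by exact_mod_cast c2
      linarith
    exact mul_le_mul e1 e2 (Nat.cast_nonneg _) hLb0
  have hbig : 58 * (2 * l) ≤ P1.card * P2.card := by
    have e1 : (l : ℝ) ≤ 32 ^ (4 / 3 : ℝ) * (Y : ℝ) ^ (4 / 3 : ℝ) := by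
      refine hlb.trans ?_
      rw [mul_comm (4 / 3 : ℝ) β, Real.rpow_mul hL0.le, ← Real.mul_rpow (by norm_num) hY0.le]
      exact Real.rpow_le_rpow hLb0 hY32 (by norm_num)
    have e2 : (Y : ℝ) ^ (9 / 5 : ℝ) = (Y : ℝ) ^ (9 / 10 : ℝ) * (Y : ℝ) ^ (9 / 10 : ℝ) := by
      rw [← Real.rpow_add hY0]; norm_num
    have e3 : (58 * (2 * l) : ℝ) ≤ P1.card * P2.card := by
      calc (58 * (2 * l) : ℝ) = 116 * l := by ring
        _ ≤ 116 * (32 ^ (4 / 3 : ℝ) * (Y : ℝ) ^ (4 / 3 : ℝ)) := by gcongr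
        _ = (116 * 32 ^ (4 / 3 : ℝ)) * (Y : ℝ) ^ (4 / 3 : ℝ) := by ring
        _ ≤ (Y : ℝ) ^ (9 / 5 : ℝ) := g6
        _ = (Y : ℝ) ^ (9 / 10 : ℝ) * (Y : ℝ) ^ (9 / 10 : ℝ) := e2
        _ ≤ P1.card * P2.card := mul_le_mul d1 d2 (by positivity) (Nat.cast_nonneg _)
    exact_mod_cast e3
  have hGN : ∀ q ∈ P1, ∀ q' ∈ P2, 8 * (q * q') * (2 * l) ≤ N := by
    intro q hq q' hq'
    have e1 : (8 * (q * q') * (2 * l) : ℝ) ≤ N := by
      calc (8 * (q * q') * (2 * l) : ℝ) = 16 * (l * (q * q')) := by ring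
        _ ≤ 16 * (L ^ (4 / 3 * β) * (L ^ β * L ^ β)) := by
            have a1 := u1 q hq
            have a2 := u2 q' hq'
            gcongr
        _ ≤ 16 * L ^ b := by gcongr
        _ ≤ N := hN16
    exact_mod_cast e1
  have hl2 : 2 * (2 * l) ^ 2 ≤ N := by
    have e1 : (2 * (2 * l) ^ 2 : ℝ) ≤ N := by
      calc (2 * (2 * l) ^ 2 : ℝ) = 8 * (l * l) := by ring
        _ ≤ 8 * (L ^ (4 / 3 * β) * L ^ (4 / 3 * β)) := by gcongr
        _ = 8 * L ^ (4 / 3 * β + 4 / 3 * β) := by rw [← Real.rpow_add hL0]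
        _ ≤ 16 * L ^ b := by
            have := hpw (4 / 3 * β + 4 / 3 * β) (by linarith)
            have h2 : 0 ≤ L ^ b := by positivity
            linarith
        _ ≤ N := hN16
    exact_mod_cast e1
  have hsm := second_moment (N := N) (P1 := P1) (P2 := P2) (Y := Y) (l := 2 * l)
    (by have := hl.two_le; omega) hYpos m1 m2 hdisj c1 c2 hGN hl2 hbig
  set G := (P1 ×ˢ P2).image fun w => w.1 * w.2 with hG
  have hU' : (1 / 20 : ℝ) * N ≤
      ((univ.filter fun x : ZMod N => ∃ g ∈ G, (g : ZMod N) * x ∈ II N (2 * l)).card : ℝ) := by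
    refine hsm.trans ?_
    have : (univ.filter fun x : ZMod N => ∃ w ∈ P1 ×ˢ P2, ((w.1 * w.2 : ℕ) : ZMod N) * x ∈ II N (2 * l)) ⊆
        (univ.filter fun x : ZMod N => ∃ g ∈ G, (g : ZMod N) * x ∈ II N (2 * l)) := by
      intro x hx
      rw [mem_filter] at hx ⊢
      obtain ⟨_, w, hw, hx⟩ := hx
      exact ⟨mem_univ _, w.1 * w.2, mem_image.2 ⟨w, hw, rfl⟩, hx⟩
    exact_mod_cast card_le_card this
  obtain ⟨hh, hT1, hT2, hT3⟩ := two_pow_between (2 * l * (16 * Y) ^ 2) (by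
    have := hl.pos
    have : 0 < 2 * l * (16 * Y) ^ 2 := by positivity
    omega)
  set T := 2 ^ hh with hT
  have hTpos : 0 < T := by positivity
  have hlY : (l : ℝ) * (16 * Y) ^ 2 ≤ L ^ b := by
    calc (l : ℝ) * (16 * Y) ^ 2 ≤ L ^ (4 / 3 * β) * (L ^ β) ^ 2 := by gcongr
      _ = L ^ (4 / 3 * β) * (L ^ β * L ^ β) := by ring
      _ ≤ _ := hcomb
  have hTL : (T : ℝ) ≤ 4 * L ^ b := by
    have : (T : ℝ) ≤ 2 * (2 * l * (16 * Y) ^ 2) := by exact_mod_cast hT2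
    linarith
  have hTL2 : (T : ℝ) ≤ 4 * L ^ (4 * β) := by
    have h1 : (T : ℝ) ≤ 2 * (2 * l * (16 * Y) ^ 2) := by exact_mod_cast hT2
    have h2 : (l : ℝ) * (16 * Y) ^ 2 ≤ L ^ (4 * β) := by
      calc (l : ℝ) * (16 * Y) ^ 2 ≤ L ^ (4 / 3 * β) * (L ^ β) ^ 2 := by gcongr
        _ = L ^ (4 / 3 * β) * (L ^ β * L ^ β) := by ring
        _ = L ^ (4 / 3 * β + (β + β)) := by rw [← Real.rpow_add hL0, ← Real.rpow_add hL0]
        _ ≤ _ := Real.rpow_le_rpow_of_exponent_le hL1 (by linarith)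
    linarith
  set J := ⌈L ^ (1 / 2 : ℝ)⌉₊ with hJ
  have hs1 : 1 ≤ L ^ (1 / 2 : ℝ) := Real.one_le_rpow hL1 (by norm_num)
  have hJ1 : L ^ (1 / 2 : ℝ) ≤ J := Nat.le_ceil _
  have hJ2 : (J : ℝ) ≤ 2 * L ^ (1 / 2 : ℝ) := by
    have := (Nat.ceil_lt_add_one (by positivity : (0 : ℝ) ≤ L ^ (1 / 2 : ℝ))).le
    linarith
  have hhalf : L ^ (1 / 2 : ℝ) * L ^ (1 / 2 : ℝ) = L := by
    rw [← Real.rpow_add hL0]; norm_num
  have hJL : (J : ℝ) ≤ 2 * L := by
    have : L ^ (1 / 2 : ℝ) ≤ L := by nlinarith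
    linarith
  have hJpos : 1 ≤ J := by
    rw [hJ, Nat.one_le_ceil_iff]; positivity
  have hlogL : 0 ≤ Real.log L := Real.log_nonneg hL1
  have hlogT : Real.log T ≤ (4 * β + 2) * Real.log L := by
    calc Real.log T ≤ Real.log (4 * L ^ (4 * β)) := Real.log_le_log (by exact_mod_cast hTpos) hTL2
      _ = Real.log 4 + 4 * β * Real.log L := by
          rw [Real.log_mul (by norm_num) (by positivity), Real.log_rpow hL0]
      _ ≤ Real.log L + 4 * β * Real.log L := by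
          have := Real.log_le_log (by norm_num : (0 : ℝ) < 4) (by linarith : (4 : ℝ) ≤ L)
          linarith
      _ ≤ _ := by nlinarith
  have hlogT0 : 0 ≤ Real.log T := Real.log_natCast_nonneg T
  have hTJ : T ^ J ≤ N := by
    apply pow_le_of_log hTpos hN0
    rw [← hL]
    calc (J : ℝ) * Real.log T ≤ (2 * L ^ (1 / 2 : ℝ)) * ((4 * β + 2) * Real.log L) :=
          mul_le_mul hJ2 hlogT hlogT0 (by positivity)
      _ = L ^ (1 / 2 : ℝ) * ((8 * β + 4) * Real.log L) := by ring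
      _ ≤ L ^ (1 / 2 : ℝ) * L ^ (1 / 2 : ℝ) := by gcongr
      _ = L := hhalf
  have hTN : T ≤ N := by
    calc T = T ^ 1 := (pow_one T).symm
      _ ≤ T ^ J := Nat.pow_le_pow_right hTpos hJpos
      _ ≤ N := hTJ
  set e0 : ℝ := N / L ^ A1 with he0d
  have he0p : 0 ≤ e0 := by positivity
  have hLb1 : 1 ≤ L ^ b := one_le_pow₀ hL1
  have he2 : ((Ex N T).card : ℝ) ≤ 8 * L ^ b * e0 := by
    have a1 := Ex_pow (N := N) (g := 2) (by norm_num) (two_coprime hPP') hh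
    have a2 := Ex_two (N := N) hPP'
    have a3 : ((Ex N T).card : ℝ) ≤ hh * (2 * (E0 N).card) := by
      have : (Ex N T).card ≤ hh * (2 * (E0 N).card) := a1.trans (Nat.mul_le_mul_left hh a2)
      exact_mod_cast this
    have a4 : (hh : ℝ) ≤ 4 * L ^ b := by
      have : (hh : ℝ) ≤ T := by exact_mod_cast hT3
      linarith
    calc ((Ex N T).card : ℝ) ≤ hh * (2 * (E0 N).card) := a3
      _ ≤ (4 * L ^ b) * (2 * e0) := by gcongr
      _ = _ := by ring
  have hGm : ∀ g ∈ G, 0 < g ∧ g.Coprime N ∧ 2 * l * g ≤ T := by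
    intro g hg
    rw [hG, mem_image] at hg
    obtain ⟨w, hw, rfl⟩ := hg
    rw [mem_product] at hw
    obtain ⟨q1, _, q3⟩ := m1 _ hw.1
    obtain ⟨r1, _, r3⟩ := m2 _ hw.2
    refine ⟨Nat.mul_pos q1.pos r1.pos, q3.mul_left r3, ?_⟩
    have hw1 : w.1 ≤ 16 * Y := by
      have := hw.1
      rw [hP1, mem_erase, mem_filter, mem_Ioc] at this; omega
    have hw2 : w.2 ≤ 16 * Y := by
      have := hw.2
      rw [hP2, mem_erase, mem_filter, mem_Ioc] at this; omega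
    refine le_trans ?_ hT1
    have : w.1 * w.2 ≤ (16 * Y) ^ 2 := by rw [sq]; exact Nat.mul_le_mul hw1 hw2
    gcongr
  have he1 : ∀ g ∈ G, ((Ex N g).card : ℝ) ≤ 2 * e0 := by
    intro g hg
    rw [hG, mem_image] at hg
    obtain ⟨w, hw, rfl⟩ := hg
    rw [mem_product] at hw
    obtain ⟨q1, _, q3⟩ := m1 _ hw.1
    obtain ⟨r1, _, r3⟩ := m2 _ hw.2
    have a1 := Ex_mul (N := N) q1.pos r1.pos r3
    have a2 := hPB' w.1 q1 q3 (u1 _ hw.1)
    have a3 := hPB' w.2 r1 r3 (u2 _ hw.2)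
    have a4 : ((Ex N (w.1 * w.2)).card : ℝ) ≤ (Ex N w.1).card + (Ex N w.2).card := by exact_mod_cast a1
    linarith
  have hGc : (G.card : ℝ) ≤ L ^ b := by
    have e1 : G.card ≤ P1.card * P2.card := by
      rw [hG]; refine card_image_le.trans ?_; rw [card_product]
    have e2 : (G.card : ℝ) ≤ P1.card * P2.card := by exact_mod_cast e1
    refine e2.trans (hprod.trans ?_)
    rw [← Real.rpow_add hL0]
    exact hpw _ (by linarith)
  have hmain := Ex_bound (N := N) (l := l) (T := T) (J := J) hl.pos hlN hTpos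
    ((two_coprime hPP').pow_left hh) hTN hTJ G hGm (κ := 1 / 20) (by norm_num) (by norm_num) hU'
    (e0 := e0) (e1 := 2 * e0) (e2 := 8 * L ^ b * e0) he0 he1 he2
  refine hmain.trans ?_
  have b1 : (1 - (1 / 20 : ℝ) / 2) ^ J ≤ Real.exp (-((1 / 40) * L ^ (1 / 2 : ℝ))) := by
    have c1 : 1 - (1 / 20 : ℝ) / 2 ≤ Real.exp (-(1 / 40 : ℝ)) := by
      have := Real.one_sub_le_exp_neg (1 / 40 : ℝ)
      linarith
    calc (1 - (1 / 20 : ℝ) / 2) ^ J ≤ (Real.exp (-(1 / 40 : ℝ))) ^ J := by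
          apply pow_le_pow_left₀ (by norm_num) c1
      _ = Real.exp (-((1 / 40) * J)) := by rw [← Real.exp_nat_mul]; congr 1; ring
      _ ≤ _ := by
          apply Real.exp_le_exp.2
          apply neg_le_neg
          gcongr
  have b2 : 2 * (N : ℝ) * (1 - (1 / 20 : ℝ) / 2) ^ J ≤ (N / L ^ A) / 2 := by
    rw [Real.rpow_natCast] at g1
    calc 2 * (N : ℝ) * (1 - (1 / 20 : ℝ) / 2) ^ J
        ≤ 2 * N * Real.exp (-((1 / 40) * L ^ (1 / 2 : ℝ))) := by gcongr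
      _ = 2 * N / Real.exp ((1 / 40) * L ^ (1 / 2 : ℝ)) := by rw [Real.exp_neg]; ring
      _ ≤ 2 * N / (4 * L ^ A) := by gcongr
      _ = _ := by field_simp; norm_num
  have b3 : (J : ℝ) * G.card * (2 * (2 * e0 + J * (8 * L ^ b * e0)) + 2 * e0) ≤ (N / L ^ A) / 2 := by
    have hLLb : 1 ≤ L * L ^ b := by nlinarith
    calc (J : ℝ) * G.card * (2 * (2 * e0 + J * (8 * L ^ b * e0)) + 2 * e0)
        ≤ (2 * L) * L ^ b * (2 * (2 * e0 + (2 * L) * (8 * L ^ b * e0)) + 2 * e0) := by gcongr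
      _ = (2 * (L * L ^ b)) * ((6 + 32 * (L * L ^ b)) * e0) := by ring
      _ ≤ (2 * (L * L ^ b)) * ((38 * (L * L ^ b)) * e0) := by
          gcongr
          linarith
      _ = 76 * (L * L ^ b) ^ 2 * e0 := by ring
      _ ≤ (L / 2) * (L * L ^ b) ^ 2 * e0 := by
          gcongr
          linarith
      _ = _ := by
          rw [he0d, hA1, show A + 2 * b + 3 = A + (b + b + 3) by ring, pow_add, pow_add L (b + b), pow_add L b b]
          field_simp
  linarith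

/-- all exponents -/
theorem PB_all (β : ℝ) : PB β := by
  have h1 : ∀ n : ℕ, PB ((1 / 2) * (4 / 3) ^ n) ∧ (1 / 2 : ℝ) ≤ (1 / 2) * (4 / 3) ^ n := by
    intro n
    induction n with
    | zero => simpa using PB_half
    | succ n ih =>
      have h2 := PB_step ih.2 ih.1
      have e : (4 / 3 : ℝ) * ((1 / 2) * (4 / 3) ^ n) = (1 / 2) * (4 / 3) ^ (n + 1) := by ring
      rw [e] at h2
      refine ⟨h2, ?_⟩
      have : (1 : ℝ) ≤ (4 / 3) ^ (n + 1) := one_le_pow₀ (by norm_num)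
      linarith
  obtain ⟨n, hn⟩ := pow_unbounded_of_one_lt (2 * β) (by norm_num : (1 : ℝ) < 4 / 3)
  have h2 := (h1 n).1
  intro A
  filter_upwards [h2 A, tlog.eventually_ge_atTop 1] with N hN hL1
  intro _ hPP hbad l hl hlN hlL
  refine hN hPP hbad l hl hlN (hlL.trans ?_)
  exact Real.rpow_le_rpow_of_exponent_le hL1 (by linarith)

end Pool.Agent.T2H22.LG
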