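import Pool.Agent.T2H22.LG.D2

set_option autoImplicit false
set_option linter.all false
set_option maxHeartbeats 1000000

/-!
# Characters: Parseval, inversion and moments
-/

namespace Pool.Agent.T2H22.LG

open Finset Filter
open scoped ComplexConjugate

section Z

variable {N : ℕ} [NeZero N]

lemma conj_char (χ : DirichletCharacter ℂ N) (a : ZMod N) : conj (χ a) = χ⁻¹ a :=
  MulChar.star_apply' χ a

lemma sum_chi_conj (χ ψ : DirichletCharacter ℂ N) :
    ∑ a : ZMod N, χ a * conj (ψ a) = if χ = ψ then (N.totient : ℂ) else 0 := by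
  have h1 : ∀ a : ZMod N, χ a * conj (ψ a) = (χ * ψ⁻¹) a := by
    intro a; rw [conj_char, MulChar.mul_apply]
  simp_rw [h1]
  split_ifs with h
  · rw [h, mul_inv_cancel, MulChar.sum_one_eq_card_units, ZMod.card_units_eq_totient]
  · apply MulChar.sum_eq_zero_of_ne_one
    intro hc
    exact h (mul_inv_eq_one.1 hc)

lemma norm_sq_eq (z : ℂ) : ((‖z‖ ^ 2 : ℝ) : ℂ) = z * conj z := by
  rw [Complex.mul_conj, Complex.normSq_eq_norm_sq]

/-- Parseval -/
lemma parseval (u : DirichletCharacter ℂ N → ℂ) :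
    ∑ a : ZMod N, ‖∑ χ, u χ * χ a‖ ^ 2 = N.totient * ∑ χ, ‖u χ‖ ^ 2 := by
  have h : (((∑ a : ZMod N, ‖∑ χ, u χ * χ a‖ ^ 2 : ℝ)) : ℂ) = ((N.totient * ∑ χ, ‖u χ‖ ^ 2 : ℝ) : ℂ) := by
    push_cast
    simp_rw [← Complex.ofReal_pow, norm_sq_eq, map_sum, sum_mul_sum, map_mul]
    rw [sum_comm]
    rw [mul_sum]
    refine sum_congr rfl fun χ _ => ?_
    rw [sum_comm]
    have e1 : ∀ ψ : DirichletCharacter ℂ N,
        ∑ a : ZMod N, u χ * χ a * (conj (u ψ) * conj (ψ a)) =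
          u χ * conj (u ψ) * (if χ = ψ then (N.totient : ℂ) else 0) := by
      intro ψ
      rw [← sum_chi_conj, mul_sum]
      refine sum_congr rfl fun a _ => ?_
      ring
    simp_rw [e1]
    simp only [mul_ite, mul_zero]
    rw [sum_ite_eq univ χ]
    rw [if_pos (mem_univ _)]
    ring
  exact_mod_cast h

/-- dual orthogonality -/
lemma sum_char_conj {a : ZMod N} (ha : IsUnit a) (b : ZMod N) :
    ∑ χ : DirichletCharacter ℂ N, χ b * conj (χ a) = if a = b then (N.totient : ℂ) else 0 := by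
  rw [← DirichletCharacter.sum_char_inv_mul_char_eq ℂ ha b]
  obtain ⟨u, rfl⟩ := ha
  refine sum_congr rfl fun χ _ => ?_
  rw [conj_char, MulChar.inv_apply, Ring.inverse_unit, mul_comm, ZMod.inv_coe_unit]

/-- the coefficients of `f` -/
noncomputable def cc (N : ℕ) [NeZero N] (χ : DirichletCharacter ℂ N) : ℂ :=
  (N.totient : ℂ)⁻¹ * ∑ a : ZMod N, (f N a : ℂ) * conj (χ a)

lemma totient_ne : (N.totient : ℂ) ≠ 0 := by
  have := Nat.totient_pos.2 (NeZero.pos N)
  exact_mod_cast this.ne'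

lemma inversion {b : ZMod N} (hb : IsUnit b) : ∑ χ, cc N χ * χ b = (f N b : ℂ) := by
  unfold cc
  have h1 : ∑ χ : DirichletCharacter ℂ N, (N.totient : ℂ)⁻¹ * (∑ a : ZMod N, (f N a : ℂ) * conj (χ a)) * χ b =
      (N.totient : ℂ)⁻¹ * ∑ a : ZMod N, (f N a : ℂ) * ∑ χ : DirichletCharacter ℂ N, χ b * conj (χ a) := by
    simp_rw [mul_sum, sum_mul]
    rw [sum_comm]
    refine sum_congr rfl fun a _ => sum_congr rfl fun χ _ => ?_
    ring
  rw [h1]
  have h2 : ∀ a : ZMod N, (f N a : ℂ) * ∑ χ : DirichletCharacter ℂ N, χ b * conj (χ a) =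
      if a = b then (f N a : ℂ) * (N.totient : ℂ) else 0 := by
    intro a
    by_cases ha : IsUnit a
    · rw [sum_char_conj ha b]
      split_ifs <;> simp
    · have h3 : ∑ χ : DirichletCharacter ℂ N, χ b * conj (χ a) = 0 := by
        apply sum_eq_zero
        intro χ _
        rw [MulChar.map_nonunit χ ha]; simp
      rw [h3, if_neg (fun h : a = b => ha (by rw [h]; exact hb)), mul_zero]
  simp_rw [h2]
  rw [sum_ite_eq' univ b, if_pos (mem_univ _), mul_comm ((f N b : ℂ)), ← mul_assoc,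
    inv_mul_cancel₀ totient_ne, one_mul]

lemma sum_nonunit (u : DirichletCharacter ℂ N → ℂ) {a : ZMod N} (ha : ¬ IsUnit a) :
    ∑ χ, u χ * χ a = 0 := by
  apply sum_eq_zero
  intro χ _
  rw [MulChar.map_nonunit χ ha, mul_zero]

lemma f_norm_le (x y : ZMod N) (s : ℤ) (hs : s = 1 ∨ s = -1) :
    ‖(f N x : ℂ) - s * (f N y : ℂ)‖ ^ 2 ≤ 4 := by
  rcases f_or x with h | h <;> rcases f_or y with h' | h' <;> rcases hs with h2 | h2 <;>
    rw [h, h', h2] <;> norm_num

/-- the mass of the coefficients is one -/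
lemma mass_one : ∑ χ, ‖cc N χ‖ ^ 2 = 1 := by
  have h1 := parseval (N := N) (cc N)
  have h2 : ∑ a : ZMod N, ‖∑ χ, cc N χ * χ a‖ ^ 2 = N.totient := by
    have h3 : ∀ a : ZMod N, ‖∑ χ, cc N χ * χ a‖ ^ 2 = ‖((1 : DirichletCharacter ℂ N) a)‖ ^ 2 := by
      intro a
      by_cases ha : IsUnit a
      · rw [inversion ha, MulChar.one_apply ha]
        rcases f_or a with h | h <;> rw [h] <;> norm_num
      · rw [sum_nonunit _ ha, MulChar.map_nonunit _ ha]
    simp_rw [h3]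
    have h4 := parseval (N := N) (fun χ => if χ = 1 then 1 else 0)
    simp only [ite_mul, one_mul, zero_mul] at h4
    simp_rw [sum_ite_eq' univ (1 : DirichletCharacter ℂ N)] at h4
    simp only [mem_univ, if_true] at h4
    rw [h4]
    have h5 : ∑ χ : DirichletCharacter ℂ N, ‖(if χ = 1 then (1 : ℂ) else 0)‖ ^ 2 = 1 := by
      rw [sum_eq_single 1]
      · simp
      · intro χ _ hχ; rw [if_neg hχ]; simp
      · intro h; exact absurd (mem_univ _) h
    rw [h5, mul_one]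
  rw [h2] at h1
  have hφ : (0 : ℝ) < N.totient := by exact_mod_cast Nat.totient_pos.2 (NeZero.pos N)
  have : (N.totient : ℝ) * 1 = N.totient * ∑ χ, ‖cc N χ‖ ^ 2 := by rw [mul_one]; exact h1
  exact (mul_left_cancel₀ hφ.ne' this).symm

/-- the mass of the coefficients away from `lam g` -/
lemma mass_dil {g : ℕ} (hg : g.Coprime N) :
    N.totient * ∑ χ, ‖cc N χ‖ ^ 2 * ‖χ (g : ZMod N) - lam g‖ ^ 2 ≤ 4 * (Ex N g).card := by
  have h1 := parseval (N := N) (fun χ => cc N χ * (χ (g : ZMod N) - lam g))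
  simp only [norm_mul, mul_pow] at h1
  rw [← h1]
  have h2 : ∀ a : ZMod N, ‖∑ χ, cc N χ * (χ (g : ZMod N) - lam g) * χ a‖ ^ 2 ≤
      if a ∈ Ex N g then 4 else 0 := by
    intro a
    by_cases ha : IsUnit a
    · have h3 : ∑ χ, cc N χ * (χ (g : ZMod N) - lam g) * χ a =
          (f N ((g : ZMod N) * a) : ℂ) - lam g * (f N a : ℂ) := by
        rw [← inversion ha, ← inversion ((isUnit_cast hg).mul ha), mul_sum, ← sum_sub_distrib]
        refine sum_congr rfl fun χ _ => ?_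
        rw [map_mul]; ring
      rw [h3]
      split_ifs with hE
      · exact f_norm_le _ _ _ (lam_or g)
      · rw [not_mem_Ex hE]; push_cast; simp
    · rw [sum_nonunit _ ha]
      split_ifs <;> norm_num
  refine (sum_le_sum fun a _ => h2 a).trans ?_
  rw [← sum_filter, filter_mem_eq_inter, univ_inter, sum_const, nsmul_eq_mul]
  linarith

/-- the mass of the even characters -/
lemma mass_neg : N.totient * ∑ χ, ‖cc N χ‖ ^ 2 * ‖χ (-1 : ZMod N) + 1‖ ^ 2 ≤ 4 * (E0 N).card := by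
  have h1 := parseval (N := N) (fun χ => cc N χ * (χ (-1 : ZMod N) + 1))
  simp only [norm_mul, mul_pow] at h1
  rw [← h1]
  have h2 : ∀ a : ZMod N, ‖∑ χ, cc N χ * (χ (-1 : ZMod N) + 1) * χ a‖ ^ 2 ≤
      if a ∈ E0 N then 4 else 0 := by
    intro a
    by_cases ha : IsUnit a
    · have h3 : ∑ χ, cc N χ * (χ (-1 : ZMod N) + 1) * χ a =
          (f N (-a) : ℂ) - ((-1 : ℤ) : ℂ) * (f N a : ℂ) := by
        rw [← inversion ha, ← inversion ha.neg, mul_sum, ← sum_sub_distrib]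
        refine sum_congr rfl fun χ _ => ?_
        have : χ (-a) = χ (-1 : ZMod N) * χ a := by rw [← map_mul]; congr 1; ring
        rw [this]; push_cast; ring
      rw [h3]
      split_ifs with hE
      · exact f_norm_le _ _ _ (Or.inr rfl)
      · rw [not_mem_E0 hE]; push_cast; simp
    · rw [sum_nonunit _ ha]
      split_ifs <;> norm_num
  refine (sum_le_sum fun a _ => h2 a).trans ?_
  rw [← sum_filter, filter_mem_eq_inter, univ_inter, sum_const, nsmul_eq_mul]
  linarith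

/-- number of factorisations into primes of `P` -/
lemma tuple_count (P : Finset ℕ) (hP : ∀ q ∈ P, q.Prime) (r : ℕ) (n : ℕ) :
    ((Fintype.piFinset (fun _ : Fin r => P)).filter fun t => ∏ i, t i = n).card ≤ r.factorial := by
  classical
  induction r generalizing n with
  | zero =>
    refine (card_filter_le _ _).trans ?_
    simp
  | succ r ih =>
    rcases ((Fintype.piFinset (fun _ : Fin (r + 1) => P)).filter fun t => ∏ i, t i = n).eq_empty_or_nonempty
      with he | ⟨t0, ht0⟩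
    · rw [he]; simp
    have hpf : n.primeFactors.card ≤ r + 1 := by
      rw [mem_filter, Fintype.mem_piFinset] at ht0
      have h1 : n.primeFactors ⊆ univ.image t0 := by
        intro q hq
        rw [Nat.mem_primeFactors, ← ht0.2] at hq
        obtain ⟨hqp, hqd, _⟩ := hq
        obtain ⟨i, _, hi⟩ := (hqp.prime.dvd_finset_prod_iff _).1 hqd
        rw [mem_image]
        exact ⟨i, mem_univ _, ((Nat.prime_dvd_prime_iff_eq hqp (hP _ (ht0.1 i))).1 hi).symm⟩
      refine (card_le_card h1).trans (card_image_le.trans ?_)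
      simp
    have hsub : ((Fintype.piFinset (fun _ : Fin (r + 1) => P)).filter fun t => ∏ i, t i = n) ⊆
        n.primeFactors.biUnion fun q =>
          ((Fintype.piFinset (fun _ : Fin r => P)).filter fun t => ∏ i, t i = n / q).image
            (fun t => (Fin.cons q t : Fin (r + 1) → ℕ)) := by
      intro t ht
      rw [mem_filter, Fintype.mem_piFinset] at ht
      obtain ⟨htP, htn⟩ := ht
      rw [Fin.prod_univ_succ] at htn
      have hn0 : n ≠ 0 := by
        rw [← htn]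
        apply mul_ne_zero (hP _ (htP 0)).ne_zero
        apply prod_ne_zero_iff.2
        intro i _
        exact (hP _ (htP _)).ne_zero
      rw [mem_biUnion]
      refine ⟨t 0, ?_, ?_⟩
      · rw [Nat.mem_primeFactors]
        exact ⟨hP _ (htP 0), ⟨_, htn.symm⟩, hn0⟩
      · rw [mem_image]
        refine ⟨Fin.tail t, ?_, Fin.cons_self_tail t⟩
        rw [mem_filter, Fintype.mem_piFinset]
        refine ⟨fun i => htP _, ?_⟩
        rw [← htn, Nat.mul_div_cancel_left _ (hP _ (htP 0)).pos]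
        rfl
    refine (card_le_card hsub).trans (card_biUnion_le.trans ?_)
    refine (sum_le_sum fun q _ => card_image_le.trans (ih (n / q))).trans ?_
    rw [sum_const, smul_eq_mul, Nat.factorial_succ]
    exact Nat.mul_le_mul_right _ hpf

/-- the high moment of the sums over primes -/
lemma moment (P : Finset ℕ) (hP : ∀ q ∈ P, q.Prime ∧ q.Coprime N) (K r : ℕ) (hK : ∀ q ∈ P, q ≤ K)
    (hKr : K ^ r < N) :
    ∑ χ : DirichletCharacter ℂ N, ‖∑ q ∈ P, χ (q : ZMod N)‖ ^ (2 * r) ≤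
      N.totient * (r.factorial * (P.card : ℝ) ^ r) := by
  classical
  set TT := Fintype.piFinset (fun _ : Fin r => P) with hTT
  have hprodlt : ∀ t ∈ TT, ∏ i, t i < N := by
    intro t ht
    rw [hTT, Fintype.mem_piFinset] at ht
    refine lt_of_le_of_lt ?_ hKr
    calc ∏ i, t i ≤ ∏ i : Fin r, K := prod_le_prod' fun i _ => hK _ (ht i)
      _ = K ^ r := by simp
  have hunit : ∀ t ∈ TT, IsUnit ((∏ i, t i : ℕ) : ZMod N) := by
    intro t ht
    rw [hTT, Fintype.mem_piFinset] at ht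
    apply isUnit_cast
    apply Nat.Coprime.prod_left
    intro i _
    exact (hP _ (ht i)).2
  have h1 : ∀ χ : DirichletCharacter ℂ N, (((‖∑ q ∈ P, χ (q : ZMod N)‖ ^ (2 * r) : ℝ)) : ℂ) =
      ∑ t ∈ TT, ∑ t' ∈ TT, χ ((∏ i, t i : ℕ) : ZMod N) * conj (χ ((∏ i, t' i : ℕ) : ZMod N)) := by
    intro χ
    have e1 : (∑ q ∈ P, χ (q : ZMod N)) ^ r = ∑ t ∈ TT, χ ((∏ i, t i : ℕ) : ZMod N) := by
      have := Finset.prod_univ_sum (fun _ : Fin r => P) (fun _ q => χ (q : ZMod N))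
      rw [prod_const, card_univ, Fintype.card_fin] at this
      rw [this]
      refine sum_congr rfl fun t _ => ?_
      push_cast
      rw [map_prod]
    rw [mul_comm 2 r, pow_mul, ← norm_pow, e1, norm_sq_eq, map_sum, sum_mul_sum]
  have h2 : (((∑ χ : DirichletCharacter ℂ N, ‖∑ q ∈ P, χ (q : ZMod N)‖ ^ (2 * r) : ℝ)) : ℂ) =
      ((N.totient * ∑ t ∈ TT, ((TT.filter fun t' => ∏ i, t' i = ∏ i, t i).card : ℝ) : ℝ) : ℂ) := by
    push_cast
    have e1 : ∑ χ : DirichletCharacter ℂ N, (‖∑ q ∈ P, χ (q : ZMod N)‖ : ℂ) ^ (2 * r) =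
        ∑ χ : DirichletCharacter ℂ N, ∑ t ∈ TT, ∑ t' ∈ TT,
          χ ((∏ i, t i : ℕ) : ZMod N) * conj (χ ((∏ i, t' i : ℕ) : ZMod N)) := by
      refine sum_congr rfl fun χ _ => ?_
      rw [← h1 χ]; push_cast; rfl
    rw [e1, sum_comm, mul_sum]
    refine sum_congr rfl fun t ht => ?_
    rw [sum_comm]
    have e2 : ∀ t' ∈ TT, ∑ χ : DirichletCharacter ℂ N,
        χ ((∏ i, t i : ℕ) : ZMod N) * conj (χ ((∏ i, t' i : ℕ) : ZMod N)) =
        if ∏ i, t' i = ∏ i, t i then (N.totient : ℂ) else 0 := by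
      intro t' ht'
      rw [sum_char_conj (hunit t' ht')]
      congr 1
      apply propext
      constructor
      · intro h
        have := congrArg ZMod.val h
        rwa [ZMod.val_natCast_of_lt (hprodlt t' ht'), ZMod.val_natCast_of_lt (hprodlt t ht)] at this
      · intro h; rw [h]
    rw [sum_congr rfl e2, ← sum_filter, sum_const, nsmul_eq_mul, mul_comm]
  have h3 : ∑ χ : DirichletCharacter ℂ N, ‖∑ q ∈ P, χ (q : ZMod N)‖ ^ (2 * r) =
      N.totient * ∑ t ∈ TT, ((TT.filter fun t' => ∏ i, t' i = ∏ i, t i).card : ℝ) := by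
    exact_mod_cast h2
  rw [h3]
  apply mul_le_mul_of_nonneg_left _ (Nat.cast_nonneg _)
  have h4 : ∀ t ∈ TT, ((TT.filter fun t' => ∏ i, t' i = ∏ i, t i).card : ℝ) ≤ r.factorial := by
    intro t _
    exact_mod_cast tuple_count P (fun q hq => (hP q hq).1) r _
  refine (sum_le_sum h4).trans ?_
  rw [sum_const, nsmul_eq_mul, hTT, Fintype.card_piFinset_const]
  push_cast
  linarith

/-- the characters that are close to `-1` on the primes of `P` -/
noncomputable def WW (N : ℕ) [NeZero N] (P : Finset ℕ) : Finset (DirichletCharacter ℂ N) :=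
  univ.filter fun χ => ∑ q ∈ P, ‖χ (q : ZMod N) + 1‖ ^ 2 ≤ P.card / 100

lemma WW_card (P : Finset ℕ) (hP : ∀ q ∈ P, q.Prime ∧ q.Coprime N) (K r : ℕ) (hK : ∀ q ∈ P, q ≤ K)
    (hKr : K ^ r < N) :
    ((WW N P).card : ℝ) * ((9 / 10) ^ 2 * P.card) ^ r ≤ N.totient * r.factorial := by
  have h1 : ∀ χ ∈ WW N P, (9 / 10 : ℝ) * P.card ≤ ‖∑ q ∈ P, χ (q : ZMod N)‖ := by
    intro χ hχ
    unfold WW at hχ
    rw [mem_filter] at hχ
    have h2 : ‖∑ q ∈ P, (χ (q : ZMod N) + 1)‖ ≤ P.card / 10 := by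
      have h3 : (∑ q ∈ P, ‖χ (q : ZMod N) + 1‖) ^ 2 ≤ P.card * ∑ q ∈ P, ‖χ (q : ZMod N) + 1‖ ^ 2 :=
        sq_sum_le_card_mul_sum_sq
      have h4 : (∑ q ∈ P, ‖χ (q : ZMod N) + 1‖) ^ 2 ≤ ((P.card : ℝ) / 10) ^ 2 := by
        refine h3.trans ?_
        have : (P.card : ℝ) * ∑ q ∈ P, ‖χ (q : ZMod N) + 1‖ ^ 2 ≤ P.card * (P.card / 100) := by
          gcongr; exact hχ.2
        linarith
      exact (norm_sum_le _ _).trans (le_of_sq_le_sq h4 (by positivity))
    rw [sum_add_distrib, sum_const, nsmul_eq_mul, mul_one] at h2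
    have h3 : (P.card : ℝ) ≤ ‖∑ q ∈ P, χ (q : ZMod N) + (P.card : ℂ)‖ + ‖∑ q ∈ P, χ (q : ZMod N)‖ := by
      have h4 := norm_sub_le (∑ q ∈ P, χ (q : ZMod N) + (P.card : ℂ)) (∑ q ∈ P, χ (q : ZMod N))
      rw [add_sub_cancel_left, Complex.norm_natCast] at h4
      exact h4
    linarith
  have h2 := moment P hP K r hK hKr
  have h3 : ((WW N P).card : ℝ) * ((9 / 10 : ℝ) * P.card) ^ (2 * r) ≤
      ∑ χ : DirichletCharacter ℂ N, ‖∑ q ∈ P, χ (q : ZMod N)‖ ^ (2 * r) := by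
    rw [← nsmul_eq_mul, ← sum_const]
    refine (sum_le_sum fun χ hχ => ?_).trans
      (sum_le_sum_of_subset_of_nonneg (subset_univ (WW N P)) fun _ _ _ => by positivity)
    exact pow_le_pow_left₀ (by positivity) (h1 χ hχ) _
  have h4 := h3.trans h2
  rcases eq_or_ne P.card 0 with h0 | h0
  · have hr : (WW N P).card ≤ N.totient := by
      have : Fintype.card (DirichletCharacter ℂ N) = N.totient := by
        rw [← Nat.card_eq_fintype_card]
        exact DirichletCharacter.card_eq_totient_of_hasEnoughRootsOfUnity ℂ N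
      rw [← this]; exact card_le_univ _
    have hr' : ((WW N P).card : ℝ) ≤ N.totient := by exact_mod_cast hr
    rw [h0]
    rcases Nat.eq_zero_or_pos r with h | h
    · subst h; simpa using hr'
    · rw [Nat.cast_zero, mul_zero, zero_pow (by omega), mul_zero]; positivity
  · have hPp : (0 : ℝ) < (P.card : ℝ) ^ r := by
      have : (0 : ℝ) < P.card := by exact_mod_cast Nat.pos_of_ne_zero h0
      positivity
    have e1 : ((9 / 10 : ℝ) * P.card) ^ (2 * r) = ((9 / 10) ^ 2 * P.card) ^ r * (P.card : ℝ) ^ r := by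
      rw [pow_mul, mul_pow ((9 : ℝ) / 10) (P.card : ℝ) 2, ← mul_pow]; congr 1; ring
    rw [e1, ← mul_assoc, ← mul_assoc] at h4
    exact le_of_mul_le_mul_right h4 hPp

/-- the mass outside -/
lemma WW_mass (P : Finset ℕ) (hP : ∀ q ∈ P, q.Prime ∧ q.Coprime N) (hne : P.Nonempty) {e : ℝ}
    (he : ∀ q ∈ P, ((Ex N q).card : ℝ) ≤ e) :
    N.totient * ∑ χ ∈ univ \ WW N P, ‖cc N χ‖ ^ 2 ≤ 400 * e := by
  have hPc : (0 : ℝ) < P.card := by exact_mod_cast hne.card_pos
  have h1 : ∀ χ ∈ univ \ WW N P, ‖cc N χ‖ ^ 2 ≤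
      100 / P.card * ∑ q ∈ P, ‖cc N χ‖ ^ 2 * ‖χ (q : ZMod N) + 1‖ ^ 2 := by
    intro χ hχ
    rw [Finset.mem_sdiff] at hχ
    unfold WW at hχ
    rw [mem_filter, not_and] at hχ
    have h2 := not_le.1 (hχ.2 (mem_univ _))
    rw [← mul_sum]
    have h3 : (1 : ℝ) ≤ 100 / P.card * ∑ q ∈ P, ‖χ (q : ZMod N) + 1‖ ^ 2 := by
      rw [div_mul_eq_mul_div, le_div_iff₀ hPc]; linarith
    calc ‖cc N χ‖ ^ 2 = ‖cc N χ‖ ^ 2 * 1 := (mul_one _).symm
      _ ≤ ‖cc N χ‖ ^ 2 * (100 / P.card * ∑ q ∈ P, ‖χ (q : ZMod N) + 1‖ ^ 2) := by gcongr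
      _ = _ := by ring
  have h2 : ∑ χ ∈ univ \ WW N P, ‖cc N χ‖ ^ 2 ≤
      100 / P.card * ∑ q ∈ P, ∑ χ, ‖cc N χ‖ ^ 2 * ‖χ (q : ZMod N) + 1‖ ^ 2 := by
    rw [sum_comm, mul_sum]
    refine (sum_le_sum h1).trans ?_
    apply sum_le_sum_of_subset_of_nonneg (sdiff_subset)
    intro _ _ _
    positivity
  have h3 : ∀ q ∈ P, (N.totient : ℝ) * ∑ χ, ‖cc N χ‖ ^ 2 * ‖χ (q : ZMod N) + 1‖ ^ 2 ≤ 4 * e := by
    intro q hq
    have h4 := mass_dil (hP q hq).2
    rw [lam_prime (hP q hq).1] at h4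
    simp only [Int.cast_neg, Int.cast_one, sub_neg_eq_add] at h4
    refine h4.trans ?_
    have := he q hq
    linarith
  calc (N.totient : ℝ) * ∑ χ ∈ univ \ WW N P, ‖cc N χ‖ ^ 2
      ≤ N.totient * (100 / P.card * ∑ q ∈ P, ∑ χ, ‖cc N χ‖ ^ 2 * ‖χ (q : ZMod N) + 1‖ ^ 2) := by gcongr
    _ = 100 / P.card * ∑ q ∈ P, (N.totient * ∑ χ, ‖cc N χ‖ ^ 2 * ‖χ (q : ZMod N) + 1‖ ^ 2) := by
        rw [← mul_sum]; ring
    _ ≤ 100 / P.card * ∑ q ∈ P, (4 * e) :=
        mul_le_mul_of_nonneg_left (sum_le_sum h3) (by positivity)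
    _ = 400 * e := by
        rw [sum_const, nsmul_eq_mul]; field_simp; ring

end Z

end Pool.Agent.T2H22.LG
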