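import Pool.Agent.T2H22.LG.E
import Pool.Agent.H38R2.CG.PV

set_option autoImplicit false
set_option linter.all false
set_option maxHeartbeats 1000000

/-!
# Near orthonormality on initial segments and averaging over primes
-/

namespace Pool.Agent.T2H22.LG

open Finset Filter
open scoped ComplexConjugate

section Z

variable {N : ℕ} [NeZero N]

/-- the bound of Polya and Vinogradov -/
noncomputable def VV (N : ℕ) : ℝ := 4 * √(N : ℝ) * (1 + Real.log N)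

lemma VV_nonneg (hN : 2 ≤ N) : 0 ≤ VV N := by
  unfold VV
  have : 0 ≤ Real.log N := Real.log_natCast_nonneg N
  positivity

lemma pv (hN : 2 ≤ N) (χ : DirichletCharacter ℂ N) (hχ : χ ≠ 1) (X : ℕ) :
    ‖∑ n ∈ Icc 1 X, χ (n : ZMod N)‖ ≤ VV N :=
  Pool.Agent.H38R2.CG.PVh.sum_le N χ hN hχ X

/-- number of integers up to `X` prime to `N` -/
def NC (N X : ℕ) : ℕ := ((Icc 1 X).filter fun n => n.Coprime N).card

lemma one_sum (X : ℕ) : ∑ n ∈ Icc 1 X, (1 : DirichletCharacter ℂ N) (n : ZMod N) = NC N X := by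
  classical
  unfold NC
  rw [card_filter]
  push_cast
  refine sum_congr rfl fun n _ => ?_
  split_ifs with h
  · rw [MulChar.one_apply ((ZMod.isUnit_iff_coprime n N).2 h)]
  · rw [MulChar.map_nonunit]
    intro h2; exact h ((ZMod.isUnit_iff_coprime n N).1 h2)

lemma NC_lower (hN : PPow N) (hN2 : 2 ≤ N) (X : ℕ) : (2 / 3 : ℝ) * X ≤ NC N X := by
  obtain ⟨p, k, hp, hp2, hNp⟩ := hN
  have hp3 : 3 ≤ p := by
    have := hp.two_le
    omega
  have h1 : (Icc 1 X).card ≤ NC N X + ((Icc 1 X).filter fun n => p ∣ n).card := by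
    unfold NC
    rw [← card_filter_add_card_filter_not (s := Icc 1 X) (fun n => n.Coprime N)]
    apply Nat.add_le_add_left
    apply card_le_card
    intro n hn
    rw [mem_filter] at hn ⊢
    refine ⟨hn.1, ?_⟩
    by_contra hc
    apply hn.2
    rw [hNp]
    exact ((Nat.Prime.coprime_iff_not_dvd hp).2 hc).symm.pow_right k
  have h2 : ((Icc 1 X).filter fun n => p ∣ n).card = X / p := by
    have : Icc 1 X = Ioc 0 X := by ext n; simp only [mem_Icc, mem_Ioc]; omega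
    rw [this, Nat.Ioc_filter_dvd_card_eq_div]
  rw [h2, Nat.card_Icc] at h1
  have h3 : ((X / p : ℕ) : ℝ) ≤ X / 3 := by
    refine Nat.cast_div_le.trans ?_
    have : (3 : ℝ) ≤ p := by exact_mod_cast hp3
    gcongr
  have h4 : (X : ℝ) ≤ NC N X + ((X / p : ℕ) : ℝ) := by
    have : X ≤ NC N X + X / p := by omega
    exact_mod_cast this
  linarith

/-- near orthonormality -/
lemma near_orth (hN : 2 ≤ N) (W : Finset (DirichletCharacter ℂ N)) (u : DirichletCharacter ℂ N → ℂ)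
    (X : ℕ) : |∑ n ∈ Icc 1 X, ‖∑ χ ∈ W, u χ * χ (n : ZMod N)‖ ^ 2 - NC N X * ∑ χ ∈ W, ‖u χ‖ ^ 2| ≤
      VV N * (W.card * ∑ χ ∈ W, ‖u χ‖ ^ 2) := by
  classical
  have h1 : ((∑ n ∈ Icc 1 X, ‖∑ χ ∈ W, u χ * χ (n : ZMod N)‖ ^ 2 - NC N X * ∑ χ ∈ W, ‖u χ‖ ^ 2 : ℝ) : ℂ) =
      ∑ χ ∈ W, ∑ ψ ∈ W, if χ = ψ then 0 else u χ * conj (u ψ) * ∑ n ∈ Icc 1 X, (χ * ψ⁻¹) (n : ZMod N) := by
    push_cast
    simp_rw [← Complex.ofReal_pow, norm_sq_eq, map_sum, sum_mul_sum, map_mul]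
    rw [sum_comm, mul_sum, ← sum_sub_distrib]
    refine sum_congr rfl fun χ hχ => ?_
    rw [sum_comm]
    have e1 : ∀ ψ ∈ W, ∑ n ∈ Icc 1 X, u χ * χ (n : ZMod N) * (conj (u ψ) * conj (ψ (n : ZMod N))) =
        u χ * conj (u ψ) * ∑ n ∈ Icc 1 X, (χ * ψ⁻¹) (n : ZMod N) := by
      intro ψ _
      rw [mul_sum]
      refine sum_congr rfl fun n _ => ?_
      rw [MulChar.mul_apply, ← conj_char]; ring
    rw [sum_congr rfl e1]
    have e2 : ∀ ψ ∈ W, u χ * conj (u ψ) * ∑ n ∈ Icc 1 X, (χ * ψ⁻¹) (n : ZMod N) =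
        (if χ = ψ then u χ * conj (u ψ) * NC N X else 0) +
        (if χ = ψ then 0 else u χ * conj (u ψ) * ∑ n ∈ Icc 1 X, (χ * ψ⁻¹) (n : ZMod N)) := by
      intro ψ _
      split_ifs with h
      · rw [h, mul_inv_cancel, one_sum, add_zero]
      · rw [zero_add]
    rw [sum_congr rfl e2, sum_add_distrib, sum_ite_eq W χ, if_pos hχ]
    ring
  have h2 : |∑ n ∈ Icc 1 X, ‖∑ χ ∈ W, u χ * χ (n : ZMod N)‖ ^ 2 - NC N X * ∑ χ ∈ W, ‖u χ‖ ^ 2| ≤
      ∑ χ ∈ W, ∑ ψ ∈ W, ‖u χ‖ * ‖u ψ‖ * VV N := by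
    rw [← Real.norm_eq_abs, ← Complex.norm_real, h1]
    refine (norm_sum_le _ _).trans (sum_le_sum fun χ _ => (norm_sum_le _ _).trans (sum_le_sum fun ψ _ => ?_))
    split_ifs with h
    · rw [norm_zero]
      have := VV_nonneg hN
      positivity
    · rw [norm_mul, norm_mul]
      have h3 : ‖conj (u ψ)‖ = ‖u ψ‖ := Complex.norm_conj _
      rw [h3]
      apply mul_le_mul_of_nonneg_left _ (by positivity)
      apply pv hN
      intro hc
      exact h (mul_inv_eq_one.1 hc)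
  refine h2.trans ?_
  have h3 : ∑ χ ∈ W, ∑ ψ ∈ W, ‖u χ‖ * ‖u ψ‖ * VV N = VV N * (∑ χ ∈ W, ‖u χ‖) ^ 2 := by
    rw [sq, sum_mul_sum, mul_sum]
    refine sum_congr rfl fun χ _ => ?_
    rw [mul_sum]
    exact sum_congr rfl fun ψ _ => by ring
  rw [h3]
  exact mul_le_mul_of_nonneg_left (sq_sum_le_card_mul_sum_sq) (VV_nonneg hN)

lemma near_lower (hN : PPow N) (hN2 : 2 ≤ N) (W : Finset (DirichletCharacter ℂ N))
    (u : DirichletCharacter ℂ N → ℂ) (X : ℕ) (hX : VV N * W.card ≤ X / 6) :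
    (X : ℝ) / 2 * ∑ χ ∈ W, ‖u χ‖ ^ 2 ≤ ∑ n ∈ Icc 1 X, ‖∑ χ ∈ W, u χ * χ (n : ZMod N)‖ ^ 2 := by
  have h1 := near_orth hN2 W u X
  have h2 := NC_lower hN hN2 X
  have h3 : 0 ≤ ∑ χ ∈ W, ‖u χ‖ ^ 2 := sum_nonneg fun _ _ => by positivity
  rw [abs_le] at h1
  have h4 := mul_le_mul_of_nonneg_right hX h3
  have h5 := mul_le_mul_of_nonneg_right h2 h3
  have h6 : VV N * (W.card * ∑ χ ∈ W, ‖u χ‖ ^ 2) = VV N * W.card * ∑ χ ∈ W, ‖u χ‖ ^ 2 := by ring
  rw [h6] at h1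
  linarith [h1.1]

/-- the part of `f` in `W` dilated by `l` -/
noncomputable def FW (W : Finset (DirichletCharacter ℂ N)) (l m : ℕ) : ℂ :=
  ∑ χ ∈ W, cc N χ * χ (l : ZMod N) * χ (m : ZMod N)

/-- the complementary part -/
noncomputable def gW (W : Finset (DirichletCharacter ℂ N)) (a : ZMod N) : ℂ :=
  ∑ χ ∈ univ \ W, cc N χ * χ a

open Classical in
/-- the distance to the Liouville function -/
noncomputable def Del (W : Finset (DirichletCharacter ℂ N)) (l X : ℕ) : ℝ :=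
  ∑ m ∈ (Icc 1 X).filter (fun m => m.Coprime N), ‖(lam m : ℂ) + FW W l m‖ ^ 2

lemma Del_nonneg (W : Finset (DirichletCharacter ℂ N)) (l X : ℕ) : 0 ≤ Del W l X :=
  sum_nonneg fun _ _ => by positivity

lemma Del_mono (W : Finset (DirichletCharacter ℂ N)) (l : ℕ) {X X' : ℕ} (h : X ≤ X') :
    Del W l X ≤ Del W l X' := by
  unfold Del
  apply sum_le_sum_of_subset_of_nonneg
  · exact filter_subset_filter _ (Icc_subset_Icc le_rfl h)
  · intros; positivity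

lemma gW_eq (W : Finset (DirichletCharacter ℂ N)) {l m : ℕ} (hl : l.Prime) (hlN : l.Coprime N)
    (hm : m.Coprime N) (hm0 : 0 < m) (hlm : l * m < N) :
    (lam m : ℂ) + FW W l m = -gW W ((l * m : ℕ) : ZMod N) := by
  have h1 : IsUnit ((l * m : ℕ) : ZMod N) := isUnit_cast (hlN.mul_left hm)
  have h2 := inversion h1
  rw [f_natCast hlm, lam_mul hl.ne_zero hm0.ne', lam_prime hl] at h2
  have h3 : ∑ χ, cc N χ * χ ((l * m : ℕ) : ZMod N) = gW W ((l * m : ℕ) : ZMod N) + FW W l m := by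
    unfold gW FW
    rw [← sum_sdiff (subset_univ W)]
    congr 1
    refine sum_congr rfl fun χ _ => ?_
    push_cast
    rw [map_mul]; ring
  rw [h3] at h2
  push_cast at h2 ⊢
  linear_combination h2

/-- averaging over primes -/
lemma Del_sum (W : Finset (DirichletCharacter ℂ N)) (S : Finset ℕ) (X : ℕ)
    (hS : ∀ l ∈ S, l.Prime ∧ l.Coprime N ∧ l * X < N) :
    ∑ l ∈ S, Del W l X ≤ Nat.log 2 N * ∑ a : ZMod N, ‖gW W a‖ ^ 2 := by
  classical
  have h1 : ∀ l ∈ S, Del W l X ≤ ∑ n ∈ Ico 1 N, if l ∣ n then ‖gW W (n : ZMod N)‖ ^ 2 else 0 := by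
    intro l hl
    obtain ⟨hlp, hlN, hlX⟩ := hS l hl
    unfold Del
    have e1 : ∀ m ∈ (Icc 1 X).filter (fun m => m.Coprime N), ‖(lam m : ℂ) + FW W l m‖ ^ 2 =
        ‖gW W ((l * m : ℕ) : ZMod N)‖ ^ 2 := by
      intro m hm
      rw [mem_filter, mem_Icc] at hm
      rw [gW_eq W hlp hlN hm.2 hm.1.1 (lt_of_le_of_lt (Nat.mul_le_mul_left l hm.1.2) hlX), norm_neg]
    rw [sum_congr rfl e1, ← sum_filter]
    have e2 : ∑ m ∈ (Icc 1 X).filter (fun m => m.Coprime N), ‖gW W ((l * m : ℕ) : ZMod N)‖ ^ 2 =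
        ∑ n ∈ ((Icc 1 X).filter (fun m => m.Coprime N)).image (fun m => l * m), ‖gW W (n : ZMod N)‖ ^ 2 := by
      rw [sum_image]
      intro a _ b _ h
      exact Nat.eq_of_mul_eq_mul_left hlp.pos h
    rw [e2]
    apply sum_le_sum_of_subset_of_nonneg
    · intro n hn
      rw [mem_image] at hn
      obtain ⟨m, hm, rfl⟩ := hn
      rw [mem_filter, mem_Icc] at hm
      rw [mem_filter, mem_Ico]
      refine ⟨⟨Nat.mul_pos hlp.pos hm.1.1, lt_of_le_of_lt (Nat.mul_le_mul_left l hm.1.2) hlX⟩, dvd_mul_right _ _⟩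
    · intros; positivity
  refine (sum_le_sum h1).trans ?_
  rw [sum_comm]
  have h2 : ∀ n ∈ Ico 1 N, (∑ l ∈ S, if l ∣ n then ‖gW W (n : ZMod N)‖ ^ 2 else 0) ≤
      Nat.log 2 N * ‖gW W (n : ZMod N)‖ ^ 2 := by
    intro n hn
    rw [mem_Ico] at hn
    rw [← sum_filter, sum_const, nsmul_eq_mul]
    apply mul_le_mul_of_nonneg_right _ (by positivity)
    have e1 : (S.filter fun l => l ∣ n) ⊆ n.primeFactors := by
      intro l hl
      rw [mem_filter] at hl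
      rw [Nat.mem_primeFactors]
      exact ⟨(hS l hl.1).1, hl.2, by omega⟩
    have e2 : n.primeFactors.card ≤ Nat.log 2 N := by
      refine le_trans ?_ (Nat.log_mono_right hn.2.le)
      apply Nat.le_log_of_pow_le (by norm_num)
      calc 2 ^ n.primeFactors.card = ∏ q ∈ n.primeFactors, 2 := by simp
        _ ≤ ∏ q ∈ n.primeFactors, q := prod_le_prod' fun q hq => (Nat.prime_of_mem_primeFactors hq).two_le
        _ ≤ n := Nat.le_of_dvd (by omega) (Nat.prod_primeFactors_dvd n)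
    exact_mod_cast (card_le_card e1).trans e2
  refine (sum_le_sum h2).trans ?_
  rw [← mul_sum]
  apply mul_le_mul_of_nonneg_left _ (Nat.cast_nonneg _)
  have h3 : ∑ n ∈ Ico 1 N, ‖gW W (n : ZMod N)‖ ^ 2 =
      ∑ a ∈ (Ico 1 N).image (fun n : ℕ => (n : ZMod N)), ‖gW W a‖ ^ 2 := by
    rw [sum_image]
    intro a ha b hb h
    simp only [coe_Ico, Set.mem_Ico] at ha hb
    have := congrArg ZMod.val h
    simpa [ZMod.val_natCast_of_lt ha.2, ZMod.val_natCast_of_lt hb.2] using this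
  rw [h3]
  apply sum_le_sum_of_subset_of_nonneg (subset_univ _)
  intros; positivity

/-- total mass outside -/
lemma gW_mass (W : Finset (DirichletCharacter ℂ N)) :
    ∑ a : ZMod N, ‖gW W a‖ ^ 2 = N.totient * ∑ χ ∈ univ \ W, ‖cc N χ‖ ^ 2 := by
  classical
  have h := parseval (N := N) (fun χ => if χ ∈ univ \ W then cc N χ else 0)
  simp only [ite_mul, zero_mul] at h
  have e1 : ∀ a : ZMod N, ∑ χ : DirichletCharacter ℂ N, (if χ ∈ univ \ W then cc N χ * χ a else 0) = gW W a := by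
    intro a
    rw [← sum_filter, filter_mem_eq_inter, univ_inter]
    unfold gW
    congr!
  simp_rw [e1] at h
  rw [h]
  congr 1
  have e2 : ∀ χ : DirichletCharacter ℂ N, ‖(if χ ∈ univ \ W then cc N χ else 0)‖ ^ 2 =
      if χ ∈ univ \ W then ‖cc N χ‖ ^ 2 else 0 := by
    intro χ; split_ifs <;> simp
  simp_rw [e2]
  rw [← sum_filter, filter_mem_eq_inter, univ_inter]

/-- comparison of two primes -/
lemma compare (hN : PPow N) (hN2 : 2 ≤ N) (W : Finset (DirichletCharacter ℂ N)) (l l' X : ℕ)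
    (hX : VV N * W.card ≤ X / 6) :
    (X : ℝ) / 2 * ∑ χ ∈ W, ‖cc N χ * (χ (l : ZMod N) - χ (l' : ZMod N))‖ ^ 2 ≤
      2 * Del W l X + 2 * Del W l' X := by
  classical
  refine (near_lower hN hN2 W (fun χ => cc N χ * (χ (l : ZMod N) - χ (l' : ZMod N))) X hX).trans ?_
  unfold Del
  rw [mul_sum, mul_sum, ← sum_add_distrib]
  have h1 : ∑ n ∈ Icc 1 X, ‖∑ χ ∈ W, cc N χ * (χ (l : ZMod N) - χ (l' : ZMod N)) * χ (n : ZMod N)‖ ^ 2 =
      ∑ n ∈ (Icc 1 X).filter (fun m => m.Coprime N),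
        ‖∑ χ ∈ W, cc N χ * (χ (l : ZMod N) - χ (l' : ZMod N)) * χ (n : ZMod N)‖ ^ 2 := by
    symm
    apply sum_filter_of_ne
    intro n _ hne
    by_contra hc
    apply hne
    have : ∑ χ ∈ W, cc N χ * (χ (l : ZMod N) - χ (l' : ZMod N)) * χ (n : ZMod N) = 0 := by
      apply sum_eq_zero
      intro χ _
      rw [MulChar.map_nonunit χ (fun h => hc ((ZMod.isUnit_iff_coprime n N).1 h)), mul_zero]
    rw [this]; simp
  rw [h1]
  refine sum_le_sum fun n _ => ?_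
  have h2 : ∑ χ ∈ W, cc N χ * (χ (l : ZMod N) - χ (l' : ZMod N)) * χ (n : ZMod N) =
      ((lam n : ℂ) + FW W l n) - ((lam n : ℂ) + FW W l' n) := by
    unfold FW
    rw [add_sub_add_left_eq_sub, ← sum_sub_distrib]
    exact sum_congr rfl fun χ _ => by ring
  rw [h2]
  have h3 := norm_sub_le ((lam n : ℂ) + FW W l n) ((lam n : ℂ) + FW W l' n)
  have h4 := norm_nonneg (((lam n : ℂ) + FW W l n) - ((lam n : ℂ) + FW W l' n))
  nlinarith [sq_nonneg (‖(lam n : ℂ) + FW W l n‖ - ‖(lam n : ℂ) + FW W l' n‖)]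

/-- the vector of deviations -/
noncomputable def dv (W : Finset (DirichletCharacter ℂ N)) (l : ℕ) : EuclideanSpace ℂ W :=
  WithLp.toLp 2 fun χ => cc N χ.1 * (χ.1 (l : ZMod N) + 1)

lemma dv_sq (W : Finset (DirichletCharacter ℂ N)) (l : ℕ) :
    ‖dv W l‖ ^ 2 = ∑ χ ∈ W, ‖cc N χ‖ ^ 2 * ‖χ (l : ZMod N) + 1‖ ^ 2 := by
  rw [EuclideanSpace.norm_sq_eq]
  unfold dv
  simp only [norm_mul, mul_pow]
  rw [← sum_coe_sort W]

lemma dv_sub (W : Finset (DirichletCharacter ℂ N)) (l l' : ℕ) :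
    ‖dv W l - dv W l'‖ ^ 2 = ∑ χ ∈ W, ‖cc N χ * (χ (l : ZMod N) - χ (l' : ZMod N))‖ ^ 2 := by
  rw [EuclideanSpace.norm_sq_eq]
  unfold dv
  rw [← sum_coe_sort W]
  refine sum_congr rfl fun χ _ => ?_
  congr 2
  simp only [PiLp.sub_apply]
  ring

/-- one step of the chain -/
lemma chain_step (hN : PPow N) (hN2 : 2 ≤ N) (W : Finset (DirichletCharacter ℂ N)) {l l' X X' : ℕ}
    (hX' : VV N * W.card ≤ X' / 6) (hXX : X' ≤ X) (hXX2 : X ≤ 7 * X') (hX0 : 0 < X') {η : ℝ}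
    (hη : 0 ≤ η) (h1 : Del W l X ≤ η * X) (h2 : Del W l' X' ≤ η * X') :
    ‖dv W l'‖ ≤ ‖dv W l‖ + 6 * √η := by
  have h3 := compare hN hN2 W l l' X' hX'
  have h4 : Del W l X' ≤ η * (7 * X') := by
    refine (Del_mono W l hXX).trans (h1.trans ?_)
    apply mul_le_mul_of_nonneg_left _ hη
    exact_mod_cast hXX2
  rw [← dv_sub] at h3
  have hX0' : (0 : ℝ) < X' := by exact_mod_cast hX0
  have h5 : ‖dv W l - dv W l'‖ ^ 2 ≤ 36 * η := by
    have h6 : (X' : ℝ) * ‖dv W l - dv W l'‖ ^ 2 ≤ X' * (36 * η) := by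
      have : 0 ≤ η * X' := by positivity
      nlinarith
    exact le_of_mul_le_mul_left h6 hX0'
  have h6 : ‖dv W l - dv W l'‖ ≤ 6 * √η := by
    apply le_of_sq_le_sq _ (by positivity)
    rw [mul_pow, Real.sq_sqrt hη]
    linarith
  have h7 : ‖dv W l'‖ ≤ ‖dv W l‖ + ‖dv W l - dv W l'‖ := by
    have := norm_sub_le (dv W l) (dv W l - dv W l')
    rw [sub_sub_cancel] at this
    exact this
  linarith

end Z

end Pool.Agent.T2H22.LG
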