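import Pool.Agent.T2H22.LG.F

set_option autoImplicit false
set_option linter.all false
set_option maxHeartbeats 1000000

/-!
# The chain over the dyadic scales
-/

namespace Pool.Agent.T2H22.LG

open Finset Filter
open scoped ComplexConjugate

lemma sum_inv_le (M : ℕ) : ∑ n ∈ Icc 1 M, (1 : ℝ) / n ≤ 1 + Real.log M := by
  have h := harmonic_le_one_add_log M
  rw [harmonic_eq_sum_Icc] at h
  push_cast at h
  simpa [one_div] using h

/-- the primes of the `k`-th block -/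
def SS (N k : ℕ) : Finset ℕ := (Ioc (4 ^ k) (4 ^ (k + 1))).filter fun l => l.Prime ∧ l.Coprime N

/-- the length of the `k`-th block -/
def XX (N k : ℕ) : ℕ := (N - 1) / 4 ^ (k + 1)

section Z

variable {N : ℕ} [NeZero N]

open Classical in
/-- the bad primes of the block -/
noncomputable def BB (W : Finset (DirichletCharacter ℂ N)) (η : ℝ) (k : ℕ) : Finset ℕ :=
  (SS N k).filter fun l => η * XX N k < Del W l (XX N k)

lemma SS_ok {k : ℕ} : ∀ l ∈ SS N k, l.Prime ∧ l.Coprime N ∧ l * XX N k < N := by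
  intro l hl
  unfold SS at hl
  rw [mem_filter, mem_Ioc] at hl
  refine ⟨hl.2.1, hl.2.2, ?_⟩
  have h1 : l * XX N k ≤ 4 ^ (k + 1) * XX N k := Nat.mul_le_mul_right _ hl.1.2
  have h2 : 4 ^ (k + 1) * XX N k ≤ N - 1 := Nat.mul_div_le _ _
  have h3 := NeZero.pos N
  omega

lemma BB_card (W : Finset (DirichletCharacter ℂ N)) {η e : ℝ} (k : ℕ)
    (hg : ∑ a : ZMod N, ‖gW W a‖ ^ 2 ≤ e) :
    ((BB W η k).card : ℝ) * (η * XX N k) ≤ Nat.log 2 N * e := by
  classical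
  have h1 := Del_sum W (SS N k) (XX N k) SS_ok
  have h2 : ((BB W η k).card : ℝ) * (η * XX N k) ≤ ∑ l ∈ BB W η k, Del W l (XX N k) := by
    rw [← nsmul_eq_mul, ← sum_const]
    refine sum_le_sum fun l hl => ?_
    unfold BB at hl
    exact (mem_filter.1 hl).2.le
  have h3 : ∑ l ∈ BB W η k, Del W l (XX N k) ≤ ∑ l ∈ SS N k, Del W l (XX N k) := by
    apply sum_le_sum_of_subset_of_nonneg (filter_subset _ _)
    intro l _ _; exact Del_nonneg _ _ _
  refine h2.trans (h3.trans (h1.trans ?_))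
  gcongr

/-- the chain -/
lemma chain (hN : PPow N) (hN2 : 2 ≤ N) (W : Finset (DirichletCharacter ℂ N)) {η d0 : ℝ} (hη : 0 ≤ η)
    {k0 k1 : ℕ} (h1 : ∀ k, k0 ≤ k → k ≤ k1 → VV N * W.card ≤ (XX N k : ℝ) / 6 ∧ 0 < XX N k)
    (h2 : ∀ k, k0 ≤ k → k ≤ k1 → (BB W η k).card < (SS N k).card)
    (h3 : ∀ l ∈ SS N k0, ‖dv W l‖ ≤ d0) :
    ∀ n : ℕ, k0 + n ≤ k1 → ∀ l ∈ SS N (k0 + n) \ BB W η (k0 + n), ‖dv W l‖ ≤ d0 + 6 * √η * n := by
  classical
  intro n
  induction n with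
  | zero =>
    intro _ l hl
    rw [Finset.mem_sdiff] at hl
    simpa using h3 l hl.1
  | succ n ih =>
    intro hk l hl
    obtain ⟨l', hl'⟩ : (SS N (k0 + n) \ BB W η (k0 + n)).Nonempty := by
      rw [← card_pos]
      have e1 := h2 (k0 + n) (by omega) (by omega)
      have e2 := le_card_sdiff (BB W η (k0 + n)) (SS N (k0 + n))
      omega
    have hl'2 := ih (by omega) l' hl'
    have good : ∀ k, ∀ q ∈ SS N k \ BB W η k, Del W q (XX N k) ≤ η * XX N k := by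
      intro k q hq
      rw [Finset.mem_sdiff] at hq
      by_contra hc
      apply hq.2
      unfold BB
      rw [mem_filter]
      exact ⟨hq.1, not_le.1 hc⟩
    have hXeq : XX N (k0 + (n + 1)) = XX N (k0 + n) / 4 := by
      unfold XX
      rw [Nat.div_div_eq_div_mul, ← pow_succ]
      rfl
    obtain ⟨g1, g2⟩ := h1 (k0 + (n + 1)) (by omega) hk
    have step := chain_step hN hN2 W (l := l') (l' := l) (X := XX N (k0 + n)) (X' := XX N (k0 + (n + 1)))
      g1 (by omega) (by omega) g2 hη (good _ l' hl') (good _ l hl)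
    push_cast
    linarith

/-- existence of the character -/
lemma exists_char (W : Finset (DirichletCharacter ℂ N)) {η e E2 : ℝ}
    (hη : 0 < η) {k0 k1 z : ℕ} (hE : 0 ≤ E2)
    (hg : ∑ a : ZMod N, ‖gW W a‖ ^ 2 ≤ e)
    (hX : ∀ k, k0 ≤ k → k ≤ k1 → 0 < XX N k)
    (hz : z ≤ 4 ^ (k1 + 1))
    (hsmall : ∀ l : ℕ, l.Prime → l.Coprime N → l ≤ 4 ^ k0 → ‖dv W l‖ ^ 2 ≤ E2)
    (hgood : ∀ k, k0 ≤ k → k ≤ k1 → ∀ l ∈ SS N k \ BB W η k, ‖dv W l‖ ^ 2 ≤ E2)
    (hmass : (1 / 2 : ℝ) ≤ ∑ χ ∈ W, ‖cc N χ‖ ^ 2) {e' : ℝ}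
    (hneg : ∑ χ ∈ W, ‖cc N χ‖ ^ 2 * ‖χ (-1 : ZMod N) + 1‖ ^ 2 ≤ e') {T : ℝ}
    (hT : E2 * (1 + Real.log z) + ∑ k ∈ Icc k0 k1, (Nat.log 2 N * e / (η * XX N k)) * (4 / 4 ^ k) + e' ≤ T) :
    ∃ χ : DirichletCharacter ℂ N, ‖χ (-1 : ZMod N) + 1‖ ^ 2 +
      ∑ l ∈ (Icc 1 z).filter (fun l => l.Prime ∧ l.Coprime N), ‖χ (l : ZMod N) + 1‖ ^ 2 / l ≤ 2 * T := by
  classical
  have hB : ∀ k, k0 ≤ k → k ≤ k1 → ((BB W η k).card : ℝ) ≤ Nat.log 2 N * e / (η * XX N k) := by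
    intro k h1 h2
    have hXp : (0 : ℝ) < XX N k := by exact_mod_cast hX k h1 h2
    rw [le_div_iff₀ (by positivity)]
    exact BB_card W k hg
  have hdv4 : ∀ l : ℕ, ‖dv W l‖ ^ 2 ≤ 4 := by
    intro l
    rw [dv_sq]
    have h1 : ∀ χ ∈ W, ‖cc N χ‖ ^ 2 * ‖χ (l : ZMod N) + 1‖ ^ 2 ≤ ‖cc N χ‖ ^ 2 * 4 := by
      intro χ _
      have h2 : ‖χ (l : ZMod N) + 1‖ ≤ 2 := by
        refine (norm_add_le _ _).trans ?_
        rw [norm_one]
        have := χ.norm_le_one (l : ZMod N)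
        linarith
      have h3 := norm_nonneg (χ (l : ZMod N) + 1)
      have : ‖χ (l : ZMod N) + 1‖ ^ 2 ≤ 4 := by nlinarith
      gcongr
    refine (sum_le_sum h1).trans ?_
    rw [← sum_mul]
    have h2 : ∑ χ ∈ W, ‖cc N χ‖ ^ 2 ≤ 1 := by
      rw [← mass_one (N := N)]
      apply sum_le_sum_of_subset_of_nonneg (subset_univ _)
      intros; positivity
    linarith
  set PP := (Icc 1 z).filter (fun l => l.Prime ∧ l.Coprime N) with hPP
  have hpt : ∀ l ∈ PP, ‖dv W l‖ ^ 2 / l ≤ E2 / l +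
      ∑ k ∈ Icc k0 k1, (if l ∈ BB W η k then (4 : ℝ) / 4 ^ k else 0) := by
    intro l hl
    rw [hPP, mem_filter, mem_Icc] at hl
    have hl0 : (0 : ℝ) < l := by exact_mod_cast hl.2.1.pos
    have hs0 : 0 ≤ ∑ k ∈ Icc k0 k1, (if l ∈ BB W η k then (4 : ℝ) / 4 ^ k else 0) :=
      sum_nonneg fun k _ => by split_ifs <;> positivity
    by_cases h1 : l ≤ 4 ^ k0
    · have := hsmall l hl.2.1 hl.2.2 h1
      have h2 : ‖dv W l‖ ^ 2 / l ≤ E2 / l := by gcongr
      linarith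
    · have hl2 := hl.2.1.two_le
      set k := Nat.log 4 (l - 1) with hk
      have h2 : 4 ^ k ≤ l - 1 := Nat.pow_log_le_self 4 (by omega)
      have h3 : l - 1 < 4 ^ (k + 1) := Nat.lt_pow_succ_log_self (by norm_num) _
      have h4 : k0 ≤ k := by
        rw [hk]; apply Nat.le_log_of_pow_le (by norm_num); omega
      have h5 : k ≤ k1 := by
        have : 4 ^ k < 4 ^ (k1 + 1) := by omega
        have := (Nat.pow_lt_pow_iff_right (by norm_num : 1 < 4)).1 this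
        omega
      have h6 : l ∈ SS N k := by
        unfold SS
        rw [mem_filter, mem_Ioc]
        exact ⟨⟨by omega, by omega⟩, hl.2.1, hl.2.2⟩
      by_cases h7 : l ∈ BB W η k
      · have h8 : (4 : ℝ) / 4 ^ k ≤ ∑ k ∈ Icc k0 k1, (if l ∈ BB W η k then (4 : ℝ) / 4 ^ k else 0) := by
          have := single_le_sum (s := Icc k0 k1) (f := fun k => if l ∈ BB W η k then (4 : ℝ) / 4 ^ k else 0)
            (fun k _ => by split_ifs <;> positivity) (mem_Icc.2 ⟨h4, h5⟩)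
          simp only [if_pos h7] at this
          exact this
        have h9 : ‖dv W l‖ ^ 2 / l ≤ 4 / 4 ^ k := by
          have h10 : (4 : ℝ) ^ k ≤ l := by
            have : 4 ^ k ≤ l := by omega
            exact_mod_cast this
          exact div_le_div₀ (by norm_num) (hdv4 l) (by positivity) h10
        have h10 : 0 ≤ E2 / l := by positivity
        linarith
      · have := hgood k h4 h5 l (by rw [Finset.mem_sdiff]; exact ⟨h6, h7⟩)
        have h2 : ‖dv W l‖ ^ 2 / l ≤ E2 / l := by gcongr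
        linarith
  have hsum : ∑ l ∈ PP, ‖dv W l‖ ^ 2 / l ≤
      E2 * (1 + Real.log z) + ∑ k ∈ Icc k0 k1, (Nat.log 2 N * e / (η * XX N k)) * (4 / 4 ^ k) := by
    refine (sum_le_sum hpt).trans ?_
    rw [sum_add_distrib]
    apply add_le_add
    · have h1 : ∑ l ∈ PP, E2 / l ≤ ∑ l ∈ Icc 1 z, E2 / l := by
        apply sum_le_sum_of_subset_of_nonneg (filter_subset _ _)
        intros; positivity
      refine h1.trans ?_
      have h2 : ∑ l ∈ Icc 1 z, E2 / (l : ℝ) = E2 * ∑ l ∈ Icc 1 z, (1 : ℝ) / l := by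
        rw [mul_sum]; exact sum_congr rfl fun _ _ => by ring
      rw [h2]
      exact mul_le_mul_of_nonneg_left (sum_inv_le z) hE
    · rw [sum_comm]
      refine sum_le_sum fun k hk => ?_
      rw [mem_Icc] at hk
      have h1 : ∑ l ∈ PP, (if l ∈ BB W η k then (4 : ℝ) / 4 ^ k else 0) ≤ (BB W η k).card * (4 / 4 ^ k) := by
        rw [← sum_filter, sum_const, nsmul_eq_mul]
        apply mul_le_mul_of_nonneg_right _ (by positivity)
        have : (PP.filter fun l => l ∈ BB W η k) ⊆ BB W η k := by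
          intro l hl; exact (mem_filter.1 hl).2
        exact_mod_cast card_le_card this
      refine h1.trans ?_
      apply mul_le_mul_of_nonneg_right (hB k hk.1 hk.2) (by positivity)
  set ZZ : DirichletCharacter ℂ N → ℝ := fun χ => ‖χ (-1 : ZMod N) + 1‖ ^ 2 +
      ∑ l ∈ PP, ‖χ (l : ZMod N) + 1‖ ^ 2 / l with hZZ
  have htot : ∑ χ ∈ W, ‖cc N χ‖ ^ 2 * ZZ χ ≤ T := by
    have h1 : ∑ χ ∈ W, ‖cc N χ‖ ^ 2 * ZZ χ =
        ∑ l ∈ PP, ‖dv W l‖ ^ 2 / l + ∑ χ ∈ W, ‖cc N χ‖ ^ 2 * ‖χ (-1 : ZMod N) + 1‖ ^ 2 := by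
      rw [hZZ]
      simp only [mul_add, sum_add_distrib]
      rw [add_comm]
      congr 1
      simp_rw [mul_sum]
      rw [sum_comm]
      refine sum_congr rfl fun l _ => ?_
      rw [dv_sq, sum_div]
      exact sum_congr rfl fun χ _ => by ring
    rw [h1]
    linarith
  have hZ0 : ∀ χ, 0 ≤ ZZ χ := fun χ => by
    rw [hZZ]
    have : 0 ≤ ∑ l ∈ PP, ‖χ (l : ZMod N) + 1‖ ^ 2 / l := sum_nonneg fun _ _ => by positivity
    positivity
  have hT0 : 0 ≤ T := le_trans (sum_nonneg fun χ _ => mul_nonneg (by positivity) (hZ0 χ)) htot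
  by_contra hc
  push_neg at hc
  have hc' : ∀ χ, 2 * T < ZZ χ := hc
  obtain ⟨χ0, hχ0, hpos⟩ : ∃ χ ∈ W, 0 < ‖cc N χ‖ ^ 2 := by
    by_contra hcc
    push_neg at hcc
    have : ∑ χ ∈ W, ‖cc N χ‖ ^ 2 ≤ 0 := sum_nonpos hcc
    linarith
  have h1 : ∑ χ ∈ W, ‖cc N χ‖ ^ 2 * (2 * T) < ∑ χ ∈ W, ‖cc N χ‖ ^ 2 * ZZ χ := by
    apply sum_lt_sum
    · intro χ _
      exact mul_le_mul_of_nonneg_left (hc' χ).le (by positivity)
    · exact ⟨χ0, hχ0, mul_lt_mul_of_pos_left (hc' χ0) hpos⟩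
  rw [← sum_mul] at h1
  nlinarith

end Z

end Pool.Agent.T2H22.LG
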