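import Pool.Agent.T2H22.LG.G

set_option autoImplicit false
set_option linter.all false
set_option maxHeartbeats 2000000

/-!
# The character of a bad integer
-/

namespace Pool.Agent.T2H22.LG

open Finset Filter
open scoped ComplexConjugate

lemma r1 {L M : ℝ} (hL : 1000 ≤ L) (hM : 1 ≤ M) : 6 / M ^ 4 ≤ (9 * L / M) ^ 2 := by
  rw [div_pow, div_le_div_iff₀ (by positivity) (by positivity)]
  have e1 : 6 * M ^ 2 ≤ (9 * L) ^ 2 * M ^ 2 := by
    apply mul_le_mul_of_nonneg_right _ (by positivity)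
    nlinarith
  refine e1.trans ?_
  apply mul_le_mul_of_nonneg_left _ (by positivity)
  exact pow_le_pow_right₀ hM (by norm_num)

lemma r2 {L M n : ℝ} (hL : 1000 ≤ L) (hM : 1 ≤ M) (hn : n ≤ L) :
    3 / M ^ 2 + 6 * (1 / M) * n ≤ 9 * L / M := by
  have hMp : 0 < M := by linarith
  have h3 : 3 / M ^ 2 ≤ 3 * L / M := by
    rw [div_le_div_iff₀ (by positivity) hMp]
    have : 1 ≤ L * M := by nlinarith
    nlinarith
  calc 3 / M ^ 2 + 6 * (1 / M) * n ≤ 3 * L / M + 6 * (1 / M) * L := by gcongr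
    _ = 9 * L / M := by ring

lemma r3 {L M : ℝ} (hL : 1000 ≤ L) (hM : 1 ≤ M) :
    162 * L ^ 3 / M ^ 2 + 51200 * L ^ 2 / M ^ 2 + 6 / M ^ 2 ≤ L ^ 4 / M ^ 2 := by
  rw [← add_div, ← add_div]
  apply div_le_div_of_nonneg_right _ (by positivity)
  have hL0 : 0 < L := by linarith
  have b1 : 162 * L ^ 3 ≤ 162 / 1000 * L ^ 4 := by
    have : L ^ 4 = L * L ^ 3 := by ring
    rw [this]
    have := pow_pos hL0 3
    nlinarith
  have b2 : 51200 * L ^ 2 ≤ 51200 / 1000000 * L ^ 4 := by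
    have h : L ^ 4 = L ^ 2 * L ^ 2 := by ring
    rw [h]
    have := pow_pos hL0 2
    have h2 : (1000000 : ℝ) ≤ L ^ 2 := by nlinarith
    nlinarith
  have b3 : (6 : ℝ) ≤ 1 / 2 * L ^ 4 := by
    have : (1 : ℝ) ≤ L ^ 3 := one_le_pow₀ (by linarith)
    have h : L ^ 4 = L * L ^ 3 := by ring
    rw [h]; nlinarith
  have b4 := pow_pos hL0 4
  linarith

lemma r4 {t N : ℝ} (ht : 0 < t) (h : 16 * t ≤ N) (hN : 4 ≤ N) :
    N / (8 * t) ≤ (N - 1) / (4 * t) - 1 := by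
  rw [le_sub_iff_add_le, div_add' _ _ _ (by positivity), div_le_div_iff₀ (by positivity) (by positivity)]
  have h8 : 0 ≤ N - 2 - 8 * t := by linarith
  nlinarith [mul_nonneg ht.le h8]

/-- primes between `Y` and `4 Y` prime to `N` -/
noncomputable def PSet (N : ℕ) (β : ℝ) : Finset ℕ :=
  (Ioc ⌊Real.log N ^ β / 16⌋₊ (4 * ⌊Real.log N ^ β / 16⌋₊)).filter fun l => l.Prime ∧ l.Coprime N

lemma card_cop {N : ℕ} (hN : PPow N) (S : Finset ℕ) :
    (S.filter Nat.Prime).card ≤ (S.filter fun l => l.Prime ∧ l.Coprime N).card + 1 := by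
  classical
  obtain ⟨p, k, hp, hp2, hNp⟩ := hN
  have h1 : S.filter Nat.Prime ⊆ insert p (S.filter fun l => l.Prime ∧ l.Coprime N) := by
    intro q hq
    rw [mem_filter] at hq
    rw [mem_insert, mem_filter]
    by_cases h : q = p
    · exact Or.inl h
    · right
      refine ⟨hq.1, hq.2, ?_⟩
      rw [hNp]
      exact ((Nat.coprime_primes hq.2 hp).2 h).pow_right k
  exact (card_le_card h1).trans (card_insert_le _ _)

lemma totient_lower {N : ℕ} (hN : PPow N) (hN2 : 2 ≤ N) : (2 / 3 : ℝ) * N ≤ N.totient := by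
  obtain ⟨p, k, hp, hp2, hNp⟩ := hN
  have hp3 : 3 ≤ p := by have := hp.two_le; omega
  have hk : 0 < k := by
    rcases Nat.eq_zero_or_pos k with h | h
    · rw [h] at hNp; simp at hNp; omega
    · exact h
  rw [hNp, Nat.totient_prime_pow hp hk]
  obtain ⟨j, rfl⟩ : ∃ j, k = j + 1 := ⟨k - 1, by omega⟩
  rw [Nat.add_sub_cancel]
  have h3 : ((p - 1 : ℕ) : ℝ) = p - 1 := by
    rw [Nat.cast_sub (by omega)]; simp
  push_cast
  rw [h3, pow_succ]
  have hp3' : (3 : ℝ) ≤ p := by exact_mod_cast hp3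
  have hpj : (0 : ℝ) < (p : ℝ) ^ j := by positivity
  nlinarith

theorem W_size {δ : ℝ} (hδ : 0 < δ) (hδ1 : δ ≤ 1) : ∀ᶠ N : ℕ in atTop, ∀ [NeZero N], PPow N →
    ((WW N (PSet N (32 / δ))).card : ℝ) ≤ Real.exp (δ * Real.log N) := by
  obtain ⟨β, hβ⟩ : ∃ β : ℝ, β = 32 / δ := ⟨_, rfl⟩
  rw [← hβ]
  have hβ0 : 0 < β := by rw [hβ]; positivity
  have hβδ : β * δ = 32 := by rw [hβ]; field_simp
  have hYt : Tendsto (fun L : ℝ => ⌊L ^ β / 16⌋₊) atTop atTop :=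
    tendsto_nat_floor_atTop.comp ((tendsto_rpow_atTop hβ0).atTop_div_const (by norm_num))
  have f1 := hYt.eventually primes_interval2
  have f2 := hYt.eventually (tendsto_natCast_atTop_atTop.eventually (ev_log 1 one_pos 6))
  have f3 := hYt.eventually_ge_atTop 4
  have f4 := ev_rpow (β / 2) β (by linarith) 8
  have f5 := ev_exp 1 (δ / 4) one_pos (by positivity) β 1
  filter_upwards [tlog.eventually f1, tlog.eventually f2, tlog.eventually f3, tlog.eventually f4,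
    tlog.eventually f5, tlog.eventually_ge_atTop 100, eventually_gt_atTop 1] with N g1 g2 g3 g4 g5 hL100 hN1
  intro _ hPP
  obtain ⟨L, hL⟩ : ∃ L : ℝ, L = Real.log (N : ℝ) := ⟨_, rfl⟩
  obtain ⟨Y, hY⟩ : ∃ Y : ℕ, Y = ⌊L ^ β / 16⌋₊ := ⟨_, rfl⟩
  have hPSet : PSet N β = (Ioc Y (4 * Y)).filter fun l => l.Prime ∧ l.Coprime N := by
    rw [hY, hL]; rfl
  rw [← hL] at g1 g2 g3 g4 g5 hL100 ⊢
  rw [← hY] at g1 g2 g3
  rw [Real.rpow_one] at g2
  rw [one_mul, Real.rpow_one] at g5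
  have hNr : (0 : ℝ) < N := by exact_mod_cast (by omega : 0 < N)
  have hL0 : 0 < L := by linarith
  have hL1 : 1 ≤ L := by linarith
  have hY0 : (0 : ℝ) < Y := by exact_mod_cast (by omega : 0 < Y)
  have hY1 : (4 : ℝ) ≤ Y := by exact_mod_cast g3
  have hlY : 0 < Real.log Y := Real.log_pos (by linarith)
  have hY16 : (16 : ℝ) * Y ≤ L ^ β := by
    have := Nat.floor_le (by positivity : 0 ≤ L ^ β / 16)
    rw [← hY] at this
    linarith
  have hY32 : L ^ β ≤ 32 * Y := by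
    have h1 := Nat.lt_floor_add_one (L ^ β / 16)
    rw [← hY] at h1
    have h2 : (1 : ℝ) ≤ Y := by linarith
    linarith
  obtain ⟨K, hK⟩ : ∃ K : ℕ, K = 4 * Y := ⟨_, rfl⟩
  have hKr : (K : ℝ) = 4 * Y := by rw [hK]; push_cast; ring
  have hK2 : 1 < K := by omega
  have hK0 : (0 : ℝ) < K := by rw [hKr]; linarith
  have hlK : 0 < Real.log K := Real.log_pos (by exact_mod_cast hK2)
  have hlYK : Real.log Y ≤ Real.log K := Real.log_le_log hY0 (by rw [hKr]; linarith)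
  obtain ⟨r, hr⟩ : ∃ r : ℕ, r = Nat.log K (N - 1) := ⟨_, rfl⟩
  have hKN : K ^ r < N := by
    have := Nat.pow_log_le_self K (by omega : N - 1 ≠ 0)
    rw [← hr] at this
    omega
  have hNK : N ≤ K ^ (r + 1) := by
    have h9 := Nat.lt_pow_succ_log_self hK2 (N - 1)
    rw [← hr] at h9
    have h8 : K ^ r.succ = K ^ (r + 1) := rfl
    omega
  obtain ⟨P, hP⟩ : ∃ P : Finset ℕ, P = PSet N β := ⟨_, rfl⟩
  rw [← hP] at hPSet ⊢
  have hPm : ∀ q ∈ P, q.Prime ∧ q.Coprime N := by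
    intro q hq; rw [hPSet, mem_filter] at hq; exact hq.2
  have hPK : ∀ q ∈ P, q ≤ K := by
    intro q hq; rw [hPSet, mem_filter, mem_Ioc] at hq; rw [hK]; exact hq.1.2
  have hc := card_cop hPP (Ioc Y (4 * Y))
  rw [← hPSet] at hc
  have hc' : (((Ioc Y (4 * Y)).filter Nat.Prime).card : ℝ) ≤ P.card + 1 := by exact_mod_cast hc
  have hPc : (K : ℝ) / (15 * Real.log K) ≤ (9 / 10) ^ 2 * P.card := by
    have e1 : (Y : ℝ) ≤ (P.card + 1) * (2 * Real.log Y) := by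
      refine g1.trans ?_
      gcongr
    have e2 : (2 / 3 : ℝ) * Y ≤ P.card * (2 * Real.log Y) := by nlinarith
    have e3 : (Y : ℝ) ≤ 3 * P.card * Real.log K := by
      have : (P.card : ℝ) * (2 * Real.log Y) ≤ P.card * (2 * Real.log K) := by gcongr
      nlinarith
    rw [div_le_iff₀ (by positivity)]
    rw [hKr] at e3 ⊢
    rw [hKr] at hlK
    have e4 : 0 ≤ (P.card : ℝ) * Real.log (4 * Y) := by positivity
    linarith
  have hW := WW_card P hPm K r hPK hKN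
  obtain ⟨w, hw⟩ : ∃ w : ℝ, w = ((WW N P).card : ℝ) := ⟨_, rfl⟩
  rw [← hw] at hW ⊢
  have hw0 : 0 ≤ w := by rw [hw]; exact Nat.cast_nonneg _
  have hrL : (r : ℝ) * Real.log K ≤ L := by
    rw [hL, ← Real.log_pow]
    apply Real.log_le_log (by positivity)
    exact_mod_cast hKN.le
  have h1 : w * ((K : ℝ) / (15 * Real.log K)) ^ r ≤ N * (r : ℝ) ^ r := by
    calc w * ((K : ℝ) / (15 * Real.log K)) ^ r ≤ w * ((9 / 10) ^ 2 * P.card) ^ r := by
          gcongr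
      _ ≤ N.totient * r.factorial := hW
      _ ≤ N * (r : ℝ) ^ r := by
          apply mul_le_mul _ _ (by positivity) hNr.le
          · exact_mod_cast Nat.totient_le N
          · exact_mod_cast Nat.factorial_le_pow r
  have h2 : w * (K : ℝ) ^ r ≤ N * (15 * L) ^ r := by
    have e1 : w * (K : ℝ) ^ r = w * ((K : ℝ) / (15 * Real.log K)) ^ r * (15 * Real.log K) ^ r := by
      rw [mul_assoc, ← mul_pow]; congr 2; field_simp
    rw [e1]
    calc w * ((K : ℝ) / (15 * Real.log K)) ^ r * (15 * Real.log K) ^ r ≤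
          N * (r : ℝ) ^ r * (15 * Real.log K) ^ r := by gcongr
      _ = N * (15 * (r * Real.log K)) ^ r := by rw [mul_assoc, ← mul_pow]; congr 2; ring
      _ ≤ N * (15 * L) ^ r := by gcongr
  have h3 : w ≤ K * (15 * L) ^ r := by
    have e1 : w * (K : ℝ) ^ r ≤ K * (15 * L) ^ r * (K : ℝ) ^ r := by
      refine h2.trans ?_
      have : (N : ℝ) ≤ (K : ℝ) ^ (r + 1) := by exact_mod_cast hNK
      calc (N : ℝ) * (15 * L) ^ r ≤ (K : ℝ) ^ (r + 1) * (15 * L) ^ r := by gcongr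
        _ = _ := by rw [pow_succ]; ring
    exact le_of_mul_le_mul_right e1 (by positivity)
  have hlogL : 0 < Real.log L := Real.log_pos (by linarith)
  have h4 : (15 * L) ^ r ≤ Real.exp (δ / 8 * L) := by
    have e1 : (15 * L) ^ r = Real.exp (r * Real.log (15 * L)) := by
      rw [Real.exp_nat_mul, Real.exp_log (by positivity)]
    rw [e1]
    apply Real.exp_le_exp.2
    have e2 : Real.log (15 * L) ≤ 2 * Real.log L := by
      rw [Real.log_mul (by norm_num) hL0.ne']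
      have := Real.log_le_log (by norm_num : (0 : ℝ) < 15) (by linarith : (15 : ℝ) ≤ L)
      linarith
    have e3 : β / 2 * Real.log L ≤ Real.log K := by
      rw [← Real.log_rpow hL0]
      apply Real.log_le_log (by positivity)
      rw [hKr]
      have : 8 * L ^ (β / 2) ≤ 32 * Y := g4.trans hY32
      linarith
    have e4 : (r : ℝ) * (β / 2 * Real.log L) ≤ L := by
      refine le_trans ?_ hrL
      gcongr
    have e5 : (r : ℝ) * Real.log (15 * L) ≤ r * (2 * Real.log L) := by gcongr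
    have e6 : (r : ℝ) * (2 * Real.log L) = (δ / 8) * (r * (β / 2 * Real.log L)) := by
      have : δ / 8 * (r * (β / 2 * Real.log L)) = (β * δ) / 16 * (r * Real.log L) := by ring
      rw [this, hβδ]; ring
    rw [e6] at e5
    refine e5.trans ?_
    gcongr
  have h5 : (K : ℝ) ≤ Real.exp (δ / 4 * L) := by
    have : (K : ℝ) ≤ L ^ β := by rw [hKr]; linarith
    linarith
  calc w ≤ K * (15 * L) ^ r := h3
    _ ≤ Real.exp (δ / 4 * L) * Real.exp (δ / 8 * L) := by gcongr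
    _ = Real.exp (δ / 4 * L + δ / 8 * L) := (Real.exp_add _ _).symm
    _ ≤ Real.exp (δ * L) := by
        apply Real.exp_le_exp.2
        nlinarith

/-- the set of relevant characters -/
theorem pre {δ1 : ℝ} (hδ10 : 0 < δ1) (hδ11 : δ1 ≤ 1 / 16) (b : ℕ) (hb : 8 ≤ b) :
    ∀ᶠ N : ℕ in atTop, ∀ [NeZero N], PPow N → ¬ BothGood N →
      ∃ W : Finset (DirichletCharacter ℂ N), (W.card : ℝ) ≤ Real.exp (δ1 * Real.log N) ∧
        ∑ a : ZMod N, ‖gW W a‖ ^ 2 ≤ 400 * (N / (Real.log N ^ b) ^ 4) ∧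
        (1 / 2 : ℝ) ≤ ∑ χ ∈ W, ‖cc N χ‖ ^ 2 ∧
        ∑ χ ∈ W, ‖cc N χ‖ ^ 2 * ‖χ (-1 : ZMod N) + 1‖ ^ 2 ≤ 6 / (Real.log N ^ b) ^ 4 ∧
        ∀ l : ℕ, l.Prime → l.Coprime N → (l : ℝ) ≤ Real.log N ^ 3 →
          ‖dv W l‖ ^ 2 ≤ 6 / (Real.log N ^ b) ^ 4 := by
  obtain ⟨β, hβ⟩ : ∃ β : ℝ, β = 32 / δ1 := ⟨_, rfl⟩
  have hβ32 : 32 ≤ β := by
    rw [hβ, le_div_iff₀ hδ10]; linarith
  have hβ0 : 0 < β := by linarith
  have hYt : Tendsto (fun L : ℝ => ⌊L ^ β / 16⌋₊) atTop atTop :=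
    tendsto_nat_floor_atTop.comp ((tendsto_rpow_atTop hβ0).atTop_div_const (by norm_num))
  have f1 := hYt.eventually primes_interval
  filter_upwards [E0_bound (4 * b), PB_all β (4 * b), W_size hδ10 (by linarith),
    tlog.eventually f1, tlog.eventually_ge_atTop 1000, eventually_gt_atTop 1] with N h0 hPB hWs g1 hL100 hN1
  intro _ hPP hbad
  have he0 := h0 hbad
  have hPB' := hPB hPP hbad
  have hWs' := hWs hPP
  clear h0 hPB hWs
  rw [← hβ] at hWs'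
  obtain ⟨L, hL⟩ : ∃ L : ℝ, L = Real.log (N : ℝ) := ⟨_, rfl⟩
  rw [← hL] at g1 hL100 he0 hPB' hWs' ⊢
  have hN2 : 2 ≤ N := hN1
  have hNr : (0 : ℝ) < N := by exact_mod_cast (by omega : 0 < N)
  have hL0 : 0 < L := by linarith
  have hL1 : 1 ≤ L := by linarith
  have hphi := totient_lower hPP hN2
  have hphi0 : (0 : ℝ) < N.totient := by
    have : 0 < (2 / 3 : ℝ) * N := by positivity
    linarith
  obtain ⟨P, hP⟩ : ∃ P : Finset ℕ, P = PSet N β := ⟨_, rfl⟩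
  rw [← hP] at hWs'
  have hPm : ∀ q ∈ P, q.Prime ∧ q.Coprime N := by
    intro q hq; rw [hP] at hq; unfold PSet at hq; rw [mem_filter] at hq; exact hq.2
  have hPL : ∀ q ∈ P, (q : ℝ) ≤ L ^ β := by
    intro q hq
    rw [hP] at hq; unfold PSet at hq; rw [mem_filter, mem_Ioc, ← hL] at hq
    have h1 : (q : ℝ) ≤ 4 * (⌊L ^ β / 16⌋₊ : ℝ) := by exact_mod_cast hq.1.2
    have h2 := Nat.floor_le (by positivity : 0 ≤ L ^ β / 16)
    have h3 : 0 ≤ L ^ β := by positivity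
    linarith
  have hPne : P.Nonempty := by
    rw [← card_pos]
    have h1 := card_cop hPP (Ioc ⌊L ^ β / 16⌋₊ (4 * ⌊L ^ β / 16⌋₊))
    have h2 : P = (Ioc ⌊L ^ β / 16⌋₊ (4 * ⌊L ^ β / 16⌋₊)).filter fun l => l.Prime ∧ l.Coprime N := by
      rw [hP]; unfold PSet; rw [hL]
    rw [← h2] at h1
    have h3 : (1 : ℝ) < (((Ioc ⌊L ^ β / 16⌋₊ (4 * ⌊L ^ β / 16⌋₊)).filter Nat.Prime).card : ℝ) := by
      refine lt_of_lt_of_le ?_ g1
      have h4 : 0 < ((⌊L ^ β / 16⌋₊ : ℕ) : ℝ) ^ (9 / 10 : ℝ) := by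
        apply Real.rpow_pos_of_pos
        have : 0 < ⌊L ^ β / 16⌋₊ := by
          rw [Nat.floor_pos]
          rw [le_div_iff₀ (by norm_num), one_mul]
          calc (16 : ℝ) ≤ L := by linarith
            _ = L ^ (1 : ℝ) := (Real.rpow_one L).symm
            _ ≤ L ^ β := Real.rpow_le_rpow_of_exponent_le hL1 (by linarith)
        exact_mod_cast this
      linarith
    have h5 : 1 < ((Ioc ⌊L ^ β / 16⌋₊ (4 * ⌊L ^ β / 16⌋₊)).filter Nat.Prime).card := by exact_mod_cast h3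
    omega
  clear g1
  obtain ⟨e1, he1⟩ : ∃ e1 : ℝ, e1 = N / L ^ (4 * b) := ⟨_, rfl⟩
  have he1p : 0 ≤ e1 := by rw [he1]; positivity
  rw [← he1] at he0 hPB'
  have hmass0 := WW_mass P hPm hPne (e := e1) fun q hq => hPB' q (hPm q hq).1 (hPm q hq).2 (hPL q hq)
  have h4b : L ^ (4 * b) = (L ^ b) ^ 4 := by rw [mul_comm, pow_mul]
  have hLb : (1000 : ℝ) ^ 8 ≤ L ^ b := by
    calc (1000 : ℝ) ^ 8 ≤ L ^ 8 := by gcongr
      _ ≤ L ^ b := pow_le_pow_right₀ hL1 (by omega)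
  have hsmall_e : e1 / N.totient ≤ 3 / 2 / (L ^ b) ^ 4 := by
    rw [he1, h4b, div_div, div_le_div_iff₀ (by positivity) (by positivity)]
    have : 0 < (L ^ b) ^ 4 := by positivity
    nlinarith
  have e6 : 6 / (L ^ b) ^ 4 = 4 * (3 / 2 / (L ^ b) ^ 4) := by ring
  refine ⟨WW N P, hWs', ?_, ?_, ?_, ?_⟩
  · rw [gW_mass, ← h4b, ← he1]; exact hmass0
  · have h1 := sum_sdiff (subset_univ (WW N P)) (f := fun χ => ‖cc N χ‖ ^ 2)
    rw [mass_one] at h1
    have h2 : ∑ χ ∈ univ \ WW N P, ‖cc N χ‖ ^ 2 ≤ 400 * (e1 / N.totient) := by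
      rw [← mul_div_assoc, le_div_iff₀ hphi0, mul_comm]
      exact hmass0
    have h3 : 400 * (e1 / N.totient) ≤ 1 / 2 := by
      have h4 : 3 / 2 / (L ^ b) ^ 4 ≤ 3 / 2 / 1200 := by
        apply div_le_div_of_nonneg_left (by norm_num) (by norm_num)
        calc (1200 : ℝ) ≤ (1000 ^ 8) ^ 4 := by norm_num
          _ ≤ (L ^ b) ^ 4 := by gcongr
      linarith
    linarith
  · have h1 : ∑ χ ∈ WW N P, ‖cc N χ‖ ^ 2 * ‖χ (-1 : ZMod N) + 1‖ ^ 2 ≤
        ∑ χ, ‖cc N χ‖ ^ 2 * ‖χ (-1 : ZMod N) + 1‖ ^ 2 := by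
      apply sum_le_sum_of_subset_of_nonneg (subset_univ _)
      intros; positivity
    have h2 := mass_neg (N := N)
    have h4 : ∑ χ, ‖cc N χ‖ ^ 2 * ‖χ (-1 : ZMod N) + 1‖ ^ 2 ≤ 4 * (e1 / N.totient) := by
      rw [← mul_div_assoc, le_div_iff₀ hphi0, mul_comm]
      linarith
    refine h1.trans (h4.trans ?_)
    rw [e6]
    gcongr
  · intro l hl hlN hlL
    rw [dv_sq]
    have h1 : ∑ χ ∈ WW N P, ‖cc N χ‖ ^ 2 * ‖χ (l : ZMod N) + 1‖ ^ 2 ≤
        ∑ χ, ‖cc N χ‖ ^ 2 * ‖χ (l : ZMod N) - lam l‖ ^ 2 := by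
      rw [lam_prime hl]
      simp only [Int.cast_neg, Int.cast_one, sub_neg_eq_add]
      apply sum_le_sum_of_subset_of_nonneg (subset_univ _)
      intros; positivity
    have h2 := mass_dil (N := N) hlN
    have h3 := hPB' l hl hlN (hlL.trans (by
      rw [← Real.rpow_natCast]
      exact Real.rpow_le_rpow_of_exponent_le hL1 (by push_cast; linarith)))
    have h4 : ∑ χ, ‖cc N χ‖ ^ 2 * ‖χ (l : ZMod N) - lam l‖ ^ 2 ≤ 4 * (e1 / N.totient) := by
      rw [← mul_div_assoc, le_div_iff₀ hphi0, mul_comm]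
      linarith
    refine h1.trans (h4.trans ?_)
    rw [e6]
    gcongr

/-- the geometry of the blocks -/
theorem geo {δ : ℝ} (hδ : 0 < δ) (hδ1 : δ < 1 / 4) :
    ∀ᶠ N : ℕ in atTop, ∀ [NeZero N], PPow N → ∃ k0 k1 : ℕ,
      (4 : ℝ) ^ k0 ≤ Real.log N ^ 2 ∧ Real.log N ^ 2 ≤ 4 * 4 ^ k0 ∧
      ⌊(N : ℝ) ^ (1 / 2 - δ)⌋₊ ≤ 4 ^ (k1 + 1) ∧ (k1 : ℝ) ≤ Real.log N ∧
      Real.log (⌊(N : ℝ) ^ (1 / 2 - δ)⌋₊ : ℝ) ≤ Real.log N ∧
      (∀ k ≤ k1, (N : ℝ) / (8 * 4 ^ k) ≤ XX N k ∧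
        VV N * Real.exp (δ / 4 * Real.log N) ≤ (XX N k : ℝ) / 6) ∧
      (∀ k, k0 ≤ k → k ≤ k1 → (4 : ℝ) ^ k / (4 * Real.log N) < (SS N k).card) ∧
      (Nat.log 2 N : ℝ) ≤ 2 * Real.log N := by
  have f2 : ∀ᶠ L : ℝ in atTop, 192 * 4 * L ^ (1 : ℝ) ≤ Real.exp (3 * δ / 4 * L ^ (1 : ℝ)) :=
    ev_exp 1 _ one_pos (by positivity) 1 _
  have f3 : ∀ᶠ L : ℝ in atTop, 4 * L ^ (2 : ℝ) ≤ Real.exp (1 / 4 * L ^ (1 : ℝ)) :=
    ev_exp 1 _ one_pos (by norm_num) 2 _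
  obtain ⟨Y0, hY0⟩ := primes_interval2.exists_forall_of_atTop
  have f4 : ∀ᶠ L : ℝ in atTop, (4 * Y0 : ℝ) ≤ L := eventually_ge_atTop _
  filter_upwards [tlog.eventually f2, tlog.eventually f3, tlog.eventually f4,
    tlog.eventually_ge_atTop 1000, eventually_gt_atTop 1] with N g2 g3 g4 hL100 hN1
  intro _ hPP
  clear f2 f3 f4
  obtain ⟨L, hL⟩ : ∃ L : ℝ, L = Real.log (N : ℝ) := ⟨_, rfl⟩
  rw [← hL] at g2 g3 g4 hL100 ⊢
  rw [Real.rpow_one] at g2
  rw [Real.rpow_one, show (2 : ℝ) = ((2 : ℕ) : ℝ) by norm_num, Real.rpow_natCast] at g3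
  have hN2 : 2 ≤ N := hN1
  have hNr : (0 : ℝ) < N := by exact_mod_cast (by omega : 0 < N)
  have hL0 : 0 < L := by linarith
  have hL1 : 1 ≤ L := by linarith
  have hexpL : Real.exp L = N := by rw [hL, Real.exp_log hNr]
  have hpow : ∀ x : ℝ, (N : ℝ) ^ x = Real.exp (x * L) := by
    intro x; rw [Real.rpow_def_of_pos hNr, ← hL]; congr 1; ring
  obtain ⟨z, hz⟩ : ∃ z : ℕ, z = ⌊(N : ℝ) ^ (1 / 2 - δ)⌋₊ := ⟨_, rfl⟩
  rw [← hz]
  have hzr : (z : ℝ) ≤ Real.exp ((1 / 2 - δ) * L) := by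
    rw [hz, ← hpow]; exact Nat.floor_le (by positivity)
  have hL2z : 4 * L ^ 2 ≤ z + 1 := by
    have h1 := Nat.lt_floor_add_one ((N : ℝ) ^ (1 / 2 - δ))
    rw [← hz, hpow] at h1
    have h2 : Real.exp (1 / 4 * L) ≤ Real.exp ((1 / 2 - δ) * L) := by
      apply Real.exp_le_exp.2
      apply mul_le_mul_of_nonneg_right _ hL0.le
      linarith
    linarith
  obtain ⟨k0, hk0⟩ : ∃ k0 : ℕ, k0 = Nat.log 4 ⌊L ^ 2⌋₊ := ⟨_, rfl⟩
  have hfl : 1 ≤ ⌊L ^ 2⌋₊ := by rw [Nat.one_le_floor_iff]; nlinarith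
  have hk0a : (4 : ℝ) ^ k0 ≤ L ^ 2 := by
    have h1 := Nat.pow_log_le_self 4 (by omega : ⌊L ^ 2⌋₊ ≠ 0)
    rw [← hk0] at h1
    have h2 := Nat.floor_le (by positivity : 0 ≤ L ^ 2)
    have h3 : ((4 ^ k0 : ℕ) : ℝ) ≤ ⌊L ^ 2⌋₊ := by exact_mod_cast h1
    push_cast at h3
    linarith
  have hk0b : L ^ 2 ≤ 4 * (4 : ℝ) ^ k0 := by
    have h1 := Nat.lt_pow_succ_log_self (by norm_num : 1 < 4) ⌊L ^ 2⌋₊
    rw [← hk0] at h1
    have h2 := Nat.lt_floor_add_one (L ^ 2)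
    have h3 : (⌊L ^ 2⌋₊ : ℝ) + 1 ≤ ((4 ^ (k0 + 1) : ℕ) : ℝ) := by exact_mod_cast h1
    push_cast at h3
    have e : (4 : ℝ) ^ (k0 + 1) = 4 * 4 ^ k0 := by rw [pow_succ]; ring
    rw [e] at h3
    linarith
  obtain ⟨k1, hk1⟩ : ∃ k1 : ℕ, k1 = Nat.log 4 z := ⟨_, rfl⟩
  have hz0 : z ≠ 0 := by
    intro h
    rw [h] at hL2z
    push_cast at hL2z
    nlinarith
  have hk1a : 4 ^ k1 ≤ z := by rw [hk1]; exact Nat.pow_log_le_self 4 hz0
  have hk1b : z ≤ 4 ^ (k1 + 1) := by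
    rw [hk1]; exact (Nat.lt_pow_succ_log_self (by norm_num) z).le
  have h4z : ∀ k ≤ k1, (4 : ℝ) ^ k ≤ Real.exp ((1 / 2 - δ) * L) := by
    intro k hk
    refine le_trans ?_ hzr
    have : 4 ^ k ≤ z := (Nat.pow_le_pow_right (by norm_num) hk).trans hk1a
    exact_mod_cast this
  have hN4 : (4 : ℝ) ≤ N := by
    rw [← hexpL]
    have := Real.add_one_le_exp L
    linarith
  have hXlow : ∀ k ≤ k1, (N : ℝ) / (8 * 4 ^ k) ≤ XX N k := by
    intro k hk
    unfold XX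
    have hq : (0 : ℝ) < 4 ^ (k + 1) := by positivity
    have h1 : ((N : ℝ) - 1) / 4 ^ (k + 1) - 1 ≤ (((N - 1) / 4 ^ (k + 1) : ℕ) : ℝ) := by
      have h2 := Nat.lt_mul_div_succ (N - 1) (show 0 < 4 ^ (k + 1) by positivity)
      have h3 : ((N - 1 : ℕ) : ℝ) < ((4 ^ (k + 1) * ((N - 1) / 4 ^ (k + 1) + 1) : ℕ) : ℝ) := by
        exact_mod_cast h2
      rw [Nat.cast_sub (by omega)] at h3
      push_cast at h3
      rw [sub_le_iff_le_add, div_le_iff₀ hq]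
      linarith
    refine le_trans ?_ h1
    have h5 := h4z k hk
    have h6 : 16 * (4 : ℝ) ^ k ≤ N := by
      rw [← hexpL]
      calc 16 * (4 : ℝ) ^ k ≤ Real.exp (1 / 2 * L) * Real.exp ((1 / 2 - δ) * L) := by
            apply mul_le_mul _ h5 (by positivity) (by positivity)
            have : (16 : ℝ) ≤ 1 / 2 * L := by linarith
            have h7 := Real.add_one_le_exp (1 / 2 * L)
            linarith
        _ = Real.exp (1 / 2 * L + (1 / 2 - δ) * L) := (Real.exp_add _ _).symm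
        _ ≤ Real.exp L := by apply Real.exp_le_exp.2; nlinarith
    have e6 : (4 : ℝ) ^ (k + 1) = 4 * 4 ^ k := by rw [pow_succ]; ring
    rw [e6]
    exact r4 (by positivity) h6 hN4
  have hV : ∀ k ≤ k1, VV N * Real.exp (δ / 4 * L) ≤ (XX N k : ℝ) / 6 := by
    intro k hk
    have h1 := hXlow k hk
    have h2 := h4z k hk
    have h3 : VV N = 4 * Real.exp (1 / 2 * L) * (1 + L) := by
      unfold VV
      rw [Real.sqrt_eq_rpow, hpow, hL]
    have h4 : Real.exp ((1 / 2 + δ) * L) / 8 ≤ (N : ℝ) / (8 * 4 ^ k) := by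
      have e : Real.exp ((1 / 2 + δ) * L) / 8 = N / (8 * Real.exp ((1 / 2 - δ) * L)) := by
        rw [← hexpL, div_eq_div_iff (by norm_num) (by positivity)]
        have : Real.exp ((1 / 2 + δ) * L) * (8 * Real.exp ((1 / 2 - δ) * L)) =
            8 * (Real.exp ((1 / 2 + δ) * L) * Real.exp ((1 / 2 - δ) * L)) := by ring
        rw [this, ← Real.exp_add]
        have : (1 / 2 + δ) * L + (1 / 2 - δ) * L = L := by ring
        rw [this]; ring
      rw [e]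
      gcongr
    have h5 : VV N * Real.exp (δ / 4 * L) ≤ Real.exp ((1 / 2 + δ) * L) / 48 := by
      rw [h3]
      calc 4 * Real.exp (1 / 2 * L) * (1 + L) * Real.exp (δ / 4 * L) ≤
            4 * Real.exp (1 / 2 * L) * (4 * L) * Real.exp (δ / 4 * L) := by
              gcongr
              linarith
        _ = Real.exp (1 / 2 * L) * Real.exp (δ / 4 * L) * (192 * 4 * L) / 48 := by ring
        _ ≤ Real.exp (1 / 2 * L) * Real.exp (δ / 4 * L) * Real.exp (3 * δ / 4 * L) / 48 := by gcongr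
        _ = _ := by
            rw [← Real.exp_add, ← Real.exp_add]; congr 2; ring
    linarith
  have hlog2 : (Nat.log 2 N : ℝ) ≤ 2 * L := by
    have h1 := Nat.pow_log_le_self 2 (by omega : N ≠ 0)
    have h2 : (Nat.log 2 N : ℝ) * Real.log 2 ≤ L := by
      rw [hL, ← Real.log_pow]
      apply Real.log_le_log (by positivity)
      exact_mod_cast h1
    have h3 := Real.log_two_gt_d9
    have h4 : (0 : ℝ) ≤ Nat.log 2 N := Nat.cast_nonneg _
    nlinarith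
  have hkL : ∀ k ≤ k1, (k : ℝ) * Real.log 4 ≤ L := by
    intro k hk
    have h1 := h4z k hk
    have h2 : Real.log ((4 : ℝ) ^ k) ≤ Real.log (Real.exp ((1 / 2 - δ) * L)) :=
      Real.log_le_log (by positivity) h1
    rw [Real.log_pow, Real.log_exp] at h2
    refine h2.trans ?_
    nlinarith
  have hl4 : 1 ≤ Real.log 4 := by
    have : Real.log 4 = 2 * Real.log 2 := by
      rw [show (4 : ℝ) = 2 ^ 2 by norm_num, Real.log_pow]; norm_num
    have := Real.log_two_gt_d9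
    linarith
  have hk1L : (k1 : ℝ) ≤ L := by
    have := hkL k1 le_rfl
    have h0 : (0 : ℝ) ≤ k1 := Nat.cast_nonneg _
    nlinarith
  have hlogz : Real.log z ≤ L := by
    have : Real.log z ≤ Real.log (Real.exp ((1 / 2 - δ) * L)) :=
      Real.log_le_log (by exact_mod_cast Nat.pos_of_ne_zero hz0) hzr
    rw [Real.log_exp] at this
    nlinarith
  refine ⟨k0, k1, hk0a, hk0b, hk1b, hk1L, hlogz, fun k hk => ⟨hXlow k hk, hV k hk⟩, ?_, hlog2⟩
  intro k hk0' hk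
  have h4k : L ^ 2 / 4 ≤ (4 : ℝ) ^ k := by
    have h3 : (4 : ℝ) ^ k0 ≤ 4 ^ k := pow_le_pow_right₀ (by norm_num) hk0'
    linarith
  have h4kY : Y0 ≤ 4 ^ k := by
    have : (Y0 : ℝ) ≤ ((4 ^ k : ℕ) : ℝ) := by
      push_cast
      have h5 : 4 * L ≤ L ^ 2 / 4 := by nlinarith
      linarith [(Nat.cast_nonneg Y0 : (0 : ℝ) ≤ Y0)]
    exact_mod_cast this
  have h3 := hY0 (4 ^ k) h4kY
  have h5 := card_cop hPP (Ioc (4 ^ k) (4 ^ (k + 1)))
  have h6 : 4 ^ (k + 1) = 4 * 4 ^ k := by rw [pow_succ]; ring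
  have hSS : SS N k = (Ioc (4 ^ k) (4 ^ (k + 1))).filter fun l => l.Prime ∧ l.Coprime N := rfl
  rw [← hSS, h6] at h5
  have h7 : (((Ioc (4 ^ k) (4 * 4 ^ k)).filter Nat.Prime).card : ℝ) ≤ (SS N k).card + 1 := by
    exact_mod_cast h5
  have h8 : ((4 ^ k : ℕ) : ℝ) ≤ ((SS N k).card + 1) * (2 * L) := by
    refine h3.trans ?_
    apply mul_le_mul h7 _ _ (by positivity)
    · have := hkL k hk
      push_cast
      rw [Real.log_pow]
      linarith
    · have := Real.log_natCast_nonneg (4 ^ k)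
      linarith
  push_cast at h8
  rw [div_lt_iff₀ (by positivity)]
  have : 8 * L < L ^ 2 / 4 := by nlinarith
  nlinarith

/-- the conclusion of the first part: the character of a bad prime power -/
theorem character {δ : ℝ} (hδ : 0 < δ) (hδ1 : δ < 1 / 4) (A : ℕ) :
    ∀ᶠ N : ℕ in atTop, ∀ [NeZero N], PPow N → ¬ BothGood N →
      ∃ χ : DirichletCharacter ℂ N, χ (-1 : ZMod N) = -1 ∧
        ∑ l ∈ (Icc 1 ⌊(N : ℝ) ^ (1 / 2 - δ)⌋₊).filter (fun l => l.Prime ∧ l.Coprime N),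
          ‖χ (l : ZMod N) + 1‖ ^ 2 / l ≤ 1 / Real.log N ^ A := by
  obtain ⟨b, hb⟩ : ∃ b : ℕ, b = A + 8 := ⟨_, rfl⟩
  filter_upwards [pre (δ1 := δ / 4) (by positivity) (by linarith) b (by omega), geo hδ hδ1,
    tlog.eventually_ge_atTop 1000, eventually_gt_atTop 1] with N hpre hgeo hL100 hN1
  intro _ hPP hbad
  obtain ⟨W, hWs, hg, hmass, hneg, hdvs⟩ := hpre hPP hbad
  obtain ⟨k0, k1, hk0a, hk0b, hk1b, hk1L, hlogz, hXV, hSc, hlog2⟩ := hgeo hPP
  clear hpre hgeo hbad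
  obtain ⟨L, hL⟩ : ∃ L : ℝ, L = Real.log (N : ℝ) := ⟨_, rfl⟩
  rw [← hL] at hWs hg hneg hdvs hk0a hk0b hk1L hlogz hXV hSc hlog2 hL100 ⊢
  obtain ⟨z, hz⟩ : ∃ z : ℕ, z = ⌊(N : ℝ) ^ (1 / 2 - δ)⌋₊ := ⟨_, rfl⟩
  rw [← hz] at hk1b hlogz ⊢
  have hN2 : 2 ≤ N := hN1
  have hNr : (0 : ℝ) < N := by exact_mod_cast (by omega : 0 < N)
  have hL0 : 0 < L := by linarith
  have hL1 : 1 ≤ L := by linarith
  obtain ⟨M, hM⟩ : ∃ M : ℝ, M = L ^ b := ⟨_, rfl⟩
  rw [← hM] at hg hneg hdvs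
  have hM1 : 1 ≤ M := by rw [hM]; exact one_le_pow₀ hL1
  have hM0 : 0 < M := by linarith
  have hML : 25600 * L ^ 2 ≤ M ^ 2 := by
    calc 25600 * L ^ 2 ≤ L ^ 2 * L ^ 2 := by
          apply mul_le_mul_of_nonneg_right _ (by positivity)
          nlinarith
      _ = (L ^ 2) ^ 2 := by ring
      _ ≤ (L ^ b) ^ 2 := by
          apply pow_le_pow_left₀ (by positivity)
          exact pow_le_pow_right₀ hL1 (by omega)
      _ = M ^ 2 := by rw [hM]
  obtain ⟨e1, he1⟩ : ∃ e1 : ℝ, e1 = N / M ^ 4 := ⟨_, rfl⟩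
  have he1p : 0 ≤ e1 := by rw [he1]; positivity
  rw [← he1] at hg
  have hXpos : ∀ k ≤ k1, 0 < XX N k := by
    intro k hk
    have h1 := (hXV k hk).1
    have h2 : 0 < (N : ℝ) / (8 * 4 ^ k) := by positivity
    have : (0 : ℝ) < XX N k := by linarith
    exact_mod_cast this
  have hV : ∀ k ≤ k1, VV N * W.card ≤ (XX N k : ℝ) / 6 := by
    intro k hk
    refine le_trans ?_ (hXV k hk).2
    exact mul_le_mul_of_nonneg_left hWs (VV_nonneg hN2)
  obtain ⟨η, hη⟩ : ∃ η : ℝ, η = 1 / M ^ 2 := ⟨_, rfl⟩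
  have hη0 : 0 < η := by rw [hη]; positivity
  have hsη : √η = 1 / M := by
    rw [hη, Real.sqrt_div (by norm_num), Real.sqrt_one, Real.sqrt_sq hM0.le]
  have hratio : ∀ k ≤ k1, (Nat.log 2 N : ℝ) * (400 * e1) / (η * XX N k) ≤ 6400 * L / M ^ 2 * 4 ^ k := by
    intro k hk
    have h1 := (hXV k hk).1
    have hXp : (0 : ℝ) < XX N k := by exact_mod_cast hXpos k hk
    rw [div_le_iff₀ (by positivity)]
    calc (Nat.log 2 N : ℝ) * (400 * e1) ≤ (2 * L) * (400 * e1) := by gcongr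
      _ = 6400 * L / M ^ 2 * 4 ^ k * (η * (N / (8 * 4 ^ k))) := by
          rw [he1, hη]; field_simp; norm_num
      _ ≤ _ := by gcongr
  have hBS : ∀ k, k0 ≤ k → k ≤ k1 → (BB W η k).card < (SS N k).card := by
    intro k hk0' hk
    have hXp : (0 : ℝ) < XX N k := by exact_mod_cast hXpos k hk
    have h1 := BB_card W (η := η) k hg
    have h2 : ((BB W η k).card : ℝ) ≤ 6400 * L / M ^ 2 * 4 ^ k := by
      refine le_trans ?_ (hratio k hk)
      rw [le_div_iff₀ (by positivity)]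
      exact h1
    have h9 : 6400 * L / M ^ 2 * 4 ^ k ≤ 4 ^ k / (4 * L) := by
      rw [div_mul_eq_mul_div, div_le_div_iff₀ (by positivity) (by positivity)]
      have e2 : (0 : ℝ) < 4 ^ k := by positivity
      calc 6400 * L * 4 ^ k * (4 * L) = 4 ^ k * (25600 * L ^ 2) := by ring
        _ ≤ 4 ^ k * M ^ 2 := by gcongr
    have h10 := hSc k hk0' hk
    have : ((BB W η k).card : ℝ) < (SS N k).card := by linarith
    exact_mod_cast this
  have hd0 : ∀ l ∈ SS N k0, ‖dv W l‖ ≤ 3 / M ^ 2 := by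
    intro l hl
    unfold SS at hl
    rw [mem_filter, mem_Ioc] at hl
    have h1 : (l : ℝ) ≤ L ^ 3 := by
      have h2 : (l : ℝ) ≤ (4 : ℝ) ^ (k0 + 1) := by exact_mod_cast hl.1.2
      have e : (4 : ℝ) ^ (k0 + 1) = 4 * 4 ^ k0 := by rw [pow_succ]; ring
      rw [e] at h2
      have e3 : L ^ 3 = L * L ^ 2 := by ring
      rw [e3]
      have := pow_pos hL0 2
      nlinarith
    have h3 := hdvs l hl.2.1 hl.2.2 h1
    apply le_of_sq_le_sq _ (by positivity)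
    rw [div_pow]
    refine h3.trans ?_
    have e : (M ^ 2) ^ 2 = M ^ 4 := by ring
    rw [e]
    apply div_le_div_of_nonneg_right (by norm_num) (by positivity)
  have hch := chain hPP hN2 W hη0.le (k0 := k0) (k1 := k1)
    (fun k _ hk => ⟨hV k hk, hXpos k hk⟩) hBS hd0
  obtain ⟨E2, hE2⟩ : ∃ E2 : ℝ, E2 = (9 * L / M) ^ 2 := ⟨_, rfl⟩
  have hgood : ∀ k, k0 ≤ k → k ≤ k1 → ∀ l ∈ SS N k \ BB W η k, ‖dv W l‖ ^ 2 ≤ E2 := by
    intro k hk0' hk l hl
    obtain ⟨n, rfl⟩ := Nat.exists_eq_add_of_le hk0'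
    have h1 := hch n hk l hl
    rw [hE2]
    apply pow_le_pow_left₀ (norm_nonneg _)
    refine h1.trans ?_
    rw [hsη]
    have h2 : (n : ℝ) ≤ L := by
      have : (n : ℝ) ≤ k1 := by
        have : n ≤ k1 := by omega
        exact_mod_cast this
      linarith
    exact r2 hL100 hM1 h2
  have hsm : ∀ l : ℕ, l.Prime → l.Coprime N → l ≤ 4 ^ k0 → ‖dv W l‖ ^ 2 ≤ E2 := by
    intro l hl hlN hl4
    have h1 : (l : ℝ) ≤ L ^ 3 := by
      have h2 : (l : ℝ) ≤ (4 : ℝ) ^ k0 := by exact_mod_cast hl4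
      calc (l : ℝ) ≤ L ^ 2 := by linarith
        _ ≤ L ^ 3 := pow_le_pow_right₀ hL1 (by norm_num)
    refine (hdvs l hl hlN h1).trans ?_
    rw [hE2]
    exact r1 hL100 hM1
  obtain ⟨T, hT⟩ : ∃ T : ℝ, T = L ^ 4 / M ^ 2 := ⟨_, rfl⟩
  have hTT : E2 * (1 + Real.log z) + ∑ k ∈ Icc k0 k1, (Nat.log 2 N * (400 * e1) / (η * XX N k)) * (4 / 4 ^ k) +
      6 / M ^ 4 ≤ T := by
    have a1 : E2 * (1 + Real.log z) ≤ 162 * L ^ 3 / M ^ 2 := by
      calc E2 * (1 + Real.log z) ≤ E2 * (2 * L) := by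
            apply mul_le_mul_of_nonneg_left _ (by rw [hE2]; positivity)
            linarith
        _ = _ := by rw [hE2, div_pow]; ring
    have a2 : ∑ k ∈ Icc k0 k1, (Nat.log 2 N * (400 * e1) / (η * XX N k)) * (4 / 4 ^ k) ≤
        51200 * L ^ 2 / M ^ 2 := by
      have a3 : ∀ k ∈ Icc k0 k1, ((Nat.log 2 N : ℝ) * (400 * e1) / (η * XX N k)) * (4 / 4 ^ k) ≤
          25600 * L / M ^ 2 := by
        intro k hk
        rw [mem_Icc] at hk
        calc ((Nat.log 2 N : ℝ) * (400 * e1) / (η * XX N k)) * (4 / 4 ^ k)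
            ≤ (6400 * L / M ^ 2 * 4 ^ k) * (4 / 4 ^ k) := by
              apply mul_le_mul_of_nonneg_right (hratio k hk.2) (by positivity)
          _ = 25600 * L / M ^ 2 := by field_simp; norm_num
      refine (sum_le_sum a3).trans ?_
      rw [sum_const, nsmul_eq_mul, Nat.card_Icc]
      have a4 : ((k1 + 1 - k0 : ℕ) : ℝ) ≤ 2 * L := by
        have : ((k1 + 1 - k0 : ℕ) : ℝ) ≤ k1 + 1 := by
          have : k1 + 1 - k0 ≤ k1 + 1 := by omega
          exact_mod_cast this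
        linarith
      calc ((k1 + 1 - k0 : ℕ) : ℝ) * (25600 * L / M ^ 2) ≤ (2 * L) * (25600 * L / M ^ 2) := by
            gcongr
        _ = _ := by ring
    have a5 : 6 / M ^ 4 ≤ 6 / M ^ 2 := by
      apply div_le_div_of_nonneg_left (by norm_num) (by positivity)
      exact pow_le_pow_right₀ hM1 (by norm_num)
    have a6 : 162 * L ^ 3 / M ^ 2 + 51200 * L ^ 2 / M ^ 2 + 6 / M ^ 2 ≤ T := by
      rw [hT]; exact r3 hL100 hM1
    linarith
  obtain ⟨χ, hχ⟩ := exists_char W hη0 (by rw [hE2]; positivity) hg (fun k _ hk => hXpos k hk) hk1b hsm hgood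
    hmass hneg hTT
  clear hTT hsm hgood hch hd0 hBS hratio hV hXpos hSc hXV hdvs
  have hTA : 2 * T ≤ 1 / L ^ A := by
    rw [hT, hM, hb, ← mul_div_assoc, div_le_div_iff₀ (by positivity) (by positivity), one_mul]
    have e1 : (L ^ (A + 8)) ^ 2 = L ^ 4 * L ^ A * (L ^ A * L ^ 12) := by ring
    rw [e1]
    have e2 : 2 ≤ L ^ A * L ^ 12 := by
      have h1 : (1 : ℝ) ≤ L ^ A := one_le_pow₀ hL1
      have h2 : (2 : ℝ) ≤ L ^ 12 := by
        calc (2 : ℝ) ≤ L := by linarith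
          _ = L ^ 1 := (pow_one L).symm
          _ ≤ L ^ 12 := pow_le_pow_right₀ hL1 (by norm_num)
      nlinarith
    calc 2 * L ^ 4 * L ^ A = L ^ 4 * L ^ A * 2 := by ring
      _ ≤ L ^ 4 * L ^ A * (L ^ A * L ^ 12) := by gcongr
  have hTA4 : 1 / L ^ A ≤ 1 := by
    rw [div_le_one (by positivity)]; exact one_le_pow₀ hL1
  have hs0 : 0 ≤ ∑ l ∈ (Icc 1 z).filter (fun l => l.Prime ∧ l.Coprime N), ‖χ (l : ZMod N) + 1‖ ^ 2 / l :=
    sum_nonneg fun _ _ => by positivity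
  refine ⟨χ, ?_, ?_⟩
  · have h1 : ‖χ (-1 : ZMod N) + 1‖ ^ 2 ≤ 1 := by linarith
    have h2 : χ (-1 : ZMod N) * χ (-1 : ZMod N) = 1 := by
      rw [← map_mul]; simp
    rcases mul_self_eq_one_iff.1 h2 with h | h
    · rw [h] at h1; norm_num at h1
    · exact h
  · have h1 : 0 ≤ ‖χ (-1 : ZMod N) + 1‖ ^ 2 := by positivity
    linarith

end Pool.Agent.T2H22.LG
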