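import Pool.Agent.T2H22.LG.H
import Pool.Agent.Helper923.HMertens

set_option autoImplicit false
set_option linter.all false
set_option maxHeartbeats 1000000

/-!
# The character is real
-/

namespace Pool.Agent.T2H22.LG

open Finset Filter
open scoped ComplexConjugate

section Z

variable {N : ℕ} [NeZero N]

lemma h_mul (ψ : DirichletCharacter ℂ N) (a b : ℕ) :
    ‖1 - ψ ((a * b : ℕ) : ZMod N)‖ ≤ ‖1 - ψ (a : ZMod N)‖ + ‖1 - ψ (b : ZMod N)‖ := by
  have h1 : 1 - ψ ((a * b : ℕ) : ZMod N) = (1 - ψ (a : ZMod N)) + ψ (a : ZMod N) * (1 - ψ (b : ZMod N)) := by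
    push_cast
    rw [map_mul]; ring
  rw [h1]
  refine (norm_add_le _ _).trans ?_
  rw [norm_mul]
  have := ψ.norm_le_one (a : ZMod N)
  have h2 := norm_nonneg (1 - ψ (b : ZMod N))
  nlinarith

lemma h_fac (ψ : DirichletCharacter ℂ N) (n : ℕ) : n ≠ 0 →
    ‖1 - ψ (n : ZMod N)‖ ≤ n.factorization.sum fun l k => (k : ℝ) * ‖1 - ψ (l : ZMod N)‖ := by
  induction n using Nat.recOnMul with
  | zero => intro h; exact absurd rfl h
  | one => intro _; simp
  | prime p hp =>
    intro _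
    rw [hp.factorization, Finsupp.sum_single_index] <;> simp
  | mul a b ha hb =>
    intro hab
    have ha0 : a ≠ 0 := fun h => hab (by rw [h, zero_mul])
    have hb0 : b ≠ 0 := fun h => hab (by rw [h, mul_zero])
    rw [Nat.factorization_mul ha0 hb0, Finsupp.sum_add_index']
    · exact (h_mul ψ a b).trans (add_le_add (ha ha0) (hb hb0))
    · intro l; simp
    · intro l k k'; push_cast; ring

lemma sum_fact (l X : ℕ) (hl : l.Prime) :
    ∑ n ∈ Icc 1 X, (n.factorization l : ℝ) ≤ 2 * X / l := by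
  have h1 : ∑ n ∈ Icc 1 X, n.factorization l = X.factorial.factorization l := by
    have e0 : Icc 1 X = Ico 1 (X + 1) := by ext n; simp only [mem_Icc, mem_Ico]; omega
    rw [← Finset.prod_Ico_id_eq_factorial, ← e0, Nat.factorization_prod]
    · rw [Finsupp.finsetSum_apply]
    · intro n hn; rw [mem_Icc] at hn; omega
  have h2 := @sub_one_mul_padicValNat_factorial l ⟨hl⟩ X
  rw [← Nat.factorization_def _ hl, ← h1] at h2
  have h3 : (l - 1) * ∑ n ∈ Icc 1 X, n.factorization l ≤ X := by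
    rw [h2]; exact Nat.sub_le _ _
  have hl2 := hl.two_le
  have h4 : l * ∑ n ∈ Icc 1 X, n.factorization l ≤ 2 * X := by
    calc l * ∑ n ∈ Icc 1 X, n.factorization l ≤ (2 * (l - 1)) * ∑ n ∈ Icc 1 X, n.factorization l :=
          Nat.mul_le_mul_right _ (by omega)
      _ = 2 * ((l - 1) * ∑ n ∈ Icc 1 X, n.factorization l) := by ring
      _ ≤ 2 * X := Nat.mul_le_mul_left _ h3
  have hl0 : (0 : ℝ) < l := by exact_mod_cast hl.pos
  rw [le_div_iff₀ hl0]
  have h5 : ((l * ∑ n ∈ Icc 1 X, n.factorization l : ℕ) : ℝ) ≤ ((2 * X : ℕ) : ℝ) := by exact_mod_cast h4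
  push_cast at h5
  linarith

lemma sum_h (ψ : DirichletCharacter ℂ N) (X : ℕ) :
    ∑ n ∈ (Icc 1 X).filter (fun n => n.Coprime N), ‖1 - ψ (n : ZMod N)‖ ≤
      2 * X * ∑ l ∈ (Icc 1 X).filter (fun l => l.Prime ∧ l.Coprime N), ‖1 - ψ (l : ZMod N)‖ / l := by
  classical
  set PP := (Icc 1 X).filter (fun l => l.Prime ∧ l.Coprime N) with hPP
  have h1 : ∀ n ∈ (Icc 1 X).filter (fun n => n.Coprime N), ‖1 - ψ (n : ZMod N)‖ ≤
      ∑ l ∈ PP, (n.factorization l : ℝ) * ‖1 - ψ (l : ZMod N)‖ := by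
    intro n hn
    rw [mem_filter, mem_Icc] at hn
    refine (h_fac ψ n (by omega)).trans ?_
    rw [Finsupp.sum]
    apply sum_le_sum_of_subset_of_nonneg
    · intro l hl
      rw [Nat.support_factorization, Nat.mem_primeFactors] at hl
      rw [hPP, mem_filter, mem_Icc]
      refine ⟨⟨hl.1.one_lt.le, (Nat.le_of_dvd (by omega) hl.2.1).trans hn.1.2⟩, hl.1, ?_⟩
      exact Nat.Coprime.coprime_dvd_left hl.2.1 hn.2
    · intros; positivity
  refine (sum_le_sum h1).trans ?_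
  have h2 : ∑ n ∈ (Icc 1 X).filter (fun n => n.Coprime N), ∑ l ∈ PP, (n.factorization l : ℝ) * ‖1 - ψ (l : ZMod N)‖ ≤
      ∑ n ∈ Icc 1 X, ∑ l ∈ PP, (n.factorization l : ℝ) * ‖1 - ψ (l : ZMod N)‖ := by
    apply sum_le_sum_of_subset_of_nonneg (filter_subset _ _)
    intro n _ _
    exact sum_nonneg fun _ _ => by positivity
  refine h2.trans ?_
  rw [sum_comm, mul_sum]
  refine sum_le_sum fun l hl => ?_
  rw [hPP, mem_filter] at hl
  rw [← sum_mul]
  have h3 := sum_fact l X hl.2.1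
  have h4 : 2 * (X : ℝ) * (‖1 - ψ (l : ZMod N)‖ / l) = 2 * X / l * ‖1 - ψ (l : ZMod N)‖ := by ring
  rw [h4]
  exact mul_le_mul_of_nonneg_right h3 (norm_nonneg _)

/-- a nonprincipal character is not close to one -/
lemma not_close (hN : PPow N) (hN2 : 2 ≤ N) (ψ : DirichletCharacter ℂ N) (hψ : ψ ≠ 1) (X : ℕ) :
    (2 / 3 : ℝ) * X ≤ VV N +
      2 * X * ∑ l ∈ (Icc 1 X).filter (fun l => l.Prime ∧ l.Coprime N), ‖1 - ψ (l : ZMod N)‖ / l := by
  classical
  have h1 := pv hN2 ψ hψ X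
  have h2 := NC_lower hN hN2 X
  have h3 := sum_h ψ X
  have h4 : (NC N X : ℝ) ≤ ‖∑ n ∈ Icc 1 X, ψ (n : ZMod N)‖ +
      ∑ n ∈ (Icc 1 X).filter (fun n => n.Coprime N), ‖1 - ψ (n : ZMod N)‖ := by
    have e1 : ∑ n ∈ Icc 1 X, ψ (n : ZMod N) =
        ∑ n ∈ (Icc 1 X).filter (fun n => n.Coprime N), ψ (n : ZMod N) := by
      symm
      apply sum_filter_of_ne
      intro n _ hne
      by_contra hc
      exact hne (MulChar.map_nonunit ψ (fun h => hc ((ZMod.isUnit_iff_coprime n N).1 h)))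
    have e2 : ((NC N X : ℕ) : ℂ) = ∑ n ∈ (Icc 1 X).filter (fun n => n.Coprime N), ψ (n : ZMod N) +
        ∑ n ∈ (Icc 1 X).filter (fun n => n.Coprime N), (1 - ψ (n : ZMod N)) := by
      rw [← sum_add_distrib]
      simp [NC]
    have e3 : (NC N X : ℝ) = ‖((NC N X : ℕ) : ℂ)‖ := by rw [Complex.norm_natCast]
    rw [e3, e2, e1]
    exact (norm_add_le _ _).trans (add_le_add le_rfl (norm_sum_le _ _))
  linarith

end Z

/-- **the character of a bad prime power is real** -/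
theorem real_char (A : ℕ) :
    ∀ᶠ N : ℕ in atTop, ∀ [NeZero N], PPow N → ¬ BothGood N →
      ∃ χ : DirichletCharacter ℂ N, χ (-1 : ZMod N) = -1 ∧ χ ^ 2 = 1 ∧
        ∑ l ∈ (Icc 1 ⌊(N : ℝ) ^ (1 / 2 - 1 / 200 : ℝ)⌋₊).filter (fun l => l.Prime ∧ l.Coprime N),
          ‖χ (l : ZMod N) + 1‖ ^ 2 / l ≤ 1 / Real.log N ^ A := by
  obtain ⟨C, hC0, hC⟩ := Pool.Agent.Helper923.HMertens.mertens_ratio
  have f1 : ∀ᶠ L : ℝ in atTop, 800 * L ^ (1 : ℝ) ≤ Real.exp (1 / 400 * L ^ (1 : ℝ)) :=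
    ev_exp 1 _ one_pos (by norm_num) 1 _
  filter_upwards [character (δ := 1 / 200) (by norm_num) (by norm_num) (A + 3), tlog.eventually f1,
    tlog.eventually_ge_atTop (10000 * (C + 1)), eventually_gt_atTop 1] with N hch g1 hL100 hN1
  intro _ hPP hbad
  obtain ⟨χ, hχ1, hχ2⟩ := hch hPP hbad
  clear hch
  obtain ⟨L, hL⟩ : ∃ L : ℝ, L = Real.log (N : ℝ) := ⟨_, rfl⟩
  rw [← hL] at g1 hL100 hχ2 ⊢
  rw [Real.rpow_one] at g1
  have hN2 : 2 ≤ N := hN1
  have hNr : (0 : ℝ) < N := by exact_mod_cast (by omega : 0 < N)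
  have hL1 : 10000 ≤ L := by nlinarith
  have hL0 : 0 < L := by linarith
  have hCL : C / L ≤ 1 / 10000 := by
    rw [div_le_iff₀ hL0]; linarith
  have hpow : ∀ x : ℝ, (N : ℝ) ^ x = Real.exp (x * L) := by
    intro x; rw [Real.rpow_def_of_pos hNr, ← hL]; congr 1; ring
  have hA1 : 1 / L ^ (A + 3) ≤ 1 / L ^ A := by
    apply one_div_le_one_div_of_le (by positivity)
    exact pow_le_pow_right₀ (by linarith) (by omega)
  refine ⟨χ, hχ1, ?_, hχ2.trans hA1⟩
  by_contra hne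
  obtain ⟨z, hz⟩ : ∃ z : ℕ, z = ⌊(N : ℝ) ^ (1 / 2 - 1 / 200 : ℝ)⌋₊ := ⟨_, rfl⟩
  obtain ⟨X, hX⟩ : ∃ X : ℕ, X = ⌊(N : ℝ) ^ (1 / 2 + 1 / 200 : ℝ)⌋₊ := ⟨_, rfl⟩
  rw [← hz] at hχ2
  have hz1 : Real.exp (0.49 * L) ≤ z := by
    have h1 := Nat.lt_floor_add_one ((N : ℝ) ^ (1 / 2 - 1 / 200 : ℝ))
    rw [← hz, hpow] at h1
    have h2 : Real.exp ((1 / 2 - 1 / 200) * L) = Real.exp (0.49 * L) * Real.exp (0.005 * L) := by
      rw [← Real.exp_add]; congr 1; ring
    have h3 := Real.add_one_le_exp (0.005 * L)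
    have h4 := Real.add_one_le_exp (0.49 * L)
    rw [h2] at h1
    nlinarith
  have hX1 : (X : ℝ) ≤ Real.exp (0.505 * L) := by
    rw [hX]
    refine (Nat.floor_le (by positivity)).trans ?_
    rw [hpow]
    apply le_of_eq; congr 1; ring
  have hX2 : Real.exp (0.505 * L) / 2 ≤ X := by
    have h1 := Nat.lt_floor_add_one ((N : ℝ) ^ (1 / 2 + 1 / 200 : ℝ))
    rw [← hX, hpow] at h1
    have h2 : (1 / 2 + 1 / 200 : ℝ) * L = 0.505 * L := by ring
    rw [h2] at h1
    have h3 := Real.add_one_le_exp (0.505 * L)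
    linarith
  have hzX : z ≤ X := by
    rw [hz, hX]
    apply Nat.floor_le_floor
    apply Real.rpow_le_rpow_of_exponent_le _ (by norm_num)
    exact_mod_cast hN2.trans' (by norm_num)
  have hz2 : 2 ≤ z := by
    have : (2 : ℝ) ≤ z := by
      have h4 := Real.add_one_le_exp (0.49 * L)
      linarith
    exact_mod_cast this
  have hlz : 0.49 * L ≤ Real.log z := by
    rw [← Real.log_exp (0.49 * L)]
    exact Real.log_le_log (Real.exp_pos _) hz1
  have hlX : Real.log X ≤ 0.505 * L := by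
    rw [← Real.log_exp (0.505 * L)]
    apply Real.log_le_log _ hX1
    exact_mod_cast (by omega : 0 < X)
  have hlz0 : 0 < Real.log z := by nlinarith
  have hmert : ∑ p ∈ (Ioc z X).filter Nat.Prime, (1 : ℝ) / p ≤ 0.04 := by
    have h1 := (abs_le.1 (hC z X hz2 hzX)).2
    have h2 : Real.log (Real.log X / Real.log z) ≤ 0.031 := by
      have h3 : Real.log X / Real.log z ≤ 1.031 := by
        rw [div_le_iff₀ hlz0]
        linarith
      have h0 : 0 < Real.log X / Real.log z := by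
        apply div_pos _ hlz0
        have : Real.log z ≤ Real.log X := Real.log_le_log (by exact_mod_cast (by omega : 0 < z)) (by exact_mod_cast hzX)
        linarith
      have h4 := Real.log_le_sub_one_of_pos h0
      linarith
    have h5 : C / Real.log z ≤ 0.001 := by
      calc C / Real.log z ≤ C / (0.49 * L) := by gcongr
        _ = (C / L) / 0.49 := by field_simp
        _ ≤ (1 / 10000) / 0.49 := by gcongr
        _ ≤ 0.001 := by norm_num
    linarith
  have hnc := not_close hPP hN2 (χ ^ 2) hne X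
  -- the sum over the primes
  set ψ := χ ^ 2 with hψ
  have hψl : ∀ l : ℕ, ‖1 - ψ (l : ZMod N)‖ ≤ 2 * ‖χ (l : ZMod N) + 1‖ := by
    intro l
    have h1 : 1 - ψ (l : ZMod N) = (1 - χ (l : ZMod N)) * (χ (l : ZMod N) + 1) := by
      rw [hψ, MulChar.pow_apply' χ (by norm_num)]; ring
    rw [h1, norm_mul]
    apply mul_le_mul_of_nonneg_right _ (norm_nonneg _)
    refine (norm_sub_le _ _).trans ?_
    rw [norm_one]
    have := χ.norm_le_one (l : ZMod N)
    linarith
  have hψ2 : ∀ l : ℕ, ‖1 - ψ (l : ZMod N)‖ ≤ 2 := by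
    intro l
    refine (norm_sub_le _ _).trans ?_
    rw [norm_one]
    have := ψ.norm_le_one (l : ZMod N)
    linarith
  have hsplit : ∑ l ∈ (Icc 1 X).filter (fun l => l.Prime ∧ l.Coprime N), ‖1 - ψ (l : ZMod N)‖ / l ≤
      2 * ∑ l ∈ (Icc 1 z).filter (fun l => l.Prime ∧ l.Coprime N), ‖χ (l : ZMod N) + 1‖ / l +
        2 * ∑ p ∈ (Ioc z X).filter Nat.Prime, (1 : ℝ) / p := by
    have e1 : (Icc 1 X).filter (fun l => l.Prime ∧ l.Coprime N) ⊆
        (Icc 1 z).filter (fun l => l.Prime ∧ l.Coprime N) ∪ (Ioc z X).filter Nat.Prime := by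
      intro l hl
      rw [mem_filter, mem_Icc] at hl
      rw [mem_union, mem_filter, mem_filter, mem_Icc, mem_Ioc]
      by_cases h : l ≤ z
      · exact Or.inl ⟨⟨hl.1.1, h⟩, hl.2⟩
      · exact Or.inr ⟨⟨by omega, hl.1.2⟩, hl.2.1⟩
    refine (sum_le_sum_of_subset_of_nonneg e1 fun _ _ _ => by positivity).trans ?_
    rw [sum_union (by
      rw [Finset.disjoint_left]
      intro l hl hl'
      rw [mem_filter, mem_Icc] at hl
      rw [mem_filter, mem_Ioc] at hl'
      omega), mul_sum, mul_sum]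
    apply add_le_add
    · refine sum_le_sum fun l _ => ?_
      rw [← mul_div_assoc]
      gcongr
      exact hψl l
    · refine sum_le_sum fun l _ => ?_
      rw [mul_one_div]
      gcongr
      exact hψ2 l
  have hCS : (∑ l ∈ (Icc 1 z).filter (fun l => l.Prime ∧ l.Coprime N), ‖χ (l : ZMod N) + 1‖ / l) ^ 2 ≤
      (1 + Real.log z) * (1 / L ^ (A + 3)) := by
    have h1 : (∑ l ∈ (Icc 1 z).filter (fun l => l.Prime ∧ l.Coprime N), ‖χ (l : ZMod N) + 1‖ / l) ^ 2 ≤
        (∑ l ∈ (Icc 1 z).filter (fun l => l.Prime ∧ l.Coprime N), (1 : ℝ) / l) *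
          ∑ l ∈ (Icc 1 z).filter (fun l => l.Prime ∧ l.Coprime N), ‖χ (l : ZMod N) + 1‖ ^ 2 / l := by
      apply sum_sq_le_sum_mul_sum_of_sq_eq_mul
      · intros; positivity
      · intros; positivity
      · intro l _; ring
    refine h1.trans ?_
    apply mul_le_mul _ hχ2 (sum_nonneg fun _ _ => by positivity) (by linarith)
    refine le_trans ?_ (sum_inv_le z)
    apply sum_le_sum_of_subset_of_nonneg (filter_subset _ _)
    intros; positivity
  have hlzL : Real.log z ≤ L := by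
    have h1 : Real.log z ≤ Real.log X := Real.log_le_log (by exact_mod_cast (by omega : 0 < z)) (by exact_mod_cast hzX)
    linarith
  have hS : ∑ l ∈ (Icc 1 z).filter (fun l => l.Prime ∧ l.Coprime N), ‖χ (l : ZMod N) + 1‖ / l ≤ 0.01 := by
    apply le_of_sq_le_sq _ (by norm_num)
    refine hCS.trans ?_
    have h1 : 1 / L ^ (A + 3) ≤ 1 / L ^ 3 := by
      apply one_div_le_one_div_of_le (by positivity)
      exact pow_le_pow_right₀ (by linarith) (by omega)
    calc (1 + Real.log z) * (1 / L ^ (A + 3)) ≤ (2 * L) * (1 / L ^ 3) := by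
          apply mul_le_mul _ h1 (by positivity) (by positivity)
          linarith
      _ = 2 / L ^ 2 := by field_simp
      _ ≤ 2 / 10000 ^ 2 := by gcongr
      _ ≤ _ := by norm_num
  have hV : VV N ≤ 0.1 * X := by
    have h3 : VV N = 4 * Real.exp (1 / 2 * L) * (1 + L) := by
      unfold VV
      rw [Real.sqrt_eq_rpow, hpow, hL]
    have h4 : Real.exp (0.505 * L) = Real.exp (1 / 2 * L) * (Real.exp (1 / 400 * L) * Real.exp (1 / 400 * L)) := by
      rw [← Real.exp_add, ← Real.exp_add]; congr 1; ring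
    have h5 : 1 ≤ Real.exp (1 / 400 * L) := Real.one_le_exp (by positivity)
    have h6 : 0 < Real.exp (1 / 2 * L) := Real.exp_pos _
    have h7 : 800 * L ≤ Real.exp (1 / 400 * L) * Real.exp (1 / 400 * L) := by nlinarith
    have h8 : 4 * Real.exp (1 / 2 * L) * (1 + L) ≤ 0.05 * Real.exp (0.505 * L) := by
      rw [h4]
      nlinarith
    linarith
  have hXp : (0 : ℝ) < X := by exact_mod_cast (by omega : 0 < X)
  have : 2 * (X : ℝ) * ∑ l ∈ (Icc 1 X).filter (fun l => l.Prime ∧ l.Coprime N), ‖1 - ψ (l : ZMod N)‖ / l ≤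
      2 * X * 0.1 := by
    apply mul_le_mul_of_nonneg_left _ (by positivity)
    linarith
  linarith

end Pool.Agent.T2H22.LG
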