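import Pool.Agent.T2H22.LG.An
import Pool.Agent.H38R2.CG.PV
import Pool.Agent.Y165.HN.Burg

set_option autoImplicit false
set_option linter.all false
set_option maxHeartbeats 1000000

/-!
# Burgess' bound on arbitrary intervals, prime moduli
-/

namespace Pool.Agent.T2H22.LG.BS

open Finset Filter
open Pool.Agent.H471R4.BW

section Z

variable {N : ℕ} [NeZero N]

/-- shifted short sums -/
noncomputable def SSh (χ : DirichletCharacter ℂ N) (u : ZMod N) (X : ℕ) : ℂ :=
  ∑ m ∈ Icc 1 X, χ (u + (m : ZMod N))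

open Classical in
/-- representations of `x` as `(u + m) / a` -/
noncomputable def nus (A : Finset ℕ) (X : ℕ) (u x : ZMod N) : ℕ :=
  ((A ×ˢ Icc 1 X).filter fun w => u + (w.2 : ZMod N) = (w.1 : ZMod N) * x).card

lemma nus_sum (A : Finset ℕ) (X : ℕ) (u : ZMod N) (hA : ∀ a ∈ A, Nat.Coprime a N) :
    ∑ x : ZMod N, nus A X u x = A.card * X := by
  classical
  have h1 : ∑ x : ZMod N, nus A X u x =
      ∑ x : ZMod N, ∑ w ∈ A ×ˢ Icc 1 X, if u + (w.2 : ZMod N) = (w.1 : ZMod N) * x then 1 else 0 := by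
    refine Finset.sum_congr rfl fun x _ => ?_
    unfold nus
    rw [Finset.card_filter]
  rw [h1, Finset.sum_comm]
  have h2 : ∀ w ∈ A ×ˢ Icc 1 X,
      (∑ x : ZMod N, if u + (w.2 : ZMod N) = (w.1 : ZMod N) * x then 1 else 0) = 1 := by
    intro w hw
    obtain ⟨ha, _⟩ := Finset.mem_product.mp hw
    have hu := hA _ ha
    set v : (ZMod N)ˣ := ZMod.unitOfCoprime w.1 hu with hudef
    have hval : (v : ZMod N) = (w.1 : ZMod N) := ZMod.coe_unitOfCoprime _ _
    have h3 : ∀ x : ZMod N, (u + (w.2 : ZMod N) = (w.1 : ZMod N) * x) ↔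
        (↑v⁻¹ * (u + (w.2 : ZMod N)) = x) := by
      intro x
      rw [← hval]
      constructor
      · intro h
        rw [h, Units.inv_mul_cancel_left]
      · intro h
        rw [← h, Units.mul_inv_cancel_left]
    simp_rw [h3]
    rw [Finset.sum_ite_eq]
    simp
  rw [Finset.sum_congr rfl h2, Finset.sum_const, Finset.card_product, Nat.card_Icc]
  simp

/-- solutions of a linear equation -/
lemma lin_count (X a a' : ℕ) (ha : 0 < a) (hcop : a.Coprime a') (t : ℤ) :
    ((Icc 1 X ×ˢ Icc 1 X).filter fun w : ℕ × ℕ => (w.1 : ℤ) * a' - w.2 * a = t).card ≤ X / a + 1 := by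
  classical
  rw [← card_range (X / a + 1)]
  refine card_le_card_of_injOn (fun w => (w.1 - 1) / a) ?_ ?_
  · intro w hw
    simp only [coe_filter, mem_product, mem_Icc, Set.mem_setOf_eq] at hw
    simp only [coe_range, Set.mem_Iio]
    have h1 : (w.1 - 1) / a ≤ X / a := Nat.div_le_div_right (by omega)
    omega
  · intro w hw w' hw' h
    simp only [coe_filter, mem_product, mem_Icc, Set.mem_setOf_eq] at hw hw'
    simp only at h
    have haZ : (a : ℤ) ≠ 0 := by exact_mod_cast ha.ne'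
    have e1 : (a : ℤ) ∣ ((w.1 : ℤ) - w'.1) * a' := by
      refine ⟨(w.2 : ℤ) - w'.2, ?_⟩
      linear_combination hw.2 - hw'.2
    have e2 : (a : ℤ) ∣ (w.1 : ℤ) - w'.1 :=
      IsCoprime.dvd_of_dvd_mul_right (Nat.isCoprime_iff_coprime.2 hcop) e1
    have e3 : w.1 = w'.1 := by
      have d1 := Nat.div_add_mod (w.1 - 1) a
      have d2 := Nat.div_add_mod (w'.1 - 1) a
      have m1 := Nat.mod_lt (w.1 - 1) ha
      have m2 := Nat.mod_lt (w'.1 - 1) ha
      rw [h] at d1
      obtain ⟨c, hc⟩ := e2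
      have h1 : ((w.1 : ℤ) - w'.1) < a := by
        have : w.1 < w'.1 + a := by omega
        have : (w.1 : ℤ) < w'.1 + a := by exact_mod_cast this
        linarith
      have h2 : -(a : ℤ) < ((w.1 : ℤ) - w'.1) := by
        have : w'.1 < w.1 + a := by omega
        have : (w'.1 : ℤ) < w.1 + a := by exact_mod_cast this
        linarith
      rw [hc] at h1 h2
      have haZ' : (0 : ℤ) < a := by exact_mod_cast ha
      have hc0 : c = 0 := by
        have c1 : c < 1 := by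
          by_contra hcc
          push_neg at hcc
          nlinarith
        have c2 : -1 < c := by
          by_contra hcc
          push_neg at hcc
          nlinarith
        omega
      rw [hc0, mul_zero] at hc
      have : (w.1 : ℤ) = w'.1 := by linarith
      exact_mod_cast this
    have e4 : w.2 = w'.2 := by
      have h1 := hw.2
      have h2 := hw'.2
      rw [e3] at h1
      have : (w.2 : ℤ) * a = w'.2 * a := by linarith
      have := mul_right_cancel₀ haZ this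
      exact_mod_cast this
    exact Prod.ext e3 e4

lemma nus_sq (A : Finset ℕ) (X Y : ℕ) (u : ZMod N) (hY : 0 < Y) (hAp : ∀ a ∈ A, a.Prime)
    (hA : ∀ a ∈ A, Nat.Coprime a N) (hAY : ∀ a ∈ A, Y ≤ a ∧ a ≤ 4 * Y) (hMX : 4 * Y * X < N)
    (hc : A.card ≤ 4 * Y) (hc2 : A.card ≤ X) :
    ∑ x : ZMod N, (nus A X u x) ^ 2 ≤ 11 * A.card * X := by
  classical
  set I := Icc 1 X with hI
  have h1 : ∑ x : ZMod N, (nus A X u x) ^ 2 ≤
      ∑ a ∈ A, ∑ a' ∈ A, ((I ×ˢ I).filter fun w : ℕ × ℕ =>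
        (u + (w.1 : ZMod N)) * (a' : ZMod N) = (u + (w.2 : ZMod N)) * a).card := by
    have e1 : ∀ x : ZMod N, (nus A X u x) ^ 2 = ∑ w ∈ A ×ˢ I, ∑ w' ∈ A ×ˢ I,
        if (u + (w.2 : ZMod N) = (w.1 : ZMod N) * x ∧ u + (w'.2 : ZMod N) = (w'.1 : ZMod N) * x) then 1 else 0 := by
      intro x
      unfold nus
      rw [card_filter, sq, sum_mul_sum]
      refine sum_congr rfl fun w _ => sum_congr rfl fun w' _ => ?_
      split_ifs <;> simp_all
    rw [sum_congr rfl fun x _ => e1 x, sum_comm]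
    have e2 : ∀ w ∈ A ×ˢ I, ∑ x : ZMod N, ∑ w' ∈ A ×ˢ I,
        (if (u + (w.2 : ZMod N) = (w.1 : ZMod N) * x ∧ u + (w'.2 : ZMod N) = (w'.1 : ZMod N) * x) then 1 else 0) ≤
        ∑ w' ∈ A ×ˢ I, if (u + (w.2 : ZMod N)) * (w'.1 : ZMod N) = (u + (w'.2 : ZMod N)) * w.1 then 1 else 0 := by
      intro w hw
      rw [sum_comm]
      refine sum_le_sum fun w' hw' => ?_
      rw [mem_product] at hw hw'
      obtain ⟨v, hv⟩ := (ZMod.isUnit_iff_coprime w.1 N).mpr (hA _ hw.1)
      rw [← card_filter]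
      have hsub : (univ.filter fun x : ZMod N => u + (w.2 : ZMod N) = (w.1 : ZMod N) * x ∧
          u + (w'.2 : ZMod N) = (w'.1 : ZMod N) * x) ⊆
          if (u + (w.2 : ZMod N)) * (w'.1 : ZMod N) = (u + (w'.2 : ZMod N)) * w.1 then
            {(↑v⁻¹ : ZMod N) * (u + (w.2 : ZMod N))} else ∅ := by
        intro x hx
        rw [mem_filter] at hx
        obtain ⟨_, hx1, hx2⟩ := hx
        have h3 : (u + (w.2 : ZMod N)) * (w'.1 : ZMod N) = (u + (w'.2 : ZMod N)) * w.1 := by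
          rw [hx1, hx2]; ring
        rw [if_pos h3, mem_singleton, hx1, ← hv, Units.inv_mul_cancel_left]
      refine (card_le_card hsub).trans ?_
      split_ifs <;> simp
    refine (sum_le_sum e2).trans (le_of_eq ?_)
    rw [sum_product]
    refine sum_congr rfl fun a _ => ?_
    have e3 : ∀ m ∈ I, ∑ w' ∈ A ×ˢ I, (if (u + (m : ZMod N)) * (w'.1 : ZMod N) = (u + (w'.2 : ZMod N)) * (a : ZMod N) then 1 else 0) =
        ∑ a' ∈ A, ∑ m' ∈ I, (if (u + (m : ZMod N)) * (a' : ZMod N) = (u + (m' : ZMod N)) * (a : ZMod N) then 1 else 0) := by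
      intro m _
      rw [sum_product]
    rw [sum_congr rfl e3, sum_comm]
    refine sum_congr rfl fun a' _ => ?_
    rw [card_filter, sum_product]
  refine h1.trans ?_
  have hdiag : ∀ a ∈ A, ((I ×ˢ I).filter fun w : ℕ × ℕ =>
        (u + (w.1 : ZMod N)) * (a : ZMod N) = (u + (w.2 : ZMod N)) * a).card ≤ X := by
    intro a ha
    obtain ⟨v, hv⟩ := (ZMod.isUnit_iff_coprime a N).mpr (hA _ ha)
    have : ((I ×ˢ I).filter fun w : ℕ × ℕ =>
        (u + (w.1 : ZMod N)) * (a : ZMod N) = (u + (w.2 : ZMod N)) * a).card ≤ I.card := by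
      refine card_le_card_of_injOn (fun w => w.1) ?_ ?_
      · intro w hw
        simp only [coe_filter, mem_product, Set.mem_setOf_eq] at hw
        exact hw.1.1
      · intro w hw w' hw' h
        simp only [coe_filter, mem_product, Set.mem_setOf_eq, hI, mem_Icc] at hw hw'
        simp only at h
        have key : ∀ y : ℕ × ℕ, y.1 ≤ X → y.2 ≤ X →
            (u + (y.1 : ZMod N)) * (a : ZMod N) = (u + (y.2 : ZMod N)) * a → y.1 = y.2 := by
          intro y h1 h2 h3
          rw [← hv] at h3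
          have h4 := (Units.mul_left_inj v).1 h3
          have h5 := add_left_cancel h4
          have hlt : X < N := by
            have : 1 * X ≤ 4 * Y * X := Nat.mul_le_mul_right _ (by omega)
            omega
          have := congrArg ZMod.val h5
          rwa [ZMod.val_natCast_of_lt (by omega), ZMod.val_natCast_of_lt (by omega)] at this
        have k1 := key w hw.1.1.2 hw.1.2.2 hw.2
        have k2 := key w' hw'.1.1.2 hw'.1.2.2 hw'.2
        exact Prod.ext h (by rw [← k1, ← k2, h])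
    refine this.trans ?_
    rw [hI, Nat.card_Icc]; omega
  have hoff : ∀ a ∈ A, ∀ a' ∈ A, a ≠ a' → ((I ×ˢ I).filter fun w : ℕ × ℕ =>
        (u + (w.1 : ZMod N)) * (a' : ZMod N) = (u + (w.2 : ZMod N)) * a).card ≤ 2 * (X / Y + 1) := by
    intro a ha a' ha' hne
    have hcop : a.Coprime a' := (Nat.coprime_primes (hAp _ ha) (hAp _ ha')).2 hne
    set c0 : ℕ := (u * ((a : ZMod N) - a')).val with hc0
    have hc0' : ((c0 : ℕ) : ZMod N) = u * ((a : ZMod N) - a') := by
      rw [hc0, ZMod.natCast_zmod_val]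
    have hc0N : c0 < N := ZMod.val_lt _
    have hsub : ((I ×ˢ I).filter fun w : ℕ × ℕ =>
        (u + (w.1 : ZMod N)) * (a' : ZMod N) = (u + (w.2 : ZMod N)) * a) ⊆
        ((I ×ˢ I).filter fun w : ℕ × ℕ => (w.1 : ℤ) * a' - w.2 * a = c0) ∪
        ((I ×ˢ I).filter fun w : ℕ × ℕ => (w.1 : ℤ) * a' - w.2 * a = (c0 : ℤ) - N) := by
      intro w hw
      rw [mem_filter] at hw
      obtain ⟨hwI, hwe⟩ := hw
      rw [mem_union, mem_filter, mem_filter]
      have hwI' := hwI
      rw [mem_product, hI, mem_Icc, mem_Icc] at hwI'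
      have e1 : (((w.1 : ℤ) * a' - w.2 * a - c0 : ℤ) : ZMod N) = 0 := by
        push_cast
        rw [hc0']
        linear_combination hwe
      rw [ZMod.intCast_zmod_eq_zero_iff_dvd] at e1
      obtain ⟨k, hk⟩ := e1
      have b1 : w.1 * a' < N := by
        calc w.1 * a' ≤ X * (4 * Y) := Nat.mul_le_mul hwI'.1.2 (hAY _ ha').2
          _ = 4 * Y * X := by ring
          _ < N := hMX
      have b2 : w.2 * a < N := by
        calc w.2 * a ≤ X * (4 * Y) := Nat.mul_le_mul hwI'.2.2 (hAY _ ha).2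
          _ = 4 * Y * X := by ring
          _ < N := hMX
      have b3 : 0 < w.1 * a' := Nat.mul_pos (by omega) (hAp _ ha').pos
      have b1' : (w.1 : ℤ) * a' < N := by exact_mod_cast b1
      have b2' : (w.2 : ℤ) * a < N := by exact_mod_cast b2
      have b3' : (0 : ℤ) < (w.1 : ℤ) * a' := by exact_mod_cast b3
      have b4' : (0 : ℤ) ≤ (w.2 : ℤ) * a := by positivity
      have b5' : (c0 : ℤ) < N := by exact_mod_cast hc0N
      have b6' : (0 : ℤ) ≤ c0 := by positivity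
      have hNZ : (0 : ℤ) < N := by exact_mod_cast NeZero.pos N
      have k1 : k < 1 := by
        by_contra hcc
        push_neg at hcc
        nlinarith
      have k2 : -2 < k := by
        by_contra hcc
        push_neg at hcc
        nlinarith
      have hk01 : k = 0 ∨ k = -1 := by omega
      rcases hk01 with h | h
      · left; refine ⟨hwI, ?_⟩; rw [h, mul_zero] at hk; linarith
      · right; refine ⟨hwI, ?_⟩; rw [h] at hk; linarith
    refine (card_le_card hsub).trans ((card_union_le _ _).trans ?_)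
    have l1 := lin_count X a a' (hAp _ ha).pos hcop (c0 : ℤ)
    have l2 := lin_count X a a' (hAp _ ha).pos hcop ((c0 : ℤ) - N)
    have l3 : X / a ≤ X / Y := Nat.div_le_div_left (hAY _ ha).1 hY
    rw [← hI] at l1 l2
    omega
  have h2 : ∀ a ∈ A, ∑ a' ∈ A, ((I ×ˢ I).filter fun w : ℕ × ℕ =>
        (u + (w.1 : ZMod N)) * (a' : ZMod N) = (u + (w.2 : ZMod N)) * a).card ≤
        X + A.card * (2 * (X / Y + 1)) := by
    intro a ha
    rw [← add_sum_erase A _ ha]
    apply Nat.add_le_add (hdiag a ha)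
    refine (sum_le_sum (g := fun _ => 2 * (X / Y + 1)) fun a' ha' => ?_).trans ?_
    · rw [mem_erase] at ha'
      exact hoff a ha a' ha'.2 (Ne.symm ha'.1)
    · rw [sum_const, smul_eq_mul]
      exact Nat.mul_le_mul_right _ (card_le_card (erase_subset _ _))
  refine (sum_le_sum h2).trans ?_
  rw [sum_const, smul_eq_mul]
  have h3 : A.card * (X / Y) ≤ 4 * X := by
    calc A.card * (X / Y) ≤ (4 * Y) * (X / Y) := Nat.mul_le_mul_right _ hc
      _ = 4 * (Y * (X / Y)) := by ring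
      _ ≤ 4 * X := Nat.mul_le_mul_left _ (Nat.mul_div_le _ _)
  have h4 : X + A.card * (2 * (X / Y + 1)) ≤ 11 * X := by
    have : A.card * (2 * (X / Y + 1)) = 2 * (A.card * (X / Y)) + 2 * A.card := by ring
    rw [this]; omega
  calc A.card * (X + A.card * (2 * (X / Y + 1))) ≤ A.card * (11 * X) := Nat.mul_le_mul_left _ h4
    _ = 11 * A.card * X := by ring

theorem shf' (χ : DirichletCharacter ℂ N) (u : ZMod N) (A : Finset ℕ) (X M B : ℕ)
    (hA : ∀ a ∈ A, Nat.Coprime a N) (hM : ∀ a ∈ A, a ≤ M) :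
    (A.card : ℝ) * B * ‖SSh χ u X‖ ≤
      ∑ x : ZMod N, (nus A X u x : ℝ) * ‖∑ b ∈ range B, χ (x + (b : ZMod N))‖ +
        (A.card : ℝ) * B * (2 * M * B) := by
  classical
  set T : ZMod N → ℝ := fun x => ‖∑ b ∈ range B, χ (x + (b : ZMod N))‖ with hT
  have hχ : ∀ a : ZMod N, ‖χ a‖ ≤ 1 := fun a => χ.norm_le_one a
  have h1 : ∀ a ∈ A, ∀ b ∈ range B,
      ‖SSh χ u X - ∑ m ∈ Icc 1 X, χ (u + ((m + a * b : ℕ) : ZMod N))‖ ≤ 2 * M * B := by
    intro a ha b hb
    rw [Finset.mem_range] at hb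
    have h := SHFx.shift (fun m => χ (u + (m : ZMod N))) (fun m => hχ _) X (a * b)
    refine h.trans ?_
    have h2 : a * b ≤ M * B := Nat.mul_le_mul (hM a ha) hb.le
    have h3 : ((a * b : ℕ) : ℝ) ≤ ((M * B : ℕ) : ℝ) := by exact_mod_cast h2
    push_cast at h3 ⊢
    linarith
  have h2 : ‖∑ a ∈ A, ∑ b ∈ range B, ∑ m ∈ Icc 1 X, χ (u + ((m + a * b : ℕ) : ZMod N))‖ ≤
      ∑ x : ZMod N, (nus A X u x : ℝ) * T x := by
    have e1 : ∑ a ∈ A, ∑ b ∈ range B, ∑ m ∈ Icc 1 X, χ (u + ((m + a * b : ℕ) : ZMod N)) =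
        ∑ w ∈ A ×ˢ Icc 1 X, ∑ b ∈ range B, χ (u + ((w.2 + w.1 * b : ℕ) : ZMod N)) := by
      rw [Finset.sum_product]
      refine Finset.sum_congr rfl fun a _ => ?_
      rw [Finset.sum_comm]
    rw [e1]
    refine (norm_sum_le _ _).trans ?_
    have e2 : ∑ x : ZMod N, (nus A X u x : ℝ) * T x =
        ∑ w ∈ A ×ˢ Icc 1 X, ∑ x : ZMod N, if u + (w.2 : ZMod N) = (w.1 : ZMod N) * x then T x else 0 := by
      rw [Finset.sum_comm]
      refine Finset.sum_congr rfl fun x _ => ?_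
      unfold nus
      rw [Finset.card_filter]
      push_cast
      rw [Finset.sum_mul]
      refine Finset.sum_congr rfl fun w _ => ?_
      split_ifs <;> simp
    rw [e2]
    refine Finset.sum_le_sum fun w hw => ?_
    rw [Finset.mem_product] at hw
    have hu : IsUnit (w.1 : ZMod N) := (ZMod.isUnit_iff_coprime w.1 N).mpr (hA _ hw.1)
    obtain ⟨v, hv⟩ := hu
    set x0 : ZMod N := (↑(v⁻¹) : ZMod N) * (u + (w.2 : ZMod N)) with hx0
    have hx1 : (w.1 : ZMod N) * x0 = u + (w.2 : ZMod N) := by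
      rw [hx0, ← hv, ← mul_assoc, Units.mul_inv, one_mul]
    have h3 : ∑ x : ZMod N, (if u + (w.2 : ZMod N) = (w.1 : ZMod N) * x then T x else 0) = T x0 := by
      rw [Finset.sum_eq_single x0]
      · rw [if_pos hx1.symm]
      · intro y _ hy
        rw [if_neg]
        intro h
        apply hy
        rw [hx0, h, ← hv, ← mul_assoc, Units.inv_mul, one_mul]
      · intro h; exact absurd (Finset.mem_univ _) h
    rw [h3]
    have e3 : ∑ b ∈ range B, χ (u + ((w.2 + w.1 * b : ℕ) : ZMod N)) =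
        χ (w.1 : ZMod N) * ∑ b ∈ range B, χ (x0 + (b : ZMod N)) := by
      rw [Finset.mul_sum]
      refine Finset.sum_congr rfl fun b _ => ?_
      rw [← map_mul]
      congr 1
      push_cast
      rw [mul_add, hx1, add_assoc]
    rw [e3, norm_mul]
    calc ‖χ (w.1 : ZMod N)‖ * ‖∑ b ∈ range B, χ (x0 + (b : ZMod N))‖
        ≤ 1 * ‖∑ b ∈ range B, χ (x0 + (b : ZMod N))‖ :=
          mul_le_mul_of_nonneg_right (hχ _) (norm_nonneg _)
      _ = T x0 := one_mul _
  have h3 : ‖∑ a ∈ A, ∑ b ∈ range B, (SSh χ u X -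
      ∑ m ∈ Icc 1 X, χ (u + ((m + a * b : ℕ) : ZMod N)))‖ ≤ (A.card : ℝ) * B * (2 * M * B) := by
    refine (norm_sum_le _ _).trans ?_
    have h4 : ∀ a ∈ A, ‖∑ b ∈ range B, (SSh χ u X -
        ∑ m ∈ Icc 1 X, χ (u + ((m + a * b : ℕ) : ZMod N)))‖ ≤ B * (2 * M * B) := by
      intro a ha
      refine (norm_sum_le _ _).trans ?_
      refine (Finset.sum_le_sum fun b hb => h1 a ha b hb).trans ?_
      rw [Finset.sum_const, Finset.card_range, nsmul_eq_mul]
    refine (Finset.sum_le_sum h4).trans ?_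
    rw [Finset.sum_const, nsmul_eq_mul]
    exact le_of_eq (by ring)
  have e4 : (A.card : ℂ) * B * SSh χ u X =
      ∑ a ∈ A, ∑ b ∈ range B, (SSh χ u X -
        ∑ m ∈ Icc 1 X, χ (u + ((m + a * b : ℕ) : ZMod N))) +
      ∑ a ∈ A, ∑ b ∈ range B, ∑ m ∈ Icc 1 X, χ (u + ((m + a * b : ℕ) : ZMod N)) := by
    rw [← Finset.sum_add_distrib]
    have : ∀ a ∈ A, (∑ b ∈ range B, (SSh χ u X -
        ∑ m ∈ Icc 1 X, χ (u + ((m + a * b : ℕ) : ZMod N))) +
        ∑ b ∈ range B, ∑ m ∈ Icc 1 X, χ (u + ((m + a * b : ℕ) : ZMod N))) = B * SSh χ u X := by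
      intro a _
      rw [← Finset.sum_add_distrib]
      simp only [sub_add_cancel]
      rw [Finset.sum_const, Finset.card_range, nsmul_eq_mul]
    rw [Finset.sum_congr rfl this, Finset.sum_const, nsmul_eq_mul, mul_assoc]
  have e5 : (A.card : ℝ) * B * ‖SSh χ u X‖ = ‖(A.card : ℂ) * B * SSh χ u X‖ := by
    rw [norm_mul, norm_mul, Complex.norm_natCast, Complex.norm_natCast]
  rw [e5, e4]
  refine (norm_add_le _ _).trans ?_
  linarith

theorem bin' (χ : DirichletCharacter ℂ N) (u : ZMod N) (A : Finset ℕ)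
    (X Y B r : ℕ) (K : ℝ) (hr : 1 ≤ r) (hK : 0 ≤ K) (hB : 1 ≤ B) (hX : 1 ≤ X) (hY : 0 < Y) (hA : A.Nonempty)
    (hAp : ∀ a ∈ A, a.Prime) (hAc : ∀ a ∈ A, Nat.Coprime a N) (hAY : ∀ a ∈ A, Y ≤ a ∧ a ≤ 4 * Y)
    (hMX : 4 * Y * X < N) (hc : A.card ≤ 4 * Y) (hc2 : A.card ≤ X)
    (hNB : Real.sqrt N ≤ (B : ℝ) ^ r) (hC : Complete N χ r B K) :
    ‖SSh χ u X‖ ≤ 2 * (4 * Y) * B +
      X * (11 * ((r : ℝ) ^ (2 * r) + K) * Real.sqrt N / (A.card * X)) ^ (1 / (2 * r : ℝ)) := by
  set Tf : ZMod N → ℝ := fun x => ‖∑ b ∈ range B, χ (x + (b : ZMod N))‖ with hTf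
  set P : ℝ := (A.card : ℝ) with hP
  have hP1 : 1 ≤ P := by
    rw [hP]; exact_mod_cast hA.card_pos
  have hX1 : (1 : ℝ) ≤ X := by exact_mod_cast hX
  have hB1 : (1 : ℝ) ≤ B := by exact_mod_cast hB
  have hP0 : 0 < P := by linarith
  have hX0 : (0 : ℝ) < X := by linarith
  have hB0 : (0 : ℝ) < B := by linarith
  set S : ℝ := ∑ x : ZMod N, (nus A X u x : ℝ) * Tf x with hS
  have hS0 : 0 ≤ S := Finset.sum_nonneg (fun x _ => mul_nonneg (Nat.cast_nonneg _) (norm_nonneg _))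
  have e1 : ∑ x : ZMod N, (nus A X u x : ℝ) = P * X := by
    have := nus_sum A X u hAc
    rw [hP]
    exact_mod_cast this
  have e2 : ∑ x : ZMod N, ((nus A X u x : ℝ)) ^ 2 ≤ 11 * P * X := by
    have := nus_sq A X Y u hY hAp hAc hAY hMX hc hc2
    rw [hP]
    exact_mod_cast this
  have e3 : ∑ x : ZMod N, Tf x ^ (2 * r) ≤
      ((r : ℝ) ^ (2 * r) + K) * (B : ℝ) ^ (2 * r) * Real.sqrt N := by
    refine (mom tup N χ r B K hr hK hC).trans ?_
    have hN0 : (0 : ℝ) ≤ N := Nat.cast_nonneg _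
    have hNs : (N : ℝ) = Real.sqrt N * Real.sqrt N := (Real.mul_self_sqrt hN0).symm
    have h6 : (B : ℝ) ^ r * N ≤ (B : ℝ) ^ (2 * r) * Real.sqrt N := by
      calc (B : ℝ) ^ r * N = (B : ℝ) ^ r * (Real.sqrt N * Real.sqrt N) := by rw [← hNs]
        _ = (B : ℝ) ^ r * Real.sqrt N * Real.sqrt N := by ring
        _ ≤ (B : ℝ) ^ r * (B : ℝ) ^ r * Real.sqrt N := by
            apply mul_le_mul_of_nonneg_right _ (Real.sqrt_nonneg _)
            exact mul_le_mul_of_nonneg_left hNB (by positivity)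
        _ = (B : ℝ) ^ (2 * r) * Real.sqrt N := by rw [two_mul, pow_add]
    have h7 : (r : ℝ) ^ (2 * r) * ((B : ℝ) ^ r * N) ≤
        (r : ℝ) ^ (2 * r) * ((B : ℝ) ^ (2 * r) * Real.sqrt N) :=
      mul_le_mul_of_nonneg_left h6 (by positivity)
    nlinarith [h7]
  set Q : ℝ := 11 * ((r : ℝ) ^ (2 * r) + K) * Real.sqrt N / (P * X) with hQ
  have hQ0 : 0 ≤ Q := by rw [hQ]; positivity
  have hH := hol (ZMod N) r hr (fun x => (nus A X u x : ℝ)) Tf (fun x => Nat.cast_nonneg _)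
    (fun x => norm_nonneg _)
  have hpow : S ^ (2 * r) ≤ (P * X * B) ^ (2 * r) * Q := by
    refine hH.trans ?_
    rw [e1]
    have h8 : (P * (X : ℝ)) ^ (2 * r - 2) * (∑ x : ZMod N, ((nus A X u x : ℝ)) ^ 2) *
        ∑ x : ZMod N, Tf x ^ (2 * r) ≤ (P * (X : ℝ)) ^ (2 * r - 2) * (11 * P * X) *
        (((r : ℝ) ^ (2 * r) + K) * (B : ℝ) ^ (2 * r) * Real.sqrt N) := by
      apply mul_le_mul _ e3 (Finset.sum_nonneg (fun x _ => by positivity)) (by positivity)
      exact mul_le_mul_of_nonneg_left e2 (by positivity)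
    refine h8.trans (le_of_eq ?_)
    have h9 : (P * (X : ℝ) * B) ^ (2 * r) =
        (P * (X : ℝ)) ^ (2 * r - 2) * (P * X) ^ 2 * (B : ℝ) ^ (2 * r) := by
      rw [← pow_add, mul_pow (P * (X : ℝ)) (B : ℝ)]
      congr 2
      omega
    rw [h9, hQ]
    field_simp
  have hroot : S ≤ P * X * B * Q ^ (1 / (2 * r : ℝ)) := by
    have hr0 : (2 * r : ℕ) ≠ 0 := by omega
    have hq : (Q ^ (1 / (2 * r : ℝ))) ^ (2 * r) = Q := by
      rw [← Real.rpow_natCast, ← Real.rpow_mul hQ0]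
      have : 1 / (2 * (r : ℝ)) * ((2 * r : ℕ) : ℝ) = 1 := by
        push_cast
        have : (r : ℝ) ≠ 0 := by
          have : (1 : ℝ) ≤ r := by exact_mod_cast hr
          linarith
        field_simp
      rw [this, Real.rpow_one]
    have h10 : S ^ (2 * r) ≤ (P * X * B * Q ^ (1 / (2 * r : ℝ))) ^ (2 * r) := by
      rw [mul_pow (P * (X : ℝ) * B), hq]
      exact hpow
    exact (pow_le_pow_iff_left₀ hS0 (by positivity) hr0).1 h10
  have hsh := shf' χ u A X (4 * Y) B hAc (fun a ha => (hAY a ha).2)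
  have hfin : P * B * ‖SSh χ u X‖ ≤
      P * B * (2 * (4 * Y) * B + X * Q ^ (1 / (2 * r : ℝ))) := by
    calc P * B * ‖SSh χ u X‖ ≤ S + P * B * (2 * (4 * Y) * B) := by
          push_cast at hsh
          exact hsh
      _ ≤ P * X * B * Q ^ (1 / (2 * r : ℝ)) + P * B * (2 * (4 * Y) * B) := by linarith
      _ = _ := by ring
  exact le_of_mul_le_mul_left hfin (by positivity)

end Z

end Pool.Agent.T2H22.LG.BS
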