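import Pool.Agent.T2H22.LG.K
import Pool.Agent.T2H22.LG.F

set_option autoImplicit false
set_option linter.all false
set_option maxHeartbeats 1000000

/-!
# Burgess' bound on arbitrary intervals, prime moduli: conclusion
-/

namespace Pool.Agent.T2H22.LG.BS

open Finset Filter
open Pool.Agent.H471R4.BW

theorem core' (δ η : ℝ) (hδ : 0 < δ) (hδ1 : δ ≤ 1)
    (hη : 0 < η) (r : ℕ) (hr : 1 ≤ r) (hrη : 1 / (2 * (r : ℝ)) ≤ η)
    (Y0 : ℕ) (hY0 : ∀ Y : ℕ, Y0 ≤ Y → (Y : ℝ) ≤ (((Ioc Y (4 * Y)).filter Nat.Prime).card : ℝ) *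
      (2 * Real.log Y))
    (N : ℕ) (hN3 : (3 : ℝ) ≤ N) (hp : N.Prime)
    (ha : 2 * (N : ℝ) ^ (1 / (2 * (r : ℝ))) ≤ N)
    (hb : (Y0 : ℝ) + 3 ≤ δ * (N : ℝ) ^ (1 / 4 : ℝ) / 128)
    (hd : 11 * ((r : ℝ) ^ (2 * r) + 2 * r) * 256 * Real.log N ≤
      ((δ / 2) ^ (2 * r) * δ) * (N : ℝ) ^ η)
    [NeZero N] (χ : DirichletCharacter ℂ N) (hχ : χ ≠ 1) (u : ZMod N) (X : ℕ)
    (hX1 : (N : ℝ) ^ (1 / 4 + η) ≤ X) (hX2 : (X : ℝ) ^ 2 ≤ N * (N : ℝ) ^ (1 / (2 * (r : ℝ)))) :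
    ‖SSh χ u X‖ ≤ δ * X := by
  haveI : Fact N.Prime := ⟨hp⟩
  have hNpos : (0 : ℝ) < N := by linarith
  have hN1 : (1 : ℝ) ≤ N := by linarith
  have hr' : (1 : ℝ) ≤ r := by exact_mod_cast hr
  set s : ℝ := 1 / (2 * (r : ℝ)) with hs
  have hs0 : 0 < s := by positivity
  have hNs1 : 1 ≤ (N : ℝ) ^ s := Real.one_le_rpow hN1 hs0.le
  set B : ℕ := ⌈(N : ℝ) ^ s⌉₊ with hB
  have hB1 : (N : ℝ) ^ s ≤ B := Nat.le_ceil _
  have hB2 : (B : ℝ) ≤ 2 * (N : ℝ) ^ s := by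
    have := (Nat.ceil_lt_add_one (by linarith : (0 : ℝ) ≤ (N : ℝ) ^ s)).le
    linarith
  have hBone : (1 : ℝ) ≤ B := hNs1.trans hB1
  have hBpos : (0 : ℝ) < B := by linarith
  have hX0 : (1 : ℝ) ≤ X := by
    refine le_trans ?_ hX1
    exact Real.one_le_rpow hN1 (by linarith)
  have hXpos : (0 : ℝ) < X := by linarith
  set M : ℕ := ⌊δ * X / (32 * B)⌋₊ with hM
  have hM1 : (M : ℝ) ≤ δ * X / (32 * B) := Nat.floor_le (by positivity)
  have hM2 : δ * X / (32 * B) - 1 < M := Nat.sub_one_lt_floor _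
  -- lower bound for `X / B`
  have hq : (N : ℝ) ^ (1 / 4 : ℝ) * B ≤ 2 * X := by
    have e1 : (N : ℝ) ^ (1 / 4 : ℝ) * (N : ℝ) ^ s ≤ (N : ℝ) ^ (1 / 4 + η) := by
      rw [← Real.rpow_add hNpos]
      exact Real.rpow_le_rpow_of_exponent_le hN1 (by linarith)
    have e2 : 0 ≤ (N : ℝ) ^ (1 / 4 : ℝ) := Real.rpow_nonneg hNpos.le _
    nlinarith
  have hM3 : δ * (N : ℝ) ^ (1 / 4 : ℝ) / 64 ≤ δ * X / (32 * B) := by
    rw [div_le_div_iff₀ (by norm_num) (by positivity)]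
    nlinarith
  have hM4 : δ * (N : ℝ) ^ (1 / 4 : ℝ) / 128 ≤ M := by
    have : (0 : ℝ) ≤ Y0 := Nat.cast_nonneg _
    linarith
  have hMY0 : (Y0 : ℝ) + 3 ≤ M := hb.trans hM4
  have hMY0' : Y0 + 3 ≤ M := by exact_mod_cast hMY0
  have hXX : (X : ℝ) * X ≤ N * B := by
    calc (X : ℝ) * X = (X : ℝ) ^ 2 := by ring
      _ ≤ N * (N : ℝ) ^ s := hX2
      _ ≤ N * B := by gcongr
  have hMX : (M : ℝ) * (32 * B) ≤ δ * X := by
    rwa [le_div_iff₀ (by positivity)] at hM1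
  have hMpos0 : (0 : ℝ) ≤ M := Nat.cast_nonneg _
  have hMXN : 4 * M * X < N := by
    have h1 : ((M : ℝ) * X) * (32 * B) ≤ N * B := by
      calc ((M : ℝ) * X) * (32 * B) = (M : ℝ) * (32 * B) * X := by ring
        _ ≤ δ * X * X := by gcongr
        _ ≤ 1 * X * X := by gcongr
        _ = (X : ℝ) * X := by ring
        _ ≤ N * B := hXX
    have h2 : ((M : ℝ) * X) * 32 ≤ N := by
      have h3 : (((M : ℝ) * X) * 32) * B ≤ N * B := by linarith
      exact le_of_mul_le_mul_right h3 hBpos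
    have : 4 * (M : ℝ) * X < N := by nlinarith
    exact_mod_cast this
  have hXpos' : 0 < X := by exact_mod_cast hXpos
  have hMN : 4 * M < N := by
    have h1 : 4 * M ≤ 4 * M * X := Nat.le_mul_of_pos_right _ hXpos'
    omega
  set A : Finset ℕ := (Ioc M (4 * M)).filter Nat.Prime with hA
  have hcard := hY0 M (by omega)
  rw [← hA] at hcard
  have hL : 0 < Real.log N := Real.log_pos (by linarith)
  have hMpos : (0 : ℝ) < M := by
    have : (0 : ℝ) ≤ Y0 := Nat.cast_nonneg _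
    linarith
  have hlogM : Real.log M ≤ Real.log N := by
    apply Real.log_le_log hMpos
    exact_mod_cast (by omega : M ≤ N)
  have hcard' : (M : ℝ) / (2 * Real.log N) ≤ A.card := by
    rw [div_le_iff₀ (by positivity)]
    refine hcard.trans ?_
    gcongr
  have hcardpos : (0 : ℝ) < A.card := lt_of_lt_of_le (by positivity) hcard'
  have hne : A.Nonempty := by
    rw [← card_pos]
    exact_mod_cast hcardpos
  have hBr : Real.sqrt N ≤ (B : ℝ) ^ r := by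
    have e1 : ((N : ℝ) ^ s) ^ r = Real.sqrt N := by
      rw [Real.sqrt_eq_rpow, ← Real.rpow_natCast, ← Real.rpow_mul hNpos.le, hs]
      congr 1
      field_simp
    rw [← e1]
    exact pow_le_pow_left₀ (by linarith) hB1 r
  have hAle : A.card ≤ 4 * M := by
    refine (card_filter_le _ _).trans ?_
    rw [Nat.card_Ioc]; omega
  have hMXle : 4 * M ≤ X := by
    have h1 : 4 * (M : ℝ) ≤ X := by nlinarith
    exact_mod_cast h1
  have hmem : ∀ a ∈ A, M < a ∧ a ≤ 4 * M ∧ a.Prime := by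
    intro a ha
    rw [hA, mem_filter, mem_Ioc] at ha
    exact ⟨ha.1.1, ha.1.2, ha.2⟩
  have hF : Complete N χ r B (2 * (r : ℝ)) :=
    Pool.Agent.Y165.HN.fam_all N χ hχ r B hr (by rw [Real.rpow_one]; exact hB2.trans ha)
  have hmain := bin' χ u A X M B r (2 * (r : ℝ)) hr (by positivity) (by exact_mod_cast hBone)
    hXpos' (by omega) hne (fun a ha => (hmem a ha).2.2)
    (fun a ha => (Nat.coprime_of_lt_prime (hmem a ha).2.2.ne_zero
      (lt_of_le_of_lt (hmem a ha).2.1 hMN) hp).symm)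
    (fun a ha => ⟨(hmem a ha).1.le, (hmem a ha).2.1⟩) hMXN hAle (hAle.trans hMXle) hBr hF
  -- the second term
  have hAX : δ * ((N : ℝ) ^ η * Real.sqrt N) / (256 * Real.log N) ≤ A.card * X := by
    have e1 : (N : ℝ) ^ (1 / 4 : ℝ) * (N : ℝ) ^ (1 / 4 + η) = (N : ℝ) ^ η * Real.sqrt N := by
      rw [Real.sqrt_eq_rpow, ← Real.rpow_add hNpos, ← Real.rpow_add hNpos]
      congr 1
      ring
    rw [← e1]
    have e2 : δ * (N : ℝ) ^ (1 / 4 : ℝ) / (256 * Real.log N) ≤ A.card := by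
      refine le_trans ?_ hcard'
      rw [div_le_div_iff₀ (by positivity) (by positivity)]
      nlinarith
    have e3 : 0 ≤ (N : ℝ) ^ (1 / 4 + η) := Real.rpow_nonneg hNpos.le _
    calc δ * ((N : ℝ) ^ (1 / 4 : ℝ) * (N : ℝ) ^ (1 / 4 + η)) / (256 * Real.log N)
        = (δ * (N : ℝ) ^ (1 / 4 : ℝ) / (256 * Real.log N)) * (N : ℝ) ^ (1 / 4 + η) := by ring
      _ ≤ A.card * X := mul_le_mul e2 hX1 e3 hcardpos.le
  have hsq : 0 < Real.sqrt N := Real.sqrt_pos.2 hNpos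
  have hNη : 0 < (N : ℝ) ^ η := Real.rpow_pos_of_pos hNpos _
  have hQ : 11 * ((r : ℝ) ^ (2 * r) + 2 * r) * Real.sqrt N / (A.card * X) ≤
      (δ / 2) ^ (2 * r) := by
    rw [div_le_iff₀ (by positivity)]
    have e1 : 11 * ((r : ℝ) ^ (2 * r) + 2 * r) * Real.sqrt N ≤
        (δ / 2) ^ (2 * r) * (δ * ((N : ℝ) ^ η * Real.sqrt N) / (256 * Real.log N)) := by
      rw [mul_div_assoc', le_div_iff₀ (by positivity)]
      have := mul_le_mul_of_nonneg_right hd hsq.le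
      nlinarith
    exact e1.trans (mul_le_mul_of_nonneg_left hAX (by positivity))
  have hQ0 : 0 ≤ 11 * ((r : ℝ) ^ (2 * r) + 2 * r) * Real.sqrt N / (A.card * X) := by
    positivity
  have hroot : (11 * ((r : ℝ) ^ (2 * r) + 2 * r) * Real.sqrt N / (A.card * X)) ^
      (1 / (2 * r : ℝ)) ≤ δ / 2 := by
    calc (11 * ((r : ℝ) ^ (2 * r) + 2 * r) * Real.sqrt N / (A.card * X)) ^
      (1 / (2 * r : ℝ)) ≤ ((δ / 2) ^ (2 * r)) ^ (1 / (2 * r : ℝ)) :=
          Real.rpow_le_rpow hQ0 hQ (by positivity)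
      _ = δ / 2 := by
          rw [← Real.rpow_natCast, ← Real.rpow_mul (by positivity)]
          have : ((2 * r : ℕ) : ℝ) * (1 / (2 * r : ℝ)) = 1 := by
            push_cast
            field_simp
          rw [this, Real.rpow_one]
  have hfirst : 2 * (4 * (M : ℝ)) * B ≤ δ * X / 4 := by linarith
  calc ‖SSh χ u X‖ ≤ _ := hmain
    _ ≤ δ * X / 4 + X * (δ / 2) := add_le_add hfirst (mul_le_mul_of_nonneg_left hroot hXpos.le)
    _ ≤ δ * X := by nlinarith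

/-- the Pólya–Vinogradov bound on arbitrary intervals -/
lemma pv_shift {N : ℕ} [NeZero N] (hN : 2 ≤ N) (χ : DirichletCharacter ℂ N) (hχ : χ ≠ 1)
    (u : ZMod N) (X : ℕ) : ‖SSh χ u X‖ ≤ 2 * VV N := by
  have h1 : SSh χ u X = ∑ n ∈ Icc 1 (u.val + X), χ (n : ZMod N) - ∑ n ∈ Icc 1 u.val, χ (n : ZMod N) := by
    have h2 : Icc 1 (u.val + X) = Icc 1 u.val ∪ Ioc u.val (u.val + X) := by
      ext x; simp only [mem_Icc, mem_union, mem_Ioc]; omega
    have h3 : Disjoint (Icc 1 u.val) (Ioc u.val (u.val + X)) := by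
      rw [disjoint_left]; intro x; simp only [mem_Icc, mem_Ioc]; omega
    rw [h2, sum_union h3, add_sub_cancel_left]
    unfold SSh
    refine sum_bij (fun m _ => u.val + m) ?_ ?_ ?_ ?_
    · intro m hm; rw [mem_Icc] at hm; rw [mem_Ioc]; omega
    · intro a _ b _ hab; omega
    · intro b hb; rw [mem_Ioc] at hb
      exact ⟨b - u.val, by rw [mem_Icc]; omega, by omega⟩
    · intro m _
      congr 1
      push_cast
      rw [ZMod.natCast_zmod_val]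
  rw [h1]
  refine (norm_sub_le _ _).trans ?_
  have := pv hN χ hχ (u.val + X)
  have := pv hN χ hχ u.val
  linarith

lemma SSh_triv {N : ℕ} [NeZero N] (χ : DirichletCharacter ℂ N) (u : ZMod N) (X : ℕ) :
    ‖SSh χ u X‖ ≤ X := by
  unfold SSh
  refine (norm_sum_le _ _).trans ?_
  refine (sum_le_sum fun m _ => χ.norm_le_one _).trans ?_
  rw [sum_const, Nat.card_Icc, nsmul_eq_mul, mul_one]
  simp

/-- **Burgess' bound** on arbitrary intervals, prime moduli. -/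
theorem burg_shift (η : ℝ) (hη : 0 < η) : ∃ κ : ℝ, 0 < κ ∧ κ ≤ η / 2 ∧ κ ≤ 1 / 100 ∧
    ∀ᶠ q : ℕ in atTop, q.Prime → ∀ [NeZero q], ∀ χ : DirichletCharacter ℂ q, χ ≠ 1 →
      ∀ u : ZMod q, ∀ X : ℕ, ‖SSh χ u X‖ ≤ (q : ℝ) ^ (-κ) * (X + (q : ℝ) ^ (1 / 4 + η)) := by
  set η1 : ℝ := η / 2 with hη1
  have hη10 : 0 < η1 := by positivity
  obtain ⟨r, hr⟩ := exists_nat_ge (1 / (2 * η1) + 1)
  have hr1 : (1 : ℝ) ≤ r := by
    have : 0 < 1 / (2 * η1) := by positivity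
    linarith
  have hr1' : 1 ≤ r := by exact_mod_cast hr1
  have hrη : 1 / (2 * (r : ℝ)) ≤ η1 := by
    rw [div_le_iff₀ (by positivity)]
    have h1 : 1 / (2 * η1) ≤ r := by linarith
    rw [div_le_iff₀ (by positivity)] at h1
    linarith
  set κ : ℝ := min (1 / 100) (min (η1 / (2 * (2 * r + 1))) (1 / (8 * (r : ℝ)))) with hκ
  have hκ0 : 0 < κ := by
    apply lt_min (by norm_num)
    apply lt_min <;> positivity
  have hκ8 : κ ≤ 1 / 100 := min_le_left _ _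
  have hκη : κ ≤ η1 / (2 * (2 * r + 1)) := (min_le_right _ _).trans (min_le_left _ _)
  have hκr : κ ≤ 1 / (8 * (r : ℝ)) := (min_le_right _ _).trans (min_le_right _ _)
  have hκη1 : κ ≤ η1 := by
    refine hκη.trans ?_
    rw [div_le_iff₀ (by positivity)]
    nlinarith
  refine ⟨κ, hκ0, hκη1, hκ8, ?_⟩
  obtain ⟨Y0, hY0⟩ := eventually_atTop.mp primes_interval2
  have tc : Tendsto (fun q : ℕ => (q : ℝ)) atTop atTop := tendsto_natCast_atTop_atTop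
  have f1 : ∀ᶠ x : ℝ in atTop, 128 * ((Y0 : ℝ) + 3) ≤ x ^ (1 / 8 : ℝ) :=
    (tendsto_rpow_atTop (by norm_num : (0 : ℝ) < 1 / 8)).eventually_ge_atTop _
  have f3 : ∀ᶠ x : ℝ in atTop, 11 * ((r : ℝ) ^ (2 * r) + 2 * r) * 256 * 2 ^ (2 * r) * Real.log x ≤
      x ^ (η1 / 2) := ev_log _ (by positivity) _
  have f4 : ∀ᶠ x : ℝ in atTop, 2 ≤ x ^ (1 / 2 : ℝ) :=
    (tendsto_rpow_atTop (by norm_num : (0 : ℝ) < 1 / 2)).eventually_ge_atTop _
  have f5 : ∀ᶠ x : ℝ in atTop, 16 * Real.log x ≤ x ^ (1 / (8 * (r : ℝ))) :=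
    ev_log _ (by positivity) _
  filter_upwards [tc.eventually f1, tc.eventually f3, tc.eventually f4, tc.eventually f5,
    eventually_ge_atTop 3] with q g1 g3 g4 g5 hq3
  intro hqp _ χ hχ u X
  haveI : Fact q.Prime := ⟨hqp⟩
  have hq3r : (3 : ℝ) ≤ q := by exact_mod_cast hq3
  have hq0 : (0 : ℝ) < q := by linarith
  have hq1 : (1 : ℝ) ≤ q := by linarith
  have hqκ : 0 < (q : ℝ) ^ (-κ) := Real.rpow_pos_of_pos hq0 _
  have hX0 : (0 : ℝ) ≤ X := Nat.cast_nonneg _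
  have hqe : 0 < (q : ℝ) ^ (1 / 4 + η) := Real.rpow_pos_of_pos hq0 _
  rcases lt_or_ge (X : ℝ) ((q : ℝ) ^ (1 / 4 + η1)) with hXs | hX1
  · -- trivial range
    refine (SSh_triv χ u X).trans ?_
    have e1 : (q : ℝ) ^ (1 / 4 + η1) ≤ (q : ℝ) ^ (-κ) * (q : ℝ) ^ (1 / 4 + η) := by
      rw [← Real.rpow_add hq0]
      apply Real.rpow_le_rpow_of_exponent_le hq1
      linarith
    nlinarith [mul_nonneg hqκ.le hX0]
  rcases lt_or_ge ((q : ℝ) * (q : ℝ) ^ (1 / (2 * (r : ℝ)))) ((X : ℝ) ^ 2) with hXl | hX2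
  · -- Pólya–Vinogradov range
    refine (pv_shift (by omega) χ hχ u X).trans ?_
    have hl1 : 1 ≤ Real.log q := by
      rw [Real.le_log_iff_exp_le hq0]
      exact Real.exp_one_lt_three.le.trans hq3r
    have e1 : 2 * VV q ≤ √(q : ℝ) * (q : ℝ) ^ (1 / (8 * (r : ℝ))) := by
      unfold VV
      have : 8 * (1 + Real.log q) ≤ (q : ℝ) ^ (1 / (8 * (r : ℝ))) := by linarith
      nlinarith [mul_le_mul_of_nonneg_left this (Real.sqrt_nonneg (q : ℝ))]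
    have e2 : √(q : ℝ) * (q : ℝ) ^ (1 / (4 * (r : ℝ))) ≤ X := by
      have h1 : (√(q : ℝ) * (q : ℝ) ^ (1 / (4 * (r : ℝ)))) ^ 2 =
          (q : ℝ) * (q : ℝ) ^ (1 / (2 * (r : ℝ))) := by
        rw [mul_pow, Real.sq_sqrt hq0.le]
        congr 1
        rw [← Real.rpow_natCast, ← Real.rpow_mul hq0.le]
        congr 1
        push_cast
        field_simp
        norm_num
      have h2 : (√(q : ℝ) * (q : ℝ) ^ (1 / (4 * (r : ℝ)))) ^ 2 ≤ (X : ℝ) ^ 2 := by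
        rw [h1]; exact hXl.le
      exact le_of_sq_le_sq h2 hX0
    have e3 : √(q : ℝ) * (q : ℝ) ^ (1 / (8 * (r : ℝ))) ≤ (q : ℝ) ^ (-κ) * X := by
      calc √(q : ℝ) * (q : ℝ) ^ (1 / (8 * (r : ℝ)))
          ≤ √(q : ℝ) * ((q : ℝ) ^ (-κ) * (q : ℝ) ^ (1 / (4 * (r : ℝ)))) := by
            apply mul_le_mul_of_nonneg_left _ (Real.sqrt_nonneg _)
            rw [← Real.rpow_add hq0]
            apply Real.rpow_le_rpow_of_exponent_le hq1
            have h1 : 1 / (4 * (r : ℝ)) = 2 * (1 / (8 * (r : ℝ))) := by field_simp; norm_num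
            linarith
        _ = (q : ℝ) ^ (-κ) * (√(q : ℝ) * (q : ℝ) ^ (1 / (4 * (r : ℝ)))) := by ring
        _ ≤ (q : ℝ) ^ (-κ) * X := mul_le_mul_of_nonneg_left e2 hqκ.le
    nlinarith [mul_nonneg hqκ.le hqe.le]
  -- Burgess range
  have hdl : (q : ℝ) ^ (1 / 8 : ℝ) ≤ (q : ℝ) ^ (-κ) * (q : ℝ) ^ (1 / 4 : ℝ) := by
    rw [← Real.rpow_add hq0]
    exact Real.rpow_le_rpow_of_exponent_le hq1 (by linarith)
  have hdel1 : (q : ℝ) ^ (-κ) ≤ 1 := Real.rpow_le_one_of_one_le_of_nonpos hq1 (by linarith)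
  have hfin : ‖SSh χ u X‖ ≤ (q : ℝ) ^ (-κ) * X := by
    apply core' ((q : ℝ) ^ (-κ)) η1 hqκ hdel1 hη10 r hr1' hrη Y0 (fun Y hY => hY0 Y hY) q hq3r hqp
    · have h1 : (q : ℝ) ^ (1 / (2 * (r : ℝ))) ≤ (q : ℝ) ^ (1 / 2 : ℝ) := by
        apply Real.rpow_le_rpow_of_exponent_le hq1
        apply one_div_le_one_div_of_le (by norm_num)
        linarith
      have h2 : (q : ℝ) ^ (1 / 2 : ℝ) * (q : ℝ) ^ (1 / 2 : ℝ) = q := by
        rw [← Real.rpow_add hq0]; norm_num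
      nlinarith
    · linarith
    · have h1 : ((q : ℝ) ^ (-κ) / 2) ^ (2 * r) * (q : ℝ) ^ (-κ) =
          (q : ℝ) ^ (-((2 * r + 1) * κ)) / 2 ^ (2 * r) := by
        rw [div_pow, ← Real.rpow_natCast ((q : ℝ) ^ (-κ)), ← Real.rpow_mul hq0.le,
          div_mul_eq_mul_div, ← Real.rpow_add hq0]
        congr 2
        push_cast
        ring
      rw [h1]
      have h2 : (q : ℝ) ^ (η1 / 2) ≤ (q : ℝ) ^ (-((2 * r + 1) * κ)) * (q : ℝ) ^ η1 := by
        rw [← Real.rpow_add hq0]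
        apply Real.rpow_le_rpow_of_exponent_le hq1
        have h3 : (2 * (r : ℝ) + 1) * κ ≤ (2 * r + 1) * (η1 / (2 * (2 * r + 1))) := by gcongr
        have h4 : (2 * (r : ℝ) + 1) * (η1 / (2 * (2 * r + 1))) = η1 / 2 := by field_simp
        linarith
      rw [div_mul_eq_mul_div, le_div_iff₀ (by positivity)]
      calc 11 * ((r : ℝ) ^ (2 * r) + 2 * r) * 256 * Real.log q * 2 ^ (2 * r)
          = 11 * ((r : ℝ) ^ (2 * r) + 2 * r) * 256 * 2 ^ (2 * r) * Real.log q := by ring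
        _ ≤ (q : ℝ) ^ (η1 / 2) := g3
        _ ≤ _ := h2
    · exact hχ
    · exact hX1
    · exact hX2
  nlinarith [mul_nonneg hqκ.le hqe.le]

end Pool.Agent.T2H22.LG.BS
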