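import Pool.Agent.T2H22.LG.L

set_option autoImplicit false
set_option linter.all false
set_option maxHeartbeats 1000000

/-!
# Real characters and the convolution with one
-/

namespace Pool.Agent.T2H22.LG.EX

open Finset Filter
open Pool.Agent.T2H22.LG.BS

section Z

variable {N : ℕ} [NeZero N]

/-- the real values of a character -/
noncomputable def cr (χ : DirichletCharacter ℂ N) (n : ℕ) : ℝ := (χ (n : ZMod N)).re

lemma chi_vals (χ : DirichletCharacter ℂ N) (h2 : χ ^ 2 = 1) (a : ZMod N) :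
    χ a = 0 ∨ χ a = 1 ∨ χ a = -1 := by
  by_cases ha : IsUnit a
  · right
    have h : (χ ^ 2) a = 1 := by rw [h2]; exact MulChar.one_apply ha
    rw [MulChar.pow_apply' χ (by norm_num)] at h
    have h3 : (χ a - 1) * (χ a + 1) = 0 := by linear_combination h
    rcases mul_eq_zero.mp h3 with h4 | h4
    · left; linear_combination h4
    · right; linear_combination h4
  · left
    exact χ.map_nonunit ha

lemma cr_eq (χ : DirichletCharacter ℂ N) (h2 : χ ^ 2 = 1) (n : ℕ) :
    ((cr χ n : ℝ) : ℂ) = χ (n : ZMod N) := by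
  unfold cr
  rcases chi_vals χ h2 (n : ZMod N) with h | h | h <;> rw [h] <;> simp

lemma cr_mul (χ : DirichletCharacter ℂ N) (h2 : χ ^ 2 = 1) (m n : ℕ) :
    cr χ (m * n) = cr χ m * cr χ n := by
  have h : ((cr χ (m * n) : ℝ) : ℂ) = ((cr χ m * cr χ n : ℝ) : ℂ) := by
    push_cast
    rw [cr_eq χ h2, cr_eq χ h2, cr_eq χ h2]
    push_cast
    rw [map_mul]
  exact_mod_cast h

lemma cr_one (χ : DirichletCharacter ℂ N) : cr χ 1 = 1 := by
  unfold cr; simp

lemma cr_vals (χ : DirichletCharacter ℂ N) (h2 : χ ^ 2 = 1) (n : ℕ) :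
    cr χ n = 0 ∨ cr χ n = 1 ∨ cr χ n = -1 := by
  unfold cr
  rcases chi_vals χ h2 (n : ZMod N) with h | h | h <;> rw [h] <;> simp

lemma cr_abs (χ : DirichletCharacter ℂ N) (h2 : χ ^ 2 = 1) (n : ℕ) : |cr χ n| ≤ 1 := by
  rcases cr_vals χ h2 n with h | h | h <;> rw [h] <;> simp

lemma cr_cop (χ : DirichletCharacter ℂ N) (h2 : χ ^ 2 = 1) (n : ℕ) (h : n.Coprime N) :
    cr χ n = 1 ∨ cr χ n = -1 := by
  have hu : IsUnit (n : ZMod N) := (ZMod.isUnit_iff_coprime n N).mpr h
  rcases cr_vals χ h2 n with h' | h' | h'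
  · exfalso
    have := cr_eq χ h2 n
    rw [h'] at this
    have h3 := (hu.map χ).ne_zero
    apply h3
    rw [← this]; simp
  · left; exact h'
  · right; exact h'

/-- the convolution `1 * χ` -/
noncomputable def rr (χ : DirichletCharacter ℂ N) (n : ℕ) : ℝ := ∑ d ∈ n.divisors, cr χ d

/-- the character as an arithmetic function -/
noncomputable def caf (χ : DirichletCharacter ℂ N) : ArithmeticFunction ℝ :=
  ⟨fun n => if n = 0 then 0 else cr χ n, by simp⟩

lemma caf_mul (χ : DirichletCharacter ℂ N) (h2 : χ ^ 2 = 1) : (caf χ).IsMultiplicative := by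
  rw [ArithmeticFunction.IsMultiplicative.iff_ne_zero]
  refine ⟨?_, ?_⟩
  · show (if (1 : ℕ) = 0 then (0 : ℝ) else cr χ 1) = 1
    rw [if_neg one_ne_zero, cr_one]
  · intro m n hm hn _
    show (if m * n = 0 then (0 : ℝ) else cr χ (m * n)) =
      (if m = 0 then (0 : ℝ) else cr χ m) * (if n = 0 then (0 : ℝ) else cr χ n)
    rw [if_neg (mul_ne_zero hm hn), if_neg hm, if_neg hn, cr_mul χ h2]

lemma rr_eq (χ : DirichletCharacter ℂ N) (n : ℕ) :
    rr χ n = (caf χ * (ArithmeticFunction.zeta : ArithmeticFunction ℝ)) n := by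
  rw [ArithmeticFunction.coe_mul_zeta_apply]
  unfold rr
  refine sum_congr rfl fun d hd => ?_
  show cr χ d = if d = 0 then (0 : ℝ) else cr χ d
  rw [if_neg (Nat.pos_of_mem_divisors hd).ne']

lemma rr_mul (χ : DirichletCharacter ℂ N) (h2 : χ ^ 2 = 1) (m n : ℕ) (h : m.Coprime n) :
    rr χ (m * n) = rr χ m * rr χ n := by
  rw [rr_eq, rr_eq, rr_eq]
  exact ((caf_mul χ h2).mul ArithmeticFunction.isMultiplicative_zeta.natCast).map_mul_of_coprime h

lemma cr_pow (χ : DirichletCharacter ℂ N) (h2 : χ ^ 2 = 1) (n k : ℕ) :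
    cr χ (n ^ k) = cr χ n ^ k := by
  induction k with
  | zero => simp [cr_one]
  | succ k ih => rw [pow_succ, cr_mul χ h2, ih, pow_succ]

lemma rr_pp (χ : DirichletCharacter ℂ N) (h2 : χ ^ 2 = 1) (q k : ℕ) (hq : q.Prime) :
    rr χ (q ^ k) = ∑ i ∈ range (k + 1), cr χ q ^ i := by
  unfold rr
  rw [Nat.sum_divisors_prime_pow hq]
  exact sum_congr rfl fun i _ => cr_pow χ h2 q i

lemma neg_geom (k : ℕ) : (∑ i ∈ range (k + 1), (-1 : ℝ) ^ i) = if Even k then 1 else 0 := by
  induction k with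
  | zero => simp
  | succ k ih =>
    rw [sum_range_succ, ih]
    by_cases h : Even k
    · rw [if_pos h, if_neg (by rw [Nat.even_add_one]; simpa using h), (h.add_one).neg_one_pow]; norm_num
    · rw [if_neg h, if_pos (by rw [Nat.even_add_one]; exact h)]
      have : Even (k + 1) := by rw [Nat.even_add_one]; exact h
      rw [this.neg_one_pow]; norm_num

lemma rr_pp_nonneg (χ : DirichletCharacter ℂ N) (h2 : χ ^ 2 = 1) (q k : ℕ) (hq : q.Prime) :
    0 ≤ rr χ (q ^ k) := by
  rw [rr_pp χ h2 q k hq]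
  rcases cr_vals χ h2 q with h | h | h
  · rw [h]; exact sum_nonneg fun i _ => by positivity
  · rw [h]; exact sum_nonneg fun i _ => by positivity
  · rw [h, neg_geom]; split_ifs <;> norm_num

lemma rr_nonneg (χ : DirichletCharacter ℂ N) (h2 : χ ^ 2 = 1) (n : ℕ) : 0 ≤ rr χ n := by
  induction n using Nat.recOnPrimeCoprime with
  | zero => unfold rr; simp
  | prime_pow q k hq => exact rr_pp_nonneg χ h2 q k hq
  | coprime a b _ _ hab iha ihb => rw [rr_mul χ h2 a b hab]; exact mul_nonneg iha ihb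

lemma rr_prime (χ : DirichletCharacter ℂ N) (h2 : χ ^ 2 = 1) (q : ℕ) (hq : q.Prime)
    (h : cr χ q = 1) : rr χ q = 2 := by
  have := rr_pp χ h2 q 1 hq
  rw [pow_one] at this
  rw [this, h]; norm_num

lemma rr_le (χ : DirichletCharacter ℂ N) (h2 : χ ^ 2 = 1) (n : ℕ) : rr χ n ≤ n.divisors.card := by
  unfold rr
  calc ∑ d ∈ n.divisors, cr χ d ≤ ∑ d ∈ n.divisors, (1 : ℝ) :=
        sum_le_sum fun d _ => (le_abs_self _).trans (cr_abs χ h2 d)
    _ = n.divisors.card := by simp

lemma rr_free (χ : DirichletCharacter ℂ N) (h2 : χ ^ 2 = 1) (n : ℕ) :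
    n ≠ 0 → (∀ q : ℕ, q.Prime → q ∣ n → cr χ q = -1) →
      rr χ n = 0 ∨ (rr χ n = 1 ∧ IsSquare n) := by
  induction n using Nat.recOnPrimeCoprime with
  | zero => intro h; exact absurd rfl h
  | prime_pow q k hq =>
    intro _ h
    rcases Nat.eq_zero_or_pos k with hk | hk
    · right
      rw [hk, pow_zero]
      refine ⟨?_, ⟨1, by norm_num⟩⟩
      unfold rr; simp [cr_one]
    · have hc := h q hq (dvd_pow_self q (by omega))
      rw [rr_pp χ h2 q k hq, hc, neg_geom]
      by_cases he : Even k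
      · right
        rw [if_pos he]
        refine ⟨rfl, ?_⟩
        exact he.isSquare_pow q
      · left; rw [if_neg he]
  | coprime a b _ _ hab iha ihb =>
    intro hne h
    rw [rr_mul χ h2 a b hab]
    have ha := iha (by rintro rfl; simp at hne) (fun q hq hd => h q hq (hd.mul_right b))
    have hb := ihb (by rintro rfl; simp at hne) (fun q hq hd => h q hq (hd.mul_left a))
    rcases ha with ha | ⟨ha, ha'⟩
    · left; rw [ha, zero_mul]
    rcases hb with hb | ⟨hb, hb'⟩
    · left; rw [hb, mul_zero]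
    right
    exact ⟨by rw [ha, hb, one_mul], ha'.mul hb'⟩

lemma lam_eq_cr (χ : DirichletCharacter ℂ N) (h2 : χ ^ 2 = 1) (n : ℕ) :
    n ≠ 0 → (∀ q : ℕ, q.Prime → q ∣ n → cr χ q = -1) → (lam n : ℝ) = cr χ n := by
  induction n using Nat.recOnPrimeCoprime with
  | zero => intro h; exact absurd rfl h
  | prime_pow q k hq =>
    intro _ h
    rcases Nat.eq_zero_or_pos k with hk | hk
    · rw [hk, pow_zero, cr_one]; simp [lam]
    · have hc := h q hq (dvd_pow_self q (by omega))
      rw [cr_pow χ h2, hc, lam_pow _ _ hq.ne_zero, lam_prime hq]; norm_num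
  | coprime a b _ _ hab iha ihb =>
    intro hne h
    have ha0 : a ≠ 0 := by rintro rfl; simp at hne
    have hb0 : b ≠ 0 := by rintro rfl; simp at hne
    have ha := iha ha0 (fun q hq hd => h q hq (hd.mul_right b))
    have hb := ihb hb0 (fun q hq hd => h q hq (hd.mul_left a))
    rw [cr_mul χ h2, ← ha, ← hb, lam_mul ha0 hb0]; push_cast; ring

end Z

end Pool.Agent.T2H22.LG.EX
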