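import Pool.Agent.T2H22.LG.M
import Pool.Agent.T2H22.LG.G

set_option autoImplicit false
set_option linter.all false
set_option maxHeartbeats 1000000

/-!
# The hyperbola method in residue classes
-/

namespace Pool.Agent.T2H22.LG.EX

open Finset Filter
open Pool.Agent.T2H22.LG.BS

section Z

variable {N : ℕ} [NeZero N]

/-- the sum of `1 * χ` in a residue class -/
noncomputable def RR (χ : DirichletCharacter ℂ N) (x m : ℕ) (a : ZMod m) : ℝ :=
  ∑ n ∈ (Icc 1 x).filter (fun n : ℕ => (n : ZMod m) = a), rr χ n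

lemma RR_split (χ : DirichletCharacter ℂ N) (x m D : ℕ) (a : ZMod m) (hD : 1 ≤ D) :
    RR χ x m a = ∑ d ∈ Icc 1 D, ∑ e ∈ (Icc 1 (x / d)).filter
        (fun e : ℕ => ((d * e : ℕ) : ZMod m) = a), cr χ d +
      ∑ e ∈ Icc 1 (x / D), ∑ d ∈ (Ioc D (x / e)).filter
        (fun d : ℕ => ((d * e : ℕ) : ZMod m) = a), cr χ d := by
  set S : Finset (ℕ × ℕ) := (Icc 1 x ×ˢ Icc 1 x).filter
    fun w => w.1 * w.2 ≤ x ∧ ((w.1 * w.2 : ℕ) : ZMod m) = a with hS
  have hA : RR χ x m a = ∑ w ∈ S, cr χ w.1 := by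
    unfold RR rr
    rw [sum_sigma']
    refine sum_bij' (fun s _ => (s.2, s.1 / s.2)) (fun w _ => ⟨w.1 * w.2, w.1⟩) ?_ ?_ ?_ ?_ ?_
    · rintro ⟨n, d⟩ hs
      simp only [mem_sigma, mem_filter, mem_Icc, Nat.mem_divisors] at hs
      obtain ⟨⟨⟨h1, h2⟩, h3⟩, h4, h5⟩ := hs
      have hd : 0 < d := Nat.pos_of_dvd_of_pos h4 h1
      simp only [hS, mem_filter, mem_product, mem_Icc]
      rw [Nat.mul_div_cancel' h4]
      have h6 : d ≤ n := Nat.le_of_dvd h1 h4
      have h7 : 1 ≤ n / d := Nat.div_pos h6 hd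
      have h8 : n / d ≤ n := Nat.div_le_self _ _
      exact ⟨⟨⟨hd, h6.trans h2⟩, h7, h8.trans h2⟩, h2, h3⟩
    · rintro ⟨d, e⟩ hw
      simp only [hS, mem_filter, mem_product, mem_Icc] at hw
      simp only [mem_sigma, mem_filter, mem_Icc, Nat.mem_divisors]
      have : 0 < d * e := Nat.mul_pos hw.1.1.1 hw.1.2.1
      exact ⟨⟨⟨this, hw.2.1⟩, hw.2.2⟩, dvd_mul_right _ _, this.ne'⟩
    · rintro ⟨n, d⟩ hs
      simp only [mem_sigma, mem_filter, mem_Icc, Nat.mem_divisors] at hs
      simp only [Nat.mul_div_cancel' hs.2.1]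
    · rintro ⟨d, e⟩ hw
      simp only [hS, mem_filter, mem_product, mem_Icc] at hw
      simp only [Nat.mul_div_cancel_left e (show 0 < d from hw.1.1.1)]
    · rintro ⟨n, d⟩ hs
      rfl
  rw [hA, ← sum_filter_add_sum_filter_not S (fun w => w.1 ≤ D)]
  congr 1
  · rw [sum_sigma']
    refine sum_bij' (fun w _ => ⟨w.1, w.2⟩) (fun s _ => (s.1, s.2)) ?_ ?_ ?_ ?_ ?_
    · rintro ⟨d, e⟩ hw
      simp only [hS, mem_filter, mem_product, mem_Icc] at hw
      simp only [mem_sigma, mem_filter, mem_Icc]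
      obtain ⟨⟨⟨⟨h1, h2⟩, h3, h4⟩, h5, h6⟩, h7⟩ := hw
      refine ⟨⟨h1, h7⟩, ⟨h3, ?_⟩, h6⟩
      rw [Nat.le_div_iff_mul_le (by omega)]
      rw [mul_comm]; exact h5
    · rintro ⟨d, e⟩ hs
      simp only [mem_sigma, mem_filter, mem_Icc] at hs
      simp only [hS, mem_filter, mem_product, mem_Icc]
      obtain ⟨⟨h1, h2⟩, ⟨h3, h4⟩, h5⟩ := hs
      rw [Nat.le_div_iff_mul_le (by omega)] at h4
      have h6 : d * e ≤ x := by rw [mul_comm]; exact h4
      have h7 : d ≤ d * e := Nat.le_mul_of_pos_right _ (by omega)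
      have h8 : e ≤ d * e := Nat.le_mul_of_pos_left _ (by omega)
      exact ⟨⟨⟨⟨h1, h7.trans h6⟩, h3, h8.trans h6⟩, h6, h5⟩, h2⟩
    · rintro ⟨d, e⟩ _; rfl
    · rintro ⟨d, e⟩ _; rfl
    · rintro ⟨d, e⟩ _; rfl
  · rw [sum_sigma']
    refine sum_bij' (fun w _ => ⟨w.2, w.1⟩) (fun s _ => (s.2, s.1)) ?_ ?_ ?_ ?_ ?_
    · rintro ⟨d, e⟩ hw
      simp only [hS, mem_filter, mem_product, mem_Icc] at hw
      simp only [mem_sigma, mem_filter, mem_Icc, mem_Ioc]
      obtain ⟨⟨⟨⟨h1, h2⟩, h3, h4⟩, h5, h6⟩, h7⟩ := hw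
      have h7' : D < d := by omega
      refine ⟨⟨h3, ?_⟩, ⟨h7', ?_⟩, h6⟩
      · rw [Nat.le_div_iff_mul_le (by omega)]
        calc e * D ≤ e * d := Nat.mul_le_mul_left _ h7'.le
          _ = d * e := mul_comm _ _
          _ ≤ x := h5
      · rw [Nat.le_div_iff_mul_le (by omega)]; exact h5
    · rintro ⟨e, d⟩ hs
      simp only [mem_sigma, mem_filter, mem_Icc, mem_Ioc] at hs
      simp only [hS, mem_filter, mem_product, mem_Icc]
      obtain ⟨⟨h1, h2⟩, ⟨h3, h4⟩, h5⟩ := hs
      rw [Nat.le_div_iff_mul_le (by omega)] at h4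
      have h7 : d ≤ d * e := Nat.le_mul_of_pos_right _ (by omega)
      have h8 : e ≤ d * e := Nat.le_mul_of_pos_left _ (by omega)
      exact ⟨⟨⟨⟨by omega, h7.trans h4⟩, h1, h8.trans h4⟩, h4, h5⟩, by omega⟩
    · rintro ⟨d, e⟩ _; rfl
    · rintro ⟨d, e⟩ _; rfl
    · rintro ⟨d, e⟩ _; rfl

/-- counting a residue class -/
lemma res_count (m : ℕ) (hm : 1 ≤ m) (b : ZMod m) (y : ℕ) :
    |((((Icc 1 y).filter (fun e : ℕ => (e : ZMod m) = b)).card : ℝ)) - (y : ℝ) / m| ≤ 1 := by
  haveI : NeZero m := ⟨by omega⟩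
  have h1 : (Icc 1 y).filter (fun e : ℕ => (e : ZMod m) = b) =
      (Ioc 0 y).filter (fun e : ℕ => e ≡ b.val [MOD m]) := by
    ext e
    simp only [mem_filter, mem_Icc, mem_Ioc]
    refine and_congr (by omega) ?_
    rw [← ZMod.natCast_eq_natCast_iff, ZMod.natCast_zmod_val]
  rw [h1]
  have h2 := Nat.Ioc_filter_modEq_card 0 y (show 0 < m by omega) b.val
  set C : ℕ := ((Ioc 0 y).filter (fun e : ℕ => e ≡ b.val [MOD m])).card with hC
  set α : ℚ := ((y : ℚ) - b.val) / m with hα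
  set β : ℚ := (((0 : ℕ) : ℚ) - b.val) / m with hβ
  have h3 : (C : ℤ) = max (⌊α⌋ - ⌊β⌋) 0 := h2
  have hmq : (0 : ℚ) < m := by exact_mod_cast (by omega : 0 < m)
  have hβα : β ≤ α := by
    rw [hα, hβ]
    apply div_le_div_of_nonneg_right _ hmq.le
    have : (0 : ℚ) ≤ y := Nat.cast_nonneg _
    push_cast; linarith
  have h4 : ⌊β⌋ ≤ ⌊α⌋ := Int.floor_le_floor hβα
  rw [max_eq_left (by linarith)] at h3
  have h5 : (C : ℚ) = (⌊α⌋ : ℚ) - ⌊β⌋ := by exact_mod_cast h3
  have h6 : α - β = (y : ℚ) / m := by rw [hα, hβ]; push_cast; ring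
  have h7 := Int.floor_le α
  have h8 := Int.lt_floor_add_one α
  have h9 := Int.floor_le β
  have h10 := Int.lt_floor_add_one β
  have h11 : |(C : ℚ) - (y : ℚ) / m| ≤ 1 := by
    rw [abs_le]; constructor <;> linarith
  have h12 : ((|(C : ℚ) - (y : ℚ) / m| : ℚ) : ℝ) ≤ ((1 : ℚ) : ℝ) := by exact_mod_cast h11
  push_cast at h12
  exact h12

/-- sums over a residue class in an interval are shifted sums -/
lemma ap_sum (χ : DirichletCharacter ℂ N) (h2 : χ ^ 2 = 1) (m : ℕ) (hm : 1 ≤ m)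
    (hmN : m.Coprime N) (D y : ℕ) (hD : m ≤ D) (v : ZMod m) (hy : D ≤ y) :
    ∃ u : ZMod N, ∃ K : ℕ, (K : ℝ) ≤ (y : ℝ) / m ∧
      |∑ d ∈ (Ioc D y).filter (fun d : ℕ => (d : ZMod m) = v), cr χ d| ≤ ‖SSh χ u K‖ := by
  haveI : NeZero m := ⟨by omega⟩
  set w : ℕ := (((D : ℕ) : ZMod m) - v).val with hw
  have hwm : w < m := ZMod.val_lt _
  set d0 : ℕ := D - w with hd0
  have hd0' : d0 + w = D := by omega
  have hd0v : ((d0 : ℕ) : ZMod m) = v := by
    have h1 : ((d0 : ℕ) : ZMod m) + (w : ZMod m) = (D : ZMod m) := by rw [← Nat.cast_add, hd0']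
    rw [hw, ZMod.natCast_zmod_val] at h1
    linear_combination h1
  have hd0D : d0 ≤ D := by omega
  have hd01 : D < d0 + m := by omega
  set K : ℕ := (y - d0) / m with hK
  have hmr : (0 : ℝ) < m := by exact_mod_cast (by omega : 0 < m)
  obtain ⟨mu, hmu⟩ : ∃ mu : ZMod N, (m : ZMod N) * mu = 1 := by
    have := (ZMod.isUnit_iff_coprime m N).mpr hmN
    obtain ⟨b, hb⟩ := this.exists_right_inv
    exact ⟨b, hb⟩
  refine ⟨(d0 : ZMod N) * mu, K, ?_, ?_⟩
  · calc (K : ℝ) ≤ ((y - d0 : ℕ) : ℝ) / m := Nat.cast_div_le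
      _ ≤ (y : ℝ) / m := by
          apply div_le_div_of_nonneg_right _ hmr.le
          exact_mod_cast Nat.sub_le _ _
  · have h1 : ∑ d ∈ (Ioc D y).filter (fun d : ℕ => (d : ZMod m) = v), cr χ d =
        ∑ k ∈ Icc 1 K, cr χ (d0 + m * k) := by
      symm
      refine sum_bij (fun k _ => d0 + m * k) ?_ ?_ ?_ ?_
      · intro k hk
        rw [mem_Icc] at hk
        rw [mem_filter, mem_Ioc]
        have h3 : m * k ≤ y - d0 := by
          calc m * k ≤ m * K := Nat.mul_le_mul_left _ hk.2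
            _ ≤ y - d0 := Nat.mul_div_le _ _
        have h4 : m ≤ m * k := Nat.le_mul_of_pos_right _ (by omega)
        refine ⟨⟨by omega, by omega⟩, ?_⟩
        push_cast
        rw [hd0v]; simp
      · intro a _ b _ hab
        have h5 : d0 + m * a = d0 + m * b := hab
        have : m * a = m * b := by omega
        exact Nat.eq_of_mul_eq_mul_left (by omega) this
      · intro d hd
        rw [mem_filter, mem_Ioc] at hd
        have h3 : m ∣ d - d0 := by
          rw [← ZMod.natCast_eq_zero_iff, Nat.cast_sub (by omega), hd.2, hd0v, sub_self]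
        obtain ⟨k, hk⟩ := h3
        refine ⟨k, ?_, by show d0 + m * k = d; omega⟩
        rw [mem_Icc]
        constructor
        · rcases Nat.eq_zero_or_pos k with h | h
          · exfalso; rw [h, mul_zero] at hk; omega
          · exact h
        · rw [hK, Nat.le_div_iff_mul_le (by omega), mul_comm, ← hk]; omega
      · intro k _; rfl
    rw [h1]
    have h3 : ((∑ k ∈ Icc 1 K, cr χ (d0 + m * k) : ℝ) : ℂ) =
        χ (m : ZMod N) * SSh χ ((d0 : ZMod N) * mu) K := by
      unfold SSh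
      rw [mul_sum]
      push_cast
      refine sum_congr rfl fun k _ => ?_
      rw [cr_eq χ h2, ← map_mul]
      congr 1
      push_cast
      linear_combination (-(d0 : ZMod N)) * hmu
    have h4 : |∑ k ∈ Icc 1 K, cr χ (d0 + m * k)| =
        ‖((∑ k ∈ Icc 1 K, cr χ (d0 + m * k) : ℝ) : ℂ)‖ := by
      rw [Complex.norm_real, Real.norm_eq_abs]
    rw [h4, h3, norm_mul]
    calc ‖χ (m : ZMod N)‖ * ‖SSh χ ((d0 : ZMod N) * mu) K‖
        ≤ 1 * ‖SSh χ ((d0 : ZMod N) * mu) K‖ :=
          mul_le_mul_of_nonneg_right (χ.norm_le_one _) (norm_nonneg _)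
      _ = _ := one_mul _

/-- truncated value at one, coprime to `m` -/
noncomputable def LL (χ : DirichletCharacter ℂ N) (m D : ℕ) : ℝ :=
  ∑ d ∈ (Icc 1 D).filter (fun d : ℕ => d.Coprime m), cr χ d / d

theorem hyper (χ : DirichletCharacter ℂ N) (h2 : χ ^ 2 = 1) (m : ℕ) (hm : 1 ≤ m)
    (hmN : m.Coprime N) (a : ZMod m) (ha : IsUnit a) (x D : ℕ) (hD : m ≤ D) (hx : 1 ≤ x)
    (δ T : ℝ) (hδ : 0 ≤ δ) (hT : 0 ≤ T) (hS : ∀ u : ZMod N, ∀ K : ℕ, ‖SSh χ u K‖ ≤ δ * (K + T)) :
    |RR χ x m a - (x : ℝ) / m * LL χ m D| ≤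
      2 * D + δ * ((x : ℝ) / m * (1 + Real.log x) + (x : ℝ) / D * T) := by
  haveI : NeZero m := ⟨by omega⟩
  have hmr : (0 : ℝ) < m := by exact_mod_cast (by omega : 0 < m)
  have hmr1 : (1 : ℝ) ≤ m := by exact_mod_cast hm
  have hDr : (0 : ℝ) < D := by exact_mod_cast (by omega : 0 < D)
  have hx0 : (0 : ℝ) ≤ x := Nat.cast_nonneg _
  rw [RR_split χ x m D a (by omega)]
  -- the first part
  have p1 : |∑ d ∈ Icc 1 D, ∑ e ∈ (Icc 1 (x / d)).filter
        (fun e : ℕ => ((d * e : ℕ) : ZMod m) = a), cr χ d - (x : ℝ) / m * LL χ m D| ≤ 2 * D := by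
    have e1 : (x : ℝ) / m * LL χ m D =
        ∑ d ∈ Icc 1 D, if d.Coprime m then (x : ℝ) / m * (cr χ d / d) else 0 := by
      unfold LL
      rw [mul_sum, sum_filter]
    rw [e1, ← sum_sub_distrib]
    refine (abs_sum_le_sum_abs _ _).trans ?_
    have e2 : ∀ d ∈ Icc 1 D, |∑ e ∈ (Icc 1 (x / d)).filter
        (fun e : ℕ => ((d * e : ℕ) : ZMod m) = a), cr χ d -
        (if d.Coprime m then (x : ℝ) / m * (cr χ d / d) else 0)| ≤ 2 := by
      intro d hd
      rw [mem_Icc] at hd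
      have hd0 : (0 : ℝ) < d := by exact_mod_cast hd.1
      by_cases hc : d.Coprime m
      · rw [if_pos hc]
        have hu : IsUnit (d : ZMod m) := (ZMod.isUnit_iff_coprime d m).mpr hc
        obtain ⟨w, hw⟩ := hu.exists_right_inv
        have e3 : (Icc 1 (x / d)).filter (fun e : ℕ => ((d * e : ℕ) : ZMod m) = a) =
            (Icc 1 (x / d)).filter (fun e : ℕ => (e : ZMod m) = w * a) := by
          apply filter_congr
          intro e _
          push_cast
          constructor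
          · intro h; rw [← h]; linear_combination (-(e : ZMod m)) * hw
          · intro h; rw [h]; linear_combination a * hw
        rw [e3, sum_const, nsmul_eq_mul]
        have e4 := res_count m hm (w * a) (x / d)
        set C : ℝ := (((Icc 1 (x / d)).filter (fun e : ℕ => (e : ZMod m) = w * a)).card : ℝ) with hC
        have e5 : C * cr χ d - (x : ℝ) / m * (cr χ d / d) = cr χ d * (C - (x : ℝ) / (d * m)) := by
          field_simp
        rw [e5, abs_mul]
        have e6 : |((x / d : ℕ) : ℝ) / m - (x : ℝ) / (d * m)| ≤ 1 := by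
          have f1 : ((x / d : ℕ) : ℝ) ≤ (x : ℝ) / d := Nat.cast_div_le
          have f2 : (x : ℝ) / d < ((x / d : ℕ) : ℝ) + 1 := by
            rw [div_lt_iff₀ hd0]
            have := Nat.lt_div_mul_add (a := x) (b := d) (by omega)
            have h3 : (x : ℝ) < ((x / d : ℕ) : ℝ) * d + d := by exact_mod_cast this
            linarith
          have f3 : (x : ℝ) / (d * m) = (x : ℝ) / d / m := by rw [div_div]
          rw [f3, ← sub_div, abs_div, abs_of_pos hmr, div_le_one hmr, abs_le]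
          constructor <;> linarith
        have e7 : |C - (x : ℝ) / (d * m)| ≤ 2 := by
          have := abs_add_le (C - ((x / d : ℕ) : ℝ) / m) (((x / d : ℕ) : ℝ) / m - (x : ℝ) / (d * m))
          rw [sub_add_sub_cancel] at this
          linarith
        calc |cr χ d| * |C - (x : ℝ) / (d * m)| ≤ 1 * 2 :=
              mul_le_mul (cr_abs χ h2 d) e7 (abs_nonneg _) zero_le_one
          _ = 2 := by norm_num
      · rw [if_neg hc, sub_zero]
        have e3 : (Icc 1 (x / d)).filter (fun e : ℕ => ((d * e : ℕ) : ZMod m) = a) = ∅ := by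
          rw [filter_eq_empty_iff]
          intro e _ h
          apply hc
          rw [← ZMod.isUnit_iff_coprime]
          push_cast at h
          rw [← h] at ha
          exact isUnit_of_mul_isUnit_left ha
        rw [e3, sum_empty, abs_zero]; norm_num
    refine (sum_le_sum e2).trans ?_
    rw [sum_const, Nat.card_Icc, nsmul_eq_mul, Nat.add_sub_cancel]
    linarith
  -- the second part
  have p2 : |∑ e ∈ Icc 1 (x / D), ∑ d ∈ (Ioc D (x / e)).filter
        (fun d : ℕ => ((d * e : ℕ) : ZMod m) = a), cr χ d| ≤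
      δ * ((x : ℝ) / m * (1 + Real.log x) + (x : ℝ) / D * T) := by
    refine (abs_sum_le_sum_abs _ _).trans ?_
    have e2 : ∀ e ∈ Icc 1 (x / D), |∑ d ∈ (Ioc D (x / e)).filter
        (fun d : ℕ => ((d * e : ℕ) : ZMod m) = a), cr χ d| ≤
        δ * ((x : ℝ) / m * (1 / e) + T) := by
      intro e he
      rw [mem_Icc] at he
      have he0 : (0 : ℝ) < e := by exact_mod_cast he.1
      have hDe : D ≤ x / e := by
        rw [Nat.le_div_iff_mul_le (by omega)]
        have := (Nat.le_div_iff_mul_le (by omega)).mp he.2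
        rw [mul_comm]; exact this
      by_cases hc : e.Coprime m
      · have hu : IsUnit (e : ZMod m) := (ZMod.isUnit_iff_coprime e m).mpr hc
        obtain ⟨w, hw⟩ := hu.exists_right_inv
        have e3 : (Ioc D (x / e)).filter (fun d : ℕ => ((d * e : ℕ) : ZMod m) = a) =
            (Ioc D (x / e)).filter (fun d : ℕ => (d : ZMod m) = w * a) := by
          apply filter_congr
          intro d _
          push_cast
          constructor
          · intro h; rw [← h]; linear_combination (-(d : ZMod m)) * hw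
          · intro h; rw [h]; linear_combination a * hw
        rw [e3]
        obtain ⟨u, K, hK, hsum⟩ := ap_sum χ h2 m hm hmN D (x / e) hD (w * a) hDe
        refine hsum.trans ((hS u K).trans ?_)
        apply mul_le_mul_of_nonneg_left _ hδ
        apply add_le_add_left
        refine hK.trans ?_
        have f1 : ((x / e : ℕ) : ℝ) ≤ (x : ℝ) / e := Nat.cast_div_le
        calc ((x / e : ℕ) : ℝ) / m ≤ (x : ℝ) / e / m := div_le_div_of_nonneg_right f1 hmr.le
          _ = (x : ℝ) / m * (1 / e) := by field_simp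
      · have e3 : (Ioc D (x / e)).filter (fun d : ℕ => ((d * e : ℕ) : ZMod m) = a) = ∅ := by
          rw [filter_eq_empty_iff]
          intro d _ h
          apply hc
          rw [← ZMod.isUnit_iff_coprime]
          push_cast at h
          rw [← h] at ha
          exact isUnit_of_mul_isUnit_right ha
        rw [e3, sum_empty, abs_zero]
        positivity
    refine (sum_le_sum e2).trans ?_
    rw [← mul_sum]
    apply mul_le_mul_of_nonneg_left _ hδ
    rw [sum_add_distrib, ← mul_sum, sum_const, Nat.card_Icc, nsmul_eq_mul]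
    apply add_le_add
    · apply mul_le_mul_of_nonneg_left _ (by positivity)
      have f1 : ∑ e ∈ Icc 1 (x / D), (1 : ℝ) / e ≤ ∑ e ∈ Icc 1 x, (1 : ℝ) / e := by
        apply sum_le_sum_of_subset_of_nonneg
        · apply Icc_subset_Icc le_rfl (Nat.div_le_self _ _)
        · intro i _ _; positivity
      exact f1.trans (sum_inv_le x)
    · apply mul_le_mul_of_nonneg_right _ hT
      simp only [Nat.add_sub_cancel]
      exact Nat.cast_div_le
  calc _ = |(∑ d ∈ Icc 1 D, ∑ e ∈ (Icc 1 (x / d)).filter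
        (fun e : ℕ => ((d * e : ℕ) : ZMod m) = a), cr χ d - (x : ℝ) / m * LL χ m D) +
        ∑ e ∈ Icc 1 (x / D), ∑ d ∈ (Ioc D (x / e)).filter
        (fun d : ℕ => ((d * e : ℕ) : ZMod m) = a), cr χ d| := by congr 1; ring
    _ ≤ _ := (abs_add_le _ _).trans (add_le_add p1 p2)

end Z

end Pool.Agent.T2H22.LG.EX
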