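import Pool.Agent.T2H22.LG.O
import Pool.Agent.H705R2.MLogB
import Pool.Agent.H843R2.KZ.T_LSER

set_option autoImplicit false
set_option linter.all false
set_option maxHeartbeats 1000000

/-!
# The mean value of `1 * χ`
-/

namespace Pool.Agent.T2H22.LG.EX

open Finset Filter
open Pool.Agent.T2H22.LG.BS

lemma spv : Pool.Agent.H843R2.KZ.S_PV := by
  intro q χ hq hχ a b
  haveI : NeZero q := ⟨by omega⟩
  have hV : (8 : ℝ) * √q * (1 + Real.log q) = 2 * VV q := by unfold VV; ring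
  rw [hV]
  rcases le_or_gt a b with hab | hab
  · have h1 : Icc 1 b = Icc 1 a ∪ Ioc a b := by
      ext x; simp only [mem_Icc, mem_union, mem_Ioc]; omega
    have h3 : Disjoint (Icc 1 a) (Ioc a b) := by
      rw [disjoint_left]; intro x; simp only [mem_Icc, mem_Ioc]; omega
    have h4 : ∑ e ∈ Ioc a b, χ (e : ZMod q) =
        ∑ e ∈ Icc 1 b, χ (e : ZMod q) - ∑ e ∈ Icc 1 a, χ (e : ZMod q) := by
      rw [h1, sum_union h3, add_sub_cancel_left]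
    rw [h4]
    refine (norm_sub_le _ _).trans ?_
    have := pv hq χ hχ a
    have := pv hq χ hχ b
    linarith
  · rw [Ioc_eq_empty (by omega), sum_empty, norm_zero]
    have := VV_nonneg hq
    linarith

lemma LL_one {N : ℕ} [NeZero N] (χ : DirichletCharacter ℂ N) (D : ℕ) :
    LL χ 1 D = ∑ d ∈ Icc 1 D, cr χ d / d := by
  unfold LL
  congr 1
  apply filter_true_of_mem
  intro d _
  exact Nat.coprime_one_right d

lemma LL_one_c {N : ℕ} [NeZero N] (χ : DirichletCharacter ℂ N) (h2 : χ ^ 2 = 1) (D : ℕ) :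
    ((LL χ 1 D : ℝ) : ℂ) = ∑ d ∈ Icc 1 D, χ (d : ZMod N) / (d : ℂ) := by
  rw [LL_one]
  push_cast
  refine sum_congr rfl fun d _ => ?_
  rw [cr_eq χ h2]

/-- the mean value of `1 * χ` up to `p` -/
noncomputable def L0 {N : ℕ} [NeZero N] (χ : DirichletCharacter ℂ N) : ℝ := RR χ N 1 0 / N

theorem analytic (η : ℝ) (hη : 0 < η) (hη1 : η ≤ 1 / 1000) : ∃ κ : ℝ, 0 < κ ∧ κ ≤ η / 2 ∧ κ ≤ 1 / 100 ∧
    ∀ᶠ p : ℕ in atTop, p.Prime → ∀ [NeZero p], ∀ χ : DirichletCharacter ℂ p, χ ≠ 1 → χ ^ 2 = 1 →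
      (∀ u : ZMod p, ∀ K : ℕ, ‖SSh χ u K‖ ≤ (p : ℝ) ^ (-κ) * (K + (p : ℝ) ^ (1 / 4 + η))) ∧
      (∀ D : ℕ, (p : ℝ) ^ (1 / 4 + η) ≤ D → (D : ℝ) * (p : ℝ) ^ κ ≤ p →
        |L0 χ - LL χ 1 D| ≤ (p : ℝ) ^ (-κ / 2)) ∧
      (∀ x : ℕ, 2 * (p : ℝ) ^ (1 / 4 + η) * (p : ℝ) ^ κ ≤ x → (x : ℝ) ≤ p →
        |RR χ x 1 0 - x * L0 χ| ≤ 2 * (p : ℝ) ^ (-κ / 2) * x) ∧
      (p : ℝ) ^ (-κ / 4) ≤ L0 χ := by
  obtain ⟨κ, hκ0, hκη, hκ1, hburg⟩ := burg_shift η hη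
  refine ⟨κ, hκ0, hκη, hκ1, ?_⟩
  obtain ⟨c, hc, hsieg⟩ := Pool.Agent.H705R2.MSW.siegel_all (ε := κ / 8) (by positivity)
  have tc : Tendsto (fun q : ℕ => (q : ℝ)) atTop atTop := tendsto_natCast_atTop_atTop
  have f1 : ∀ᶠ x : ℝ in atTop, 2 * Real.log x ≤ x ^ (κ / 2) := ev_log _ (by positivity) _
  have f2 : ∀ᶠ x : ℝ in atTop, 128 * Real.log x ≤ x ^ (2 / 5 : ℝ) := ev_log _ (by positivity) _
  have f3 : ∀ᶠ x : ℝ in atTop, 4 / c ≤ x ^ (κ / 8) :=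
    (tendsto_rpow_atTop (by positivity)).eventually_ge_atTop _
  have f4 : ∀ᶠ x : ℝ in atTop, (2 : ℝ) ≤ x ^ (κ / 4) :=
    (tendsto_rpow_atTop (by positivity)).eventually_ge_atTop _
  have f5 : ∀ᶠ x : ℝ in atTop, (2 : ℝ) ≤ x ^ (1 / 2 : ℝ) :=
    (tendsto_rpow_atTop (by norm_num : (0 : ℝ) < 1 / 2)).eventually_ge_atTop _
  filter_upwards [hburg, tc.eventually f1, tc.eventually f2, tc.eventually f3, tc.eventually f4,
    tc.eventually f5, tlog.eventually_ge_atTop 4, eventually_ge_atTop 3]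
    with p hb g1 g2 g3 g4 g5 hL4 hp3
  intro hp _ χ hχ h2
  have hp3r : (3 : ℝ) ≤ p := by exact_mod_cast hp3
  have hp0 : (0 : ℝ) < p := by linarith
  have hp1 : (1 : ℝ) ≤ p := by linarith
  have hS := hb hp χ hχ
  obtain ⟨T, hT⟩ : ∃ T : ℝ, T = (p : ℝ) ^ (1 / 4 + η) := ⟨_, rfl⟩
  obtain ⟨δ, hδ⟩ : ∃ δ : ℝ, δ = (p : ℝ) ^ (-κ) := ⟨_, rfl⟩
  obtain ⟨τ, hτ⟩ : ∃ τ : ℝ, τ = (p : ℝ) ^ (-κ / 2) := ⟨_, rfl⟩
  obtain ⟨L, hL⟩ : ∃ L : ℝ, L = Real.log (p : ℝ) := ⟨_, rfl⟩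
  rw [← hT, ← hδ] at hS
  rw [← hL] at g1 g2 hL4
  rw [← hT, ← hτ, ← hδ]
  have hT0 : 0 < T := by rw [hT]; exact Real.rpow_pos_of_pos hp0 _
  have hT1 : 1 ≤ T := by rw [hT]; exact Real.one_le_rpow hp1 (by linarith)
  have hδ0 : 0 < δ := by rw [hδ]; exact Real.rpow_pos_of_pos hp0 _
  have hτ0 : 0 < τ := by rw [hτ]; exact Real.rpow_pos_of_pos hp0 _
  have hpκ : 0 < (p : ℝ) ^ κ := Real.rpow_pos_of_pos hp0 _
  have hδκ : δ * (p : ℝ) ^ κ = 1 := by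
    rw [hδ, ← Real.rpow_add hp0]; simp
  have hδτ : δ * (4 + L) ≤ τ := by
    have e1 : τ = δ * (p : ℝ) ^ (κ / 2) := by
      rw [hτ, hδ, ← Real.rpow_add hp0]; congr 1; ring
    rw [e1]
    apply mul_le_mul_of_nonneg_left _ hδ0.le
    linarith
  -- the basic approximation
  have key : ∀ D x : ℕ, T ≤ D → (D : ℝ) * (p : ℝ) ^ κ ≤ x → (x : ℝ) ≤ p →
      |RR χ x 1 0 - x * LL χ 1 D| ≤ τ * x := by
    intro D x hD hDx hxp
    have hD0 : (0 : ℝ) < D := by linarith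
    have hD1 : 1 ≤ D := by
      have : (0 : ℝ) < D := hD0
      exact_mod_cast this
    have hx0 : (0 : ℝ) < x := lt_of_lt_of_le (by positivity) hDx
    have hx1 : 1 ≤ x := by exact_mod_cast hx0
    have h := hyper χ h2 1 le_rfl (Nat.coprime_one_left p) (0 : ZMod 1) (isUnit_of_subsingleton _) x D
      hD1 hx1 δ T hδ0.le hT0.le hS
    rw [Nat.cast_one, div_one] at h
    refine h.trans ?_
    have e1 : (D : ℝ) ≤ δ * x := by
      have := mul_le_mul_of_nonneg_left hDx hδ0.le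
      calc (D : ℝ) = D * (δ * (p : ℝ) ^ κ) := by rw [hδκ, mul_one]
        _ = δ * (D * (p : ℝ) ^ κ) := by ring
        _ ≤ δ * x := this
    have e2 : (x : ℝ) / D * T ≤ x := by
      rw [div_mul_eq_mul_div, div_le_iff₀ hD0]
      exact mul_le_mul_of_nonneg_left hD hx0.le
    have e3 : Real.log x ≤ L := by rw [hL]; exact Real.log_le_log hx0 hxp
    have e4 : (x : ℝ) * (1 + Real.log x) ≤ x * (1 + L) :=
      mul_le_mul_of_nonneg_left (by linarith) hx0.le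
    calc 2 * (D : ℝ) + δ * ((x : ℝ) * (1 + Real.log x) + (x : ℝ) / D * T)
        ≤ 2 * (δ * x) + δ * (x * (1 + L) + x) := by
          apply add_le_add (by linarith)
          exact mul_le_mul_of_nonneg_left (add_le_add e4 e2) hδ0.le
      _ = (δ * (4 + L)) * x := by ring
      _ ≤ τ * x := mul_le_mul_of_nonneg_right hδτ hx0.le
  have key2 : ∀ D : ℕ, T ≤ D → (D : ℝ) * (p : ℝ) ^ κ ≤ p → |L0 χ - LL χ 1 D| ≤ τ := by
    intro D hD hDp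
    have h := key D p hD hDp le_rfl
    unfold L0
    have e1 : RR χ p 1 0 / (p : ℝ) - LL χ 1 D = (RR χ p 1 0 - p * LL χ 1 D) / p := by
      field_simp
    rw [e1, abs_div, abs_of_pos hp0, div_le_iff₀ hp0]
    exact h
  refine ⟨hS, key2, ?_, ?_⟩
  · intro x hx hxp
    have hceil : (⌈T⌉₊ : ℝ) ≤ 2 * T := by
      have := (Nat.ceil_lt_add_one hT0.le).le
      linarith
    have hx0 : (0 : ℝ) < x := lt_of_lt_of_le (by positivity) hx
    have hDx : (⌈T⌉₊ : ℝ) * (p : ℝ) ^ κ ≤ x :=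
      (mul_le_mul_of_nonneg_right hceil hpκ.le).trans hx
    have h1 := key ⌈T⌉₊ x (Nat.le_ceil _) hDx hxp
    have h3 := key2 ⌈T⌉₊ (Nat.le_ceil _) (hDx.trans hxp)
    have e1 : RR χ x 1 0 - x * L0 χ = (RR χ x 1 0 - x * LL χ 1 ⌈T⌉₊) - x * (L0 χ - LL χ 1 ⌈T⌉₊) := by
      ring
    rw [e1]
    refine (abs_sub _ _).trans ?_
    rw [abs_mul, abs_of_pos hx0]
    nlinarith [mul_le_mul_of_nonneg_left h3 hx0.le]
  · -- the lower bound
    set D : ℕ := ⌊(p : ℝ) ^ (1 - κ)⌋₊ with hD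
    have hpk1 : (p : ℝ) ^ (1 - κ) * (p : ℝ) ^ κ = p := by
      rw [← Real.rpow_add hp0]; simp
    have hpk0 : 0 < (p : ℝ) ^ (1 - κ) := Real.rpow_pos_of_pos hp0 _
    have hD1 : (D : ℝ) ≤ (p : ℝ) ^ (1 - κ) := Nat.floor_le hpk0.le
    have h2T : 2 * T ≤ (p : ℝ) ^ (1 - κ) := by
      calc 2 * T ≤ (p : ℝ) ^ (1 / 2 : ℝ) * (p : ℝ) ^ (1 / 4 + η) := by
            rw [← hT]; exact mul_le_mul_of_nonneg_right g5 hT0.le
        _ = (p : ℝ) ^ (1 / 2 + (1 / 4 + η)) := by rw [← Real.rpow_add hp0]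
        _ ≤ (p : ℝ) ^ (1 - κ) := Real.rpow_le_rpow_of_exponent_le hp1 (by linarith)
    have hD2 : (p : ℝ) ^ (1 - κ) - 1 < D := Nat.sub_one_lt_floor _
    have hDhalf : (p : ℝ) ^ (1 - κ) / 2 ≤ D := by linarith
    have hTD : T ≤ D := by linarith
    have hD0 : (0 : ℝ) < D := by linarith
    have hDp : (D : ℝ) * (p : ℝ) ^ κ ≤ p := by
      calc (D : ℝ) * (p : ℝ) ^ κ ≤ (p : ℝ) ^ (1 - κ) * (p : ℝ) ^ κ :=
            mul_le_mul_of_nonneg_right hD1 hpκ.le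
        _ = p := hpk1
    have h3 := key2 D hTD hDp
    have h4 := Pool.Agent.H843R2.KZ.LSER_ok spv p χ hp.two_le hχ D (by exact_mod_cast hD0)
    rw [← LL_one_c χ h2] at h4
    have h5 := hsieg p χ h2 hχ
    have h6 : 32 * √(p : ℝ) * (1 + Real.log p) / D ≤ τ := by
      rw [← hL, div_le_iff₀ hD0]
      have e1 : τ * ((p : ℝ) ^ (1 - κ) / 2) = (p : ℝ) ^ (1 - κ - κ / 2) / 2 := by
        rw [hτ, mul_div_assoc', ← Real.rpow_add hp0]; congr 2; ring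
      have e2 : √(p : ℝ) * (p : ℝ) ^ (2 / 5 : ℝ) ≤ (p : ℝ) ^ (1 - κ - κ / 2) := by
        rw [Real.sqrt_eq_rpow, ← Real.rpow_add hp0]
        exact Real.rpow_le_rpow_of_exponent_le hp1 (by linarith)
      have e3 : 64 * (1 + L) ≤ (p : ℝ) ^ (2 / 5 : ℝ) := by linarith
      have e4 := mul_le_mul_of_nonneg_left e3 (Real.sqrt_nonneg (p : ℝ))
      have e5 := mul_le_mul_of_nonneg_left hDhalf hτ0.le
      nlinarith
    have h7 : ‖((LL χ 1 D : ℝ) : ℂ)‖ = |LL χ 1 D| := by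
      rw [Complex.norm_real, Real.norm_eq_abs]
    have h8 : ‖χ.LFunction 1‖ ≤ τ + |LL χ 1 D| := by
      rw [← h7]
      have := norm_add_le (χ.LFunction 1 - ((LL χ 1 D : ℝ) : ℂ)) ((LL χ 1 D : ℝ) : ℂ)
      rw [sub_add_cancel] at this
      linarith
    have h9 : |LL χ 1 D| ≤ τ + |L0 χ| := by
      have := abs_sub_abs_le_abs_sub (LL χ 1 D) (L0 χ)
      rw [abs_sub_comm] at this
      linarith
    have h10 : |L0 χ| = L0 χ := by
      apply abs_of_nonneg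
      unfold L0 RR
      exact div_nonneg (sum_nonneg fun n _ => rr_nonneg χ h2 n) hp0.le
    rw [h10] at h9
    have h11 : 4 * (p : ℝ) ^ (-κ / 4) ≤ c * (p : ℝ) ^ (-(κ / 8)) := by
      have e1 : (p : ℝ) ^ (-(κ / 8)) = (p : ℝ) ^ (κ / 8) * (p : ℝ) ^ (-κ / 4) := by
        rw [← Real.rpow_add hp0]; congr 1; ring
      rw [e1, ← mul_assoc]
      apply mul_le_mul_of_nonneg_right _ (Real.rpow_nonneg hp0.le _)
      rw [div_le_iff₀ hc] at g3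
      linarith
    have h12 : 2 * τ ≤ (p : ℝ) ^ (-κ / 4) := by
      have e1 : (p : ℝ) ^ (-κ / 4) = (p : ℝ) ^ (κ / 4) * τ := by
        rw [hτ, ← Real.rpow_add hp0]; congr 1; ring
      rw [e1]
      exact mul_le_mul_of_nonneg_right g4 hτ0.le
    have h13 : 0 < (p : ℝ) ^ (-κ / 4) := Real.rpow_pos_of_pos hp0 _
    linarith

end Pool.Agent.T2H22.LG.EX
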