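import Pool.Agent.T2H22.LG.P

set_option autoImplicit false
set_option linter.all false
set_option maxHeartbeats 1000000

/-!
# The primes at which the real character is one
-/

namespace Pool.Agent.T2H22.LG.EX

open Finset Filter
open Pool.Agent.T2H22.LG.BS

section Z

variable {N : ℕ} [NeZero N]

open Classical in
/-- primes up to `x` where `χ` is one -/
noncomputable def Qs (χ : DirichletCharacter ℂ N) (x : ℕ) : Finset ℕ :=
  (Icc 1 x).filter fun q => q.Prime ∧ cr χ q = 1

lemma mem_Qs (χ : DirichletCharacter ℂ N) (x q : ℕ) :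
    q ∈ Qs χ x ↔ (q ≤ x ∧ q.Prime ∧ cr χ q = 1) := by
  unfold Qs
  rw [mem_filter, mem_Icc]
  constructor
  · rintro ⟨⟨h1, h2⟩, h3⟩; exact ⟨h2, h3⟩
  · rintro ⟨h2, h3⟩; exact ⟨⟨h3.1.one_lt.le, h2⟩, h3⟩

lemma cr_prime_lt (χ : DirichletCharacter ℂ N) (h2 : χ ^ 2 = 1) (hN : N.Prime) (q : ℕ)
    (h0 : q ≠ 0) (hlt : q < N) : cr χ q = 1 ∨ cr χ q = -1 :=
  cr_cop χ h2 q (Nat.coprime_of_lt_prime h0 hlt hN).symm

lemma multiples (y d : ℕ) : ((Icc 1 y).filter (fun n => d ∣ n)).card = y / d := by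
  rw [← Nat.Ioc_filter_dvd_card_eq_div y d]
  congr 1

lemma sum_div_le (y : ℕ) : ∑ n ∈ Icc 1 y, (n.divisors.card : ℝ) ≤ y * (1 + Real.log y) := by
  have h1 : ∀ n ∈ Icc 1 y, (n.divisors.card : ℝ) = ∑ d ∈ Icc 1 y, if d ∣ n then (1 : ℝ) else 0 := by
    intro n hn
    rw [mem_Icc] at hn
    rw [← sum_filter, sum_const, nsmul_eq_mul, mul_one]
    congr 2
    ext d
    simp only [Nat.mem_divisors, mem_filter, mem_Icc]
    constructor
    · rintro ⟨h, _⟩
      exact ⟨⟨Nat.pos_of_dvd_of_pos h (by omega), (Nat.le_of_dvd (by omega) h).trans hn.2⟩, h⟩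
    · rintro ⟨_, h⟩; exact ⟨h, by omega⟩
  rw [sum_congr rfl h1, sum_comm]
  have h2 : ∀ d ∈ Icc 1 y, (∑ n ∈ Icc 1 y, if d ∣ n then (1 : ℝ) else 0) ≤ y * (1 / d) := by
    intro d hd
    rw [← sum_filter, sum_const, nsmul_eq_mul, mul_one, multiples]
    refine Nat.cast_div_le.trans (le_of_eq ?_)
    ring
  refine (sum_le_sum h2).trans ?_
  rw [← mul_sum]
  exact mul_le_mul_of_nonneg_left (sum_inv_le y) (Nat.cast_nonneg _)

lemma div_mul_le (q n : ℕ) (hq : q.Prime) : (q * n).divisors.card ≤ 2 * n.divisors.card := by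
  rw [Nat.divisors_mul]
  refine (card_mul_le).trans ?_
  rw [hq.divisors, card_pair hq.one_lt.ne]

lemma squares_card (x : ℕ) : ∀ S : Finset ℕ, (∀ n ∈ S, 1 ≤ n ∧ n ≤ x ∧ IsSquare n) →
    S.card ≤ Nat.sqrt x := by
  intro S hS
  have h : S ⊆ (Icc 1 (Nat.sqrt x)).image (fun k => k * k) := by
    intro n hn
    obtain ⟨h1, h2, ⟨k, hk⟩⟩ := hS n hn
    rw [mem_image]
    refine ⟨k, ?_, hk.symm⟩
    rw [mem_Icc]
    constructor
    · rcases Nat.eq_zero_or_pos k with h | h
      · rw [h] at hk; omega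
      · exact h
    · rw [Nat.le_sqrt, ← hk]; exact h2
  refine (card_le_card h).trans (card_image_le.trans ?_)
  rw [Nat.card_Icc]; omega

lemma RR_one (χ : DirichletCharacter ℂ N) (x : ℕ) : RR χ x 1 0 = ∑ n ∈ Icc 1 x, rr χ n := by
  unfold RR
  congr 1
  apply filter_true_of_mem
  intro n _
  exact Subsingleton.elim _ _

theorem RR_upper (χ : DirichletCharacter ℂ N) (h2 : χ ^ 2 = 1) (hN : N.Prime) (x : ℕ) (hx : x < N) :
    RR χ x 1 0 ≤ √(x : ℝ) + 2 * (x * (1 + Real.log x)) * ∑ q ∈ Qs χ x, (1 : ℝ) / q := by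
  classical
  rw [RR_one]
  have h1 : ∀ n ∈ Icc 1 x, rr χ n ≤ (if IsSquare n then (1 : ℝ) else 0) +
      ∑ q ∈ Qs χ x, if q ∣ n then (n.divisors.card : ℝ) else 0 := by
    intro n hn
    rw [mem_Icc] at hn
    have hnn : 0 ≤ ∑ q ∈ Qs χ x, if q ∣ n then (n.divisors.card : ℝ) else 0 :=
      sum_nonneg fun q _ => by split_ifs <;> positivity
    by_cases hq : ∀ q : ℕ, q.Prime → q ∣ n → cr χ q = -1
    · rcases rr_free χ h2 n (by omega) hq with h | ⟨h, h'⟩
      · rw [h]; split_ifs <;> linarith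
      · rw [h, if_pos h']; linarith
    · push_neg at hq
      obtain ⟨q, hqp, hqn, hq1⟩ := hq
      have hqx : q ≤ x := (Nat.le_of_dvd (by omega) hqn).trans hn.2
      have hc : cr χ q = 1 := (cr_prime_lt χ h2 hN q hqp.ne_zero (by omega)).resolve_right hq1
      have hmem : q ∈ Qs χ x := (mem_Qs χ x q).mpr ⟨hqx, hqp, hc⟩
      have h3 : (n.divisors.card : ℝ) ≤ ∑ q ∈ Qs χ x, if q ∣ n then (n.divisors.card : ℝ) else 0 := by
        calc (n.divisors.card : ℝ) = if q ∣ n then (n.divisors.card : ℝ) else 0 := by rw [if_pos hqn]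
          _ ≤ _ := single_le_sum (f := fun q => if q ∣ n then (n.divisors.card : ℝ) else 0)
              (fun i _ => by split_ifs <;> positivity) hmem
      have h4 := rr_le χ h2 n
      have h5 : (0 : ℝ) ≤ if IsSquare n then (1 : ℝ) else 0 := by split_ifs <;> norm_num
      linarith
  refine (sum_le_sum h1).trans ?_
  rw [sum_add_distrib, sum_comm]
  apply add_le_add
  · rw [← sum_filter, sum_const, nsmul_eq_mul, mul_one]
    refine le_trans ?_ (Real.nat_sqrt_le_real_sqrt)
    norm_cast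
    apply squares_card
    intro n hn
    rw [mem_filter, mem_Icc] at hn
    exact ⟨hn.1.1, hn.1.2, hn.2⟩
  · rw [mul_sum]
    apply sum_le_sum
    intro q hq
    rw [mem_Qs] at hq
    have hq0 : (0 : ℝ) < q := by exact_mod_cast hq.2.1.pos
    rw [← sum_filter]
    have h3 : ∑ n ∈ (Icc 1 x).filter (fun n => q ∣ n), (n.divisors.card : ℝ) =
        ∑ k ∈ Icc 1 (x / q), ((q * k).divisors.card : ℝ) := by
      symm
      refine sum_bij (fun k _ => q * k) ?_ ?_ ?_ ?_
      · intro k hk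
        rw [mem_Icc] at hk
        rw [mem_filter, mem_Icc]
        refine ⟨⟨Nat.mul_pos hq.2.1.pos hk.1, ?_⟩, dvd_mul_right _ _⟩
        rw [mul_comm]
        exact (Nat.le_div_iff_mul_le hq.2.1.pos).mp hk.2
      · intro a _ b _ hab
        exact Nat.eq_of_mul_eq_mul_left hq.2.1.pos hab
      · intro n hn
        rw [mem_filter, mem_Icc] at hn
        obtain ⟨k, hk⟩ := hn.2
        refine ⟨k, ?_, hk.symm⟩
        rw [mem_Icc]
        constructor
        · rcases Nat.eq_zero_or_pos k with h | h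
          · rw [h, mul_zero] at hk; omega
          · exact h
        · rw [Nat.le_div_iff_mul_le hq.2.1.pos, mul_comm, ← hk]; exact hn.1.2
      · intro k _; rfl
    rw [h3]
    have h4 : ∀ k ∈ Icc 1 (x / q), ((q * k).divisors.card : ℝ) ≤ 2 * (k.divisors.card : ℝ) := by
      intro k _
      exact_mod_cast div_mul_le q k hq.2.1
    refine (sum_le_sum h4).trans ?_
    rw [← mul_sum]
    have h5 := sum_div_le (x / q)
    rcases Nat.eq_zero_or_pos (x / q) with h0 | h0
    · exfalso
      have : 1 ≤ x / q := (Nat.le_div_iff_mul_le hq.2.1.pos).mpr (by omega)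
      omega
    have h0r : (0 : ℝ) < ((x / q : ℕ) : ℝ) := by exact_mod_cast h0
    have hxr : ((x / q : ℕ) : ℝ) ≤ (x : ℝ) / q := Nat.cast_div_le
    have hx0 : (0 : ℝ) < x := by
      have : 0 < x := lt_of_lt_of_le hq.2.1.pos hq.1
      exact_mod_cast this
    have hx1 : (1 : ℝ) ≤ x := by
      have : 0 < x := lt_of_lt_of_le hq.2.1.pos hq.1
      exact_mod_cast this
    have hlog : Real.log ((x / q : ℕ) : ℝ) ≤ Real.log x := by
      apply Real.log_le_log h0r
      exact_mod_cast Nat.div_le_self _ _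
    have hlx : 0 ≤ Real.log x := Real.log_nonneg hx1
    have h6 : ((x / q : ℕ) : ℝ) * (1 + Real.log ((x / q : ℕ) : ℝ)) ≤ (x : ℝ) / q * (1 + Real.log x) := by
      apply mul_le_mul hxr (by linarith) _ (by positivity)
      have : 0 ≤ Real.log ((x / q : ℕ) : ℝ) := Real.log_natCast_nonneg _
      linarith
    calc 2 * ∑ k ∈ Icc 1 (x / q), (k.divisors.card : ℝ) ≤ 2 * ((x : ℝ) / q * (1 + Real.log x)) := by
          linarith
      _ = 2 * (x * (1 + Real.log x)) * (1 / q) := by ring

lemma Qs_card (χ : DirichletCharacter ℂ N) (h2 : χ ^ 2 = 1) (x : ℕ) :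
    ((Qs χ x).card : ℝ) ≤ RR χ x 1 0 := by
  rw [RR_one]
  calc ((Qs χ x).card : ℝ) = ∑ q ∈ Qs χ x, (1 : ℝ) := by simp
    _ ≤ ∑ q ∈ Qs χ x, rr χ q := by
        apply sum_le_sum
        intro q hq
        rw [mem_Qs] at hq
        rw [rr_prime χ h2 q hq.2.1 hq.2.2]; norm_num
    _ ≤ _ := by
        apply sum_le_sum_of_subset_of_nonneg
        · unfold Qs; exact filter_subset _ _
        · intro i _ _; exact rr_nonneg χ h2 i

lemma Qs_mono (χ : DirichletCharacter ℂ N) {x y : ℕ} (h : x ≤ y) : Qs χ x ⊆ Qs χ y := by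
  intro q hq
  rw [mem_Qs] at hq ⊢
  exact ⟨hq.1.trans h, hq.2⟩

/-- Abel summation -/
lemma Qs_abel (χ : DirichletCharacter ℂ N) (z : ℕ) (ρ : ℝ) (hρ : 0 ≤ ρ) (hz : 1 ≤ z) :
    ∀ x : ℕ, z ≤ x → (∀ j : ℕ, z ≤ j → j ≤ x → ((Qs χ j).card : ℝ) ≤ ρ * j) →
      ∑ q ∈ Qs χ x, (1 : ℝ) / q ≤ ∑ q ∈ Qs χ z, (1 : ℝ) / q + (Qs χ x).card / x +
        ρ * (Real.log x - Real.log z) := by
  intro x hzx
  induction x, hzx using Nat.le_induction with
  | base =>
    intro _
    have : 0 ≤ ((Qs χ z).card : ℝ) / z := by positivity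
    linarith
  | succ x hx ih =>
    intro h
    have ih' := ih (fun j h1 h3 => h j h1 (by omega))
    have hx0 : (0 : ℝ) < x := by exact_mod_cast (by omega : 0 < x)
    have hx1 : (0 : ℝ) < ((x + 1 : ℕ) : ℝ) := by positivity
    have hcx := h x hx (by omega)
    have hlog : 1 / ((x + 1 : ℕ) : ℝ) ≤ Real.log ((x + 1 : ℕ) : ℝ) - Real.log x := by
      rw [← Real.log_div hx1.ne' hx0.ne']
      have := Real.one_sub_inv_le_log_of_pos (div_pos hx1 hx0)
      refine le_trans (le_of_eq ?_) this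
      rw [inv_div]; push_cast; field_simp; ring
    have hsplit : ∃ e : ℕ, (Qs χ (x + 1)).card = (Qs χ x).card + e ∧
        ∑ q ∈ Qs χ (x + 1), (1 : ℝ) / q = ∑ q ∈ Qs χ x, (1 : ℝ) / q + e / ((x + 1 : ℕ) : ℝ) := by
      by_cases hc : (x + 1).Prime ∧ cr χ (x + 1) = 1
      · refine ⟨1, ?_, ?_⟩
        · have : Qs χ (x + 1) = insert (x + 1) (Qs χ x) := by
            ext q
            rw [mem_insert, mem_Qs, mem_Qs]
            constructor
            · rintro ⟨h1, h3⟩
              rcases Nat.lt_or_ge x q with h4 | h4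
              · left; omega
              · right; exact ⟨h4, h3⟩
            · rintro (h1 | ⟨h1, h3⟩)
              · rw [h1]; exact ⟨le_rfl, hc⟩
              · exact ⟨by omega, h3⟩
          rw [this, card_insert_of_notMem]
          rw [mem_Qs]; omega
        · have : Qs χ (x + 1) = insert (x + 1) (Qs χ x) := by
            ext q
            rw [mem_insert, mem_Qs, mem_Qs]
            constructor
            · rintro ⟨h1, h3⟩
              rcases Nat.lt_or_ge x q with h4 | h4
              · left; omega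
              · right; exact ⟨h4, h3⟩
            · rintro (h1 | ⟨h1, h3⟩)
              · rw [h1]; exact ⟨le_rfl, hc⟩
              · exact ⟨by omega, h3⟩
          rw [this, sum_insert]
          · push_cast; ring
          · rw [mem_Qs]; omega
      · have : Qs χ (x + 1) = Qs χ x := by
          ext q
          rw [mem_Qs, mem_Qs]
          constructor
          · rintro ⟨h1, h3⟩
            rcases Nat.lt_or_ge x q with h4 | h4
            · exfalso
              have : q = x + 1 := by omega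
              rw [this] at h3
              exact hc h3
            · exact ⟨h4, h3⟩
          · rintro ⟨h1, h3⟩; exact ⟨by omega, h3⟩
        exact ⟨0, by rw [this, add_zero], by rw [this]; simp⟩
    obtain ⟨e, he1, he2⟩ := hsplit
    rw [he2, he1]
    push_cast
    have h5 : ((Qs χ x).card : ℝ) / x - (Qs χ x).card / (x + 1) ≤ ρ * (1 / ((x + 1 : ℕ) : ℝ)) := by
      have e1 : ((Qs χ x).card : ℝ) / x - (Qs χ x).card / (x + 1) =
          (Qs χ x).card / (x * (x + 1)) := by field_simp; ring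
      rw [e1]
      push_cast
      rw [mul_one_div, div_le_div_iff₀ (by positivity) (by positivity)]
      calc ((Qs χ x).card : ℝ) * (x + 1) ≤ (ρ * x) * (x + 1) :=
            mul_le_mul_of_nonneg_right hcx (by positivity)
        _ = ρ * (x * (x + 1)) := by ring
    have h6 := mul_le_mul_of_nonneg_left hlog hρ
    push_cast at h5 h6
    have h7 : (((Qs χ x).card : ℝ) + e) / (x + 1) = (Qs χ x).card / (x + 1) + e / (x + 1) := by
      rw [add_div]
    rw [h7]
    linarith

end Z

end Pool.Agent.T2H22.LG.EX
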