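import Pool.Agent.T2H22.LG.Q
import Pool.Agent.T2H22.LG.I

set_option autoImplicit false
set_option linter.all false
set_option maxHeartbeats 4000000

/-!
# The exceptional character of a bad prime
-/

namespace Pool.Agent.T2H22.LG.EX

open Finset Filter
open Pool.Agent.T2H22.LG.BS

lemma ev_lp (k : ℕ) (c C : ℝ) (hc : 0 < c) :
    ∀ᶠ x : ℝ in atTop, C * Real.log x ^ k ≤ x ^ c := by
  have h := ev_exp 1 c one_pos hc k C
  filter_upwards [Real.tendsto_log_atTop.eventually h, eventually_gt_atTop 0] with x hx hx0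
  rw [Real.rpow_one, Real.rpow_natCast] at hx
  rw [Real.rpow_def_of_pos hx0, mul_comm (Real.log x) c]
  exact hx

lemma ipl {L : ℝ} (hL : 4 ≤ L) {i j : ℕ} (hij : i < j) : 1 / L ^ j ≤ (1 / L ^ i) * (1 / 4) := by
  have hL0 : 0 < L := by linarith
  rw [div_mul_div_comm, div_le_div_iff₀ (by positivity) (by positivity)]
  calc 1 * (L ^ i * 4) ≤ 1 * (L ^ i * L) := by
        rw [one_mul, one_mul]; exact mul_le_mul_of_nonneg_left hL (pow_pos hL0 i).le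
    _ = L ^ (i + 1) := by ring
    _ ≤ L ^ j := pow_le_pow_right₀ (by linarith) hij
    _ = 1 * 1 * L ^ j := by ring

/-- everything we use about the exceptional character -/
structure Exc (η κ : ℝ) (p : ℕ) [NeZero p] (χ : DirichletCharacter ℂ p) (q0 : ℕ) : Prop where
  odd : χ (-1 : ZMod p) = -1
  sq : χ ^ 2 = 1
  burg : ∀ u : ZMod p, ∀ K : ℕ, ‖SSh χ u K‖ ≤ (p : ℝ) ^ (-κ) * (K + (p : ℝ) ^ (1 / 4 + η))
  q0p : q0.Prime
  q0c : cr χ q0 = 1
  q0le : (q0 : ℝ) ≤ (p : ℝ) ^ (1 / 4 + 2 * η)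
  q0ge : Real.log p ^ 8 ≤ q0
  ll : ∀ D : ℕ, (p : ℝ) ^ (1 / 4 + η) ≤ D → (D : ℝ) * (p : ℝ) ^ κ ≤ p → LL χ 1 D ≤ 1 / Real.log p ^ 6
  inv : ∀ x : ℕ, x ≤ p → ∑ q ∈ Qs χ x, (1 : ℝ) / q ≤ 1 / Real.log p ^ 4
  card : ∀ x : ℕ, x ≤ p → (p : ℝ) ^ (1 / 2 : ℝ) ≤ x → ((Qs χ x).card : ℝ) ≤ x / Real.log p ^ 6

theorem exc_exists (η : ℝ) (hη : 0 < η) (hη1 : η ≤ 1 / 1000) : ∃ κ : ℝ, 0 < κ ∧ κ ≤ η / 2 ∧
    κ ≤ 1 / 100 ∧ ∀ᶠ p : ℕ in atTop, p.Prime → ∀ [NeZero p], ¬ BothGood p →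
      ∃ χ : DirichletCharacter ℂ p, ∃ q0 : ℕ, Exc η κ p χ q0 := by
  obtain ⟨κ, hκ0, hκη, hκ1, han⟩ := analytic η hη hη1
  refine ⟨κ, hκ0, hκη, hκ1, ?_⟩
  have tc : Tendsto (fun q : ℕ => (q : ℝ)) atTop atTop := tendsto_natCast_atTop_atTop
  have f1 : ∀ᶠ x : ℝ in atTop, 100 * Real.log x ^ 12 ≤ x ^ (κ / 4) := ev_lp _ _ _ (by positivity)
  have f2 : ∀ᶠ x : ℝ in atTop, 100 * Real.log x ^ 12 ≤ x ^ (1 / 10 : ℝ) := ev_lp _ _ _ (by norm_num)
  have f3 : ∀ᶠ x : ℝ in atTop, (4 : ℝ) ≤ x ^ (η / 2) :=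
    (tendsto_rpow_atTop (by positivity)).eventually_ge_atTop _
  have f4 : ∀ᶠ x : ℝ in atTop, (8 : ℝ) ≤ x ^ (1 / 20 : ℝ) :=
    (tendsto_rpow_atTop (by norm_num)).eventually_ge_atTop _
  filter_upwards [han, real_char 10, tc.eventually f1, tc.eventually f2, tc.eventually f3,
    tc.eventually f4, tlog.eventually_ge_atTop 4, eventually_ge_atTop 3]
    with p hb hrc g1 g2 g3 g4 hL4 hp3
  intro hp _ hbad
  have hp3r : (3 : ℝ) ≤ p := by exact_mod_cast hp3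
  have hp0 : (0 : ℝ) < p := by linarith
  have hp1 : (1 : ℝ) ≤ p := by linarith
  have hPP : PPow p := ⟨p, 1, hp, by omega, by rw [pow_one]⟩
  obtain ⟨χ, hodd, h2, hsum⟩ := hrc hPP hbad
  have hχ : χ ≠ 1 := by
    rintro rfl
    rw [MulChar.one_apply (isUnit_one.neg)] at hodd
    norm_num at hodd
  obtain ⟨hS, hLL, hRR, hlow⟩ := hb hp χ hχ h2
  obtain ⟨T, hT⟩ : ∃ T : ℝ, T = (p : ℝ) ^ (1 / 4 + η) := ⟨_, rfl⟩
  obtain ⟨δ, hδ⟩ : ∃ δ : ℝ, δ = (p : ℝ) ^ (-κ) := ⟨_, rfl⟩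
  obtain ⟨τ, hτ⟩ : ∃ τ : ℝ, τ = (p : ℝ) ^ (-κ / 2) := ⟨_, rfl⟩
  obtain ⟨L, hL⟩ : ∃ L : ℝ, L = Real.log (p : ℝ) := ⟨_, rfl⟩
  rw [← hL] at g1 g2 hL4 hsum
  rw [← hT, ← hτ] at hLL hRR
  have hT0 : 0 < T := by rw [hT]; exact Real.rpow_pos_of_pos hp0 _
  have hτ0 : 0 < τ := by rw [hτ]; exact Real.rpow_pos_of_pos hp0 _
  have hpκ : 0 < (p : ℝ) ^ κ := Real.rpow_pos_of_pos hp0 _
  have hL0 : 0 < L := by linarith
  have hL1 : 1 ≤ L := by linarith
  have hτ4 : τ * (100 * L ^ 12) ≤ (p : ℝ) ^ (-κ / 4) := by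
    have e1 : (p : ℝ) ^ (-κ / 4) = τ * (p : ℝ) ^ (κ / 4) := by
      rw [hτ, ← Real.rpow_add hp0]; congr 1; ring
    rw [e1]
    exact mul_le_mul_of_nonneg_left g1 hτ0.le
  have hk4 : (p : ℝ) ^ (-κ / 4) ≤ 1 :=
    Real.rpow_le_one_of_one_le_of_nonpos hp1 (by linarith)
  have hτs : τ ≤ 1 / (100 * L ^ 12) := by
    rw [le_div_iff₀ (by positivity)]; linarith
  have h100 : 1 / (100 * L ^ 12) ≤ (1 / L ^ 8) * (1 / 100) := by
    rw [div_mul_div_comm, div_le_div_iff₀ (by positivity) (by positivity)]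
    have h3 : L ^ 8 ≤ L ^ 12 := pow_le_pow_right₀ hL1 (by norm_num)
    linarith
  -- the number z
  set z : ℕ := ⌊(p : ℝ) ^ (1 / 2 - 1 / 200 : ℝ)⌋₊ with hz
  have hz1 : (z : ℝ) ≤ (p : ℝ) ^ (1 / 2 - 1 / 200 : ℝ) :=
    Nat.floor_le (Real.rpow_nonneg hp0.le _)
  have hz2 : (p : ℝ) ^ (2 / 5 : ℝ) ≤ z := by
    have e1 : (p : ℝ) ^ (1 / 2 - 1 / 200 : ℝ) - 1 < z := Nat.sub_one_lt_floor _
    have e2 : (p : ℝ) ^ (2 / 5 : ℝ) * 2 ≤ (p : ℝ) ^ (1 / 2 - 1 / 200 : ℝ) := by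
      calc (p : ℝ) ^ (2 / 5 : ℝ) * 2 ≤ (p : ℝ) ^ (2 / 5 : ℝ) * (p : ℝ) ^ (1 / 20 : ℝ) :=
            mul_le_mul_of_nonneg_left (by linarith) (Real.rpow_nonneg hp0.le _)
        _ = (p : ℝ) ^ (2 / 5 + 1 / 20 : ℝ) := by rw [← Real.rpow_add hp0]
        _ ≤ _ := Real.rpow_le_rpow_of_exponent_le hp1 (by norm_num)
    have e3 : 1 ≤ (p : ℝ) ^ (2 / 5 : ℝ) := Real.one_le_rpow hp1 (by norm_num)
    linarith
  have hz25 : 1 ≤ (p : ℝ) ^ (2 / 5 : ℝ) := Real.one_le_rpow hp1 (by norm_num)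
  have hz0 : (0 : ℝ) < z := by linarith
  have hz1' : 1 ≤ z := by exact_mod_cast hz0
  have hzp : z < p := by
    have : (z : ℝ) < p := by
      refine lt_of_le_of_lt hz1 ?_
      calc (p : ℝ) ^ (1 / 2 - 1 / 200 : ℝ) < (p : ℝ) ^ (1 : ℝ) :=
            Real.rpow_lt_rpow_of_exponent_lt (by linarith) (by norm_num)
        _ = p := Real.rpow_one _
    exact_mod_cast this
  have hzpr : (z : ℝ) ≤ p := by exact_mod_cast hzp.le
  have hTz : 2 * T * (p : ℝ) ^ κ ≤ (p : ℝ) ^ (2 / 5 : ℝ) := by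
    calc 2 * T * (p : ℝ) ^ κ ≤ (p : ℝ) ^ (1 / 20 : ℝ) * T * (p : ℝ) ^ κ := by
          apply mul_le_mul_of_nonneg_right _ hpκ.le
          exact mul_le_mul_of_nonneg_right (by linarith) hT0.le
      _ = (p : ℝ) ^ (1 / 20 + (1 / 4 + η) + κ) := by
          rw [hT, ← Real.rpow_add hp0, ← Real.rpow_add hp0]
      _ ≤ (p : ℝ) ^ (2 / 5 : ℝ) := Real.rpow_le_rpow_of_exponent_le hp1 (by linarith)
  -- the primes below z
  have hsz : ∑ q ∈ Qs χ z, (1 : ℝ) / q ≤ 1 / (4 * L ^ 10) := by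
    have e1 : ∑ q ∈ Qs χ z, (4 : ℝ) * (1 / q) ≤
        ∑ l ∈ (Icc 1 z).filter (fun l => l.Prime ∧ l.Coprime p), ‖χ (l : ZMod p) + 1‖ ^ 2 / l := by
      calc ∑ q ∈ Qs χ z, (4 : ℝ) * (1 / q) ≤ ∑ q ∈ Qs χ z, ‖χ (q : ZMod p) + 1‖ ^ 2 / q := by
            apply sum_le_sum
            intro q hq
            rw [mem_Qs] at hq
            have h3 := cr_eq χ h2 q
            rw [hq.2.2] at h3
            rw [← h3]
            have : ‖((1 : ℝ) : ℂ) + 1‖ = 2 := by push_cast; norm_num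
            rw [this]
            apply le_of_eq; ring
        _ ≤ _ := by
            apply sum_le_sum_of_subset_of_nonneg
            · intro q hq
              rw [mem_Qs] at hq
              rw [mem_filter, mem_Icc]
              refine ⟨⟨hq.2.1.one_lt.le, hq.1⟩, hq.2.1, ?_⟩
              exact (Nat.coprime_of_lt_prime hq.2.1.ne_zero (by omega) hp).symm
            · intro i _ _; positivity
    rw [← mul_sum] at e1
    have e2 : 4 * ∑ q ∈ Qs χ z, (1 : ℝ) / q ≤ 1 / L ^ 10 := e1.trans hsum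
    have e3 : 1 / (4 * L ^ 10) = (1 / L ^ 10) / 4 := by rw [div_div, mul_comm]
    rw [e3]; linarith
  -- the mean value is small
  have hlz : Real.log z ≤ L := by rw [hL]; exact Real.log_le_log hz0 hzpr
  have hL0u : L0 χ ≤ 1 / L ^ 8 := by
    have e1 := RR_upper χ h2 hp z hzp
    have e2 := hRR z (hTz.trans hz2) hzpr
    have e3 : (z : ℝ) * L0 χ ≤ RR χ z 1 0 + 2 * τ * z := by
      have := (abs_le.mp e2).1; linarith
    have e4 : √(z : ℝ) ≤ z * (1 / (100 * L ^ 12)) := by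
      have h3 : 100 * L ^ 12 ≤ √(z : ℝ) := by
        apply Real.le_sqrt_of_sq_le
        calc (100 * L ^ 12) ^ 2 ≤ ((p : ℝ) ^ (1 / 10 : ℝ)) ^ 2 := pow_le_pow_left₀ (by positivity) g2 2
          _ = (p : ℝ) ^ (1 / 5 : ℝ) := by
              rw [← Real.rpow_natCast, ← Real.rpow_mul hp0.le]; norm_num
          _ ≤ (p : ℝ) ^ (2 / 5 : ℝ) := Real.rpow_le_rpow_of_exponent_le hp1 (by norm_num)
          _ ≤ z := hz2
      rw [mul_one_div, le_div_iff₀ (by positivity)]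
      calc √(z : ℝ) * (100 * L ^ 12) ≤ √(z : ℝ) * √(z : ℝ) :=
            mul_le_mul_of_nonneg_left h3 (Real.sqrt_nonneg _)
        _ = z := Real.mul_self_sqrt hz0.le
    have e5 : 2 * ((z : ℝ) * (1 + Real.log z)) * ∑ q ∈ Qs χ z, (1 : ℝ) / q ≤
        2 * (z * (2 * L)) * (1 / (4 * L ^ 10)) := by
      apply mul_le_mul _ hsz (sum_nonneg fun i _ => by positivity) (by positivity)
      apply mul_le_mul_of_nonneg_left _ (by norm_num)
      exact mul_le_mul_of_nonneg_left (by linarith) hz0.le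
    have e6 : 2 * ((z : ℝ) * (2 * L)) * (1 / (4 * L ^ 10)) = z * (1 / L ^ 9) := by
      field_simp; norm_num
    have e7 : (z : ℝ) * L0 χ ≤ z * (1 / L ^ 9 + 3 * (1 / (100 * L ^ 12))) := by
      have : 2 * τ * z ≤ 2 * (1 / (100 * L ^ 12)) * z := by
        apply mul_le_mul_of_nonneg_right _ hz0.le
        linarith
      rw [e6] at e5
      linarith
    have e8 : L0 χ ≤ 1 / L ^ 9 + 3 * (1 / (100 * L ^ 12)) := le_of_mul_le_mul_left e7 hz0
    refine e8.trans ?_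
    have e9 : 1 / L ^ 9 ≤ (1 / L ^ 8) * (1 / 4) := ipl hL4 (by norm_num)
    have e10 : 1 / (100 * L ^ 12) ≤ (1 / L ^ 8) * (1 / 100) := h100
    have e11 : 0 < 1 / L ^ 8 := by positivity
    linarith
  have hτ8 : τ ≤ (1 / L ^ 8) * (1 / 100) := hτs.trans h100
  have hL8 : 0 < 1 / L ^ 8 := by positivity
  have hcard : ∀ x : ℕ, z ≤ x → x ≤ p → ((Qs χ x).card : ℝ) ≤ 2 / L ^ 8 * x := by
    intro x hzx hxp
    have hxz : (z : ℝ) ≤ x := by exact_mod_cast hzx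
    have hx0 : (0 : ℝ) < x := by linarith
    have e2 := hRR x ((hTz.trans hz2).trans hxz) (by exact_mod_cast hxp)
    have e3 := (abs_le.mp e2).2
    have e4 := Qs_card χ h2 x
    have e5 : (x : ℝ) * L0 χ ≤ x * (1 / L ^ 8) := mul_le_mul_of_nonneg_left hL0u hx0.le
    have e6 : 2 * τ * x ≤ 2 * ((1 / L ^ 8) * (1 / 100)) * x := by
      apply mul_le_mul_of_nonneg_right _ hx0.le
      linarith
    have e7 : 0 < (1 / L ^ 8) * x := by positivity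
    have e8 : 2 / L ^ 8 * x = 2 * ((1 / L ^ 8) * x) := by ring
    rw [e8]
    linarith
  have hLp : ∀ i j : ℕ, i ≤ j → 1 / L ^ j ≤ 1 / L ^ i := by
    intro i j hij
    apply one_div_le_one_div_of_le (by positivity)
    exact pow_le_pow_right₀ hL1 hij
  -- existence of q0
  have hq0 : ∃ q0 : ℕ, q0.Prime ∧ cr χ q0 = 1 ∧ (q0 : ℝ) ≤ (p : ℝ) ^ (1 / 4 + 2 * η) := by
    by_contra hno
    push_neg at hno
    set x : ℕ := ⌊(p : ℝ) ^ (1 / 4 + 2 * η)⌋₊ with hx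
    have hx1 : (x : ℝ) ≤ (p : ℝ) ^ (1 / 4 + 2 * η) := Nat.floor_le (Real.rpow_nonneg hp0.le _)
    have hx2 : (p : ℝ) ^ (1 / 4 + 2 * η) - 1 < x := Nat.sub_one_lt_floor _
    have hone : 1 ≤ (p : ℝ) ^ (1 / 4 + 2 * η) := Real.one_le_rpow hp1 (by linarith)
    have e1 : 4 * T * (p : ℝ) ^ κ ≤ (p : ℝ) ^ (1 / 4 + 2 * η) := by
      calc 4 * T * (p : ℝ) ^ κ ≤ (p : ℝ) ^ (η / 2) * T * (p : ℝ) ^ κ := by
            apply mul_le_mul_of_nonneg_right _ hpκ.le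
            exact mul_le_mul_of_nonneg_right g3 hT0.le
        _ = (p : ℝ) ^ (η / 2 + (1 / 4 + η) + κ) := by
            rw [hT, ← Real.rpow_add hp0, ← Real.rpow_add hp0]
        _ ≤ _ := Real.rpow_le_rpow_of_exponent_le hp1 (by linarith)
    have hT1 : 1 ≤ T := by rw [hT]; exact Real.one_le_rpow hp1 (by linarith)
    have hk1 : 1 ≤ (p : ℝ) ^ κ := Real.one_le_rpow hp1 hκ0.le
    have e0 : 1 ≤ T * (p : ℝ) ^ κ := one_le_mul_of_one_le_of_one_le hT1 hk1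
    have hxlow : (p : ℝ) ^ (1 / 4 + 2 * η) / 2 ≤ x := by nlinarith
    have hx3 : 2 * T * (p : ℝ) ^ κ ≤ x := by nlinarith
    have hx0 : (0 : ℝ) < x := by nlinarith
    have hxp : (x : ℝ) < p := by
      refine lt_of_le_of_lt hx1 ?_
      calc (p : ℝ) ^ (1 / 4 + 2 * η) < (p : ℝ) ^ (1 : ℝ) :=
            Real.rpow_lt_rpow_of_exponent_lt (by linarith) (by linarith)
        _ = p := Real.rpow_one _
    have e2 := hRR x hx3 hxp.le
    have e3 := (abs_le.mp e2).1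
    have hem : Qs χ x = ∅ := by
      rw [eq_empty_iff_forall_notMem]
      intro q hq
      rw [mem_Qs] at hq
      have := hno q hq.2.1 hq.2.2
      have h3 : (q : ℝ) ≤ x := by exact_mod_cast hq.1
      linarith
    have e4 := RR_upper χ h2 hp x (by exact_mod_cast hxp)
    rw [hem, sum_empty, mul_zero, add_zero] at e4
    have e5 : (x : ℝ) * (p : ℝ) ^ (-κ / 4) ≤ x * L0 χ := mul_le_mul_of_nonneg_left hlow hx0.le
    have e6 : 4 * τ ≤ (p : ℝ) ^ (-κ / 4) := by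
      have h3 : 4 ≤ 100 * L ^ 12 := by nlinarith [one_le_pow₀ hL1 (n := 12)]
      calc 4 * τ = τ * 4 := by ring
        _ ≤ τ * (100 * L ^ 12) := mul_le_mul_of_nonneg_left h3 hτ0.le
        _ ≤ _ := hτ4
    have e7 : (x : ℝ) * (p : ℝ) ^ (-κ / 4) ≤ 2 * √(x : ℝ) := by
      have := mul_le_mul_of_nonneg_left e6 hx0.le
      nlinarith
    have hsx : 0 < √(x : ℝ) := Real.sqrt_pos.mpr hx0
    have e8 : √(x : ℝ) * (p : ℝ) ^ (-κ / 4) ≤ 2 := by
      have h3 : (x : ℝ) = √(x : ℝ) * √(x : ℝ) := (Real.mul_self_sqrt hx0.le).symm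
      have h4 : √(x : ℝ) * (√(x : ℝ) * (p : ℝ) ^ (-κ / 4)) ≤ √(x : ℝ) * 2 := by
        calc √(x : ℝ) * (√(x : ℝ) * (p : ℝ) ^ (-κ / 4)) = x * (p : ℝ) ^ (-κ / 4) := by
              rw [← mul_assoc, ← h3]
          _ ≤ 2 * √(x : ℝ) := e7
          _ = √(x : ℝ) * 2 := by ring
      exact le_of_mul_le_mul_left h4 hsx
    have e9 : (p : ℝ) ^ (1 / 10 : ℝ) ≤ √(x : ℝ) := by
      apply Real.le_sqrt_of_sq_le
      calc ((p : ℝ) ^ (1 / 10 : ℝ)) ^ 2 = (p : ℝ) ^ (1 / 5 : ℝ) := by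
            rw [← Real.rpow_natCast, ← Real.rpow_mul hp0.le]; norm_num
        _ ≤ (p : ℝ) ^ (1 / 4 + 2 * η) / (p : ℝ) ^ (1 / 20 : ℝ) := by
            rw [← Real.rpow_sub hp0]
            exact Real.rpow_le_rpow_of_exponent_le hp1 (by linarith)
        _ ≤ (p : ℝ) ^ (1 / 4 + 2 * η) / 2 := by
            apply div_le_div_of_nonneg_left (by linarith) (by norm_num) (by linarith)
        _ ≤ x := hxlow
    have e10 : (8 : ℝ) ≤ (p : ℝ) ^ (1 / 10 : ℝ) * (p : ℝ) ^ (-κ / 4) := by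
      rw [← Real.rpow_add hp0]
      refine g4.trans ?_
      exact Real.rpow_le_rpow_of_exponent_le hp1 (by linarith)
    have e11 := mul_le_mul_of_nonneg_right e9 (Real.rpow_nonneg hp0.le (-κ / 4))
    linarith
  obtain ⟨q0, hq0p, hq0c, hq0le⟩ := hq0
  have hq00 : (0 : ℝ) < q0 := by exact_mod_cast hq0p.pos
  have hq0z : q0 ≤ z := by
    have : (q0 : ℝ) ≤ z := by
      refine hq0le.trans (le_trans ?_ hz2)
      exact Real.rpow_le_rpow_of_exponent_le hp1 (by linarith)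
    exact_mod_cast this
  refine ⟨χ, q0, ⟨hodd, h2, hS, hq0p, hq0c, hq0le, ?_, ?_, ?_, ?_⟩⟩
  · rw [← hL]
    have e1 : (1 : ℝ) / q0 ≤ ∑ q ∈ Qs χ z, (1 : ℝ) / q :=
      single_le_sum (f := fun q : ℕ => (1 : ℝ) / q) (fun i _ => by positivity)
        ((mem_Qs χ z q0).mpr ⟨hq0z, hq0p, hq0c⟩)
    have e2 : (1 : ℝ) / q0 ≤ 1 / (4 * L ^ 10) := e1.trans hsz
    rw [div_le_div_iff₀ hq00 (by positivity)] at e2
    have e3 : L ^ 8 ≤ L ^ 10 := pow_le_pow_right₀ hL1 (by norm_num)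
    nlinarith [pow_pos hL0 10]
  · intro D hD1 hD2
    rw [← hL]
    rw [← hT] at hD1
    have e1 := (abs_le.mp (hLL D hD1 hD2)).1
    have e2 : 1 / L ^ 8 ≤ (1 / L ^ 6) * (1 / 4) := ipl hL4 (by norm_num)
    have e3 : 0 < 1 / L ^ 6 := by positivity
    linarith
  · intro x hxp
    rw [← hL]
    rcases le_or_gt x z with hxz | hxz
    · have e1 : ∑ q ∈ Qs χ x, (1 : ℝ) / q ≤ ∑ q ∈ Qs χ z, (1 : ℝ) / q :=
        sum_le_sum_of_subset_of_nonneg (Qs_mono χ hxz) (fun i _ _ => by positivity)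
      refine e1.trans (hsz.trans ?_)
      apply one_div_le_one_div_of_le (by positivity)
      have e3 : L ^ 4 ≤ L ^ 10 := pow_le_pow_right₀ hL1 (by norm_num)
      nlinarith [pow_pos hL0 10]
    · have hx0 : (0 : ℝ) < x := by
        have : (z : ℝ) < x := by exact_mod_cast hxz
        linarith
      have e1 := Qs_abel χ z (2 / L ^ 8) (by positivity) hz1' x hxz.le
        (fun j h1 h3 => hcard j h1 (h3.trans hxp))
      have e2 : ((Qs χ x).card : ℝ) / x ≤ 2 / L ^ 8 := by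
        rw [div_le_iff₀ hx0]; exact hcard x hxz.le hxp
      have e3 : Real.log x ≤ L := by
        rw [hL]; exact Real.log_le_log hx0 (by exact_mod_cast hxp)
      have e4 : 0 ≤ Real.log z := Real.log_natCast_nonneg _
      have e5 : 2 / L ^ 8 * (Real.log x - Real.log z) ≤ 2 / L ^ 8 * L := by
        apply mul_le_mul_of_nonneg_left _ (by positivity)
        linarith
      have e6 : 2 / L ^ 8 * L = 2 * (1 / L ^ 7) := by
        field_simp
      have e7 : 2 / L ^ 8 = 2 * (1 / L ^ 8) := by ring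
      have e8 : 1 / (4 * L ^ 10) ≤ 1 / L ^ 10 := by
        apply one_div_le_one_div_of_le (by positivity)
        nlinarith [pow_pos hL0 10]
      have e9 : 1 / L ^ 5 ≤ (1 / L ^ 4) * (1 / 4) := ipl hL4 (by norm_num)
      have e10 : 1 / L ^ 7 ≤ (1 / L ^ 5) * (1 / 4) := ipl hL4 (by norm_num)
      have e11 := hLp 7 8 (by norm_num)
      have e12 := hLp 7 10 (by norm_num)
      have e13 : 0 < 1 / L ^ 4 := by positivity
      rw [e7] at e2
      linarith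
  · intro x hxp hx
    rw [← hL]
    have hzx : z ≤ x := by
      have : (z : ℝ) ≤ x := by
        refine hz1.trans (le_trans ?_ hx)
        exact Real.rpow_le_rpow_of_exponent_le hp1 (by norm_num)
      exact_mod_cast this
    refine (hcard x hzx hxp).trans ?_
    have hx0 : (0 : ℝ) ≤ x := Nat.cast_nonneg _
    have e2 : 1 / L ^ 8 ≤ (1 / L ^ 6) * (1 / 4) := ipl hL4 (by norm_num)
    have e3 : 0 < 1 / L ^ 6 := by positivity
    have e4 : 2 / L ^ 8 ≤ 1 / L ^ 6 := by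
      have : 2 / L ^ 8 = 2 * (1 / L ^ 8) := by ring
      rw [this]; linarith
    calc 2 / L ^ 8 * x ≤ 1 / L ^ 6 * x := mul_le_mul_of_nonneg_right e4 hx0
      _ = x / L ^ 6 := by ring

end Pool.Agent.T2H22.LG.EX
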