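import Pool.Agent.T2H22.LG.R
import Pool.Agent.H692R2.USS.T1

set_option autoImplicit false
set_option linter.all false
set_option maxHeartbeats 1000000

/-!
# Counting lemmas for the final step
-/

namespace Pool.Agent.T2H22.LG.EX

open Finset Filter
open Pool.Agent.T2H22.LG.BS

section Z

variable {p : ℕ} [NeZero p]

open Classical in
/-- the integers up to `H` with `χ = - s` -/
noncomputable def M0 (χ : DirichletCharacter ℂ p) (H : ℕ) (s : ℝ) : Finset ℕ :=
  (Icc 1 H).filter fun m => cr χ m = -s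

open Classical in
/-- those with a prime factor where `χ` is one -/
noncomputable def MB (χ : DirichletCharacter ℂ p) (H : ℕ) : Finset ℕ :=
  (Icc 1 H).filter fun m => ∃ q ∈ Qs χ H, q ∣ m

open Classical in
/-- small prime factors of `p - q0 m` -/
noncomputable def MC (χ : DirichletCharacter ℂ p) (H q0 : ℕ) : Finset ℕ :=
  (Icc 1 H).filter fun m => ∃ q ∈ Qs χ H, q ∣ p - q0 * m

open Classical in
/-- large prime factors of `p - q0 m` -/
noncomputable def MD (χ : DirichletCharacter ℂ p) (H q0 : ℕ) : Finset ℕ :=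
  (Icc 1 H).filter fun m => ∃ q ∈ Qs χ p, H < q ∧ q ∣ p - q0 * m

lemma M0_card (χ : DirichletCharacter ℂ p) (h2 : χ ^ 2 = 1) (hp : p.Prime) (H : ℕ) (hH : H < p)
    (s : ℝ) (hs : s = 1 ∨ s = -1) (B : ℝ) (hB : ‖SSh χ 0 H‖ ≤ B) :
    (H - B) / 2 ≤ ((M0 χ H s).card : ℝ) := by
  classical
  have h1 : ((M0 χ H s).card : ℝ) = ∑ m ∈ Icc 1 H, (1 - s * cr χ m) / 2 := by
    unfold M0
    rw [card_filter]
    push_cast
    refine sum_congr rfl fun m hm => ?_
    rw [mem_Icc] at hm
    rcases cr_prime_lt χ h2 hp m (by omega) (by omega) with h | h <;> rcases hs with h' | h' <;>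
      rw [h, h'] <;> norm_num
  have h3 : ∑ m ∈ Icc 1 H, (1 - s * cr χ m) / 2 = (H - s * ∑ m ∈ Icc 1 H, cr χ m) / 2 := by
    rw [← sum_div, sum_sub_distrib, ← mul_sum]
    congr 2
    simp
  have h4 : ‖SSh χ 0 H‖ = |∑ m ∈ Icc 1 H, cr χ m| := by
    rw [← Real.norm_eq_abs, ← Complex.norm_real]
    congr 1
    unfold SSh
    push_cast
    refine sum_congr rfl fun m _ => ?_
    rw [cr_eq χ h2, zero_add]
  rw [h1, h3]
  rw [h4] at hB
  have h5 := abs_le.mp hB
  rcases hs with h' | h' <;> rw [h'] <;> linarith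

lemma MB_card (χ : DirichletCharacter ℂ p) (H : ℕ) :
    ((MB χ H).card : ℝ) ≤ H * ∑ q ∈ Qs χ H, (1 : ℝ) / q := by
  classical
  have h1 : MB χ H ⊆ (Qs χ H).biUnion fun q => (Icc 1 H).filter fun m => q ∣ m := by
    intro m hm
    unfold MB at hm
    rw [mem_filter] at hm
    obtain ⟨h3, q, h4, h5⟩ := hm
    rw [mem_biUnion]
    exact ⟨q, h4, mem_filter.mpr ⟨h3, h5⟩⟩
  have h6 : (MB χ H).card ≤ ∑ q ∈ Qs χ H, ((Icc 1 H).filter fun m => q ∣ m).card :=
    (card_le_card h1).trans card_biUnion_le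
  calc ((MB χ H).card : ℝ) ≤ ((∑ q ∈ Qs χ H, ((Icc 1 H).filter fun m => q ∣ m).card : ℕ) : ℝ) := by
        exact_mod_cast h6
    _ = ∑ q ∈ Qs χ H, (((Icc 1 H).filter fun m => q ∣ m).card : ℝ) := by push_cast; rfl
    _ ≤ ∑ q ∈ Qs χ H, (H : ℝ) * (1 / q) := by
        apply sum_le_sum
        intro q _
        rw [multiples]
        refine Nat.cast_div_le.trans (le_of_eq ?_)
        ring
    _ = _ := by rw [mul_sum]

lemma MC_card (χ : DirichletCharacter ℂ p) (hp : p.Prime) (H q0 : ℕ) (hq0 : q0.Prime) (hq0p : q0 < p)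
    (hH : q0 * H < p) :
    ((MC χ H q0).card : ℝ) ≤ H * ∑ q ∈ Qs χ H, (1 : ℝ) / q + (Qs χ H).card := by
  classical
  have h1 : MC χ H q0 ⊆ (Qs χ H).biUnion fun q => (Icc 1 H).filter fun m => q ∣ p - q0 * m := by
    intro m hm
    unfold MC at hm
    rw [mem_filter] at hm
    obtain ⟨h3, q, h4, h5⟩ := hm
    rw [mem_biUnion]
    exact ⟨q, h4, mem_filter.mpr ⟨h3, h5⟩⟩
  have h6 : (MC χ H q0).card ≤ ∑ q ∈ Qs χ H, ((Icc 1 H).filter fun m => q ∣ p - q0 * m).card :=
    (card_le_card h1).trans card_biUnion_le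
  calc ((MC χ H q0).card : ℝ) ≤
      ((∑ q ∈ Qs χ H, ((Icc 1 H).filter fun m => q ∣ p - q0 * m).card : ℕ) : ℝ) := by
        exact_mod_cast h6
    _ = ∑ q ∈ Qs χ H, (((Icc 1 H).filter fun m => q ∣ p - q0 * m).card : ℝ) := by push_cast; rfl
    _ ≤ ∑ q ∈ Qs χ H, ((H : ℝ) * (1 / q) + 1) := by
        apply sum_le_sum
        intro q hq
        rw [mem_Qs] at hq
        have hmp : ∀ m ∈ Icc 1 H, q0 * m < p := by
          intro m hm
          rw [mem_Icc] at hm
          exact lt_of_le_of_lt (Nat.mul_le_mul_left _ hm.2) hH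
        by_cases hqq : q = q0
        · have : (Icc 1 H).filter (fun m => q ∣ p - q0 * m) = ∅ := by
            rw [filter_eq_empty_iff]
            intro m hm hd
            rw [hqq] at hd
            have h7 : q0 ∣ p := by
              have := (Nat.dvd_add_iff_left (m := p - q0 * m) (n := q0 * m) (dvd_mul_right q0 m)).mp hd
              rwa [Nat.sub_add_cancel (hmp m hm).le] at this
            have := (Nat.prime_dvd_prime_iff_eq hq0 hp).mp h7
            omega
          rw [this, card_empty]; push_cast; positivity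
        · have hcop : q0.Coprime q := (Nat.coprime_primes hq0 hq.2.1).mpr (Ne.symm hqq)
          haveI : NeZero q := ⟨hq.2.1.ne_zero⟩
          have hu : IsUnit (q0 : ZMod q) := (ZMod.isUnit_iff_coprime q0 q).mpr hcop
          obtain ⟨w, hw⟩ := hu.exists_right_inv
          have h7 : (Icc 1 H).filter (fun m => q ∣ p - q0 * m) ⊆
              (Icc 1 H).filter (fun m : ℕ => (m : ZMod q) = (p : ZMod q) * w) := by
            intro m hm
            rw [mem_filter] at hm ⊢
            refine ⟨hm.1, ?_⟩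
            have h8 := (ZMod.natCast_eq_zero_iff _ _).mpr hm.2
            rw [Nat.cast_sub (hmp m hm.1).le] at h8
            push_cast at h8
            linear_combination (-(m : ZMod q)) * hw - w * h8
          have h9 := res_count q hq.2.1.one_lt.le ((p : ZMod q) * w) H
          have h10 := (abs_le.mp h9).2
          have h11 : (((Icc 1 H).filter (fun m => q ∣ p - q0 * m)).card : ℝ) ≤
              (((Icc 1 H).filter (fun m : ℕ => (m : ZMod q) = (p : ZMod q) * w)).card : ℝ) := by
            exact_mod_cast card_le_card h7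
          have h12 : (H : ℝ) * (1 / q) = (H : ℝ) / q := by ring
          rw [h12]; linarith
    _ = _ := by rw [sum_add_distrib, mul_sum]; simp

open Classical in
/-- the primes `q ≤ p / t` with `q t ≡ p` mod `q0` -/
noncomputable def QT (χ : DirichletCharacter ℂ p) (q0 t : ℕ) : Finset ℕ :=
  (Qs χ (p / t)).filter fun q => ((q * t : ℕ) : ZMod q0) = (p : ZMod q0)

lemma MD_card (χ : DirichletCharacter ℂ p) (hp : p.Prime) (H q0 : ℕ) (hq0 : q0.Prime)
    (hH : H = (p - 1) / q0) :
    (MD χ H q0).card ≤ ∑ t ∈ Icc 1 (q0 - 1), (QT χ q0 t).card := by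
  classical
  have h1 : MD χ H q0 ⊆ (Icc 1 (q0 - 1)).biUnion fun t =>
      (QT χ q0 t).image fun q => (p - q * t) / q0 := by
    intro m hm
    unfold MD at hm
    rw [mem_filter, mem_Icc] at hm
    obtain ⟨h3, q, h4, h5, t, ht⟩ := hm
    rw [mem_Qs] at h4
    have hp2 := hp.two_le
    have hqpos : 0 < q0 := hq0.pos
    have h6 : q0 * m ≤ p - 1 := by
      calc q0 * m ≤ q0 * H := Nat.mul_le_mul_left _ h3.2
        _ ≤ p - 1 := by rw [hH]; exact Nat.mul_div_le _ _
    have h7 : p - 1 < q0 * (H + 1) := by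
      rw [hH, mul_add, mul_one]
      have := Nat.div_add_mod (p - 1) q0
      have := Nat.mod_lt (p - 1) hqpos
      omega
    have h8 : p ≤ q0 * q := by
      have : q0 * (H + 1) ≤ q0 * q := Nat.mul_le_mul_left _ h5
      omega
    have ht0 : 0 < t := by
      rcases Nat.eq_zero_or_pos t with h | h
      · rw [h, mul_zero] at ht; omega
      · exact h
    have hm0 : 0 < q0 * m := Nat.mul_pos hqpos h3.1
    have htq : t < q0 := by
      by_contra hcon
      push_neg at hcon
      have : q * q0 ≤ q * t := Nat.mul_le_mul_left _ hcon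
      have h9 : q * q0 = q0 * q := mul_comm _ _
      omega
    rw [mem_biUnion]
    refine ⟨t, by rw [mem_Icc]; omega, ?_⟩
    rw [mem_image]
    refine ⟨q, ?_, ?_⟩
    · unfold QT
      rw [mem_filter, mem_Qs]
      refine ⟨⟨?_, h4.2⟩, ?_⟩
      · rw [Nat.le_div_iff_mul_le ht0]; omega
      · rw [← ht, Nat.cast_sub (by omega)]
        push_cast
        simp
    · have : p - q * t = q0 * m := by omega
      show (p - q * t) / q0 = m
      rw [this, Nat.mul_div_cancel_left _ hqpos]
  refine (card_le_card h1).trans (card_biUnion_le.trans ?_)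
  exact sum_le_sum fun t _ => card_image_le

lemma QT_sieve (χ : DirichletCharacter ℂ p) (q0 t : ℕ) (hq0 : q0.Prime) (ht : 1 ≤ t) (htq : t < q0) :
    ((QT χ q0 t).card : ℝ) ≤ 44 * ((p / t / q0 + 1 : ℕ) : ℝ) / Real.log ((p / t / q0 + 1 : ℕ) : ℝ) ∨
      p / t / q0 = 0 := by
  classical
  rcases Nat.eq_zero_or_pos (p / t / q0) with h0 | h0
  · right; exact h0
  left
  haveI : NeZero q0 := ⟨hq0.ne_zero⟩
  set K : ℕ := p / t / q0 + 1 with hK
  have hcop : t.Coprime q0 := (Nat.coprime_of_lt_prime (by omega) htq hq0).symm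
  have hu : IsUnit (t : ZMod q0) := (ZMod.isUnit_iff_coprime t q0).mpr hcop
  obtain ⟨w, hw⟩ := hu.exists_right_inv
  set v : ℕ := ((p : ZMod q0) * w).val with hv
  have h1 : (QT χ q0 t).card ≤ ((range K).filter fun k => (v + k * q0).Prime).card := by
    apply card_le_card_of_injOn (fun q => q / q0)
    · intro q hq
      rw [Finset.mem_coe] at hq
      unfold QT at hq
      rw [mem_filter, mem_Qs] at hq
      obtain ⟨⟨h3, h4, h5⟩, h6⟩ := hq
      rw [Finset.mem_coe, mem_filter, mem_range]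
      have h7 : (q : ZMod q0) = (p : ZMod q0) * w := by
        push_cast at h6
        linear_combination w * h6 - (q : ZMod q0) * hw
      have h8 : q % q0 = v := by
        rw [hv, ← h7, ZMod.val_natCast]
      refine ⟨?_, ?_⟩
      · rw [hK]; exact Nat.lt_succ_of_le (Nat.div_le_div_right h3)
      · have h9 : v + q / q0 * q0 = q := by
          rw [← h8, mul_comm]; exact Nat.mod_add_div q q0
        show (v + q / q0 * q0).Prime
        rw [h9]; exact h4
    · intro a ha b hb hab
      rw [Finset.mem_coe] at ha hb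
      unfold QT at ha hb
      rw [mem_filter, mem_Qs] at ha hb
      have ha7 : (a : ZMod q0) = (p : ZMod q0) * w := by
        have h6 := ha.2
        push_cast at h6
        linear_combination w * h6 - (a : ZMod q0) * hw
      have hb7 : (b : ZMod q0) = (p : ZMod q0) * w := by
        have h6 := hb.2
        push_cast at h6
        linear_combination w * h6 - (b : ZMod q0) * hw
      have ha8 : a % q0 = v := by rw [hv, ← ha7, ZMod.val_natCast]
      have hb8 : b % q0 = v := by rw [hv, ← hb7, ZMod.val_natCast]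
      have e1 := Nat.mod_add_div a q0
      have e2 := Nat.mod_add_div b q0
      have e3 : a / q0 = b / q0 := hab
      rw [ha8, e3] at e1
      rw [hb8] at e2
      omega
  have h2 := Pool.Agent.H692R2.USS.t1_brun_titchmarsh v q0 K (by omega) hq0.one_lt.le
  have h3 : ((QT χ q0 t).card : ℝ) ≤ (((range K).filter fun k => (v + k * q0).Prime).card : ℝ) := by
    exact_mod_cast h1
  refine h3.trans (h2.trans ?_)
  have hq2 : (2 : ℝ) ≤ q0 := by exact_mod_cast hq0.two_le
  have h4 : (q0 : ℝ) / (Nat.totient q0) ≤ 2 := by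
    rw [Nat.totient_prime hq0, Nat.cast_sub hq0.one_lt.le, Nat.cast_one, div_le_iff₀ (by linarith)]
    linarith
  have hlog : 0 < Real.log (K : ℝ) := by
    apply Real.log_pos
    have : 1 < K := by omega
    exact_mod_cast this
  apply div_le_div_of_nonneg_right _ hlog.le
  have hK0 : (0 : ℝ) ≤ K := Nat.cast_nonneg _
  calc 22 * ((q0 : ℝ) / Nat.totient q0) * K ≤ 22 * 2 * K := by
        apply mul_le_mul_of_nonneg_right _ hK0
        linarith
    _ = 44 * K := by ring

lemma LL_q0 (χ : DirichletCharacter ℂ p) (h2 : χ ^ 2 = 1) (q0 D : ℕ) (hq0 : q0.Prime) (hD : 1 ≤ D) :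
    LL χ q0 D ≤ LL χ 1 D + (1 + Real.log D) / q0 := by
  classical
  have hq00 : (0 : ℝ) < q0 := by exact_mod_cast hq0.pos
  have h1 : LL χ 1 D = LL χ q0 D + ∑ d ∈ (Icc 1 D).filter (fun d => q0 ∣ d), cr χ d / d := by
    rw [LL_one]
    unfold LL
    rw [← sum_filter_add_sum_filter_not (Icc 1 D) (fun d : ℕ => d.Coprime q0)]
    congr 1
    apply sum_congr _ fun _ _ => rfl
    apply filter_congr
    intro d _
    rw [Nat.coprime_comm, hq0.coprime_iff_not_dvd, not_not]
  have h3 : |∑ d ∈ (Icc 1 D).filter (fun d => q0 ∣ d), cr χ d / d| ≤ (1 + Real.log D) / q0 := by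
    refine (abs_sum_le_sum_abs _ _).trans ?_
    have h4 : ∑ d ∈ (Icc 1 D).filter (fun d => q0 ∣ d), |cr χ d / d| ≤
        ∑ d ∈ (Icc 1 D).filter (fun d => q0 ∣ d), (1 : ℝ) / d := by
      apply sum_le_sum
      intro d hd
      rw [abs_div, Nat.abs_cast]
      exact div_le_div_of_nonneg_right (cr_abs χ h2 d) (Nat.cast_nonneg _)
    refine h4.trans ?_
    have h5 : ∑ d ∈ (Icc 1 D).filter (fun d => q0 ∣ d), (1 : ℝ) / d =
        ∑ k ∈ Icc 1 (D / q0), (1 : ℝ) / ((q0 * k : ℕ) : ℝ) := by
      symm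
      refine sum_bij (fun k _ => q0 * k) ?_ ?_ ?_ ?_
      · intro k hk
        rw [mem_Icc] at hk
        rw [mem_filter, mem_Icc]
        refine ⟨⟨Nat.mul_pos hq0.pos hk.1, ?_⟩, dvd_mul_right _ _⟩
        rw [mul_comm]
        exact (Nat.le_div_iff_mul_le hq0.pos).mp hk.2
      · intro a _ b _ hab
        exact Nat.eq_of_mul_eq_mul_left hq0.pos hab
      · intro n hn
        rw [mem_filter, mem_Icc] at hn
        obtain ⟨k, hk⟩ := hn.2
        refine ⟨k, ?_, hk.symm⟩
        rw [mem_Icc]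
        constructor
        · rcases Nat.eq_zero_or_pos k with h | h
          · rw [h, mul_zero] at hk; omega
          · exact h
        · rw [Nat.le_div_iff_mul_le hq0.pos, mul_comm, ← hk]; exact hn.1.2
      · intro k _; rfl
    rw [h5]
    have h6 : ∑ k ∈ Icc 1 (D / q0), (1 : ℝ) / ((q0 * k : ℕ) : ℝ) =
        (∑ k ∈ Icc 1 (D / q0), (1 : ℝ) / k) / q0 := by
      rw [sum_div]
      refine sum_congr rfl fun k _ => ?_
      push_cast
      rw [div_div, mul_comm]
    rw [h6]
    apply div_le_div_of_nonneg_right _ hq00.le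
    have h7 : ∑ k ∈ Icc 1 (D / q0), (1 : ℝ) / k ≤ ∑ k ∈ Icc 1 D, (1 : ℝ) / k := by
      apply sum_le_sum_of_subset_of_nonneg
      · exact Icc_subset_Icc le_rfl (Nat.div_le_self _ _)
      · intro i _ _; positivity
    exact h7.trans (sum_inv_le D)
  have h8 := (abs_le.mp h3).1
  linarith

lemma QT_RR (χ : DirichletCharacter ℂ p) (h2 : χ ^ 2 = 1) (hp : p.Prime) (q0 t : ℕ) (hq0 : q0.Prime)
    (hq0p : q0 < p) (ht : 1 ≤ t) (htq : t < q0) :
    ∃ a : ZMod q0, IsUnit a ∧ ((QT χ q0 t).card : ℝ) ≤ RR χ (p / t) q0 a := by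
  classical
  haveI : NeZero q0 := ⟨hq0.ne_zero⟩
  have hcop : t.Coprime q0 := (Nat.coprime_of_lt_prime (by omega) htq hq0).symm
  have hu : IsUnit (t : ZMod q0) := (ZMod.isUnit_iff_coprime t q0).mpr hcop
  obtain ⟨w, hw⟩ := hu.exists_right_inv
  have hpu : IsUnit (p : ZMod q0) :=
    (ZMod.isUnit_iff_coprime p q0).mpr (Nat.coprime_of_lt_prime hq0.ne_zero hq0p hp)
  refine ⟨(p : ZMod q0) * w, hpu.mul (IsUnit.of_mul_eq_one (t : ZMod q0) (by rw [mul_comm]; exact hw)), ?_⟩
  unfold RR
  calc ((QT χ q0 t).card : ℝ) = ∑ q ∈ QT χ q0 t, (1 : ℝ) := by simp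
    _ ≤ ∑ q ∈ QT χ q0 t, rr χ q := by
        apply sum_le_sum
        intro q hq
        unfold QT at hq
        rw [mem_filter, mem_Qs] at hq
        rw [rr_prime χ h2 q hq.1.2.1 hq.1.2.2]; norm_num
    _ ≤ _ := by
        apply sum_le_sum_of_subset_of_nonneg
        · intro q hq
          unfold QT at hq
          rw [mem_filter, mem_Qs] at hq
          rw [mem_filter, mem_Icc]
          refine ⟨⟨hq.1.2.1.one_lt.le, hq.1.1⟩, ?_⟩
          have h6 := hq.2
          push_cast at h6
          linear_combination w * h6 - (q : ZMod q0) * hw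
        · intro i _ _; exact rr_nonneg χ h2 i

/-- harmonic sums -/
lemma harm (a b : ℕ) (ha : 1 ≤ a) (hab : a ≤ b) :
    ∑ t ∈ Ioc a b, (1 : ℝ) / t ≤ Real.log b - Real.log a := by
  induction b, hab using Nat.le_induction with
  | base => simp
  | succ b hb ih =>
    have hb0 : (0 : ℝ) < b := by exact_mod_cast (by omega : 0 < b)
    have hb1 : (0 : ℝ) < ((b + 1 : ℕ) : ℝ) := by positivity
    have hlog : 1 / ((b + 1 : ℕ) : ℝ) ≤ Real.log ((b + 1 : ℕ) : ℝ) - Real.log b := by
      rw [← Real.log_div hb1.ne' hb0.ne']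
      have := Real.one_sub_inv_le_log_of_pos (div_pos hb1 hb0)
      refine le_trans (le_of_eq ?_) this
      rw [inv_div]; push_cast; field_simp; ring
    rw [sum_Ioc_succ_top (by omega)]
    linarith

/-- the key combinatorial step -/
lemma bad_split (χ : DirichletCharacter ℂ p) (h2 : χ ^ 2 = 1) (hodd : χ (-1 : ZMod p) = -1) (hp : p.Prime)
    (H q0 : ℕ) (hq0 : q0.Prime) (hq0c : cr χ q0 = 1) (hq0p : q0 < p) (hH : q0 * H < p) (hHp : H < p)
    (s : ℤ) (hs : s = 1 ∨ s = -1) (hbad : ¬ Good s p) :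
    (M0 χ H s).card ≤ (MB χ H).card + (MC χ H q0).card + (MD χ H q0).card := by
  classical
  have h1 : M0 χ H s ⊆ (MB χ H ∪ MC χ H q0) ∪ MD χ H q0 := by
    intro m hm
    unfold M0 at hm
    rw [mem_filter] at hm
    obtain ⟨hmI, hmc⟩ := hm
    have hmI' := mem_Icc.mp hmI
    by_cases hB : m ∈ MB χ H
    · rw [mem_union, mem_union]; left; left; exact hB
    have hfree : ∀ q : ℕ, q.Prime → q ∣ m → cr χ q = -1 := by
      intro q hq hqm
      have hqH : q ≤ H := (Nat.le_of_dvd (by omega) hqm).trans hmI'.2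
      rcases cr_prime_lt χ h2 hp q hq.ne_zero (by omega) with h | h
      · exfalso
        apply hB
        unfold MB
        rw [mem_filter]
        exact ⟨hmI, q, (mem_Qs χ H q).mpr ⟨hqH, hq, h⟩, hqm⟩
      · exact h
    have hlm : (lam m : ℝ) = -s := by
      rw [lam_eq_cr χ h2 m (by omega) hfree, hmc]
    have hlm' : lam m = -s := by exact_mod_cast hlm
    have hqm : q0 * m < p := lt_of_le_of_lt (Nat.mul_le_mul_left _ hmI'.2) hH
    have hqm0 : 0 < q0 * m := Nat.mul_pos hq0.pos hmI'.1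
    -- the complement
    set b : ℕ := p - q0 * m with hb
    have hb0 : 0 < b := by omega
    have hlb : lam b ≠ s := by
      intro h
      apply hbad
      refine ⟨q0 * m, b, hqm0, hb0, by omega, ?_, h⟩
      rw [lam_mul hq0.ne_zero (by omega), lam_prime hq0, hlm']; ring
    have hcb : cr χ b = s := by
      have e1 : (b : ZMod p) = (-1) * ((q0 : ZMod p) * (m : ZMod p)) := by
        rw [hb, Nat.cast_sub hqm.le]
        push_cast
        simp
      have e2 : ((cr χ b : ℝ) : ℂ) = ((s : ℝ) : ℂ) := by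
        rw [cr_eq χ h2, e1, map_mul, map_mul, hodd, ← cr_eq χ h2 q0, ← cr_eq χ h2 m, hq0c, hmc]
        push_cast; ring
      exact_mod_cast e2
    have hex : ∃ q : ℕ, q.Prime ∧ q ∣ b ∧ cr χ q = 1 := by
      by_contra hno
      push_neg at hno
      apply hlb
      have hfree2 : ∀ q : ℕ, q.Prime → q ∣ b → cr χ q = -1 := by
        intro q hq hqb
        have hqp : q < p := lt_of_le_of_lt (Nat.le_of_dvd hb0 hqb) (by omega)
        exact (cr_prime_lt χ h2 hp q hq.ne_zero hqp).resolve_left (hno q hq hqb)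
      have := lam_eq_cr χ h2 b hb0.ne' hfree2
      rw [hcb] at this
      exact_mod_cast this
    obtain ⟨q, hq, hqb, hqc⟩ := hex
    have hqp : q < p := lt_of_le_of_lt (Nat.le_of_dvd hb0 hqb) (by omega)
    rcases le_or_gt q H with hqH | hqH
    · rw [mem_union, mem_union]
      left; right
      unfold MC
      rw [mem_filter]
      exact ⟨hmI, q, (mem_Qs χ H q).mpr ⟨hqH, hq, hqc⟩, hqb⟩
    · rw [mem_union]
      right
      unfold MD
      rw [mem_filter]
      exact ⟨hmI, q, (mem_Qs χ p q).mpr ⟨hqp.le, hq, hqc⟩, hqH, hqb⟩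
  refine (card_le_card h1).trans ((card_union_le _ _).trans ?_)
  exact Nat.add_le_add_right (card_union_le _ _) _

end Z

end Pool.Agent.T2H22.LG.EX
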