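import Pool.Agent.T2H22.LG.S

set_option autoImplicit false
set_option linter.all false
set_option maxHeartbeats 2000000

/-!
# Primes
-/

namespace Pool.Agent.T2H22.LG.EX

open Finset Filter
open Pool.Agent.T2H22.LG.BS

/-- small `t` -/
lemma QT_small {η κ : ℝ} {p : ℕ} [NeZero p] {χ : DirichletCharacter ℂ p} {q0 : ℕ}
    (E : Exc η κ p χ q0) (hp : p.Prime) (hη : 0 < η) (hη1 : η ≤ 1 / 1000) (hκ0 : 0 < κ)
    (hκη : κ ≤ η / 2) (hκ1 : κ ≤ 1 / 100)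
    (g1 : 100 * Real.log p ^ 12 ≤ (p : ℝ) ^ κ) (g2 : 8 ≤ (p : ℝ) ^ (η / 2))
    (g3 : 8 ≤ (p : ℝ) ^ (1 / 10 : ℝ)) (hL : 4 ≤ Real.log p) (t : ℕ) (ht : 1 ≤ t) (htq : t < q0)
    (htT : (t : ℝ) ≤ (p : ℝ) ^ (1 / 4 - 6 * η)) :
    ((QT χ q0 t).card : ℝ) ≤ (p : ℝ) / q0 * (3 / Real.log p ^ 6) * (1 / t) := by
  obtain ⟨T, hT⟩ : ∃ T : ℝ, T = (p : ℝ) ^ (1 / 4 + η) := ⟨_, rfl⟩
  obtain ⟨δ, hδ⟩ : ∃ δ : ℝ, δ = (p : ℝ) ^ (-κ) := ⟨_, rfl⟩
  obtain ⟨L, hLL⟩ : ∃ L : ℝ, L = Real.log (p : ℝ) := ⟨_, rfl⟩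
  obtain ⟨Q, hQ⟩ : ∃ Q : ℝ, Q = (q0 : ℝ) := ⟨_, rfl⟩
  have hp2 : (2 : ℝ) ≤ p := by exact_mod_cast hp.two_le
  have hp0 : (0 : ℝ) < p := by linarith
  have hp1 : (1 : ℝ) ≤ p := by linarith
  have hS := E.burg
  have hQle := E.q0le
  have hQge := E.q0ge
  have hll := E.ll
  rw [← hT, ← hδ] at hS
  rw [← hT, ← hLL] at hll
  rw [← hQ] at hQle hQge
  rw [← hLL] at hQge g1 hL ⊢
  rw [← hQ]
  have hL0 : 0 < L := by linarith
  have hL1 : 1 ≤ L := by linarith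
  have hT0 : 0 < T := by rw [hT]; exact Real.rpow_pos_of_pos hp0 _
  have hT1 : 1 ≤ T := by rw [hT]; exact Real.one_le_rpow hp1 (by linarith)
  have hδ0 : 0 < δ := by rw [hδ]; exact Real.rpow_pos_of_pos hp0 _
  have hpκ : 0 < (p : ℝ) ^ κ := Real.rpow_pos_of_pos hp0 _
  have hδκ : δ * (p : ℝ) ^ κ = 1 := by rw [hδ, ← Real.rpow_add hp0]; simp
  have hQ1 : 1 ≤ Q := by
    have : (1 : ℝ) ≤ L ^ 8 := one_le_pow₀ hL1
    linarith
  have hQ0 : 0 < Q := by linarith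
  have ht0 : (0 : ℝ) < t := by exact_mod_cast ht
  have ht1 : (1 : ℝ) ≤ t := by exact_mod_cast ht
  have hq0p : q0 < p := by
    have : (q0 : ℝ) < p := by
      rw [← hQ]
      refine lt_of_le_of_lt hQle ?_
      calc (p : ℝ) ^ (1 / 4 + 2 * η) < (p : ℝ) ^ (1 : ℝ) :=
            Real.rpow_lt_rpow_of_exponent_lt (by linarith) (by linarith)
        _ = p := Real.rpow_one _
    exact_mod_cast this
  set x : ℕ := p / t with hx
  have hxle : (x : ℝ) ≤ (p : ℝ) / t := Nat.cast_div_le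
  have hxgt : (p : ℝ) / t < x + 1 := by
    rw [div_lt_iff₀ ht0]
    have := Nat.lt_div_mul_add (a := p) (b := t) (by omega)
    have h3 : (p : ℝ) < ((p / t : ℕ) : ℝ) * t + t := by exact_mod_cast this
    rw [← hx] at h3
    linarith
  -- a lower bound for P / t
  have hPt : (p : ℝ) ^ (3 / 4 + 6 * η) ≤ (p : ℝ) / t := by
    rw [le_div_iff₀ ht0]
    calc (p : ℝ) ^ (3 / 4 + 6 * η) * t ≤ (p : ℝ) ^ (3 / 4 + 6 * η) * (p : ℝ) ^ (1 / 4 - 6 * η) :=
          mul_le_mul_of_nonneg_left htT (Real.rpow_nonneg hp0.le _)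
      _ = p := by
          rw [← Real.rpow_add hp0]
          have : (3 / 4 + 6 * η + (1 / 4 - 6 * η)) = 1 := by ring
          rw [this, Real.rpow_one]
  have hbig : 8 ≤ (p : ℝ) ^ (3 / 4 + 6 * η) :=
    g3.trans (Real.rpow_le_rpow_of_exponent_le hp1 (by linarith))
  have hxhalf : (p : ℝ) ^ (3 / 4 + 6 * η) / 2 ≤ x := by linarith
  have hx0 : (0 : ℝ) < x := by linarith
  have hx1 : 1 ≤ x := by exact_mod_cast hx0
  have hxp : (x : ℝ) ≤ p := by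
    refine hxle.trans ?_
    exact div_le_self hp0.le ht1
  set D : ℕ := ⌈Q * T⌉₊ with hD
  have hD1 : Q * T ≤ D := Nat.le_ceil _
  have hQT1 : 1 ≤ Q * T := one_le_mul_of_one_le_of_one_le hQ1 hT1
  have hD2 : (D : ℝ) ≤ 2 * (Q * T) := by
    have := (Nat.ceil_lt_add_one (by positivity : (0 : ℝ) ≤ Q * T)).le
    linarith
  have hD0 : (0 : ℝ) < D := by linarith
  have hQT2 : Q * T ≤ (p : ℝ) ^ (1 / 2 + 3 * η) := by
    calc Q * T ≤ (p : ℝ) ^ (1 / 4 + 2 * η) * T := mul_le_mul_of_nonneg_right hQle hT0.le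
      _ = (p : ℝ) ^ (1 / 2 + 3 * η) := by
          rw [hT, ← Real.rpow_add hp0]; congr 1; ring
  have hDp : (D : ℝ) * (p : ℝ) ^ κ ≤ p := by
    calc (D : ℝ) * (p : ℝ) ^ κ ≤ (2 * (p : ℝ) ^ (1 / 2 + 3 * η)) * (p : ℝ) ^ κ := by
          apply mul_le_mul_of_nonneg_right _ hpκ.le
          linarith
      _ ≤ ((p : ℝ) ^ (1 / 10 : ℝ) * (p : ℝ) ^ (1 / 2 + 3 * η)) * (p : ℝ) ^ κ := by
          apply mul_le_mul_of_nonneg_right _ hpκ.le
          apply mul_le_mul_of_nonneg_right _ (Real.rpow_nonneg hp0.le _)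
          linarith
      _ = (p : ℝ) ^ (1 / 10 + (1 / 2 + 3 * η) + κ) := by
          rw [← Real.rpow_add hp0, ← Real.rpow_add hp0]
      _ ≤ (p : ℝ) ^ (1 : ℝ) := Real.rpow_le_rpow_of_exponent_le hp1 (by linarith)
      _ = p := Real.rpow_one _
  have hpk1 : 1 ≤ (p : ℝ) ^ κ := Real.one_le_rpow hp1 hκ0.le
  have hDle : (D : ℝ) ≤ p := by
    refine le_trans ?_ hDp
    exact le_mul_of_one_le_right hD0.le hpk1
  have hq0D : q0 ≤ D := by
    have : (q0 : ℝ) ≤ D := by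
      rw [← hQ]
      refine le_trans ?_ hD1
      exact le_mul_of_one_le_right hQ0.le hT1
    exact_mod_cast this
  have hTD : T ≤ D := by
    refine le_trans ?_ hD1
    exact le_mul_of_one_le_left hT0.le hQ1
  obtain ⟨a, ha, hcard⟩ := QT_RR χ E.sq hp q0 t E.q0p hq0p ht htq
  have hhy := hyper χ E.sq q0 E.q0p.one_lt.le
    ((Nat.coprime_primes E.q0p hp).mpr (by omega)) a ha x D hq0D hx1 δ T hδ0.le hT0.le hS
  rw [← hQ] at hhy
  have hllq := LL_q0 χ E.sq q0 D E.q0p (by exact_mod_cast hD0)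
  rw [← hQ] at hllq
  have hll1 := hll D hTD hDp
  have hlogD : Real.log D ≤ L := by rw [hLL]; exact Real.log_le_log hD0 hDle
  have hlogx : Real.log x ≤ L := by rw [hLL]; exact Real.log_le_log hx0 hxp
  have h1 : (1 + Real.log D) / Q ≤ 1 / L ^ 6 := by
    rw [div_le_div_iff₀ hQ0 (by positivity)]
    calc (1 + Real.log D) * L ^ 6 ≤ (2 * L) * L ^ 6 := by
          apply mul_le_mul_of_nonneg_right _ (by positivity)
          linarith
      _ = 2 * L ^ 7 := by ring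
      _ ≤ L * L ^ 7 := by
          apply mul_le_mul_of_nonneg_right _ (by positivity)
          linarith
      _ = L ^ 8 := by ring
      _ ≤ 1 * Q := by linarith
  have h2 : LL χ q0 D ≤ 2 / L ^ 6 := by
    have : 2 / L ^ 6 = 1 / L ^ 6 + 1 / L ^ 6 := by ring
    rw [this]; linarith
  have h3 : δ * (3 + L) ≤ 1 / L ^ 6 := by
    rw [le_div_iff₀ (by positivity)]
    have h4 : (3 + L) * L ^ 6 ≤ (p : ℝ) ^ κ := by
      refine le_trans ?_ g1
      have e1 : L ^ 7 ≤ L ^ 12 := pow_le_pow_right₀ hL1 (by norm_num)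
      have e2 : L ^ 6 ≤ L ^ 12 := pow_le_pow_right₀ hL1 (by norm_num)
      have e3 : 0 < L ^ 12 := by positivity
      calc (3 + L) * L ^ 6 = 3 * L ^ 6 + L ^ 7 := by ring
        _ ≤ 100 * L ^ 12 := by linarith
    calc δ * (3 + L) * L ^ 6 = δ * ((3 + L) * L ^ 6) := by ring
      _ ≤ δ * (p : ℝ) ^ κ := mul_le_mul_of_nonneg_left h4 hδ0.le
      _ = 1 := hδκ
  have hxQ : 0 < (x : ℝ) / Q := by positivity
  have h5 : 2 * (D : ℝ) ≤ δ * ((x : ℝ) / Q) := by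
    rw [mul_div_assoc', le_div_iff₀ hQ0]
    have e1 : 4 * (Q * Q * T) ≤ δ * x := by
      have e2 : Q * Q * T ≤ (p : ℝ) ^ (3 / 4 + 5 * η) := by
        calc Q * Q * T = Q * (Q * T) := by ring
          _ ≤ (p : ℝ) ^ (1 / 4 + 2 * η) * (p : ℝ) ^ (1 / 2 + 3 * η) :=
              mul_le_mul hQle hQT2 (by positivity) (Real.rpow_nonneg hp0.le _)
          _ = (p : ℝ) ^ (3 / 4 + 5 * η) := by
              rw [← Real.rpow_add hp0]; congr 1; ring
      have e3 : 8 * (p : ℝ) ^ (3 / 4 + 5 * η) ≤ δ * (p : ℝ) ^ (3 / 4 + 6 * η) := by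
        calc 8 * (p : ℝ) ^ (3 / 4 + 5 * η) ≤ (p : ℝ) ^ (η / 2) * (p : ℝ) ^ (3 / 4 + 5 * η) :=
              mul_le_mul_of_nonneg_right g2 (Real.rpow_nonneg hp0.le _)
          _ = (p : ℝ) ^ (η / 2 + (3 / 4 + 5 * η)) := by rw [← Real.rpow_add hp0]
          _ ≤ (p : ℝ) ^ (-κ + (3 / 4 + 6 * η)) :=
              Real.rpow_le_rpow_of_exponent_le hp1 (by linarith)
          _ = δ * (p : ℝ) ^ (3 / 4 + 6 * η) := by rw [hδ, ← Real.rpow_add hp0]
      have e4 := mul_le_mul_of_nonneg_left hxhalf hδ0.le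
      linarith
    calc 2 * (D : ℝ) * Q ≤ 2 * (2 * (Q * T)) * Q := by
          apply mul_le_mul_of_nonneg_right _ hQ0.le
          linarith
      _ = 4 * (Q * Q * T) := by ring
      _ ≤ δ * x := e1
  have h6 : (x : ℝ) / D * T ≤ (x : ℝ) / Q := by
    rw [div_mul_eq_mul_div, div_le_div_iff₀ hD0 hQ0]
    calc (x : ℝ) * T * Q = x * (Q * T) := by ring
      _ ≤ x * D := mul_le_mul_of_nonneg_left hD1 hx0.le
  have h7 : RR χ x q0 a ≤ (x : ℝ) / Q * (3 / L ^ 6) := by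
    have e1 := (abs_le.mp hhy).2
    have e2 : (x : ℝ) / Q * LL χ q0 D ≤ (x : ℝ) / Q * (2 / L ^ 6) := mul_le_mul_of_nonneg_left h2 hxQ.le
    have e3 : δ * ((x : ℝ) / Q * (1 + Real.log x) + (x : ℝ) / D * T) ≤
        δ * ((x : ℝ) / Q * (1 + L) + (x : ℝ) / Q) := by
      apply mul_le_mul_of_nonneg_left _ hδ0.le
      apply add_le_add _ h6
      exact mul_le_mul_of_nonneg_left (by linarith) hxQ.le
    have e4 := mul_le_mul_of_nonneg_left h3 hxQ.le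
    have e5 : (x : ℝ) / Q * (3 / L ^ 6) = (x : ℝ) / Q * (2 / L ^ 6) + (x : ℝ) / Q * (1 / L ^ 6) := by ring
    rw [e5]
    nlinarith
  refine hcard.trans (h7.trans ?_)
  have h8 : (x : ℝ) / Q ≤ (p : ℝ) / Q * (1 / t) := by
    calc (x : ℝ) / Q ≤ ((p : ℝ) / t) / Q := div_le_div_of_nonneg_right hxle hQ0.le
      _ = (p : ℝ) / Q * (1 / t) := by field_simp
  calc (x : ℝ) / Q * (3 / L ^ 6) ≤ ((p : ℝ) / Q * (1 / t)) * (3 / L ^ 6) :=
        mul_le_mul_of_nonneg_right h8 (by positivity)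
    _ = _ := by ring

/-- large `t` -/
lemma QT_large {η : ℝ} {p : ℕ} [NeZero p] (χ : DirichletCharacter ℂ p) {q0 : ℕ}
    (hq0 : q0.Prime) (hq0le : (q0 : ℝ) ≤ (p : ℝ) ^ (1 / 4 + 2 * η)) (hp : p.Prime) (hη : 0 < η)
    (hη1 : η ≤ 1 / 1000) (g3 : 8 ≤ (p : ℝ) ^ (1 / 10 : ℝ)) (hL : 4 ≤ Real.log p)
    (t : ℕ) (ht : 1 ≤ t) (htq : t < q0) :
    ((QT χ q0 t).card : ℝ) ≤ (p : ℝ) / q0 * (264 / Real.log p) * (1 / t) := by
  obtain ⟨L, hLL⟩ : ∃ L : ℝ, L = Real.log (p : ℝ) := ⟨_, rfl⟩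
  have hp2 : (2 : ℝ) ≤ p := by exact_mod_cast hp.two_le
  have hp0 : (0 : ℝ) < p := by linarith
  have hp1 : (1 : ℝ) ≤ p := by linarith
  rw [← hLL] at hL ⊢
  have hL0 : 0 < L := by linarith
  have hQ0 : (0 : ℝ) < q0 := by exact_mod_cast hq0.pos
  have ht0 : (0 : ℝ) < t := by exact_mod_cast ht
  have htq' : (t : ℝ) ≤ q0 := by exact_mod_cast htq.le
  have htQ0 : (0 : ℝ) < (t : ℝ) * q0 := by positivity
  have h1 : (t : ℝ) * q0 ≤ (p : ℝ) ^ (1 / 2 + 4 * η) := by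
    calc (t : ℝ) * q0 ≤ q0 * q0 := mul_le_mul_of_nonneg_right htq' hQ0.le
      _ ≤ (p : ℝ) ^ (1 / 4 + 2 * η) * (p : ℝ) ^ (1 / 4 + 2 * η) :=
          mul_le_mul hq0le hq0le hQ0.le (Real.rpow_nonneg hp0.le _)
      _ = (p : ℝ) ^ (1 / 2 + 4 * η) := by rw [← Real.rpow_add hp0]; congr 1; ring
  have h2 : (p : ℝ) ^ (1 / 2 - 4 * η) ≤ (p : ℝ) / (t * q0) := by
    rw [le_div_iff₀ htQ0]
    calc (p : ℝ) ^ (1 / 2 - 4 * η) * (t * q0) ≤ (p : ℝ) ^ (1 / 2 - 4 * η) * (p : ℝ) ^ (1 / 2 + 4 * η) :=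
          mul_le_mul_of_nonneg_left h1 (Real.rpow_nonneg hp0.le _)
      _ = p := by
          rw [← Real.rpow_add hp0]
          have : (1 / 2 - 4 * η + (1 / 2 + 4 * η)) = 1 := by ring
          rw [this, Real.rpow_one]
  have h3 : 8 ≤ (p : ℝ) / (t * q0) :=
    (g3.trans (Real.rpow_le_rpow_of_exponent_le hp1 (by linarith))).trans h2
  have hdd : p / t / q0 = p / (t * q0) := Nat.div_div_eq_div_mul _ _ _
  have hK1 : (p : ℝ) / (t * q0) < ((p / t / q0 + 1 : ℕ) : ℝ) := by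
    rw [hdd]
    have := Nat.lt_div_mul_add (a := p) (b := t * q0) (Nat.mul_pos (by omega) hq0.pos)
    rw [div_lt_iff₀ htQ0]
    have h4 : (p : ℝ) < ((p / (t * q0) : ℕ) : ℝ) * (t * q0) + t * q0 := by exact_mod_cast this
    push_cast
    linarith
  have hK2 : ((p / t / q0 + 1 : ℕ) : ℝ) ≤ 2 * ((p : ℝ) / (t * q0)) := by
    rw [hdd]
    push_cast
    have h4 : ((p / (t * q0) : ℕ) : ℝ) ≤ (p : ℝ) / ((t * q0 : ℕ) : ℝ) := Nat.cast_div_le
    push_cast at h4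
    linarith
  rcases QT_sieve χ q0 t hq0 ht htq with h | h
  · refine h.trans ?_
    set K : ℝ := ((p / t / q0 + 1 : ℕ) : ℝ) with hK
    have hlogK : L / 3 ≤ Real.log K := by
      calc L / 3 ≤ (1 / 2 - 4 * η) * L := by nlinarith
        _ = Real.log ((p : ℝ) ^ (1 / 2 - 4 * η)) := by rw [Real.log_rpow hp0, hLL]
        _ ≤ Real.log K := by
            apply Real.log_le_log (Real.rpow_pos_of_pos hp0 _)
            exact h2.trans hK1.le
    have hKl : 0 < Real.log K := lt_of_lt_of_le (by positivity) hlogK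
    have hK0 : 0 < K := by linarith
    rw [div_le_iff₀ hKl]
    have e1 : (p : ℝ) / q0 * (264 / L) * (1 / t) = 264 * ((p : ℝ) / (t * q0)) / L := by
      field_simp
    rw [e1, div_mul_eq_mul_div, le_div_iff₀ hL0]
    have e2 : 0 < (p : ℝ) / (t * q0) := by positivity
    calc 44 * K * L ≤ 44 * (2 * ((p : ℝ) / (t * q0))) * L := by
          apply mul_le_mul_of_nonneg_right _ hL0.le
          linarith
      _ = 264 * ((p : ℝ) / (t * q0)) * (L / 3) := by ring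
      _ ≤ 264 * ((p : ℝ) / (t * q0)) * Real.log K :=
          mul_le_mul_of_nonneg_left hlogK (by positivity)
  · exfalso
    rw [h] at hK1
    push_cast at hK1
    linarith

/-- the sum over `t` -/
lemma QT_sum {p : ℕ} [NeZero p] (χ : DirichletCharacter ℂ p) (q0 T1 : ℕ) (hT1 : 1 ≤ T1) (A B : ℝ)
    (hA : 0 ≤ A) (hB : 0 ≤ B)
    (h1 : ∀ t : ℕ, 1 ≤ t → t < q0 → t ≤ T1 → ((QT χ q0 t).card : ℝ) ≤ A * (1 / t))
    (h2 : ∀ t : ℕ, 1 ≤ t → t < q0 → ((QT χ q0 t).card : ℝ) ≤ B * (1 / t)) :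
    ((∑ t ∈ Icc 1 (q0 - 1), (QT χ q0 t).card : ℕ) : ℝ) ≤
      A * (1 + Real.log T1) + B * (Real.log ((max T1 q0 : ℕ) : ℝ) - Real.log T1) := by
  rw [Nat.cast_sum, ← sum_filter_add_sum_filter_not (Icc 1 (q0 - 1)) (fun t => t ≤ T1)]
  apply add_le_add
  · calc ∑ t ∈ (Icc 1 (q0 - 1)).filter (fun t => t ≤ T1), ((QT χ q0 t).card : ℝ)
        ≤ ∑ t ∈ (Icc 1 (q0 - 1)).filter (fun t => t ≤ T1), A * (1 / (t : ℝ)) := by
          apply sum_le_sum
          intro t ht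
          rw [mem_filter, mem_Icc] at ht
          exact h1 t ht.1.1 (by omega) ht.2
      _ ≤ ∑ t ∈ Icc 1 T1, A * (1 / (t : ℝ)) := by
          apply sum_le_sum_of_subset_of_nonneg
          · intro t ht
            rw [mem_filter, mem_Icc] at ht
            rw [mem_Icc]; omega
          · intro i _ _; positivity
      _ = A * ∑ t ∈ Icc 1 T1, (1 / (t : ℝ)) := by rw [mul_sum]
      _ ≤ _ := mul_le_mul_of_nonneg_left (sum_inv_le T1) hA
  · calc ∑ t ∈ (Icc 1 (q0 - 1)).filter (fun t => ¬ t ≤ T1), ((QT χ q0 t).card : ℝ)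
        ≤ ∑ t ∈ (Icc 1 (q0 - 1)).filter (fun t => ¬ t ≤ T1), B * (1 / (t : ℝ)) := by
          apply sum_le_sum
          intro t ht
          rw [mem_filter, mem_Icc] at ht
          exact h2 t ht.1.1 (by omega)
      _ ≤ ∑ t ∈ Ioc T1 (max T1 q0), B * (1 / (t : ℝ)) := by
          apply sum_le_sum_of_subset_of_nonneg
          · intro t ht
            rw [mem_filter, mem_Icc] at ht
            rw [mem_Ioc]; omega
          · intro i _ _; positivity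
      _ = B * ∑ t ∈ Ioc T1 (max T1 q0), (1 / (t : ℝ)) := by rw [mul_sum]
      _ ≤ _ := mul_le_mul_of_nonneg_left (harm T1 _ hT1 (le_max_left _ _)) hB

/-- **primes** -/
theorem prime_case : ∀ᶠ p : ℕ in atTop, p.Prime → BothGood p := by
  obtain ⟨κ, hκ0, hκη, hκ1, hex⟩ := exc_exists (1 / 100000) (by norm_num) (by norm_num)
  have tc : Tendsto (fun q : ℕ => (q : ℝ)) atTop atTop := tendsto_natCast_atTop_atTop
  have f1 : ∀ᶠ x : ℝ in atTop, 100 * Real.log x ^ 12 ≤ x ^ κ := ev_lp _ _ _ hκ0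
  have f2 : ∀ᶠ x : ℝ in atTop, (8 : ℝ) ≤ x ^ ((1 / 100000 : ℝ) / 2) :=
    (tendsto_rpow_atTop (by norm_num)).eventually_ge_atTop _
  have f3 : ∀ᶠ x : ℝ in atTop, (8 : ℝ) ≤ x ^ (1 / 10 : ℝ) :=
    (tendsto_rpow_atTop (by norm_num)).eventually_ge_atTop _
  filter_upwards [hex, tc.eventually f1, tc.eventually f2, tc.eventually f3,
    tlog.eventually_ge_atTop 100000, eventually_ge_atTop 3] with p hex g1 g2 g3 hL hp3
  intro hp
  haveI : NeZero p := ⟨hp.ne_zero⟩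
  by_contra hbad
  obtain ⟨χ, q0, E⟩ := hex hp hbad
  obtain ⟨s, hs, hgood⟩ : ∃ s : ℤ, (s = 1 ∨ s = -1) ∧ ¬ Good s p := by
    by_cases h : Good 1 p
    · exact ⟨-1, Or.inr rfl, fun h' => hbad ⟨h, h'⟩⟩
    · exact ⟨1, Or.inl rfl, h⟩
  have hsmall := fun t => QT_small (t := t) E hp (by norm_num) (by norm_num) hκ0 hκη hκ1 g1 g2 g3
    (by linarith)
  have hlarge := fun t => QT_large (t := t) χ E.q0p E.q0le hp (by norm_num) (by norm_num) g3
    (by linarith)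
  obtain ⟨T, hT⟩ : ∃ T : ℝ, T = (p : ℝ) ^ (1 / 4 + 1 / 100000 : ℝ) := ⟨_, rfl⟩
  obtain ⟨δ, hδ⟩ : ∃ δ : ℝ, δ = (p : ℝ) ^ (-κ) := ⟨_, rfl⟩
  obtain ⟨L, hLL⟩ : ∃ L : ℝ, L = Real.log (p : ℝ) := ⟨_, rfl⟩
  have hp2 : (2 : ℝ) ≤ p := by exact_mod_cast hp.two_le
  have hp0 : (0 : ℝ) < p := by linarith
  have hp1 : (1 : ℝ) ≤ p := by linarith
  have hS := E.burg
  have hQle := E.q0le
  rw [← hT, ← hδ] at hS
  rw [← hLL] at g1 hL hsmall hlarge
  have hL0 : 0 < L := by linarith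
  have hL1 : 1 ≤ L := by linarith
  have hQ0 : (0 : ℝ) < q0 := by exact_mod_cast E.q0p.pos
  have hq0p : q0 < p := by
    have : (q0 : ℝ) < p := by
      refine lt_of_le_of_lt hQle ?_
      calc (p : ℝ) ^ (1 / 4 + 2 * (1 / 100000) : ℝ) < (p : ℝ) ^ (1 : ℝ) :=
            Real.rpow_lt_rpow_of_exponent_lt (by linarith) (by norm_num)
        _ = p := Real.rpow_one _
    exact_mod_cast this
  set H : ℕ := (p - 1) / q0 with hH
  have hH1 : q0 * H ≤ p - 1 := Nat.mul_div_le _ _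
  have hH2 : p ≤ q0 * (H + 1) := by
    rw [hH, mul_add, mul_one]
    have := Nat.div_add_mod (p - 1) q0
    have := Nat.mod_lt (p - 1) E.q0p.pos
    omega
  have hHp : H < p := by
    have : H ≤ q0 * H := Nat.le_mul_of_pos_left _ E.q0p.pos
    omega
  have hH2r : (p : ℝ) / q0 ≤ H + 1 := by
    rw [div_le_iff₀ hQ0]
    have : (p : ℝ) ≤ q0 * (H + 1) := by exact_mod_cast hH2
    linarith
  have hPQ : (p : ℝ) ^ (7 / 10 : ℝ) ≤ (p : ℝ) / q0 := by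
    rw [le_div_iff₀ hQ0]
    calc (p : ℝ) ^ (7 / 10 : ℝ) * q0 ≤
        (p : ℝ) ^ (7 / 10 : ℝ) * (p : ℝ) ^ (1 / 4 + 2 * (1 / 100000) : ℝ) :=
          mul_le_mul_of_nonneg_left hQle (Real.rpow_nonneg hp0.le _)
      _ = (p : ℝ) ^ (7 / 10 + (1 / 4 + 2 * (1 / 100000)) : ℝ) := by rw [← Real.rpow_add hp0]
      _ ≤ (p : ℝ) ^ (1 : ℝ) := Real.rpow_le_rpow_of_exponent_le hp1 (by norm_num)
      _ = p := Real.rpow_one _
  have hp12 : 1 ≤ (p : ℝ) ^ (1 / 2 : ℝ) := Real.one_le_rpow hp1 (by norm_num)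
  have hp710 : 2 * (p : ℝ) ^ (1 / 2 : ℝ) ≤ (p : ℝ) ^ (7 / 10 : ℝ) := by
    calc 2 * (p : ℝ) ^ (1 / 2 : ℝ) ≤ (p : ℝ) ^ (1 / 10 : ℝ) * (p : ℝ) ^ (1 / 2 : ℝ) :=
          mul_le_mul_of_nonneg_right (by linarith) (by linarith)
      _ = (p : ℝ) ^ (1 / 10 + 1 / 2 : ℝ) := by rw [← Real.rpow_add hp0]
      _ ≤ _ := Real.rpow_le_rpow_of_exponent_le hp1 (by norm_num)
  have hHr : (p : ℝ) ^ (1 / 2 : ℝ) ≤ H := by linarith
  have hH0 : (0 : ℝ) < H := by linarith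
  have hPQ2 : (p : ℝ) / q0 ≤ 2 * H := by linarith
  have hPQ0 : 0 < (p : ℝ) / q0 := by positivity
  have hT0 : 0 < T := by rw [hT]; exact Real.rpow_pos_of_pos hp0 _
  have hTH : T ≤ H := by
    refine le_trans ?_ hHr
    rw [hT]
    exact Real.rpow_le_rpow_of_exponent_le hp1 (by norm_num)
  -- sizes
  have hLp4 : 1 / L ^ 4 ≤ 1 / 1000 := by
    apply one_div_le_one_div_of_le (by norm_num)
    have : L ≤ L ^ 4 := le_self_pow₀ hL1 (by norm_num)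
    linarith
  have hLp6 : 1 / L ^ 6 ≤ 1 / 1000 := by
    apply one_div_le_one_div_of_le (by norm_num)
    have : L ≤ L ^ 6 := le_self_pow₀ hL1 (by norm_num)
    linarith
  have hLp5 : 1 / L ^ 5 ≤ 1 / 1000 := by
    apply one_div_le_one_div_of_le (by norm_num)
    have : L ≤ L ^ 5 := le_self_pow₀ hL1 (by norm_num)
    linarith
  have hδ0 : 0 < δ := by rw [hδ]; exact Real.rpow_pos_of_pos hp0 _
  have hδs : δ ≤ 1 / 1000 := by
    have h1 : δ * (p : ℝ) ^ κ = 1 := by rw [hδ, ← Real.rpow_add hp0]; simp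
    have h2 : 1000 ≤ (p : ℝ) ^ κ := by
      have : L ≤ L ^ 12 := le_self_pow₀ hL1 (by norm_num)
      linarith
    rw [le_div_iff₀ (by norm_num)]
    calc δ * 1000 ≤ δ * (p : ℝ) ^ κ := mul_le_mul_of_nonneg_left h2 hδ0.le
      _ = 1 := h1
  have hsr : ((s : ℤ) : ℝ) = 1 ∨ ((s : ℤ) : ℝ) = -1 := by
    rcases hs with h | h
    · left; rw [h]; norm_num
    · right; rw [h]; norm_num
  have m0 := M0_card χ E.sq hp H hHp (s : ℝ) hsr _ (hS 0 H)
  have mB := MB_card χ H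
  have mC := MC_card χ hp H q0 E.q0p hq0p (by omega)
  have mD := MD_card χ hp H q0 E.q0p hH
  have hsplit := bad_split χ E.sq E.odd hp H q0 E.q0p E.q0c hq0p (by omega) hHp s hs hgood
  have hinv := E.inv H hHp.le
  have hcard := E.card H hHp.le hHr
  rw [← hLL] at hinv hcard
  -- the sum over t
  set T1 : ℕ := ⌊(p : ℝ) ^ (1 / 4 - 6 * (1 / 100000) : ℝ)⌋₊ with hT1
  have hT1a : (T1 : ℝ) ≤ (p : ℝ) ^ (1 / 4 - 6 * (1 / 100000) : ℝ) :=
    Nat.floor_le (Real.rpow_nonneg hp0.le _)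
  have hT1b : (p : ℝ) ^ (1 / 4 - 6 * (1 / 100000) : ℝ) - 1 < T1 := Nat.sub_one_lt_floor _
  have hT1c : 8 ≤ (p : ℝ) ^ (1 / 4 - 6 * (1 / 100000) : ℝ) :=
    g3.trans (Real.rpow_le_rpow_of_exponent_le hp1 (by norm_num))
  have hT1d : (p : ℝ) ^ (1 / 4 - 6 * (1 / 100000) : ℝ) / 2 ≤ T1 := by linarith
  have hT10 : (0 : ℝ) < T1 := by linarith
  have hT11 : 1 ≤ T1 := by exact_mod_cast hT10
  have hsum := QT_sum χ q0 T1 hT11 ((p : ℝ) / q0 * (3 / L ^ 6)) ((p : ℝ) / q0 * (264 / L))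
    (by positivity) (by positivity)
    (fun t h1 h2 h3 => hsmall t h1 h2 (le_trans (by exact_mod_cast h3) hT1a))
    (fun t h1 h2 => hlarge t h1 h2)
  have hlogT1 : Real.log T1 ≤ L := by
    rw [hLL]
    apply Real.log_le_log hT10
    refine hT1a.trans ?_
    calc (p : ℝ) ^ (1 / 4 - 6 * (1 / 100000) : ℝ) ≤ (p : ℝ) ^ (1 : ℝ) :=
          Real.rpow_le_rpow_of_exponent_le hp1 (by norm_num)
      _ = p := Real.rpow_one _
  have hlogT1' : (1 / 4 - 6 * (1 / 100000)) * L - 1 ≤ Real.log T1 := by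
    have h1 : Real.log ((p : ℝ) ^ (1 / 4 - 6 * (1 / 100000) : ℝ) / 2) ≤ Real.log T1 :=
      Real.log_le_log (by positivity) hT1d
    rw [Real.log_div (by positivity) (by norm_num), Real.log_rpow hp0, ← hLL] at h1
    have : Real.log 2 ≤ 1 := by
      have := Real.log_two_lt_d9
      linarith
    linarith
  have hmax : Real.log ((max T1 q0 : ℕ) : ℝ) ≤ (1 / 4 + 2 * (1 / 100000)) * L := by
    have h1 : ((max T1 q0 : ℕ) : ℝ) ≤ (p : ℝ) ^ (1 / 4 + 2 * (1 / 100000) : ℝ) := by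
      rw [Nat.cast_max]
      apply max_le _ hQle
      refine hT1a.trans ?_
      exact Real.rpow_le_rpow_of_exponent_le hp1 (by norm_num)
    have h0 : (0 : ℝ) < ((max T1 q0 : ℕ) : ℝ) := by
      rw [Nat.cast_max]; exact lt_of_lt_of_le hT10 (le_max_left _ _)
    have h2 := Real.log_le_log h0 h1
    rwa [Real.log_rpow hp0, ← hLL] at h2
  have hD1 : ((MD χ H q0).card : ℝ) ≤ H / 10 := by
    have e0 : ((MD χ H q0).card : ℝ) ≤ ((∑ t ∈ Icc 1 (q0 - 1), (QT χ q0 t).card : ℕ) : ℝ) := by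
      exact_mod_cast mD
    have e1 : (p : ℝ) / q0 * (3 / L ^ 6) * (1 + Real.log T1) ≤ (p : ℝ) / q0 * (6 / 1000) := by
      have : (3 / L ^ 6) * (1 + Real.log T1) ≤ 6 * (1 / L ^ 5) := by
        calc (3 / L ^ 6) * (1 + Real.log T1) ≤ (3 / L ^ 6) * (2 * L) := by
              apply mul_le_mul_of_nonneg_left _ (by positivity)
              linarith
          _ = 6 * (1 / L ^ 5) := by field_simp; norm_num
      rw [mul_assoc]
      apply mul_le_mul_of_nonneg_left _ hPQ0.le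
      linarith
    have e2 : (p : ℝ) / q0 * (264 / L) * (Real.log ((max T1 q0 : ℕ) : ℝ) - Real.log T1) ≤
        (p : ℝ) / q0 * (264 * (9 / 100000)) := by
      rw [mul_assoc]
      apply mul_le_mul_of_nonneg_left _ hPQ0.le
      rw [div_mul_eq_mul_div, div_le_iff₀ hL0]
      have : Real.log ((max T1 q0 : ℕ) : ℝ) - Real.log T1 ≤ (9 / 100000) * L := by linarith
      linarith
    have e3 := e0.trans hsum
    have e4 : (p : ℝ) / q0 * (6 / 1000) + (p : ℝ) / q0 * (264 * (9 / 100000)) ≤ H / 10 := by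
      nlinarith
    linarith
  have hMB : ((MB χ H).card : ℝ) ≤ H / 1000 := by
    refine mB.trans ?_
    have : (H : ℝ) * ∑ q ∈ Qs χ H, (1 : ℝ) / q ≤ H * (1 / 1000) :=
      mul_le_mul_of_nonneg_left (hinv.trans hLp4) hH0.le
    linarith
  have hMC : ((MC χ H q0).card : ℝ) ≤ H / 500 := by
    have h1 : (H : ℝ) * ∑ q ∈ Qs χ H, (1 : ℝ) / q ≤ H * (1 / 1000) :=
      mul_le_mul_of_nonneg_left (hinv.trans hLp4) hH0.le
    have h2 : (H : ℝ) / L ^ 6 ≤ H * (1 / 1000) := by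
      have : (H : ℝ) / L ^ 6 = H * (1 / L ^ 6) := by ring
      rw [this]
      exact mul_le_mul_of_nonneg_left hLp6 hH0.le
    linarith
  have hδH : δ * ((H : ℝ) + T) ≤ H / 500 := by
    calc δ * ((H : ℝ) + T) ≤ (1 / 1000) * (2 * H) :=
          mul_le_mul hδs (by linarith) (by linarith) (by norm_num)
      _ = H / 500 := by ring
  have hsplit' : ((M0 χ H s).card : ℝ) ≤ (MB χ H).card + (MC χ H q0).card + (MD χ H q0).card := by
    exact_mod_cast hsplit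
  linarith

end Pool.Agent.T2H22.LG.EX
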